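import Pool.Agent.Lib.HDE.BlueB
import Pool.Agent.Lib.HD.Conv
import Pool.Agent.Lib.TPC.B_RUSSO
import Pool.Agent.Lib.TPC.ZBasic

/-! Dictionary, continuity and small parameters. -/

open Finset

namespace Pool.Agent.HDE

open Pool.Agent.TPC Pool.Agent.Lib.MP_81a99a_pr
open Pool.Agent.HD (rad tauT chiT)

theorem t_brg : T_BRG := by
  intro d M _ hM
  have e1 : ∀ (p : ℝ) (x : Tor d M), tauT d M p x = t0 p x := fun p x => HD.tauT_eq p x
  have e2 : ∀ p : ℝ, chiT d M p = ch d M p := fun p => Finset.sum_congr rfl fun x _ => e1 p x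
  refine ⟨fun p _ _ => ⟨e1 p, e2 p⟩, fun S x y => ?_, fun p p0 p1 h => ?_,
    fun p p0 p1 S EE o => ?_⟩
  · exact continuous_iff_continuousAt.2 fun s => (st_RUSSO _ _ _ s).continuousAt
  · rw [← e2]
    have ho : (0 : Tor d M) ∈ ({0} : Finset (Tor d M)) := Finset.mem_singleton_self _
    have a1 := Finset.sum_le_sum (s := Finset.univ) fun y _ =>
      HD.simon_lieb (G := torus d M) (y := y) p0 p1 ho
    rw [Finset.sum_add_distrib, ← Finset.mul_sum, Finset.sum_comm] at a1
    simp only [← Finset.mul_sum, HD.sum_tau_torus p0 p1] at a1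
    rw [← Finset.sum_mul] at a1
    have a2 : ∑ y, HD.tau (HD.res (torus d M) {0}) p 0 y = 1 := by
      rw [Finset.sum_eq_single 0, HD.tau_self]
      · intro y _ hy
        unfold HD.tau
        rw [Ex_congr fun ω => Lib.MP_81a99a_pr.ind_neg fun h =>
          hy (Finset.mem_singleton.1 (HD.cl_res_subset ho h)), Ex_const]
      · simp
    have a3 := HD.exm_le (torus_deg (d := d) (n := M)) p0 p1 (S := {0}) (B := {0}) 0
      fun b hb => (HD.mem_exits.1 hb).1
    rw [Finset.sum_singleton, HD.tau_self] at a3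
    push_cast at a3
    have a4 : 0 ≤ chiT d M p := Finset.sum_nonneg fun _ _ => HD.tau_nonneg p0 p1
    have a5 : p * (HD.exm (torus d M) {0} p 0 * chiT d M p) ≤ p * (2 * d * 1 * chiT d M p) := by
      gcongr
    unfold HD.exm at a5
    nlinarith
  · have n : ∀ y, 0 ≤ tt p S o y := fun _ => tau_nonneg (Prob.const p0 p1)
    have a1 : ∑ b ∈ EE, tt p S o b.1 ≤ ∑ b : Tor d M × Dir d, tt p S o b.1 :=
      Finset.sum_le_univ_sum_of_nonneg fun b => n _
    rw [Fintype.sum_prod_type] at a1
    simp only [Finset.sum_const, Finset.card_univ, Fintype.card_prod, Fintype.card_fin,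
      Fintype.card_bool, nsmul_eq_mul, ← Finset.mul_sum] at a1
    have a2 : ∑ y, tt p S o y ≤ ch d M p := by
      rw [← e2, ← HD.sum_tau_torus p0 p1 o]
      refine Finset.sum_le_sum fun y _ => ?_
      rw [HD.tau_eq]
      exact tau_mono_dom (Prob.const p0 p1) (Finset.subset_univ _)
    have a3 := mul_le_mul_of_nonneg_left (a1.trans (mul_le_mul_of_nonneg_left a2
      (Nat.cast_nonneg _))) p0
    push_cast at a3
    unfold xm
    linarith

end Pool.Agent.HDE
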