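import Pool.Agent.Lib.HDE.Api

/-! Basic facts on the two-point function of the torus and on convolutions. -/

open Finset

namespace Pool.Agent.HDE

open Pool.Agent.TPC
open Pool.Agent.HD (rad)
open Pool.Agent.Lib.MP_81a99a_pr (torus)

variable {d M : ℕ}

/-! ### reflections and permutations -/

@[simp] lemma rf_self (i : Fin d) (c : ZMod M) (x : Tor d M) : rf i c x i = c - x i := by simp [rf]
lemma rf_of_ne {i j : Fin d} (h : j ≠ i) (c : ZMod M) (x : Tor d M) : rf i c x j = x j := by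
  simp [rf, h]
@[simp] lemma rf_rf (i : Fin d) (c : ZMod M) (x : Tor d M) : rf i c (rf i c x) = x := by
  funext j
  by_cases h : j = i
  · subst h; simp
  · rw [rf_of_ne h, rf_of_ne h]
/-- the reflection as a bijection -/
def rfE (i : Fin d) (c : ZMod M) : Tor d M ≃ Tor d M := ⟨rf i c, rf i c, rf_rf i c, rf_rf i c⟩
/-- the action of a reflection on directions -/
def rfD (i : Fin d) (u : Dir d) : Dir d := if u.1 = i then opp u else u
@[simp] lemma rfD_rfD (i : Fin d) (u : Dir d) : rfD i (rfD i u) = u := by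
  by_cases h : u.1 = i <;> simp [rfD, h]
lemma rfD_fst (i : Fin d) (u : Dir d) : (rfD i u).1 = u.1 := by
  by_cases h : u.1 = i <;> simp [rfD, h]
lemma rf_add_dv (i : Fin d) (c : ZMod M) (x : Tor d M) (u : Dir d) :
    rf i c (x + dv M u) = rf i c x + dv M (rfD i u) := by
  funext j
  by_cases h : u.1 = i
  · rw [rfD, if_pos h, dv_opp]
    by_cases hj : j = i
    · subst hj; simp only [rf_self, Pi.add_apply, Pi.neg_apply]; ring
    · simp only [rf_of_ne hj, Pi.add_apply, Pi.neg_apply, dv_of_ne (h ▸ hj : j ≠ u.1), neg_zero]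
  · rw [rfD, if_neg h]
    by_cases hj : j = i
    · subst hj; simp only [rf_self, Pi.add_apply, dv_of_ne (Ne.symm h), add_zero]
    · simp only [rf_of_ne hj, Pi.add_apply]
/-- permutation of the coordinates -/
def pm (σ : Equiv.Perm (Fin d)) : Tor d M ≃ Tor d M where
  toFun x := fun i => x (σ.symm i)
  invFun x := fun i => x (σ i)
  left_inv x := by funext i; simp
  right_inv x := by funext i; simp
@[simp] lemma pm_apply (σ : Equiv.Perm (Fin d)) (x : Tor d M) (i : Fin d) :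
    pm σ x i = x (σ.symm i) := rfl
lemma pm_add_dv (σ : Equiv.Perm (Fin d)) (x : Tor d M) (u : Dir d) :
    pm σ (x + dv M u) = pm σ x + dv M (σ u.1, u.2) := by
  funext j
  simp only [pm_apply, Pi.add_apply, dv, Pi.single_apply, Equiv.symm_apply_eq]

/-! ### the two-point function -/

section
variable {p : ℝ} {S S' L : Finset (Tor d M)} {x y z o : Tor d M}

lemma tt_nonneg (h0 : 0 ≤ p) (h1 : p ≤ 1) : 0 ≤ tt p S x y := tau_nonneg (Prob.const h0 h1)
lemma tt_le_one (h0 : 0 ≤ p) (h1 : p ≤ 1) : tt p S x y ≤ 1 := tau_le_one (Prob.const h0 h1)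
lemma tt_comm : tt p S x y = tt p S y x := tau_comm
lemma tt_self (h : x ∈ S) : tt p S x x = 1 := tau_self h
lemma tt_of_left (h : x ∉ S) : tt p S x y = 0 := tau_of_notMem h
lemma tt_of_right (h : y ∉ S) : tt p S x y = 0 := by rw [tt_comm]; exact tt_of_left h
lemma tt_mono (h0 : 0 ≤ p) (h1 : p ≤ 1) (h : S ⊆ S') : tt p S x y ≤ tt p S' x y :=
  tau_mono_dom (Prob.const h0 h1) h
lemma tt_mono_p {q : ℝ} (h0 : 0 ≤ p) (hpq : p ≤ q) (h1 : q ≤ 1) : tt p S x y ≤ tt q S x y :=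
  tau_mono_prob (Prob.const h0 (hpq.trans h1)) (Prob.const (h0.trans hpq) h1) fun _ _ => hpq
lemma tt_single : tt p {o} x y = if x = o ∧ y = o then 1 else 0 := by
  split_ifs with h
  · rw [h.1, h.2]; exact tt_self (mem_singleton_self o)
  · rcases not_and_or.1 h with h | h
    · exact tt_of_left (by simpa using h)
    · exact tt_of_right (by simpa using h)

/-- invariance under a bijection which maps unit steps to unit steps -/
lemma tt_equiv (hM : 3 ≤ M) (f : Tor d M ≃ Tor d M) (g : Dir d → Dir d)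
    (hg : Function.Surjective g) (hf : ∀ x u, f (x + dv M u) = f x + dv M (g u))
    (hS : ∀ x, f x ∈ S' ↔ x ∈ S) (x y : Tor d M) : tt p S' (f x) (f y) = tt p S x y := by
  by_cases hx : x ∈ S
  swap
  · rw [tt_of_left hx, tt_of_left (mt (hS x).1 hx)]
  by_cases hy : y ∈ S
  swap
  · rw [tt_of_right hy, tt_of_right (mt (hS y).1 hy)]
  have h1 : S' = S.image f := by
    ext a
    obtain ⟨b, rfl⟩ := f.surjective a
    rw [hS, mem_image]
    exact ⟨fun h => ⟨b, h, rfl⟩, fun ⟨c, hc, h⟩ => f.injective h ▸ hc⟩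
  have h2 : LocIso (torus d M) (torus d M) f S := by
    refine ⟨f.injective.injOn, fun a _ b _ => ?_⟩
    rw [adj_iff (by omega), adj_iff (by omega)]
    constructor
    · rintro ⟨v, hv⟩
      obtain ⟨u, rfl⟩ := hg v
      exact ⟨u, f.injective (by rw [hv, hf])⟩
    · rintro ⟨u, rfl⟩
      exact ⟨g u, hf a u⟩
  rw [h1]
  exact h2.tau_eq hx hy p
lemma tt_add (hM : 3 ≤ M) (a : Tor d M) (hS : ∀ x, x + a ∈ S' ↔ x ∈ S) (x y : Tor d M) :
    tt p S' (x + a) (y + a) = tt p S x y :=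
  tt_equiv hM (Equiv.addRight a) id Function.surjective_id
    (fun x u => by simp only [Equiv.coe_addRight, id]; abel) hS x y
lemma tt_rf (hM : 3 ≤ M) (i : Fin d) (c : ZMod M) (hS : ∀ x, rf i c x ∈ S' ↔ x ∈ S)
    (x y : Tor d M) : tt p S' (rf i c x) (rf i c y) = tt p S x y :=
  tt_equiv hM (rfE i c) (rfD i) (fun u => ⟨rfD i u, rfD_rfD i u⟩) (rf_add_dv i c) hS x y
lemma tt_pm (hM : 3 ≤ M) (σ : Equiv.Perm (Fin d)) (hS : ∀ x, pm σ x ∈ S' ↔ x ∈ S)
    (x y : Tor d M) : tt p S' (pm σ x) (pm σ y) = tt p S x y :=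
  tt_equiv hM (pm σ) (fun u => (σ u.1, u.2)) (fun u => ⟨(σ.symm u.1, u.2), by simp⟩)
    (pm_add_dv σ) hS x y

/-- finite energy -/
lemma tt_step (hM : 3 ≤ M) (h0 : 0 ≤ p) (h1 : p ≤ 1) {u : Dir d} (h : y + dv M u ∈ L) :
    p * tt p L x y ≤ tt p L x (y + dv M u) := by
  by_cases hy : y ∈ L
  swap
  · rw [tt_of_right hy, mul_zero]; exact tt_nonneg h0 h1
  have hπ : Prob (fun _ : Sym2 (Tor d M) => p) := Prob.const h0 h1
  have ha := adj_dv (by omega : 2 ≤ M) y u
  have h2 : p ≤ tt p L y (y + dv M u) := by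
    have he : s(y, y + dv M u) ∈ edges (torus d M) L := mk_mem_edges.2 ⟨ha, hy, h⟩
    have h3 : PE (edges (torus d M) L) (fun _ => p) (fun ω => ind (s(y, y + dv M u) ∈ ω)) = p := by
      rw [← Finset.insert_erase he, PE_insert (notMem_erase _ _)]
      have e1 : ∀ ω : Finset (Sym2 (Tor d M)),
          ind (s(y, y + dv M u) ∈ insert s(y, y + dv M u) ω) = 1 :=
        fun ω => ind_pos (mem_insert_self _ _)
      simp only [e1, PE_const]
      rw [PE_congr (g := fun _ => 0) fun ω hω => ind_neg fun h4 => notMem_erase _ _ (hω h4),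
        PE_const]
      ring
    exact h3.symm.le.trans (PE_ind_mono hπ fun ω hω => conn.step hy h ha hω)
  calc p * tt p L x y ≤ tt p L y (y + dv M u) * tt p L x y :=
        mul_le_mul_of_nonneg_right h2 (tt_nonneg h0 h1)
    _ ≤ _ := by rw [mul_comm]; exact tau_mul_le hπ

variable [NeZero M]

/-- the Simon-Lieb inequality, edge form -/
lemma slp (hM : 3 ≤ M) (h0 : 0 ≤ p) (h1 : p ≤ 1) (L : Finset (Tor d M)) (ho : o ∈ S)
    (x : Tor d M) :
    tt p L o x ≤ tt p S o x + ∑ b ∈ ex L S, tt p S o b.1 * (p * tt p L (hd b) x) := by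
  have h := st_PL4 (st_BK st_BK2) (Tor d M) (torus d M) (fun _ => p) (Prob.const h0 h1) L S {x} o ho
  simp only [mem_singleton, exists_eq_left, ← tau_eq_EC] at h
  refine h.trans (add_le_add le_rfl (le_of_eq ?_))
  simp only [sum_adj hM]
  rw [ex, sum_filter, Fintype.sum_prod_type, ← Finset.sum_subset (subset_univ S)]
  · refine sum_congr rfl fun a ha => sum_congr rfl fun u _ => ?_
    simp only [hd, mem_sdiff, ha, true_and, tt, mul_assoc]
  · intro a _ ha
    exact sum_eq_zero fun u _ => if_neg fun h2 => ha h2.1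

lemma tt_univ (hM : 3 ≤ M) (x y : Tor d M) : tt p univ x y = t0 p (y - x) := by
  rw [t0, ← tt_add hM (S := univ) (S' := univ) x (by simp) 0 (y - x), zero_add, sub_add_cancel]
lemma tt_le_t0 (hM : 3 ≤ M) (h0 : 0 ≤ p) (h1 : p ≤ 1) : tt p S x y ≤ t0 p (y - x) := by
  rw [← tt_univ hM]; exact tt_mono h0 h1 (subset_univ _)
lemma t0_nonneg (h0 : 0 ≤ p) (h1 : p ≤ 1) : 0 ≤ t0 p x := tt_nonneg h0 h1
lemma t0_le_one (h0 : 0 ≤ p) (h1 : p ≤ 1) : t0 p x ≤ 1 := tt_le_one h0 h1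
lemma t0_zero : t0 p (0 : Tor d M) = 1 := tt_self (mem_univ _)
lemma t0_neg (hM : 3 ≤ M) (x : Tor d M) : t0 p (-x) = t0 p x := by
  rw [← zero_sub, ← tt_univ hM, tt_comm, t0]
lemma sum_tt_univ (hM : 3 ≤ M) (x : Tor d M) : ∑ y, tt p univ x y = ch d M p := by
  simp only [tt_univ hM]
  exact (Equiv.subRight x).sum_comp (t0 p)
lemma one_le_ch (h0 : 0 ≤ p) (h1 : p ≤ 1) : 1 ≤ ch d M p := by
  rw [← t0_zero (d := d) (M := M) (p := p)]
  exact single_le_sum (f := t0 p) (fun _ _ => t0_nonneg h0 h1) (mem_univ _)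
lemma ch_mono {q : ℝ} (h0 : 0 ≤ p) (hpq : p ≤ q) (h1 : q ≤ 1) : ch d M p ≤ ch d M q :=
  sum_le_sum fun _ _ => tt_mono_p h0 hpq h1
lemma xm_nonneg (h0 : 0 ≤ p) (h1 : p ≤ 1) (EE : Finset (Tor d M × Dir d)) : 0 ≤ xm p S EE o :=
  mul_nonneg h0 (sum_nonneg fun _ _ => tt_nonneg h0 h1)
/-- exit masses are monotone in the domain and in the family of edges -/
lemma xm_mono (h0 : 0 ≤ p) (h1 : p ≤ 1) {EE EE' : Finset (Tor d M × Dir d)} (hS : S ⊆ S')
    (hE : EE ⊆ EE') : xm p S EE o ≤ xm p S' EE' o :=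
  mul_le_mul_of_nonneg_left ((sum_le_sum fun _ _ => tt_mono h0 h1 hS).trans
    (sum_le_sum_of_subset_of_nonneg hE fun _ _ _ => tt_nonneg h0 h1)) h0

lemma Hyp.d1 (h : Hyp d M p) : 1 ≤ d := by
  by_contra h2
  have h3 : d = 0 := by omega
  have := h.lo
  rw [h3] at this; norm_num at this
lemma Hyp.dpos (h : Hyp d M p) : (0 : ℝ) < d := by exact_mod_cast h.d1
lemma Hyp.ppos (h : Hyp d M p) : 0 < p := by
  have := h.lo; have h2 := h.dpos
  by_contra h3
  nlinarith
lemma Hyp.p0 (h : Hyp d M p) : 0 ≤ p := h.ppos.le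
lemma Hyp.inv_le (h : Hyp d M p) : 1 / p ≤ 4 * d := by
  rw [div_le_iff₀ h.ppos]; exact h.lo
lemma Hyp.p_le (h : Hyp d M p) : p ≤ 1 / d := by
  rw [le_div_iff₀ h.dpos]
  have := h.phi.1
  rw [lam] at this; nlinarith
end

lemma lam_pos : 0 < lam := by rw [lam]; norm_num
lemma one_le_lam : 1 ≤ lam := by rw [lam]; norm_num

/-! ### convolutions -/

variable [NeZero M] {f g h f' g' : Tor d M → ℝ}

lemma cv_comm (f g : Tor d M → ℝ) : cv f g = cv g f := by
  funext x
  rw [cv, cv, ← (Equiv.subLeft x).sum_comp]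
  exact sum_congr rfl fun y _ => by simp [mul_comm]
lemma cv_assoc (f g h : Tor d M → ℝ) : cv (cv f g) h = cv f (cv g h) := by
  funext x
  simp only [cv, sum_mul, mul_sum]
  rw [sum_comm]
  refine sum_congr rfl fun y _ => ?_
  rw [← Equiv.sum_comp (Equiv.addRight y)]
  refine sum_congr rfl fun z _ => ?_
  simp only [Equiv.coe_addRight, add_sub_cancel_right]
  rw [show x - (z + y) = x - y - z by abel, mul_assoc]
lemma cv_delta (f : Tor d M → ℝ) : cv (fun x => if x = 0 then 1 else 0) f = f := by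
  funext x; simp [cv]
lemma cv_add (f g h : Tor d M → ℝ) (x : Tor d M) :
    cv f (fun y => g y + h y) x = cv f g x + cv f h x := by
  simp only [cv, mul_add, sum_add_distrib]
lemma sum_cv (f g : Tor d M → ℝ) : ∑ x, cv f g x = (∑ x, f x) * ∑ x, g x := by
  simp only [cv]
  rw [sum_comm, sum_mul]
  refine sum_congr rfl fun y _ => ?_
  rw [← mul_sum]
  exact congrArg _ ((Equiv.subRight y).sum_comp g)
lemma cv_nonneg (hf : ∀ x, 0 ≤ f x) (hg : ∀ x, 0 ≤ g x) (x : Tor d M) : 0 ≤ cv f g x :=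
  sum_nonneg fun _ _ => mul_nonneg (hf _) (hg _)
lemma cv_mono (hf : ∀ x, 0 ≤ f x) (hg : ∀ x, g x ≤ g' x) (x : Tor d M) : cv f g x ≤ cv f g' x :=
  sum_le_sum fun _ _ => mul_le_mul_of_nonneg_left (hg _) (hf _)
lemma cv_mono_left (hf : ∀ x, f x ≤ f' x) (hg : ∀ x, 0 ≤ g x) (x : Tor d M) :
    cv f g x ≤ cv f' g x := sum_le_sum fun _ _ => mul_le_mul_of_nonneg_right (hf _) (hg _)
/-- mass of the first factor times sup of the second -/
lemma cv_le (hf : ∀ x, 0 ≤ f x) {B : ℝ} (hg : ∀ x, g x ≤ B) (x : Tor d M) :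
    cv f g x ≤ (∑ y, f y) * B := by
  rw [sum_mul]; exact sum_le_sum fun _ _ => mul_le_mul_of_nonneg_left (hg _) (hf _)
/-- sup of the first factor times mass of the second -/
lemma cv_le' {B : ℝ} (hf : ∀ x, f x ≤ B) (hg : ∀ x, 0 ≤ g x) (x : Tor d M) :
    cv f g x ≤ B * ∑ y, g y := by
  rw [cv_comm, mul_comm]; exact cv_le hg hf x
lemma cpr_zero (K : ℕ → Tor d M → ℝ) : cpr K 0 = fun x => if x = 0 then 1 else 0 := rfl
lemma cpr_succ (K : ℕ → Tor d M → ℝ) (t : ℕ) : cpr K (t + 1) = cv (cpr K t) (K t) := rfl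
lemma cpr_nonneg {K : ℕ → Tor d M → ℝ} {T : ℕ} (hK : ∀ t, t < T → ∀ x, 0 ≤ K t x) (x : Tor d M) :
    0 ≤ cpr K T x := by
  induction T generalizing x with
  | zero => rw [cpr_zero]; dsimp only; split_ifs <;> norm_num
  | succ T ih => exact cv_nonneg (ih fun t ht => hK t (by omega)) (hK T (by omega)) x
lemma sum_cpr_le {K : ℕ → Tor d M → ℝ} {T : ℕ} {a : ℝ} (hK : ∀ t, t < T → ∀ x, 0 ≤ K t x)
    (ha : ∀ t, t < T → ∑ x, K t x ≤ a) : ∑ x, cpr K T x ≤ a ^ T := by
  induction T with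
  | zero => simp [cpr_zero]
  | succ T ih =>
    have h1 : 0 ≤ ∑ x, K T x := sum_nonneg fun x _ => hK T (by omega) x
    have h2 := ih (fun t ht => hK t (by omega)) fun t ht => ha t (by omega)
    have h3 : 0 ≤ ∑ x, cpr K T x := sum_nonneg fun x _ => cpr_nonneg (fun t ht => hK t (by omega)) x
    rw [cpr_succ, sum_cv, pow_succ]
    exact mul_le_mul h2 (ha T (by omega)) h1 (h3.trans h2)
lemma cpr_add (k : Tor d M → ℝ) (m n : ℕ) :
    cv (cpr (fun _ => k) m) (cpr (fun _ => k) n) = cpr (fun _ => k) (m + n) := by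
  induction n with
  | zero => rw [cpr_zero, cv_comm, cv_delta]; rfl
  | succ n ih => rw [cpr_succ, ← cv_assoc, ih]; rfl
lemma jk_nonneg {p : ℝ} (h0 : 0 ≤ p) (z : Tor d M) : 0 ≤ jk p z :=
  sum_nonneg fun _ _ => by split_ifs <;> simp [h0]
lemma sum_jk_mul (p : ℝ) (F : Tor d M → ℝ) :
    ∑ z, jk p z * F z = p * ∑ u : Dir d, F (dv M u) := by
  simp only [jk, sum_mul]
  rw [sum_comm, mul_sum]
  exact sum_congr rfl fun u _ => by simp
lemma sum_jk (p : ℝ) : ∑ z : Tor d M, jk p z = 2 * d * p := by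
  have := sum_jk_mul (d := d) (M := M) p fun _ => 1
  simp only [mul_one, sum_const, card_univ, Fintype.card_prod, Fintype.card_fin, Fintype.card_bool,
    nsmul_eq_mul] at this
  rw [this]; push_cast; ring
lemma wn_nonneg (j : Fin d) (hf : ∀ x, 0 ≤ f x) : 0 ≤ wn j f :=
  sum_nonneg fun x _ => mul_nonneg (by positivity) (hf x)
lemma sum_le_wn (j : Fin d) (hf : ∀ x, 0 ≤ f x) : ∑ x, f x ≤ wn j f :=
  sum_le_sum fun x _ => le_mul_of_one_le_left (hf x)
    (one_le_pow₀ (le_add_of_nonneg_right (Nat.cast_nonneg _)))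

end Pool.Agent.HDE
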