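import Pool.Agent.Lib.HDE.BlueC
import Pool.Agent.Lib.HDE.Api2

/-! Block CARD: counting points of a hyperplane inside a ball of the torus. -/

open Finset

namespace Pool.Agent.HDE

open Pool.Agent.TPC
open Pool.Agent.HD (rad tauT chiT)

namespace CARDB

variable {d M : ℕ} [NeZero M]

lemma card_near (a : ZMod M) (k : ℕ) :
    (univ.filter fun c : ZMod M => ab (c - a) ≤ k).card ≤ 2 * k + 1 := by
  have h : (univ.filter fun c : ZMod M => ab (c - a) ≤ k).card ≤ (Icc (-(k : ℤ)) k).card := by
    refine card_le_card_of_injOn (fun c => (c - a).valMinAbs) ?_ ?_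
    · intro c hc
      have hc' : (c - a).valMinAbs.natAbs ≤ k := (mem_filter.1 (mem_coe.1 hc)).2
      simp only [coe_Icc, Set.mem_Icc]
      omega
    · intro c _ c' _ h
      have := ZMod.injective_valMinAbs h
      exact sub_left_injective this
  rw [Int.card_Icc] at h
  omega

lemma prod_ite_le (i : Fin d) (f : Fin d → ℕ) (B : ℕ) (h1 : f i ≤ 1) (h : ∀ j, j ≠ i → f j ≤ B) :
    ∏ j, f j ≤ B ^ (d - 1) := by
  rw [← mul_prod_erase univ f (mem_univ i)]
  have h2 : ∏ j ∈ univ.erase i, f j ≤ B ^ (univ.erase i).card :=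
    prod_le_pow_card _ _ _ fun j hj => h j (ne_of_mem_erase hj)
  rw [card_erase_of_mem (mem_univ i), card_univ, Fintype.card_fin] at h2
  calc f i * ∏ j ∈ univ.erase i, f j ≤ 1 * B ^ (d - 1) := Nat.mul_le_mul h1 h2
    _ = B ^ (d - 1) := one_mul _

lemma le_prod_ite (i : Fin d) (f : Fin d → ℕ) (B : ℕ) (h1 : 1 ≤ f i) (h : ∀ j, j ≠ i → B ≤ f j) :
    B ^ (d - 1) ≤ ∏ j, f j := by
  rw [← mul_prod_erase univ f (mem_univ i)]
  have h2 : B ^ (univ.erase i).card ≤ ∏ j ∈ univ.erase i, f j :=
    pow_card_le_prod _ _ _ fun j hj => h j (ne_of_mem_erase hj)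
  rw [card_erase_of_mem (mem_univ i), card_univ, Fintype.card_fin] at h2
  calc B ^ (d - 1) = 1 * B ^ (d - 1) := (one_mul _).symm
    _ ≤ f i * ∏ j ∈ univ.erase i, f j := Nat.mul_le_mul h1 h2

lemma upper (i : Fin d) (v : Tor d M) (k : ℕ) (c : ZMod M) :
    (hp i c ∩ bl v k).card ≤ (2 * k + 1) ^ (d - 1) := by
  classical
  let F : Fin d → Finset (ZMod M) := fun j =>
    if j = i then {c} else univ.filter fun b : ZMod M => ab (b - v j) ≤ k
  have hs : hp i c ∩ bl v k ⊆ Fintype.piFinset F := by
    intro x hx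
    rw [mem_inter] at hx
    have h1 : x i = c := by simpa [hp] using hx.1
    have h2 : rad (x - v) ≤ k := by simpa [bl] using hx.2
    rw [Fintype.mem_piFinset]
    intro j
    by_cases hj : j = i
    · subst hj
      simp [F, h1]
    · simp only [F, if_neg hj, mem_filter, mem_univ, true_and]
      exact (rad_le_iff.1 h2) j
  refine (card_le_card hs).trans ?_
  rw [Fintype.card_piFinset]
  refine prod_ite_le i _ _ (by simp [F]) fun j hj => ?_
  simp only [F, if_neg hj]
  exact card_near (v j) k

lemma lower (i : Fin d) (v : Tor d M) (k : ℕ) (hk : k < M) :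
    (k + 1) ^ (d - 1) ≤ (hp i (v i) ∩ bl v k).card := by
  classical
  let F : Fin d → Finset (ZMod M) := fun j =>
    if j = i then {v i} else (range (k + 1)).image fun s : ℕ => v j + (s : ZMod M)
  have hs : Fintype.piFinset F ⊆ hp i (v i) ∩ bl v k := by
    intro x hx
    rw [Fintype.mem_piFinset] at hx
    have h1 : x i = v i := by simpa [F] using hx i
    rw [mem_inter]
    refine ⟨by simpa [hp] using h1, ?_⟩
    simp only [bl, mem_filter, mem_univ, true_and]
    refine rad_le_iff.2 fun j => ?_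
    by_cases hj : j = i
    · subst hj
      simp [h1]
    · have h2 := hx j
      simp only [F, if_neg hj, mem_image, mem_range] at h2
      obtain ⟨s, hs, he⟩ := h2
      have h3 : (x - v) j = (s : ZMod M) := by rw [Pi.sub_apply, ← he]; ring
      rw [h3]
      exact (ab_natCast_le s).trans (by omega)
  refine le_trans ?_ (card_le_card hs)
  rw [Fintype.card_piFinset]
  refine le_prod_ite i _ _ (by simp [F]) fun j hj => ?_
  simp only [F, if_neg hj]
  rw [card_image_of_injOn, card_range]
  intro s hs t ht h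
  have hs' : s < M := by have := mem_range.1 (mem_coe.1 hs); omega
  have ht' : t < M := by have := mem_range.1 (mem_coe.1 ht); omega
  have h2 : (s : ZMod M) = (t : ZMod M) := add_left_cancel h
  have h3 := congrArg ZMod.val h2
  rwa [ZMod.val_cast_of_lt hs', ZMod.val_cast_of_lt ht'] at h3

end CARDB

theorem t_card : T_CARD := fun _ _ _ i v k =>
  ⟨CARDB.upper i v k, CARDB.lower i v k, CARDB.card_near (v i) k⟩

end Pool.Agent.HDE
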