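import Pool.Agent.Lib.HDE.Api2

/-! Block CLOSE: the improved bound for the exit masses. -/

open Finset

namespace Pool.Agent.HDE

open Pool.Agent.TPC

namespace CLOSE

lemma key (h : St_SLM) {d M : ℕ} [NeZero M] (hM : 3 ≤ M) {p : ℝ} (h0 : 0 ≤ p) (h1 : p ≤ 1)
    {S : Finset (Tor d M)} {EE : Finset (Tor d M × Dir d)} {o : Tor d M} (ho : o ∈ S)
    (hE : EE ⊆ ex univ S) : xm p S EE o ≤ 1 + ∑ v, Er p univ S EE o v := by
  have h2 := sum_le_sum fun x (_ : x ∈ univ) =>
    h d M hM p h0 h1 univ S EE o x (subset_univ _) ho hE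
  rw [sum_add_distrib, sum_add_distrib, sum_comm (t := EE),
    sum_comm (f := fun x v => Er p univ S EE o v * tt p univ v x)] at h2
  simp only [← mul_sum, sum_tt_univ hM] at h2
  have h3 : 0 ≤ ∑ x, tt p S o x := sum_nonneg fun _ _ => tt_nonneg h0 h1
  have h4 := one_le_ch (d := d) (M := M) h0 h1
  rw [← sum_mul, ← sum_mul] at h2
  refine le_of_mul_le_mul_right ?_ (show 0 < ch d M p by linarith)
  rw [xm]
  linarith

end CLOSE

theorem t_close : T_CLOSE := by
  intro hS hE C₀ hC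
  obtain ⟨C₁, -, h⟩ := hE C₀ hC
  refine ⟨C₁, fun d M _ p hG => ⟨?_, ?_⟩⟩
  · have hM := hG.hM
    obtain ⟨-, -, e3⟩ := h d M p hG
    let f : Dir d ↪ Tor d M × Dir d := ⟨fun u => (0, u), fun u v h => (Prod.ext_iff.1 h).2⟩
    have h2 := CLOSE.key hS hM hG.toHyp.p0 hG.p1 (mem_singleton_self (0 : Tor d M))
      (EE := univ.map f) (fun b hb => by
        obtain ⟨u, -, rfl⟩ := mem_map.1 hb
        refine mem_ex.2 ⟨mem_singleton_self _, mem_univ _, fun h3 => ?_⟩
        have h4 : (0 : Tor d M) + dv M u = 0 := mem_singleton.1 h3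
        exact dv_ne_zero (M := M) (by omega) u (by simpa using h4))
    have h3 : xm p {(0 : Tor d M)} (univ.map f) 0 = 2 * d * p := by
      rw [xm, sum_map]
      have : ∀ u : Dir d, tt p {(0 : Tor d M)} 0 (f u).1 = 1 := fun u =>
        tt_self (mem_singleton_self _)
      simp only [this, sum_const, card_univ, Fintype.card_prod, Fintype.card_fin,
        Fintype.card_bool, nsmul_eq_mul]
      push_cast; ring
    have := e3 (univ.map f) 0
    linarith
  · rintro S ⟨u, u', c, c', n, n', hn, hn', rfl⟩ o ho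
    obtain ⟨e1, -, -⟩ := h d M p hG
    have h2 := CLOSE.key hS hG.hM hG.toHyp.p0 hG.p1 ho (Subset.refl _)
    have h3 := e1 univ (sl u c n ∩ sl u' c' n') (ex univ (sl u c n ∩ sl u' c' n')) o
      {(u, c), (opp u, c - sg M u.2 * (n : ZMod M)), (u', c'),
        (opp u', c' - sg M u'.2 * (n' : ZMod M))} card_le_four ?_ ?_
    · linarith
    · intro f hf
      simp only [mem_insert, mem_singleton] at hf
      rcases hf with rfl | rfl | rfl | rfl
      · exact ⟨n, hn, inter_subset_left⟩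
      · exact ⟨n, hn, by rw [sl_opp u c (by omega)]; exact inter_subset_left⟩
      · exact ⟨n', hn', inter_subset_right⟩
      · exact ⟨n', hn', by rw [sl_opp u' c' (by omega)]; exact inter_subset_right⟩
    · intro b hb
      obtain ⟨b1, -, b2⟩ := mem_ex.1 hb
      rw [mem_inter] at b1 b2
      simp only [mem_insert, mem_singleton, Prod.ext_iff]
      rcases not_and_or.1 b2 with b3 | b3
      · rcases exit_sl b1.1 b3 with ⟨e, e'⟩ | ⟨e, e'⟩
        · exact Or.inl ⟨by rw [e]; exact ⟨rfl, rfl⟩, by rw [e, e']⟩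
        · exact Or.inr (Or.inl ⟨by rw [e]; exact ⟨rfl, rfl⟩, by rw [e, opp_fst, e']⟩)
      · rcases exit_sl b1.2 b3 with ⟨e, e'⟩ | ⟨e, e'⟩
        · exact Or.inr (Or.inr (Or.inl ⟨by rw [e]; exact ⟨rfl, rfl⟩, by rw [e, e']⟩))
        · exact Or.inr (Or.inr (Or.inr ⟨by rw [e]; exact ⟨rfl, rfl⟩, by rw [e, opp_fst, e']⟩))

end Pool.Agent.HDE
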