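import Pool.Agent.Lib.HDE.BlueC
import Pool.Agent.Lib.HDE.Api2

/-! Block CUT: cutting the tangential tails. -/

open Finset

namespace Pool.Agent.HDE

open Pool.Agent.TPC
open Pool.Agent.HD (rad)

theorem t_cut : T_CUT := by
  intro hT d ε hε
  have l0 : 0 ≤ lam / 2 := by rw [lam]; norm_num
  have l1 : lam / 2 < 1 := by rw [lam]; norm_num
  obtain ⟨R, hR⟩ := exists_pow_lt_of_lt_one (by positivity : 0 < ε / (d + 1)) l1
  refine ⟨R + 1, Nat.le_add_left _ _, fun M _ p H u c n U g B hn hU hg hB o ho => ?_⟩
  have h0 : ∀ y, 0 ≤ tt p U o y * g y := fun y => mul_nonneg (tt_nonneg H.p0 H.p1) (hg y)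
  have hB0 : 0 ≤ B := (sum_nonneg fun y _ => h0 y).trans (hB o ho)
  have hp : 0 ≤ (lam / 2) ^ (R + 1) * B := by positivity
  calc _ ≤ ∑ y, ∑ j ∈ univ.erase u.1,
        if (R + 1) * (n + 1) ≤ ab (y j - o j) then tt p U o y * g y else 0 := by
        rw [sum_filter]
        refine sum_le_sum fun y _ => ?_
        have h1 : ∀ j, 0 ≤ if (R + 1) * (n + 1) ≤ ab (y j - o j) then tt p U o y * g y else 0 :=
          fun j => by split_ifs; exacts [h0 y, le_rfl]
        split_ifs with h
        · by_cases hy : y ∈ U
          · obtain ⟨j, hj⟩ := exists_ab_eq_rad H.d1 (y - o)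
            rw [← hj, Pi.sub_apply] at h
            have hne : j ≠ u.1 := fun e => by
              have := mem_cs.1 (sl_subset_cs (hU ho) (hU hy))
              rw [← e] at this
              nlinarith
            exact (if_pos h).ge.trans (single_le_sum (fun j _ => h1 j) (mem_erase.2 ⟨hne, mem_univ j⟩))
          · rw [tt_of_right hy, zero_mul]
            simp
        · exact sum_nonneg fun j _ => h1 j
    _ ≤ ∑ _j ∈ univ.erase u.1, (lam / 2) ^ (R + 1) * B := by
        rw [sum_comm]
        refine sum_le_sum fun j hj => ?_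
        rw [← sum_filter]
        exact (hT d M p H u c n U j g hn hU (ne_of_mem_erase hj) hg).2 B hB _ o ho
    _ ≤ (d + 1) * ((lam / 2) ^ (R + 1) * B) := by
        rw [sum_const, nsmul_eq_mul]
        refine mul_le_mul_of_nonneg_right ?_ hp
        have := card_le_univ (univ.erase u.1)
        rw [Fintype.card_fin] at this
        exact_mod_cast this.trans (Nat.le_succ d)
    _ ≤ _ := by
        rw [← mul_assoc]
        refine mul_le_mul_of_nonneg_right ?_ hB0
        have := (pow_le_pow_of_le_one l0 l1.le (Nat.le_succ R)).trans hR.le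
        rwa [le_div_iff₀' (by positivity)] at this

end Pool.Agent.HDE
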