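import Pool.Agent.Lib.HDE.BlueC
import Pool.Agent.Lib.HDE.Api2

/-! Block D0: a face of a centred slab carries mass. -/

open Finset

namespace Pool.Agent.HDE

open Pool.Agent.TPC
open Pool.Agent.HD (rad tauT chiT)

namespace D0B

variable {d M : ℕ} [NeZero M]

lemma mirror (hM : 3 ≤ M) (p : ℝ) (o : Tor d M) (i : Fin d) (r : ℕ) (a : ZMod M) :
    ∑ y ∈ hp i (o i - a), tt p (cs o i r) o y = ∑ y ∈ hp i (o i + a), tt p (cs o i r) o y := by
  have ho : rf i (o i + o i) o = o := by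
    funext j
    by_cases h : j = i
    · subst h; simp
    · rw [rf_of_ne h]
  have hS : ∀ x, rf i (o i + o i) x ∈ cs o i r ↔ x ∈ cs o i r := fun x => by
    rw [mem_cs, mem_cs, rf_self, show o i + o i - x i - o i = o i - x i by ring, ab_sub_comm]
  refine Finset.sum_equiv (rfE i (o i + o i)) (fun y => ?_) fun y _ => ?_
  · rw [mem_hp, mem_hp]
    change _ ↔ rf i (o i + o i) y i = _
    rw [rf_self]
    constructor
    · intro h; rw [h]; ring
    · intro h; linear_combination -h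
  · have := tt_rf (p := p) hM i (o i + o i) hS o y
    rw [ho] at this
    exact this.symm

lemma exits {p : ℝ} (hM : 3 ≤ M) (h0 : 0 ≤ p) (h1 : p ≤ 1) (u : Dir d) (r : ℕ) (o : Tor d M)
    (hr : 2 * r < M) :
    ∑ b ∈ ex univ (cs o u.1 r), tt p (cs o u.1 r) o b.1 ≤
      2 * ∑ y ∈ hp u.1 (o u.1 + sg M u.2 * (r : ZMod M)), tt p (cs o u.1 r) o y := by
  have hsub : ex univ (cs o u.1 r) ⊆
      (hp u.1 (o u.1 + sg M u.2 * (r : ZMod M))).image (fun y => (y, u)) ∪
        (hp u.1 (o u.1 - sg M u.2 * (r : ZMod M))).image (fun y => (y, opp u)) := by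
    rintro ⟨y, v⟩ hb
    obtain ⟨a1, -, a2⟩ := mem_ex.1 hb
    rw [cs_eq_sl o u hr] at a1 a2
    rcases exit_sl a1 a2 with ⟨rfl, h⟩ | ⟨rfl, h⟩
    · exact mem_union_left _ (mem_image.2 ⟨y, mem_hp.2 h, rfl⟩)
    · refine mem_union_right _ (mem_image.2 ⟨y, mem_hp.2 ?_, rfl⟩)
      dsimp only at h
      rw [h]; push_cast; ring
  refine (sum_le_sum_of_subset_of_nonneg hsub fun _ _ _ => tt_nonneg h0 h1).trans ?_
  rw [sum_union, sum_image fun _ _ _ _ h => (Prod.mk.inj h).1,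
    sum_image fun _ _ _ _ h => (Prod.mk.inj h).1, mirror hM, two_mul]
  rw [disjoint_left]
  intro b h2 h3
  obtain ⟨y, -, rfl⟩ := mem_image.1 h2
  obtain ⟨z, -, e⟩ := mem_image.1 h3
  exact opp_ne u (Prod.mk.inj e).2

end D0B

open D0B in
theorem t_d0 : T_D0 := by
  intro hL d
  refine ⟨32 * d * lam ^ 2, ?_⟩
  intro M _ p H u r o hr hK
  have hM := H.hM
  have h0 := H.p0
  have h1 := H.p1
  have hc1 : 1 ≤ ch d M p := one_le_ch h0 h1
  have A : ch d M p ≤ ∑ x, tt p (cs o u.1 r) o x +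
      (p * ∑ b ∈ ex univ (cs o u.1 r), tt p (cs o u.1 r) o b.1) * ch d M p := by
    calc ch d M p = ∑ x, tt p univ o x := (sum_tt_univ hM o).symm
      _ ≤ ∑ x, (tt p (cs o u.1 r) o x + ∑ b ∈ ex univ (cs o u.1 r),
          tt p (cs o u.1 r) o b.1 * (p * tt p univ (hd b) x)) :=
        sum_le_sum fun x _ => slp hM h0 h1 univ (self_mem_cs o u.1 r) x
      _ = _ := by
        rw [sum_add_distrib, sum_comm, mul_sum, sum_mul]
        congr 1
        refine sum_congr rfl fun b _ => ?_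
        rw [← mul_sum, ← mul_sum, sum_tt_univ hM]; ring
  have B := (hL d M p H u (o u.1 + sg M u.2 * (r : ZMod M)) (2 * r) (cs o u.1 r) o (by omega)
    (cs_eq_sl o u (by omega)).le).2
  have C := exits hM h0 h1 u r o (by omega)
  have s0 : 0 ≤ ∑ x, tt p (cs o u.1 r) o x := sum_nonneg fun _ _ => tt_nonneg h0 h1
  have B2 : ∑ x, tt p (cs o u.1 r) o x ≤ ch d M p / 2 := by
    have e1 := mul_le_mul_of_nonneg_right H.lo s0
    have e2 := mul_le_mul_of_nonneg_left B (show (0 : ℝ) ≤ 4 * d by positivity)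
    have e3 : ((((2 * r : ℕ) : ℝ)) + 1) ^ 2 ≤ 4 * ((r : ℝ) + 1) ^ 2 := by
      push_cast
      have : (0 : ℝ) ≤ r := by positivity
      nlinarith
    have e4 := mul_le_mul_of_nonneg_left e3 (show (0 : ℝ) ≤ 4 * d * lam ^ 2 by positivity)
    nlinarith
  have D := mul_le_mul_of_nonneg_left C h0
  by_contra hlt
  have : (p * ∑ b ∈ ex univ (cs o u.1 r), tt p (cs o u.1 r) o b.1) * ch d M p <
      1 / 2 * ch d M p := mul_lt_mul_of_pos_right (by linarith) (by linarith)
  linarith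

end Pool.Agent.HDE
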