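import Pool.Agent.Lib.HDE.BlueC
import Pool.Agent.Lib.HDE.Api2

/-! Layer masses inside a slab. -/

open Finset

namespace Pool.Agent.HDE

open Pool.Agent.TPC

namespace D1B

variable {d M : ℕ} [NeZero M]

lemma sl_sub (u : Dir d) (c c' : ZMod M) (n n' e : ℕ) (h : c' = c + sg M u.2 * (e : ZMod M)) (hn : n + e ≤ n')
    (hM : n' < M) : sl u c n ⊆ sl u c' n' := by
  intro x hx
  rw [mem_sl] at hx ⊢
  have : dp u c' x = dp u c x + e := by
    rw [dp_eq_iff (by omega), h]
    conv_lhs => rw [dp_spec u c x]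
    push_cast
    ring
  omega

lemma er_nonneg {p : ℝ} (h0 : 0 ≤ p) (h1 : p ≤ 1) (L S : Finset (Tor d M)) (EE : Finset (Tor d M × Dir d))
    (o v : Tor d M) : 0 ≤ Er p L S EE o v := by
  have t : ∀ (U : Finset (Tor d M)) x y, 0 ≤ tt p U x y := fun _ _ _ => tt_nonneg h0 h1
  refine add_nonneg (sum_nonneg fun w _ => mul_nonneg (t _ _ _) (sum_nonneg fun b _ => sum_nonneg fun b' _ => ?_))
    (sum_nonneg fun w _ => mul_nonneg (mul_nonneg (t _ _ _) (t _ _ _)) (sum_nonneg fun b _ => ?_))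
  · exact mul_nonneg (mul_nonneg (t _ _ _) (mul_nonneg h0 (t _ _ _))) (mul_nonneg (t _ _ _) (mul_nonneg h0 (t _ _ _)))
  · exact mul_nonneg (t _ _ _) (mul_nonneg h0 (t _ _ _))

lemma trans_sum (hM : 3 ≤ M) (p : ℝ) (u : Dir d) (c : ZMod M) (n : ℕ) (z x0 : Tor d M) :
    ∑ x ∈ hp u.1 (x0 u.1), tt p (sl u c n) z x = ∑ y ∈ hp u.1 (z u.1), tt p (sl u c n) x0 y := by
  refine sum_nbij' (fun x => z + x0 - x) (fun y => z + x0 - y) (fun x hx => ?_) (fun y hy => ?_)
    (fun x _ => by abel) (fun y _ => by abel) fun x hx => ?_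
  · rw [mem_hp] at hx ⊢
    simp [hx]
  · rw [mem_hp] at hy ⊢
    simp [hy]
  · rw [mem_hp] at hx
    have h := tt_add (p := p) hM (S := sl u c n) (S' := sl u c n) (x0 - x) (fun y => by
      rw [mem_sl, mem_sl, dp_congr (c' := c) (y := y) (by simp [hx])]) z x
    rw [← h, tt_comm]
    congr 1 <;> abel

end D1B

open D1B in
theorem t_d1 : T_D1 := by
  intro hSLM hLAY hERR hD0 C₀ hC₀
  obtain ⟨C₁, hC₁, hE⟩ := hERR C₀ hC₀
  refine ⟨⌈66 * C₁⌉₊ + 1, fun d hd0 => ?_⟩
  obtain ⟨K, hK⟩ := hD0 d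
  refine ⟨4 * |K|, fun M _ p hG u m h hh hm hch => ?_⟩
  have hH := hG.toHyp
  have p0 := hH.p0
  have p1 := hH.p1
  have hM := hH.hM
  have hdC : C₁ / d ≤ 1 / 66 := by
    have h1 : (⌈66 * C₁⌉₊ : ℝ) + 1 ≤ d := by exact_mod_cast hd0
    have h2 := Nat.le_ceil (66 * C₁)
    rw [div_le_div_iff₀ hH.dpos (by norm_num)]
    linarith
  have hD : ∀ (r : ℕ) (o : Tor d M) (U : Finset (Tor d M)), r ≤ 2 * m → cs o u.1 r ⊆ U →
      1 / 4 ≤ p * ∑ y ∈ hp u.1 (o u.1 - sg M u.2 * (r : ZMod M)), tt p U o y := by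
    intro r o U hr hU
    have h1 := hK M p hH (opp u) r o (by omega) (by
      have h2 : (r : ℝ) ≤ 2 * m := by exact_mod_cast hr
      calc _ ≤ |K| * ((r : ℝ) + 1) ^ 2 := by gcongr; exact le_abs_self K
        _ ≤ |K| * (2 * ((m : ℝ) + 1)) ^ 2 := by gcongr; linarith
        _ = 4 * |K| * ((m : ℝ) + 1) ^ 2 := by ring
        _ ≤ _ := hch)
    rw [opp_fst, opp_snd, sg_not, neg_mul, ← sub_eq_add_neg] at h1
    exact h1.trans (mul_le_mul_of_nonneg_left (sum_le_sum fun y _ => tt_mono p0 p1 hU) p0)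
  set top : ZMod M := sg M u.2 * ((3 * m : ℕ) : ZMod M) with htop
  set H : Finset (Tor d M) := hp u.1 (sg M u.2 * (h : ZMod M)) with hHd
  have step : ∀ c : ℕ, c + 1 ≤ m → p * ∑ x ∈ H, tt p (sl u top (3 * m + c)) 0 x + 1 / 32 ≤
      p * ∑ x ∈ H, tt p (sl u top (3 * m + (c + 1))) 0 x := by
    intro c hc
    set S := sl u top (3 * m + c) with hS
    set L := sl u top (3 * m + (c + 1)) with hL
    set cS : ZMod M := top - sg M u.2 * ((3 * m + c : ℕ) : ZMod M) with hcS
    set cL : ZMod M := top - sg M u.2 * ((3 * m + (c + 1) : ℕ) : ZMod M) with hcL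
    set EE : Finset (Tor d M × Dir d) := (hp u.1 cS).image fun y => (y, opp u) with hEE
    have hE1 : ∀ b ∈ EE, b.2 = opp u ∧ b.1 u.1 = cS := by
      intro b hb
      obtain ⟨y, hy, rfl⟩ := mem_image.1 hb
      exact ⟨rfl, mem_hp.1 hy⟩
    have hE2 : ∀ b ∈ EE, dp u top b.1 = 3 * m + c ∧ dp u top (hd b) = 3 * m + (c + 1) := by
      intro b hb
      have h1 : dp u top b.1 = 3 * m + c := (dp_eq_iff (by omega)).2 (hE1 b hb).2
      refine ⟨h1, ?_⟩
      rw [hd, (hE1 b hb).1, dp_add_opp (by omega), h1, add_assoc]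
    have h0S : (0 : Tor d M) ∈ S := by
      have : dp u top (0 : Tor d M) = 3 * m := (dp_eq_iff (by omega)).2 (by simp [htop])
      rw [hS, mem_sl]
      omega
    have hslm := fun x => hSLM d M hM p p0 p1 L S EE 0 x (sl_mono _ _ (by omega)) h0S fun b hb =>
      mem_ex.2 ⟨mem_sl.2 (hE2 b hb).1.le, mem_sl.2 (hE2 b hb).2.le, fun h => by
        have := mem_sl.1 h
        have := (hE2 b hb).2
        omega⟩
    have hA : 1 / 4 ≤ p * ∑ b ∈ EE, tt p S 0 b.1 := by
      rw [hEE, sum_image fun x _ y _ h => congrArg Prod.fst h]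
      have h1 := hD c 0 S (by omega) (by
        rw [cs_eq_sl _ u (by omega)]
        refine sl_sub u _ _ _ _ (3 * m - c) ?_ (by omega) (by omega)
        rw [htop, Nat.cast_sub (by omega)]
        simp only [Pi.zero_apply]
        ring)
      rwa [show (0 : Tor d M) u.1 - sg M u.2 * (c : ZMod M) = cS by
        rw [hcS, htop]; push_cast; simp only [Pi.zero_apply]; ring] at h1
    have hB : ∀ b ∈ EE, 1 / 4 ≤ p * ∑ x ∈ H, tt p L (hd b) x := by
      intro b hb
      have h1 : hd b u.1 = cL := (dp_eq_iff (by omega)).1 (hE2 b hb).2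
      have h2 : (h • dv M u : Tor d M) u.1 = sg M u.2 * (h : ZMod M) := by
        rw [Pi.smul_apply, dv_self, nsmul_eq_mul, mul_comm]
      have h3 := hD (h + (c + 1)) (h • dv M u) L (by omega) (by
        rw [cs_eq_sl _ u (by omega)]
        refine sl_sub u _ _ _ _ (3 * m - (2 * h + (c + 1))) ?_ (by omega) (by omega)
        rw [htop, Nat.cast_sub (by omega), h2]
        push_cast
        ring)
      rw [hHd, ← h2, hL, trans_sum hM, h1]
      rwa [show (h • dv M u : Tor d M) u.1 - sg M u.2 * ((h + (c + 1) : ℕ) : ZMod M) = cL by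
        rw [h2, hcL, htop]; push_cast; ring] at h3
    have hC : ∀ v, p * ∑ x ∈ H, tt p L v x ≤ 2 * lam ^ 2 * (1 + (ab (v u.1 - cS) : ℝ)) := by
      intro v
      have hl := lam_pos
      by_cases hv : v ∈ L
      swap
      · simp only [tt_of_left hv, sum_const_zero, mul_zero]
        positivity
      have e1 : sl (opp u) cL (3 * m + (c + 1)) = L := sl_opp u top (by omega)
      have h1 := (hLAY d M p hH (opp u) cL (3 * m + (c + 1)) L v (by omega) e1.ge).1 (h + (c + 1))
      have e2 : (univ.filter fun y => dp (opp u) cL y = h + (c + 1)) = H := by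
        ext y
        rw [mem_filter, hHd, mem_hp, dp_eq_iff (by omega), opp_fst, opp_snd, sg_not,
          show cL - -sg M u.2 * ((h + (c + 1) : ℕ) : ZMod M) = sg M u.2 * (h : ZMod M) by
            rw [hcL, htop]; push_cast; ring]
        simp
      rw [e2] at h1
      refine h1.trans ?_
      have h2 : dp (opp u) cL v ≤ 3 * m + (c + 1) := mem_sl.1 (e1.ge hv)
      have h3 := ab_eq_dp (u := opp u) (c := cL) (x := v) (by omega)
      have h4 := ab_tri cL cS (v u.1)
      have h5 : ab (cL - cS) ≤ 1 := by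
        rw [show cL - cS = -sg M u.2 by rw [hcL, hcS]; push_cast; ring, ab_neg]
        exact ab_sg_le _
      rw [opp_fst] at h3
      rw [ab_sub_comm cS] at h4
      have h6 : min (h + (c + 1)) (dp (opp u) cL v) + 1 ≤ 2 * (1 + ab (v u.1 - cS)) := by omega
      have h7 : ((min (h + (c + 1)) (dp (opp u) cL v) : ℕ) : ℝ) + 1 ≤ 2 * (1 + (ab (v u.1 - cS) : ℝ)) := by
        exact_mod_cast h6
      nlinarith [pow_pos hl 2]
    have hErr := (hE d M p hG).2.1 L S EE 0 (opp u) cS (3 * m + c) (by omega) (sl_opp u top (by omega)).ge hE1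
    rw [opp_fst] at hErr
    have h1 := mul_le_mul_of_nonneg_left (sum_le_sum fun x (_ : x ∈ H) => hslm x) p0
    rw [sum_add_distrib, sum_add_distrib, mul_add, mul_add] at h1
    have h2 : 1 / 16 ≤ p * ∑ x ∈ H, ∑ b ∈ EE, tt p S 0 b.1 * (p * tt p L (hd b) x) := by
      rw [sum_comm]
      calc (1 : ℝ) / 16 ≤ p * ∑ b ∈ EE, tt p S 0 b.1 * (1 / 4) := by rw [← sum_mul]; linarith
        _ ≤ _ := by
          refine mul_le_mul_of_nonneg_left (sum_le_sum fun b hb => ?_) p0
          rw [← mul_sum, ← mul_sum]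
          exact mul_le_mul_of_nonneg_left (hB b hb) (tt_nonneg p0 p1)
    have h3 : p * ∑ x ∈ H, ∑ v, Er p L S EE 0 v * tt p L v x ≤ 1 / 32 := by
      rw [sum_comm, mul_sum]
      calc _ ≤ ∑ v, 2 * lam ^ 2 * (Er p L S EE 0 v * (1 + (ab (v u.1 - cS) : ℝ))) := by
            refine sum_le_sum fun v _ => ?_
            rw [← mul_sum, mul_left_comm, mul_left_comm (2 * lam ^ 2)]
            exact mul_le_mul_of_nonneg_left (hC v) (er_nonneg p0 p1 _ _ _ _ _)
        _ ≤ 2 * lam ^ 2 * (1 / 66) := by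
            rw [← mul_sum]
            exact mul_le_mul_of_nonneg_left (hErr.trans hdC) (by positivity)
        _ ≤ _ := by rw [lam]; norm_num
    linarith
  have all : ∀ c : ℕ, c ≤ m → (c : ℝ) / 32 ≤ p * ∑ x ∈ H, tt p (sl u top (3 * m + c)) 0 x := by
    intro c
    induction c with
    | zero => exact fun _ => by simpa using mul_nonneg p0 (sum_nonneg fun x (_ : x ∈ H) => tt_nonneg p0 p1)
    | succ c ih =>
      intro hc
      have h1 := ih (by omega)
      have h2 := step c hc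
      push_cast
      linarith
  have := all m le_rfl
  rwa [show 3 * m + m = 4 * m by ring] at this

end Pool.Agent.HDE
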