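import Pool.Agent.Lib.HDE.BlueC
import Pool.Agent.Lib.HDE.Api2

/-! Block D2: layer masses inside a ball. -/

open Finset

namespace Pool.Agent.HDE

open Pool.Agent.TPC
open Pool.Agent.HD (rad tauT chiT)

namespace D2B

lemma sum_ind {d M : ℕ} [NeZero M] (i : Fin d) (a : ZMod M) (p : ℝ) (f : Tor d M → ℝ) :
    ∑ y, f y * (if y i = a then p else 0) = p * ∑ y ∈ hp i a, f y := by
  rw [hp, Finset.sum_filter, Finset.mul_sum]
  refine Finset.sum_congr rfl fun y _ => ?_
  split_ifs <;> ring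

lemma layer_eq {d M : ℕ} [NeZero M] (u : Dir d) (m h : ℕ) (hh : h ≤ m) (hM : 16 * m < M) :
    (univ.filter fun y : Tor d M => dp u (sg M u.2 * ((3 * m : ℕ) : ZMod M)) y = 3 * m - h) =
      hp u.1 (sg M u.2 * (h : ZMod M)) := by
  ext y
  rw [mem_filter, mem_hp, dp_eq_iff (by omega), Nat.cast_sub (by omega)]
  have e : sg M u.2 * ((3 * m : ℕ) : ZMod M) - sg M u.2 * (((3 * m : ℕ) : ZMod M) - (h : ZMod M)) =
      sg M u.2 * (h : ZMod M) := by ring
  rw [e]
  exact ⟨fun hy => hy.2, fun hy => ⟨mem_univ _, hy⟩⟩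

end D2B

open D2B

theorem t_d2 : T_D2 := by
  intro hL hC C₀ d h1
  obtain ⟨K, hK⟩ := h1
  obtain ⟨R, hR1, hR⟩ := hC d (1 / 320) (by norm_num)
  refine ⟨K, 5 * R, fun M _ p hG i m a ha hM hch => ?_⟩
  have H : Hyp d M p := hG.toHyp
  have p0 := H.p0
  have p1 := H.p1
  rcases Nat.eq_zero_or_pos m with hm | hm
  · subst hm
    rw [Nat.cast_zero, zero_div]
    exact sum_nonneg fun _ _ => t0_nonneg p0 p1
  obtain ⟨b, hb⟩ := eq_sg_ab a
  generalize ab a = h at ha hb
  subst hb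
  have d1 := hK M p hG (i, b) m h ha (by omega) hch
  have lay := layer_eq (M := M) (i, b) m h ha hM
  dsimp only at d1 lay
  generalize hc : sg M b * ((3 * m : ℕ) : ZMod M) = c at d1 lay
  generalize sg M b * (h : ZMod M) = a at d1 lay ⊢
  have h0 : (0 : Tor d M) ∈ sl (i, b) c (4 * m) := by
    have : dp (i, b) c (0 : Tor d M) = 3 * m := by
      rw [dp_eq_iff (by omega)]
      dsimp only
      rw [hc, sub_self]
      rfl
    rw [mem_sl, this]
    omega
  have g0 : ∀ y : Tor d M, 0 ≤ (if y i = a then p else 0) := fun y => by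
    split_ifs
    · exact p0
    · exact le_rfl
  have hB : ∀ o ∈ sl (i, b) c (4 * m), ∑ y, tt p (sl (i, b) c (4 * m)) o y *
      (if y i = a then p else 0) ≤ (3 * (m : ℝ) + 1) * lam ^ 2 := by
    intro o _
    have := (hL d M p H (i, b) c (4 * m) _ o (by omega) (Subset.refl _)).1 (3 * m - h)
    rw [lay] at this
    rw [sum_ind]
    refine this.trans (mul_le_mul_of_nonneg_right ?_ (sq_nonneg _))
    have h2 : min (3 * m - h) (dp (i, b) c o) ≤ 3 * m := (min_le_left _ _).trans (Nat.sub_le _ _)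
    have h3 : ((min (3 * m - h) (dp (i, b) c o) : ℕ) : ℝ) ≤ ((3 * m : ℕ) : ℝ) := Nat.cast_le.2 h2
    rw [Nat.cast_mul, Nat.cast_ofNat] at h3
    linarith
  have cut := hR M p H (i, b) c (4 * m) _ (fun y => if y i = a then p else 0) _ (by omega)
    (Subset.refl _) g0 hB 0 h0
  rw [← sum_ind, ← Finset.sum_filter_add_sum_filter_not univ
    (fun y : Tor d M => R * (4 * m + 1) ≤ rad (y - 0))] at d1
  have near : ∑ y ∈ univ.filter (fun y : Tor d M => ¬ R * (4 * m + 1) ≤ rad (y - 0)),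
      tt p (sl (i, b) c (4 * m)) 0 y * (if y i = a then p else 0) ≤
      ∑ x ∈ hp i a ∩ bl (0 : Tor d M) (5 * R * m), t0 p x := by
    rw [← Finset.sum_filter_add_sum_filter_not _ (fun y : Tor d M => y i = a)]
    have z : ∑ y ∈ (univ.filter (fun y : Tor d M => ¬ R * (4 * m + 1) ≤ rad (y - 0))).filter
        (fun y : Tor d M => ¬ y i = a),
        tt p (sl (i, b) c (4 * m)) 0 y * (if y i = a then p else 0) = 0 :=
      sum_eq_zero fun y hy => by rw [if_neg (mem_filter.1 hy).2, mul_zero]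
    rw [z, add_zero]
    refine (sum_le_sum (g := fun y => t0 p y) fun y hy => ?_).trans
      (sum_le_sum_of_subset_of_nonneg (fun y hy => ?_) fun _ _ _ => t0_nonneg p0 p1)
    · rw [if_pos (mem_filter.1 hy).2]
      have h2 : tt p (sl (i, b) c (4 * m)) 0 y ≤ t0 p y := tt_mono p0 p1 (subset_univ _)
      have h3 : 0 ≤ tt p (sl (i, b) c (4 * m)) 0 y := tt_nonneg p0 p1
      exact (mul_le_of_le_one_right h3 p1).trans h2
    · rw [mem_filter, mem_filter] at hy
      rw [mem_inter, mem_hp, mem_bl]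
      refine ⟨hy.2, ?_⟩
      have h2 := not_le.1 hy.1.2
      have h3 : R * (4 * m + 1) ≤ R * (5 * m) := Nat.mul_le_mul_left _ (by omega)
      have h4 : R * (5 * m) = 5 * R * m := by ring
      omega
  have hm1 : (1 : ℝ) ≤ m := by exact_mod_cast hm
  have hl : lam ^ 2 = 10201 / 10000 := by rw [lam]; norm_num
  rw [hl] at cut
  linarith

end Pool.Agent.HDE
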