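import Pool.Agent.Lib.HDE.BlueC
import Pool.Agent.Lib.HDE.Api2

/-! Block D4A: the first descent, removing one face function. -/

open Finset

namespace Pool.Agent.HDE

open Pool.Agent.TPC
open Pool.Agent.HD (rad tauT chiT)

namespace D4AB

variable {d M : ℕ} [NeZero M]

lemma ff_nonneg {p : ℝ} (h0 : 0 ≤ p) (h1 : p ≤ 1) (u : Dir d) (r : ℕ) (y : Tor d M) :
    0 ≤ ff p u r y := by
  unfold ff
  split_ifs
  · exact tt_nonneg h0 h1
  · exact le_rfl

lemma step {f g t κ : Tor d M → ℝ} {G : ℝ} {e : Tor d M} (hf : ∀ y, 0 ≤ f y)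
    (h : ∀ z, cv g t (z - e) ≤ G * t z + cv κ t z) (x : Tor d M) :
    cv (cv f g) t (x - e) ≤ G * cv f t x + cv κ (cv f t) x := by
  have e1 : cv κ (cv f t) = cv f (cv κ t) := by
    rw [← cv_assoc, cv_comm κ f, cv_assoc]
  rw [cv_assoc, e1]
  have e2 : G * cv f t x + cv f (cv κ t) x = ∑ y, f y * (G * t (x - y) + cv κ t (x - y)) := by
    have e3 : cv f t x = ∑ y, f y * t (x - y) := rfl
    have e4 : cv f (cv κ t) x = ∑ y, f y * cv κ t (x - y) := rfl
    rw [e3, e4, mul_sum, ← sum_add_distrib]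
    exact sum_congr rfl fun y _ => by ring
  rw [e2]
  have e5 : cv f (cv g t) (x - e) = ∑ y, f y * cv g t (x - e - y) := rfl
  rw [e5]
  refine sum_le_sum fun y _ => mul_le_mul_of_nonneg_left ?_ (hf y)
  rw [sub_right_comm]
  exact h (x - y)

end D4AB

theorem t_d4a : T_D4A := by
  intro hDSC hFSUP d C₀ A c hd hc
  obtain ⟨C, hC0, hF⟩ := hFSUP d C₀ A hd
  have hε : 0 < c / (2 * (C + 1)) := by positivity
  obtain ⟨G, C', K, hG, -, hD⟩ := hDSC d C₀ _ hε
  have hG0 : 0 < G := by linarith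
  refine ⟨c / (2 * G), K, by positivity, ?_⟩
  intro M _ p hp u m r x hm hmr hM hx
  have p0 : 0 ≤ p := hp.toGood.toHyp.p0
  have p1 : p ≤ 1 := hp.toGood.toHyp.p1
  obtain ⟨κ, k0, k1, k2, -⟩ := hD M p hp.toGood (opp u) r hM
  have hf := D4AB.ff_nonneg (M := M) p0 p1 u r
  have h1 := D4AB.step hf k2 x
  have hmp : (0 : ℝ) ≤ (m : ℝ) ^ (d - 2) := by positivity
  have h2 : ∀ w, cv (ff p u r) (t0 p) w * (m : ℝ) ^ (d - 2) ≤ C := fun w => by
    refine le_trans (mul_le_mul_of_nonneg_left ?_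
      (cv_nonneg hf (fun _ => t0_nonneg p0 p1) w)) (hF M p hp u r w (by omega) (by omega))
    exact pow_le_pow_left₀ (by positivity) (by exact_mod_cast hmr) _
  have h3 : cv κ (cv (ff p u r) (t0 p)) x * (m : ℝ) ^ (d - 2) ≤ c / 2 := by
    have e : cv κ (cv (ff p u r) (t0 p)) x = ∑ v, κ v * cv (ff p u r) (t0 p) (x - v) := rfl
    rw [e, sum_mul]
    calc ∑ v, κ v * cv (ff p u r) (t0 p) (x - v) * (m : ℝ) ^ (d - 2) ≤ ∑ v, κ v * C :=
          sum_le_sum fun v _ => by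
            rw [mul_assoc]
            exact mul_le_mul_of_nonneg_left (h2 _) (k0 v)
      _ = (∑ v, κ v) * C := (sum_mul _ _ _).symm
      _ ≤ c / (2 * (C + 1)) * (C + 1) := mul_le_mul k1 (by linarith) hC0 hε.le
      _ = c / 2 := by field_simp
  have h4 := mul_le_mul_of_nonneg_right h1 hmp
  rw [add_mul, mul_assoc G] at h4
  rw [div_le_iff₀ (by positivity)]
  nlinarith

end Pool.Agent.HDE
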