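import Pool.Agent.Lib.HDE.BlueC
import Pool.Agent.Lib.HDE.Api2

open Finset

namespace Pool.Agent.HDE

open Pool.Agent.TPC
open Pool.Agent.HD (rad)

theorem t_d4b : T_D4B := by
  intro hL2 hS hD d B C₀ A c hd hB hc
  obtain ⟨G, C, K, hG, hC, H⟩ := hD d C₀ (c / (4 * (|A| + 1))) (by positivity)
  obtain ⟨CS, hCS, HS⟩ := hS d A (by omega)
  set C' : ℝ := C * (|A| * (4 * |C₀|) + 4 * ((B : ℝ) + 1) ^ 2 * |A| ^ 2 * CS) with hC'
  refine ⟨c / (2 * G), K, ⌈4 * C' / c⌉₊ + 1, by positivity, fun M _ p h u m x hm hM hx1 hx2 hcv => ?_⟩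
  have p0 := h.toHyp.p0
  have p1 := h.p1
  have m1 : (1 : ℝ) ≤ m := by exact_mod_cast (by omega : 1 ≤ m)
  have m0 : (0 : ℝ) < m := by linarith
  have mC : C' / m ≤ c / 4 := by
    have h1 : 4 * C' / c ≤ m := (Nat.le_ceil _).trans (by exact_mod_cast (by omega))
    rw [div_le_iff₀ hc] at h1
    rw [div_le_iff₀ m0]
    linarith
  set P : ℝ := (m : ℝ) ^ (d - 2) with hP
  have P0 : 0 < P := by positivity
  have far : ∀ w : Tor d M, m ≤ rad w → t0 p w ≤ |A| / P := fun w hw => by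
    rw [le_div_iff₀ P0]
    refine le_trans (mul_le_mul_of_nonneg_left ?_ (t0_nonneg p0 p1)) ((h.full w).trans (le_abs_self A))
    exact pow_le_pow_left₀ m0.le (by exact_mod_cast hw) _
  obtain ⟨κ, k0, k1, k2, k3⟩ := H M p h.toGood u (B * m) hM
  set φ : Tor d M → ℝ := fun v => if rad (x - v) ≤ m then t0 p (x - v) else 0 with hφ
  have φ0 : ∀ v, 0 ≤ φ v := fun v => by
    simp only [hφ]; split_ifs
    exacts [t0_nonneg p0 p1, le_rfl]
  have φ1 : ∀ v, φ v ≤ t0 p (x - v) := fun v => by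
    simp only [hφ]; split_ifs
    exacts [le_rfl, t0_nonneg p0 p1]
  have a0 : 0 ≤ |A| / P := by positivity
  have s0 : cv κ (t0 p) x ≤ c / (4 * (|A| + 1)) * (|A| / P) + ∑ v, κ v * φ v := by
    refine le_trans ?_ (add_le_add_left (mul_le_mul_of_nonneg_right k1 a0) _)
    rw [sum_mul, ← sum_add_distrib]
    refine sum_le_sum fun v _ => ?_
    rw [← mul_add]
    refine mul_le_mul_of_nonneg_left ?_ (k0 v)
    simp only [hφ]
    split_ifs with hv
    · linarith
    · rw [add_zero]; exact far _ (by omega)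
  have s1 : ∑ v, cv (t0 p) (t0 p) v * φ v ≤ 4 * |C₀| / m := by
    have h1 : ∑ v, cv (t0 p) (t0 p) v * φ v ≤ cv (cv (t0 p) (t0 p)) (t0 p) x := sum_le_sum fun v _ =>
      mul_le_mul_of_nonneg_left (φ1 v) (cv_nonneg (fun _ => t0_nonneg p0 p1) (fun _ => t0_nonneg p0 p1) v)
    have h2 := (hL2 C₀ d M p h.toGood).2.2.2.2.1 x
    have h3 : (m : ℝ) ≤ 2 * rad x := by exact_mod_cast hx2
    have h4 : 0 ≤ cv (cv (t0 p) (t0 p)) (t0 p) x := cv_nonneg
      (cv_nonneg (fun _ => t0_nonneg p0 p1) fun _ => t0_nonneg p0 p1) (fun _ => t0_nonneg p0 p1) x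
    refine h1.trans ?_
    rw [le_div_iff₀ m0]
    nlinarith [le_abs_self C₀, mul_le_mul_of_nonneg_left h3 h4]
  have s2 : ∑ v, φ v ≤ CS * (2 * m) ^ 2 := by
    have h1 : ∑ v, φ v = ∑ y ∈ bl x m, t0 p (x - y) := by
      simp only [hφ, bl, sum_filter, rad_sub_comm x]
    rw [h1]
    refine (HS M p p0 p1 h.full x m).2.trans (mul_le_mul_of_nonneg_left ?_ hCS)
    exact pow_le_pow_left₀ (by positivity) (by linarith) 2
  have s3 := k3 φ (|A| / P) φ0 a0 fun v z hv hz => far _ (by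
    have h1 : rad (x - v) ≤ m := by
      by_contra h'
      exact hv (if_neg h')
    have h2 : ab (z u.1) = B * m + K := by rw [hz, ab_sg_mul, ab_natCast (by omega)]
    have h3 := ab_le_rad (v - z) u.1
    have h4 := ab_le_rad (x - v) u.1
    have h5 := ab_le_rad x u.1
    have h6 := ab_tri (x u.1) (v u.1) (z u.1)
    have h7 := ab_sub_le (x u.1) (x u.1 - z u.1)
    rw [sub_sub_cancel] at h7
    rw [Pi.sub_apply] at h3 h4
    have := Nat.mul_le_mul_right m hB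
    omega)
  have P5 : (m : ℝ) ^ 5 ≤ P := pow_le_pow_right₀ m1 (by omega)
  have s4 : (∑ v, κ v * φ v) * P ≤ C' / m := by
    have h1 : (((B * m : ℕ) : ℝ) + 1) ^ 2 ≤ (((B : ℝ) + 1) * m) ^ 2 := by
      refine pow_le_pow_left₀ (by positivity) ?_ 2
      push_cast; linarith
    calc _ ≤ C * (|A| / P * (4 * |C₀| / m) + (((B : ℝ) + 1) * m) ^ 2 * (|A| / P) ^ 2 * (CS * (2 * m) ^ 2)) * P := by
          refine mul_le_mul_of_nonneg_right (s3.trans (mul_le_mul_of_nonneg_left (add_le_add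
            (mul_le_mul_of_nonneg_left s1 a0) ?_) hC)) P0.le
          exact mul_le_mul (mul_le_mul_of_nonneg_right h1 (by positivity)) s2 (sum_nonneg fun v _ => φ0 v)
            (by positivity)
      _ = C * (|A| * (4 * |C₀|) / m + 4 * ((B : ℝ) + 1) ^ 2 * |A| ^ 2 * CS * m ^ 4 / P) := by field_simp; ring
      _ ≤ C * (|A| * (4 * |C₀|) / m + 4 * ((B : ℝ) + 1) ^ 2 * |A| ^ 2 * CS * m ^ 4 / m ^ 5) := by gcongr
      _ = _ := by rw [hC']; field_simp
  have s5 : c / (4 * (|A| + 1)) * (|A| / P) * P ≤ c / 4 := by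
    rw [mul_assoc, div_mul_cancel₀ _ P0.ne', div_mul_eq_mul_div, div_le_div_iff₀ (by positivity) (by norm_num)]
    nlinarith
  have s6 := hcv.trans (mul_le_mul_of_nonneg_right ((k2 x).trans (add_le_add_right s0 _)) P0.le)
  rw [div_le_iff₀ (by positivity)]
  rw [add_mul, add_mul] at s6
  linarith

end Pool.Agent.HDE
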