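import Pool.Agent.Lib.HDE.B_MIR

/-! Removing one face function. -/

open Finset

namespace Pool.Agent.HDE

open Pool.Agent.TPC
open Pool.Agent.HD (rad)

open MIRB in
theorem t_dsc : T_DSC := by
  intro hSLK hEK d C₀ ε hε
  obtain ⟨C, hC, EK⟩ := hEK d C₀
  obtain ⟨K, hK1, hK⟩ : ∃ K : ℕ, 1 ≤ K ∧ C ≤ ε / 2 * K := by
    refine ⟨⌈2 * C / ε⌉₊ + 1, by omega, ?_⟩
    have := Nat.le_ceil (2 * C / ε)
    rw [div_le_iff₀ hε] at this
    push_cast
    linarith
  obtain ⟨q, hq, hq1⟩ : ∃ q : ℝ, q = (4 * d + 1) ^ K ∧ 1 ≤ q :=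
    ⟨_, rfl, one_le_pow₀ (by have : (0 : ℝ) ≤ d := Nat.cast_nonneg d; linarith)⟩
  obtain ⟨θ, hθ, hθ1, hθ2⟩ : ∃ θ : ℝ, 0 < θ ∧ θ ≤ 1 ∧ θ * q * C ≤ ε / 2 := by
    have h : 0 < q * C + 1 := by positivity
    refine ⟨min 1 (ε / 2 / (q * C + 1)), by positivity, min_le_left _ _, ?_⟩
    have := min_le_right 1 (ε / 2 / (q * C + 1))
    have h2 : 0 ≤ min 1 (ε / 2 / (q * C + 1)) := by positivity
    rw [le_div_iff₀ h] at this
    linarith
  refine ⟨q / θ, 4 * (q * C), K, (one_le_div hθ).2 (hθ1.trans hq1), by positivity, ?_⟩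
  intro M _ p hG u r hr
  have hM := hG.hM
  have h0 := hG.toHyp.p0
  have h1 := hG.p1
  set S := cs (0 : Tor d M) u.1 r with hS
  set c := sg M u.2 * (r : ZMod M) with hc
  set F := S.filter fun y => y u.1 = c with hF
  have sub : S ⊆ sl u c (2 * r) := by
    rw [hS, cs_eq_sl 0 u (by omega), Pi.zero_apply, zero_add]
  have Fc : ∀ y ∈ F, y u.1 = c := fun y hy => (mem_filter.1 hy).2
  obtain ⟨e2, e1, e3, e4⟩ := EK M p hG u c (2 * r) K univ S F 0 (by omega) (by omega) sub Fc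
  set g := fun y => y + K • dv M u with hg
  have n1 := E1_nonneg h0 h1 univ S F g 0
  have n2 := E2_nonneg h0 h1 univ S F g 0
  have split : ∀ φ : Tor d M → ℝ,
      ∑ v, (E2 p 1 univ S F id g 0 v + θ * q * E1 p 1 univ S F id g 0 v) * φ v =
      ∑ v, E2 p 1 univ S F id g 0 v * φ v + θ * q * ∑ v, E1 p 1 univ S F id g 0 v * φ v :=
    fun φ => by
      rw [mul_sum, ← sum_add_distrib]
      exact sum_congr rfl fun v _ => by ring
  refine ⟨fun v => E2 p 1 univ S F id g 0 v + θ * q * E1 p 1 univ S F id g 0 v,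
    fun v => add_nonneg (n2 v) (mul_nonneg (by positivity) (n1 v)), ?_, fun x => ?_,
    fun φ a hφ ha hz => ?_⟩
  · have := split fun _ => 1
    simp only [mul_one] at this
    rw [this]
    have b2 : ∑ v, E2 p 1 univ S F id g 0 v ≤ ε / 2 := by
      have hK0 : (0 : ℝ) < K := by exact_mod_cast hK1
      refine le_of_mul_le_mul_left (e2.trans ?_) hK0
      linarith
    have b3 := mul_le_mul_of_nonneg_left e1 (show 0 ≤ θ * q by positivity)
    linarith
  · have lo := hSLK d M hM p θ h0 h1 hθ.le hθ1 u c (2 * r) K univ S F 0 x hK1 (by omega) sub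
      (subset_univ _) (self_mem_cs 0 u.1 r) fun y hy =>
        ⟨(mem_filter.1 hy).1, Fc y hy, fun _ _ => mem_univ _⟩
    have re : cv (ff p u r) (t0 p) (x - K • dv M u) =
        ∑ y ∈ F, tt p S 0 y * tt p univ (y + K • dv M u) x := by
      rw [cv, hF, sum_filter]
      refine (sum_subset (subset_univ S) fun y _ hy => ?_).symm.trans
        (sum_congr rfl fun y _ => ?_)
      · rw [ff, tt_of_right hy, ite_self, zero_mul]
      · rw [ff, tt_univ hM, ite_mul, zero_mul, sub_sub, add_comm]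
    have hq2 : 1 ≤ q * p ^ K := by
      rw [hq, ← mul_pow]
      refine one_le_pow₀ ?_
      have := hG.lo
      linarith
    have := arith hθ (pow_pos hG.toHyp.ppos K) hq2 (tt_nonneg h0 h1)
      (sum_nonneg fun v _ => mul_nonneg (n1 v) (tt_nonneg h0 h1)) (tt_nonneg h0 h1) lo
    rw [re, cv, split]
    simp only [tt_univ hM, sub_zero] at this ⊢
    exact this
  · have hd : ∀ v, φ v ≠ 0 → ∀ y ∈ F, t0 p (v - (y + K • dv M u)) ≤ a := fun v hv y hy =>
      hz v _ hv (by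
        rw [Pi.add_apply, Pi.smul_apply, dv_self, Fc y hy, hc, nsmul_eq_mul]
        push_cast; ring)
    have sφ : 0 ≤ ∑ v, φ v := sum_nonneg fun v _ => hφ v
    have sc : 0 ≤ ∑ v, cv (t0 p) (t0 p) v * φ v := sum_nonneg fun v _ =>
      mul_nonneg (cv_nonneg (fun _ => t0_nonneg h0 h1) (fun _ => t0_nonneg h0 h1) v) (hφ v)
    have b1 : ∑ v, E2 p 1 univ S F id g 0 v * φ v ≤ C * (a * ∑ v, cv (t0 p) (t0 p) v * φ v) := by
      rw [mul_sum, mul_sum]
      refine sum_le_sum fun v _ => ?_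
      by_cases hv : φ v = 0
      · simp [hv]
      · have := mul_le_mul_of_nonneg_right (e4 v a ha (hd v hv)) (hφ v)
        rw [sub_zero] at this
        linarith
    have b2 := e3 φ (a ^ 2 * ∑ v, φ v) hφ (by positivity) fun y hy => by
      rw [mul_sum]
      refine sum_le_sum fun v _ => ?_
      by_cases hv : φ v = 0
      · simp [hv]
      · exact mul_le_mul_of_nonneg_right
          (pow_le_pow_left₀ (t0_nonneg h0 h1) (hd v hv y hy) 2) (hφ v)
    have b3 : (((2 * r : ℕ) : ℝ) + 1) ^ 2 ≤ 4 * ((r : ℝ) + 1) ^ 2 := by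
      have : (0 : ℝ) ≤ r := Nat.cast_nonneg r
      push_cast
      nlinarith
    have b4 : ∑ v, E1 p 1 univ S F id g 0 v * φ v ≤
        C * (4 * ((r : ℝ) + 1) ^ 2) * (a ^ 2 * ∑ v, φ v) :=
      b2.trans (mul_le_mul_of_nonneg_right (mul_le_mul_of_nonneg_left b3 hC) (by positivity))
    have b5 : θ * q ≤ q := mul_le_of_le_one_left (by positivity) hθ1
    have b6 := mul_le_mul b5 b4 (sum_nonneg fun v _ => mul_nonneg (n1 v) (hφ v)) (by positivity)
    have b7 : C ≤ 4 * (q * C) := by nlinarith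
    have b8 := mul_le_mul_of_nonneg_right b7 (mul_nonneg ha sc)
    rw [split]
    linarith

end Pool.Agent.HDE
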