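import Pool.Agent.Lib.HDE.BlueC
import Pool.Agent.Lib.HDE.Api2

/-! Block EK: the error kernels of the shifted lower Simon-Lieb inequality. -/

open Finset

namespace Pool.Agent.HDE

open Pool.Agent.TPC

namespace EKB

variable {d M : ℕ} [NeZero M] {p : ℝ}

lemma bub (hM : 3 ≤ M) (x z : Tor d M) :
    ∑ v, t0 p (v - x) * t0 p (v - z) = cv (t0 p) (t0 p) (x - z) := by
  refine Fintype.sum_equiv (Equiv.subRight z) _ _ fun v => ?_
  rw [Equiv.subRight_apply, mul_comm, ← t0_neg hM (v - x)]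
  congr 2
  abel

lemma div_bd (h : Hyp d M p) {s t : ℝ} (ht : 0 ≤ t) (hs : p * s ≤ t) : s ≤ 4 * d * t := by
  have h1 := h.ppos
  have h2 : s ≤ 1 / p * t := by
    rw [one_div, ← div_eq_inv_mul, le_div_iff₀ h1]
    linarith
  exact h2.trans (mul_le_mul_of_nonneg_right h.inv_le ht)

lemma layer (hL : St_LAYER) (h : Hyp d M p) {u : Dir d} {c : ZMod M} {n : ℕ}
    {S : Finset (Tor d M)} (o : Tor d M) (hn : 2 * n < M) (hS : S ⊆ sl u c n)
    (H f : Tor d M → ℝ) (hf : ∀ a, 0 ≤ f a)
    (hH : ∀ w, H w ≤ ∑ a, if a u.1 = c - w u.1 then f a else 0) :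
    ∑ w, tt p S o w * H w ≤ 4 * d * lam ^ 2 * ∑ a, (1 + (ab (a u.1) : ℝ)) * f a := by
  have t : ∀ w, 0 ≤ tt p S o w := fun w => tt_nonneg h.p0 h.p1
  refine (sum_le_sum fun w _ => mul_le_mul_of_nonneg_left (hH w) (t w)).trans ?_
  simp only [mul_sum]
  rw [sum_comm]
  refine sum_le_sum fun a _ => ?_
  have key : ∑ w, (if a u.1 = c - w u.1 then tt p S o w else 0) ≤
      4 * d * lam ^ 2 * (1 + (ab (a u.1) : ℝ)) := by
    by_cases hw : ∃ w0 ∈ S, a u.1 = c - w0 u.1
    · obtain ⟨w0, h0, e0⟩ := hw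
      have hk := mem_sl.1 (hS h0)
      have h1 := (hL d M p h u c n S o hn hS).1 (dp u c w0)
      have h2 : ((min (dp u c w0) (dp u c o) : ℕ) : ℝ) ≤ ab (a u.1) := by
        rw [e0, ab_eq_dp (by omega)]
        exact_mod_cast min_le_left _ _
      have h3 := div_bd h (t := lam ^ 2 * (1 + (ab (a u.1) : ℝ))) (by positivity)
        (h1.trans (by nlinarith [sq_nonneg lam]))
      rw [mul_assoc]
      refine le_trans ?_ h3
      rw [sum_filter]
      refine sum_le_sum fun w _ => ?_
      by_cases e : a u.1 = c - w u.1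
      · rw [if_pos e, if_pos (dp_congr (e.symm.trans e0))]
      · rw [if_neg e]
        split_ifs
        · exact t w
        · exact le_rfl
    · rw [sum_eq_zero]
      · positivity
      · intro w _
        split_ifs with e
        · exact tt_of_right fun hw' => hw ⟨w, hw', e⟩
        · rfl
  have := mul_le_mul_of_nonneg_right key (hf a)
  rw [sum_mul, mul_assoc] at this
  refine le_trans (le_of_eq (sum_congr rfl fun w _ => ?_)) this
  split_ifs <;> simp

lemma shift {i : Fin d} {c : ZMod M} {F : Finset (Tor d M)} (hF : ∀ y ∈ F, y i = c)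
    (f : Tor d M → ℝ) (hf : ∀ a, 0 ≤ f a) (w : Tor d M) :
    ∑ y ∈ F, f (y - w) ≤ ∑ a, if a i = c - w i then f a else 0 := by
  rw [← (Equiv.subRight w).sum_comp]
  refine le_trans (sum_le_sum fun y hy => ?_) (sum_le_sum_of_subset_of_nonneg (subset_univ F)
    fun y _ _ => ?_)
  · rw [Equiv.subRight_apply, if_pos (by rw [Pi.sub_apply, hF y hy])]
  · split_ifs
    · exact hf _
    · exact le_rfl

lemma face (hF : St_FACE) (h : Hyp d M p) {u : Dir d} {c : ZMod M} {n : ℕ}
    {S F : Finset (Tor d M)} (hn : 2 * n < M) (hS : S ⊆ sl u c n) (hc : ∀ y ∈ F, y u.1 = c)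
    (w : Tor d M) : ∑ y ∈ F, tt p S w y ≤ 4 * d * lam := by
  refine le_trans (sum_le_sum_of_subset_of_nonneg (fun y hy => mem_hp.2 (hc y hy))
    fun y _ _ => tt_nonneg h.p0 h.p1) ?_
  exact div_bd h lam_pos.le ((hF d M p h).1 u c n S w hn hS)

end EKB

open EKB in
theorem t_ek : T_EK := by
  intro hF hL hL2 d C₀
  have l0 := lam_pos
  refine ⟨4 * d * lam ^ 2 * (2 * |C₀|) + 4 * d * lam ^ 2 * (4 * d * lam) ^ 2 + 4 * d * lam,
    by positivity, fun M _ p hG u c n K L S F o hn hK hS hc => ?_⟩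
  have h := hG.toHyp
  have hM := h.hM
  obtain ⟨c0, -, -, i4, -, i6⟩ := hL2 C₀ d M p hG
  rw [abs_of_nonneg c0]
  have T0 : ∀ x : Tor d M, 0 ≤ t0 p x := fun x => t0_nonneg h.p0 h.p1
  have t0' : ∀ (U : Finset (Tor d M)) x y, 0 ≤ tt p U x y := fun U x y => tt_nonneg h.p0 h.p1
  have tl : ∀ (U : Finset (Tor d M)) x y, tt p U x y ≤ t0 p (y - x) :=
    fun U x y => tt_le_t0 hM h.p0 h.p1
  have V0 : ∀ x : Tor d M, 0 ≤ cv (t0 p) (t0 p) x := cv_nonneg T0 T0
  have q1 : (0 : ℝ) ≤ 4 * d * lam ^ 2 := by positivity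
  have q2 : (0 : ℝ) ≤ 4 * d * lam := by positivity
  have q3 : 0 ≤ 4 * d * lam ^ 2 * (2 * C₀) := by positivity
  have q4 : 0 ≤ 4 * d * lam ^ 2 * (4 * d * lam) ^ 2 := by positivity
  generalize he : K • dv M u = e
  refine ⟨?_, ?_, fun φ B hφ hB hb => ?_, fun v a ha hb => ?_⟩
  · have h1 := layer hL h o hn hS
      (fun w => ∑ v, tt p S w v * ∑ y ∈ F, tt p S w y * (1 * tt p L (y + e) v))
      (fun a => t0 p a * cv (t0 p) (t0 p) (a + e)) (fun a => mul_nonneg (T0 _) (V0 _)) fun w => by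
        refine le_trans ?_ (shift hc _ (fun a => mul_nonneg (T0 _) (V0 _)) w)
        simp only [mul_sum, one_mul]
        rw [sum_comm]
        refine sum_le_sum fun y _ => ?_
        rw [show y - w + e = y + e - w by abel, ← bub hM, mul_sum]
        refine sum_le_sum fun v _ => ?_
        have := mul_le_mul (tl S w v) (mul_le_mul (tl S w y) (tl L (y + e) v) (t0' _ _ _) (T0 _))
          (mul_nonneg (t0' _ _ _) (t0' _ _ _)) (T0 _)
        linarith
    have h2 := i4 u.1 e
    have e1 : ab (e u.1) = K := by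
      rw [← he, Pi.smul_apply, dv_self, nsmul_eq_mul, mul_comm, ab_sg_mul, ab_natCast hK.le]
    have e2 : ∑ a : Tor d M, (1 + (ab (a u.1) : ℝ)) * t0 p a * cv (t0 p) (t0 p) (e - a) =
        ∑ a : Tor d M, (1 + (ab (a u.1) : ℝ)) * (t0 p a * cv (t0 p) (t0 p) (a + e)) := by
      refine Fintype.sum_equiv (Equiv.neg _) _ _ fun a => ?_
      rw [Equiv.neg_apply, Pi.neg_apply, ab_neg, t0_neg hM, neg_add_eq_sub, mul_assoc]
    rw [e1, e2] at h2
    have e3 : ∑ v, E2 p 1 L S F id (fun y => y + e) o v = ∑ w, tt p S o w *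
        ∑ v, tt p S w v * ∑ y ∈ F, tt p S w y * (1 * tt p L (y + e) v) := by
      simp only [E2, id]
      rw [sum_comm]
      refine sum_congr rfl fun w _ => ?_
      rw [mul_sum]
      exact sum_congr rfl fun v _ => mul_assoc _ _ _
    rw [e3]
    have h3 := mul_le_mul_of_nonneg_left h1 (Nat.cast_nonneg (α := ℝ) K)
    have h4 := mul_le_mul_of_nonneg_left h2 q1
    linarith
  · have f0 : ∀ a : Tor d M, 0 ≤ ∑ a', t0 p a * t0 p a' * cv (t0 p) (t0 p) (a - a') :=
      fun a => sum_nonneg fun a' _ => mul_nonneg (mul_nonneg (T0 _) (T0 _)) (V0 _)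
    have h1 := layer hL h o hn hS
      (fun w => ∑ v, ∑ y ∈ F, ∑ y' ∈ F.erase y, tt p S w y * (1 * tt p L (y + e) v) *
        (tt p S w y' * (1 * tt p L (y' + e) v)))
      (fun a => ∑ a', t0 p a * t0 p a' * cv (t0 p) (t0 p) (a - a')) f0 fun w => by
        refine le_trans ?_ (shift hc _ f0 w)
        rw [sum_comm]
        refine sum_le_sum fun y _ => ?_
        rw [sum_comm, ← (Equiv.subRight w).sum_comp]
        refine le_trans (sum_le_sum fun y' _ => ?_) (sum_le_sum_of_subset_of_nonneg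
          (subset_univ (F.erase y)) fun y' _ _ => mul_nonneg (mul_nonneg (T0 _) (T0 _)) (V0 _))
        rw [Equiv.subRight_apply, show y - w - (y' - w) = y + e - (y' + e) by abel, ← bub hM,
          mul_sum]
        refine sum_le_sum fun v _ => ?_
        have := mul_le_mul (mul_le_mul (tl S w y) (tl L (y + e) v) (t0' _ _ _) (T0 _))
          (mul_le_mul (tl S w y') (tl L (y' + e) v) (t0' _ _ _) (T0 _))
          (mul_nonneg (t0' _ _ _) (t0' _ _ _)) (mul_nonneg (T0 _) (T0 _))
        linarith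
    have h2 := i6 u.1
    have e2 : ∑ a : Tor d M, (1 + (ab (a u.1) : ℝ)) *
        ∑ a', t0 p a * t0 p a' * cv (t0 p) (t0 p) (a - a') = ∑ a : Tor d M, ∑ a' : Tor d M,
          (1 + (ab (a u.1) : ℝ)) * t0 p a * t0 p a' * cv (t0 p) (t0 p) (a - a') := by
      refine sum_congr rfl fun a _ => ?_
      rw [mul_sum]
      exact sum_congr rfl fun a' _ => by ring
    rw [e2] at h1
    have e3 : ∑ v, E1 p 1 L S F id (fun y => y + e) o v = ∑ w, tt p S o w *
        ∑ v, ∑ y ∈ F, ∑ y' ∈ F.erase y, tt p S w y * (1 * tt p L (y + e) v) *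
          (tt p S w y' * (1 * tt p L (y' + e) v)) := by
      simp only [E1, id]
      rw [sum_comm]
      exact sum_congr rfl fun w _ => (mul_sum _ _ _).symm
    rw [e3]
    have h4 := mul_le_mul_of_nonneg_left h2 q1
    linarith
  · have h1 : ∀ w, ∑ v, (∑ y ∈ F, ∑ y' ∈ F.erase y, tt p S w y * (1 * tt p L (y + e) v) *
        (tt p S w y' * (1 * tt p L (y' + e) v))) * φ v ≤ (4 * d * lam) ^ 2 * B := by
      intro w
      have a1 := face hF h hn hS hc w
      have a0 : 0 ≤ ∑ y ∈ F, tt p S w y := sum_nonneg fun y _ => t0' _ _ _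
      refine le_trans ?_ (mul_le_mul_of_nonneg_right (pow_le_pow_left₀ a0 a1 2) hB)
      simp only [sum_mul, sq, mul_sum]
      rw [sum_comm]
      refine sum_le_sum fun y hy => ?_
      rw [sum_comm]
      refine le_trans (sum_le_sum fun y' hy' => ?_) (sum_le_sum_of_subset_of_nonneg
        (erase_subset y F) fun y' _ _ => mul_nonneg (mul_nonneg (t0' _ _ _) (t0' _ _ _)) hB)
      have b1 := hb y hy
      have b2 := hb y' (mem_of_mem_erase hy')
      have b3 : ∑ v, tt p L (y + e) v * tt p L (y' + e) v * φ v ≤ B := by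
        have : ∑ v, tt p L (y + e) v * tt p L (y' + e) v * φ v ≤
            ∑ v, (t0 p (v - (y + e)) ^ 2 * φ v + t0 p (v - (y' + e)) ^ 2 * φ v) / 2 := by
          refine sum_le_sum fun v _ => ?_
          have m1 := mul_le_mul (tl L (y + e) v) (tl L (y' + e) v) (t0' _ _ _) (T0 _)
          have m2 : tt p L (y + e) v * tt p L (y' + e) v ≤
              (t0 p (v - (y + e)) ^ 2 + t0 p (v - (y' + e)) ^ 2) / 2 := by
            nlinarith [sq_nonneg (t0 p (v - (y + e)) - t0 p (v - (y' + e)))]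
          have := mul_le_mul_of_nonneg_right m2 (hφ v)
          linarith
        rw [← sum_div, sum_add_distrib] at this
        linarith
      have b4 := mul_le_mul_of_nonneg_left b3 (mul_nonneg (t0' S w y) (t0' S w y'))
      rw [mul_sum] at b4
      refine le_trans (le_of_eq (sum_congr rfl fun v _ => by ring)) (b4.trans (le_of_eq ?_))
      ring
    have h2 := div_bd h (by positivity) (hL d M p h u c n S o hn hS).2
    have e3 : ∑ v, E1 p 1 L S F id (fun y => y + e) o v * φ v = ∑ w, tt p S o w *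
        ∑ v, (∑ y ∈ F, ∑ y' ∈ F.erase y, tt p S w y * (1 * tt p L (y + e) v) *
          (tt p S w y' * (1 * tt p L (y' + e) v))) * φ v := by
      simp only [E1, id]
      rw [sum_congr rfl fun v _ => sum_mul _ _ _, sum_comm]
      refine sum_congr rfl fun w _ => ?_
      rw [mul_sum]
      exact sum_congr rfl fun v _ => mul_assoc _ _ _
    rw [e3]
    refine (sum_le_sum fun w _ => mul_le_mul_of_nonneg_left (h1 w) (t0' _ _ _)).trans ?_
    rw [← sum_mul]
    refine (mul_le_mul_of_nonneg_right h2 (by positivity)).trans ?_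
    have z : 0 ≤ ((n : ℝ) + 1) ^ 2 * B := by positivity
    nlinarith [mul_nonneg q3 z, mul_nonneg q2 z]
  · have h1 : E2 p 1 L S F id (fun y => y + e) o v ≤
        ∑ w, t0 p (w - o) * t0 p (w - v) * (4 * d * lam * a) := by
      refine sum_le_sum fun w _ => mul_le_mul ?_ ?_ (sum_nonneg fun y _ =>
        mul_nonneg (t0' _ _ _) (mul_nonneg zero_le_one (t0' _ _ _))) (mul_nonneg (T0 _) (T0 _))
      · refine mul_le_mul (tl S o w) ?_ (t0' _ _ _) (T0 _)
        rw [tt_comm]
        exact tl S v w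
      · refine le_trans ?_ (mul_le_mul_of_nonneg_right (face hF h hn hS hc w) ha)
        rw [sum_mul]
        refine sum_le_sum fun y hy => mul_le_mul_of_nonneg_left ?_ (t0' _ _ _)
        rw [one_mul]
        exact (tl L _ v).trans (hb y hy)
    rw [← sum_mul, sum_congr rfl fun w _ => mul_comm _ _, bub hM] at h1
    have z := mul_nonneg ha (V0 (v - o))
    nlinarith [mul_nonneg q3 z, mul_nonneg q4 z]

end Pool.Agent.HDE
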