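import Pool.Agent.Lib.HDE.BlueC
import Pool.Agent.Lib.HDE.Api2

/-! The two-point bounds on the torus: final assembly. -/

open Finset

namespace Pool.Agent.HDE

open Pool.Agent.TPC
open Pool.Agent.HD (rad tauT chiT)

theorem t_end : T_END := by
  intro hB hG hU h1 h2 hP hL
  obtain ⟨C₀, dG, hC₀, hG⟩ := hG
  obtain ⟨d1, h1⟩ := h1 C₀ hC₀
  refine ⟨max (max dG d1) 7, fun d hd => ?_⟩
  have d7 : 7 ≤ d := (le_max_right _ _).trans hd
  have dg : dG ≤ d := ((le_max_left _ _).trans (le_max_left _ _)).trans hd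
  have dd : d1 ≤ d := ((le_max_right _ _).trans (le_max_left _ _)).trans hd
  obtain ⟨A, hA, hU⟩ := hU d C₀ (by omega)
  obtain ⟨c, K, n₀, hc, hL⟩ := hL d C₀ A d7 (hP d C₀ A (by omega) (h2 C₀ d (h1 d dd)))
  refine ⟨c, A + c * n₀, max 3 K, hc, fun M _ hM p p0 p1 hch => ?_⟩
  obtain ⟨b1, -, b3, -⟩ := hB d M hM
  obtain ⟨e1, e2⟩ := b1 p p0 p1
  rw [e2] at hch ⊢
  have hcn : 0 ≤ c * n₀ := by positivity
  refine ⟨?_, fun hK x hx => ?_⟩
  · by_cases h : 4 * d * p ≤ 1
    · have : 0 ≤ (d : ℝ) * p := by positivity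
      linarith
    · have := (hG d M p dg hM (not_le.1 h).le p1 hch).phi.1
      rw [lam] at this
      linarith
  have h4 : 1 ≤ 4 * d * p := by
    by_contra h
    have := b3 p p0 p1 (not_le.1 h).le
    have := le_max_left 3 K
    linarith
  have hC := hU M p (hG d M p dg hM h4 p1 hch) hch
  have hr : 1 ≤ rad x := Nat.one_le_iff_ne_zero.2 fun h => hx (rad_eq_zero.1 h)
  have hr' : (1 : ℝ) ≤ rad x := by exact_mod_cast hr
  rw [e1]
  refine ⟨(hC.full x).trans (by linarith), fun hK' => ?_⟩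
  by_cases hn : n₀ ≤ rad x
  · have a := hL M p hC x hn
      ((mul_le_mul_of_nonneg_right (le_max_right 3 K) (by positivity)).trans hK')
    have : 0 ≤ (A + c * n₀) / (rad x : ℝ) := by positivity
    linarith
  · have a : (rad x : ℝ) ≤ n₀ := by exact_mod_cast (not_le.1 hn).le
    have b : c ≤ (A + c * n₀) / (rad x : ℝ) := by
      rw [le_div_iff₀ (by linarith)]
      have := mul_le_mul_of_nonneg_left a hc.le
      linarith
    have : 0 ≤ t0 p x * (rad x : ℝ) ^ (d - 2) := mul_nonneg (t0_nonneg p0 p1) (by positivity)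
    linarith

end Pool.Agent.HDE
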