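import Pool.Agent.Lib.HDE.Api2

/-! Exit masses of faces. -/

open Finset

namespace Pool.Agent.HDE

open Pool.Agent.TPC

namespace FACE

variable {d M : ℕ} [NeZero M] {p : ℝ}

/-- the edges leaving the hyperplane `x (u.1) = c` in the direction `u` -/
def face (u : Dir d) (c : ZMod M) : Finset (Tor d M × Dir d) :=
  (hp u.1 c).map ⟨fun y => (y, u), fun _ _ h => congrArg Prod.fst h⟩

lemma mem_face {u : Dir d} {c : ZMod M} {b : Tor d M × Dir d} :
    b ∈ face u c ↔ b.1 u.1 = c ∧ b.2 = u := by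
  rw [face, mem_map]
  constructor
  · rintro ⟨y, hy, rfl⟩; exact ⟨mem_hp.1 hy, rfl⟩
  · rintro ⟨h1, h2⟩; exact ⟨b.1, mem_hp.2 h1, Prod.ext rfl h2.symm⟩

lemma xm_face (u : Dir d) (c : ZMod M) (S : Finset (Tor d M)) (o : Tor d M) :
    xm p S (face u c) o = p * ∑ y ∈ hp u.1 c, tt p S o y := by
  rw [xm, face, sum_map]; rfl

lemma face_sub (u : Dir d) (c : ZMod M) {n : ℕ} (hn : n + 1 < M) :
    face u c ⊆ ex univ (sl u c n) := by
  intro b hb
  obtain ⟨h1, h2⟩ := mem_face.1 hb
  have h0 : dp u c b.1 = 0 := dp_eq_zero.2 h1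
  refine mem_ex.2 ⟨mem_sl.2 (by omega), mem_univ _, fun h => ?_⟩
  rw [mem_sl, hd, h2, dp_add_dv' h0] at h
  omega

lemma xm_union {S : Finset (Tor d M)} {A B : Finset (Tor d M × Dir d)} (h : Disjoint A B)
    (o : Tor d M) : xm p S (A ∪ B) o = xm p S A o + xm p S B o := by
  rw [xm, xm, xm, sum_union h, mul_add]

lemma one (H : Hyp d M p) (u : Dir d) (c : ZMod M) (n : ℕ) (S : Finset (Tor d M)) (o : Tor d M)
    (hn : 2 * n < M) (hS : S ⊆ sl u c n) : p * ∑ y ∈ hp u.1 c, tt p S o y ≤ lam := by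
  by_cases ho : o ∈ S
  · have := H.hM
    rw [← xm_face]
    exact (xm_mono H.p0 H.p1 hS (face_sub u c (by omega))).trans
      (H.phi.2 _ (prism_sl u c hn) o (hS ho))
  · rw [sum_eq_zero fun y _ => tt_of_left ho, mul_zero]; exact lam_pos.le

lemma four (H : Hyp d M p) (i : Fin d) (n : ℕ) (o : Tor d M) (hn : 4 * n < M) :
    xm p (cs o i n) (ex univ (cs o i n)) o ≤ lam := by
  have := prism_cs o i i hn hn
  rw [inter_self] at this
  exact H.phi.2 _ this o (self_mem_cs o i n)

lemma two (H : Hyp d M p) (u : Dir d) (n : ℕ) (o : Tor d M) (hn : 4 * n < M) :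
    p * ∑ y ∈ hp u.1 (o u.1 + sg M u.2 * (n : ZMod M)), tt p (cs o u.1 n) o y ≤ lam / 2 := by
  have hM := H.hM
  have e1 := cs_eq_sl o u (n := n) (by omega)
  have e2 := cs_eq_sl o (opp u) (n := n) (by omega)
  have s1 : face u (o u.1 + sg M u.2 * (n : ZMod M)) ⊆ ex univ (cs o u.1 n) := by
    rw [e1]; exact face_sub _ _ (by omega)
  have s2 : face (opp u) (o (opp u).1 + sg M (opp u).2 * (n : ZMod M)) ⊆
      ex univ (cs o (opp u).1 n) := by
    rw [e2]; exact face_sub _ _ (by omega)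
  have hd : Disjoint (face u (o u.1 + sg M u.2 * (n : ZMod M)))
      (face (opp u) (o (opp u).1 + sg M (opp u).2 * (n : ZMod M))) :=
    disjoint_left.2 fun b h1 h2 => opp_ne u ((mem_face.1 h2).2.symm.trans (mem_face.1 h1).2)
  have h := (xm_mono H.p0 H.p1 subset_rfl (union_subset s1 s2)).trans (four H u.1 n o hn)
  rw [xm_union hd, xm_face, xm_face] at h
  have ho : rf u.1 (2 * o u.1) o = o := by
    funext j
    by_cases hj : j = u.1
    · rw [hj, rf_self]; ring
    · rw [rf_of_ne hj]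
  have hS : ∀ x, rf u.1 (2 * o u.1) x ∈ cs o u.1 n ↔ x ∈ cs o u.1 n := by
    intro x
    rw [mem_cs, mem_cs, rf_self, ← ab_neg]
    have : -(2 * o u.1 - x u.1 - o u.1) = x u.1 - o u.1 := by ring
    rw [this]
  have he : ∑ y ∈ hp u.1 (o u.1 + sg M u.2 * (n : ZMod M)), tt p (cs o u.1 n) o y =
      ∑ y ∈ hp (opp u).1 (o (opp u).1 + sg M (opp u).2 * (n : ZMod M)), tt p (cs o u.1 n) o y := by
    refine sum_equiv (rfE u.1 (2 * o u.1)) (fun y => ?_) fun y _ => ?_
    · rw [mem_hp, mem_hp, opp_fst, opp_snd, sg_not]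
      change _ ↔ rf u.1 (2 * o u.1) y u.1 = _
      rw [rf_self]
      constructor
      · intro h1; rw [h1]; ring
      · intro h1; linear_combination -h1
    · have := tt_rf (p := p) hM u.1 (2 * o u.1) hS o y
      rw [ho] at this
      exact this.symm
  rw [← he] at h
  linarith

/-- permutation of the coordinates about the centre `o` -/
def pc (σ : Equiv.Perm (Fin d)) (o : Tor d M) : Tor d M ≃ Tor d M :=
  (Equiv.subRight o).trans ((pm σ).trans (Equiv.addRight o))

omit [NeZero M] in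
lemma pc_apply (σ : Equiv.Perm (Fin d)) (o x : Tor d M) : pc σ o x = pm σ (x - o) + o := rfl

omit [NeZero M] in
lemma pc_add_dv (σ : Equiv.Perm (Fin d)) (o x : Tor d M) (u : Dir d) :
    pc σ o (x + dv M u) = pc σ o x + dv M (σ u.1, u.2) := by
  rw [pc_apply, pc_apply, add_sub_right_comm, pm_add_dv, add_right_comm]

omit [NeZero M] in
lemma pc_self (σ : Equiv.Perm (Fin d)) (o : Tor d M) : pc σ o o = o := by
  funext k; simp [pc_apply]

lemma three (H : Hyp d M p) (i j : Fin d) (n : ℕ) (o : Tor d M) (hij : i ≠ j) (hn : 4 * n < M) :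
    xm p (cs o i n ∩ cs o j n) ((ex univ (cs o i n ∩ cs o j n)).filter fun b => b.2.1 = j) o ≤
      lam / 2 := by
  have hM := H.hM
  set S := cs o i n ∩ cs o j n with hSd
  have hS : ∀ x, pc (Equiv.swap i j) o x ∈ S ↔ x ∈ S := by
    intro x
    simp only [hSd, mem_inter, mem_cs, pc_apply, Pi.add_apply, pm_apply, add_sub_cancel_right,
      Equiv.symm_swap, Equiv.swap_apply_left, Equiv.swap_apply_right, Pi.sub_apply]
    exact and_comm
  have ht : ∀ y, tt p S o (pc (Equiv.swap i j) o y) = tt p S o y := by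
    intro y
    have := tt_equiv (p := p) hM (pc (Equiv.swap i j) o) (fun u => (Equiv.swap i j u.1, u.2))
      (fun u => ⟨(Equiv.swap i j u.1, u.2), by simp⟩) (pc_add_dv _ o) hS o y
    rwa [pc_self] at this
  have he : xm p S ((ex univ S).filter fun b => b.2.1 = j) o =
      xm p S ((ex univ S).filter fun b => b.2.1 = i) o := by
    refine congrArg (p * ·) (sum_equiv ((pc (Equiv.swap i j) o).prodCongr
      ((Equiv.swap i j).prodCongr (Equiv.refl Bool))) (fun b => ?_) fun b _ => (ht b.1).symm)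
    have h1 : hd (((pc (Equiv.swap i j) o).prodCongr
        ((Equiv.swap i j).prodCongr (Equiv.refl Bool))) b) = pc (Equiv.swap i j) o (hd b) :=
      (pc_add_dv _ o b.1 b.2).symm
    rw [mem_filter, mem_filter, mem_ex, mem_ex, h1, hS]
    change _ ↔ (pc (Equiv.swap i j) o b.1 ∈ S ∧ _) ∧ Equiv.swap i j b.2.1 = i
    rw [hS, Equiv.swap_apply_eq_iff, Equiv.swap_apply_left]
    simp only [mem_univ]
  have hd : Disjoint ((ex univ S).filter fun b => b.2.1 = j)
      ((ex univ S).filter fun b => b.2.1 = i) :=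
    disjoint_left.2 fun b h1 h2 => hij ((mem_filter.1 h2).2.symm.trans (mem_filter.1 h1).2)
  have h := (xm_mono H.p0 H.p1 subset_rfl (union_subset (filter_subset (fun b => b.2.1 = j) _)
    (filter_subset (fun b => b.2.1 = i) _))).trans
      (H.phi.2 S (prism_cs o i j hn hn) o (mem_inter.2 ⟨self_mem_cs o i n, self_mem_cs o j n⟩))
  rw [xm_union hd, ← he] at h
  linarith

end FACE

theorem t_face : T_FACE := fun _ _ _ _ H =>
  ⟨FACE.one H, FACE.two H, FACE.three H, FACE.four H⟩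

end Pool.Agent.HDE
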