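import Pool.Agent.Lib.HDE.BlueC
import Pool.Agent.Lib.HDE.Api2

/-! Block FSUP: sup bound for the convolution of the face function with the two-point function. -/

open Finset

namespace Pool.Agent.HDE

open Pool.Agent.TPC
open Pool.Agent.HD (rad tauT chiT)

theorem t_fsup : T_FSUP := by
  intro hF hS d C₀ A hd
  obtain ⟨CS, hCS, hS⟩ := hS d A hd
  have hl := lam_pos
  refine ⟨2 * |A| * CS + |A| * (lam * (4 * d)), by positivity, ?_⟩
  intro M _ p h u r v hr hM
  have h0 := h.toHyp.p0
  have h1 := h.p1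
  have hr0 : (0 : ℝ) < r := by exact_mod_cast hr
  have hr1 : (1 : ℝ) ≤ r := by exact_mod_cast hr
  have hf0 : ∀ y : Tor d M, 0 ≤ ff p u r y := fun y => by
    unfold ff; split_ifs
    exacts [tt_nonneg h0 h1, le_rfl]
  have key : ∀ y : Tor d M, ff p u r y * t0 p (v - y) * (r : ℝ) ^ (d - 2) ≤
      |A| / r * (if y ∈ hp u.1 (sg M u.2 * (r : ZMod M)) ∩ bl v r then t0 p (v - y) else 0) +
        |A| * ff p u r y := by
    intro y
    have t0n : 0 ≤ t0 p (v - y) := t0_nonneg h0 h1
    have a0 : 0 ≤ |A| * ff p u r y := mul_nonneg (abs_nonneg A) (hf0 y)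
    by_cases hy : y u.1 = sg M u.2 * (r : ZMod M)
    swap
    · have e : ff p u r y = 0 := if_neg hy
      rw [if_neg fun hh => hy (mem_hp.1 (mem_inter.1 hh).1), e]
      simp
    by_cases hb : y ∈ bl v r
    · rw [if_pos (mem_inter.2 ⟨mem_hp.2 hy, hb⟩)]
      have a1 := h.half u ((0 : Tor d M) u.1 + sg M u.2 * (r : ZMod M)) (2 * r) 0 y (by omega)
        (by rw [hy]; simp)
      rw [← cs_eq_sl 0 u (by omega), zero_sub, rad_neg] at a1
      have a2 : r ≤ rad y := by
        have := ab_le_rad y u.1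
        rwa [hy, ab_sg_mul, ab_natCast (by omega)] at this
      have e : ff p u r y = tt p (cs 0 u.1 r) 0 y := if_pos hy
      have a3 : ff p u r y * (r : ℝ) ^ (d - 2) ≤ |A| / r := by
        rw [le_div_iff₀ hr0, mul_assoc, ← pow_succ, show d - 2 + 1 = d - 1 by omega]
        refine le_trans ?_ (a1.trans (le_abs_self A))
        rw [← e]
        exact mul_le_mul_of_nonneg_left (pow_le_pow_left₀ hr0.le (by exact_mod_cast a2) _) (hf0 y)
      have a4 := mul_le_mul_of_nonneg_right a3 t0n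
      linarith
    · rw [if_neg fun hh => hb (mem_inter.1 hh).2, mul_zero, zero_add, mul_assoc, mul_comm |A|]
      refine mul_le_mul_of_nonneg_left ?_ (hf0 y)
      rw [mem_bl, not_le, rad_sub_comm] at hb
      refine le_trans ?_ ((h.full (v - y)).trans (le_abs_self A))
      exact mul_le_mul_of_nonneg_left (pow_le_pow_left₀ hr0.le (by exact_mod_cast hb.le) _) t0n
  have s1 : ∑ y : Tor d M, ff p u r y ≤ lam * (4 * d) := by
    have a1 := (hF d M p h.toHyp).2.1 u r 0 hM
    have e : ∑ y : Tor d M, ff p u r y =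
        ∑ y ∈ hp u.1 ((0 : Tor d M) u.1 + sg M u.2 * (r : ZMod M)), tt p (cs 0 u.1 r) 0 y := by
      rw [hp, sum_filter]
      exact sum_congr rfl fun y _ => by simp [ff]
    rw [← e] at a1
    have a2 := h.lo
    have a3 : 0 ≤ ∑ y : Tor d M, ff p u r y := sum_nonneg fun y _ => hf0 y
    have a4 : (0 : ℝ) ≤ 4 * d := by positivity
    nlinarith [mul_le_mul_of_nonneg_left a1 a4, mul_le_mul_of_nonneg_right a2 a3]
  have s2 := (hS M p h0 h1 h.full v r).1 u.1 (sg M u.2 * (r : ZMod M))
  rw [cv, sum_mul]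
  refine (sum_le_sum fun y _ => key y).trans ?_
  rw [sum_add_distrib, ← mul_sum, ← mul_sum, sum_ite_mem, univ_inter]
  refine add_le_add ?_ (mul_le_mul_of_nonneg_left s1 (abs_nonneg A))
  calc |A| / r * ∑ y ∈ hp u.1 (sg M u.2 * (r : ZMod M)) ∩ bl v r, t0 p (v - y)
      ≤ |A| / r * (CS * (2 * r)) := mul_le_mul_of_nonneg_left
        (s2.trans (mul_le_mul_of_nonneg_left (by linarith) hCS)) (by positivity)
    _ = _ := by field_simp

end Pool.Agent.HDE
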