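import Pool.Agent.Lib.HDE.BlueC
import Pool.Agent.Lib.HDE.Api2

/-! Telescoping inside a centred slab. -/

open Finset

namespace Pool.Agent.HDE

open Pool.Agent.TPC
open Pool.Agent.HD (rad)

namespace FU1B

variable {d M : ℕ} [NeZero M] {p A : ℝ}

lemma rad_ge {u : Dir d} {c : ZMod M} {w y : Tor d M} (h : dp u c w ≤ dp u c y)
    (hy : 2 * dp u c y ≤ M) : dp u c y - dp u c w ≤ rad (w - y) := by
  have e : (w - y) u.1 = sg M u.2 * ((dp u c y - dp u c w : ℕ) : ZMod M) := by
    rw [Pi.sub_apply, Nat.cast_sub h]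
    conv_lhs => rw [dp_spec u c w, dp_spec u c y]
    ring
  have := ab_le_rad (w - y) u.1
  rwa [e, ab_sg_mul, ab_natCast (by omega)] at this

lemma half (hH : HalfB d M p A) {u : Dir d} {c : ZMod M} {k : ℕ} (hk : 2 * k < M)
    (o : Tor d M) {y : Tor d M} (hy : dp u c y = k) :
    tt p (sl u c k) o y * (rad (o - y) : ℝ) ^ (d - 1) ≤ A := by
  have := hH (opp u) (c - sg M u.2 * (k : ZMod M)) k o y hk ((dp_eq_iff (by omega)).1 hy)
  rwa [sl_opp u c (by omega)] at this

lemma half' (h : Hyp d M p) (hH : HalfB d M p A) {u : Dir d} {c : ZMod M} {k μ : ℕ}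
    (hk : 2 * k < M) {o y : Tor d M} (hy : dp u c y = k) (h1 : 1 ≤ μ) (hμ : μ ≤ rad (o - y)) :
    tt p (sl u c k) o y ≤ A / (μ : ℝ) ^ (d - 1) := by
  have : (0 : ℝ) < μ := by exact_mod_cast h1
  rw [le_div_iff₀ (by positivity)]
  refine le_trans (mul_le_mul_of_nonneg_left (pow_le_pow_left₀ this.le ?_ _)
    (tt_nonneg h.p0 h.p1)) (half hH hk o hy)
  exact_mod_cast hμ

lemma face (hF : St_FACE) (h : Hyp d M p) (u : Dir d) (c : ZMod M) {k : ℕ} (hk : 2 * k < M)
    (o : Tor d M) :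
    p * ∑ y ∈ hp u.1 (c - sg M u.2 * (k : ZMod M)), tt p (sl u c k) o y ≤ lam :=
  (hF d M p h).1 (opp u) _ k _ o hk (sl_opp u c (by omega)).ge

lemma step (hF : St_FACE) (h : Hyp d M p) (hA : 0 ≤ A) (hH : HalfB d M p A) {u : Dir d}
    {c : ZMod M} {k μ : ℕ} {o x : Tor d M} (h1 : 1 ≤ μ) (hk : 2 * (k + 1) < M)
    (ho : o ∈ sl u c k)
    (hr : ∀ y, dp u c y = k → μ ≤ rad (o - y) ∨ μ ≤ rad (x - (y + dv M (opp u)))) :
    tt p (sl u c (k + 1)) o x ≤ tt p (sl u c k) o x + 2 * lam * (A / (μ : ℝ) ^ (d - 1)) := by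
  have p0 := h.p0
  have nn : ∀ (S : Finset (Tor d M)) (a b : Tor d M), 0 ≤ tt p S a b :=
    fun _ _ _ => tt_nonneg h.p0 h.p1
  have hB : 0 ≤ A / (μ : ℝ) ^ (d - 1) := by positivity
  refine (slp h.hM h.p0 h.p1 (sl u c (k + 1)) ho x).trans (add_le_add le_rfl ?_)
  have sub : ex (sl u c (k + 1)) (sl u c k) ⊆
      (hp u.1 (c - sg M u.2 * (k : ZMod M))).image fun y => (y, opp u) := fun b hb => by
    obtain ⟨b1, b2, b3⟩ := mem_ex.1 hb
    rcases exit_sl b1 b3 with ⟨e1, e2⟩ | ⟨e1, e2⟩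
    · rw [mem_sl, hd, e1, dp_add_dv' (dp_eq_zero.2 e2)] at b2
      omega
    · exact mem_image.2 ⟨b.1, mem_hp.2 e2, by rw [← e1]⟩
  refine (sum_le_sum_of_subset_of_nonneg sub fun b _ _ =>
    mul_nonneg (nn _ _ _) (mul_nonneg p0 (nn _ _ _))).trans ?_
  rw [sum_image fun a _ b _ e => congrArg Prod.fst e]
  have e : ∑ y ∈ hp u.1 (c - sg M u.2 * (k : ZMod M)), tt p (sl u c (k + 1)) x (y + dv M (opp u)) =
      ∑ z ∈ hp u.1 (c - sg M u.2 * ((k + 1 : ℕ) : ZMod M)), tt p (sl u c (k + 1)) x z := by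
    refine sum_equiv (Equiv.addRight (dv M (opp u))) (fun y => ?_) fun y _ => rfl
    rw [mem_hp, mem_hp, Equiv.coe_addRight]
    beta_reduce
    rw [Pi.add_apply, dv_opp, Pi.neg_apply, dv_self]
    push_cast
    constructor <;> intro e <;> linear_combination e
  have f1 := face hF h u c (k := k) (by omega) o
  have f2 := face hF h u c hk x
  rw [← e] at f2
  calc _ ≤ ∑ y ∈ hp u.1 (c - sg M u.2 * (k : ZMod M)), A / (μ : ℝ) ^ (d - 1) *
        (p * tt p (sl u c k) o y + p * tt p (sl u c (k + 1)) x (y + dv M (opp u))) := by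
        refine sum_le_sum fun y hy => ?_
        have hy' : dp u c y = k := (dp_eq_iff (by omega)).2 (mem_hp.1 hy)
        have a1 := mul_nonneg p0 (nn (sl u c k) o y)
        have a2 := mul_nonneg p0 (nn (sl u c (k + 1)) x (y + dv M (opp u)))
        simp only [hd]
        rw [tt_comm (x := y + dv M (opp u))]
        rcases hr y hy' with r | r
        · have := mul_le_mul_of_nonneg_right (half' h hH (by omega) hy' h1 r) a2
          linarith [mul_nonneg hB a1]
        · have := mul_le_mul_of_nonneg_right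
            (half' (c := c) h hH hk (by rw [dp_add_opp (by omega), hy']) h1 r) a1
          linarith [mul_nonneg hB a2]
    _ = A / (μ : ℝ) ^ (d - 1) *
        (p * ∑ y ∈ hp u.1 (c - sg M u.2 * (k : ZMod M)), tt p (sl u c k) o y +
          p * ∑ y ∈ hp u.1 (c - sg M u.2 * (k : ZMod M)),
            tt p (sl u c (k + 1)) x (y + dv M (opp u))) := by
        rw [← mul_sum, sum_add_distrib, ← mul_sum, ← mul_sum]
    _ ≤ _ := by linarith [mul_le_mul_of_nonneg_left (add_le_add f1 f2) hB]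

lemma num {a j : ℕ} (e : ℕ) (ha : 1 ≤ a) : 1 / ((max a j : ℕ) : ℝ) ^ (e + 2) ≤
    8 / (a : ℝ) ^ e * (1 / ((a : ℝ) + j) - 1 / ((a : ℝ) + (j + 1 : ℕ))) := by
  have a1 : (1 : ℝ) ≤ a := by exact_mod_cast ha
  have a2 : (a : ℝ) ≤ (max a j : ℕ) := by exact_mod_cast le_max_left a j
  have a3 : (j : ℝ) ≤ (max a j : ℕ) := by exact_mod_cast le_max_right a j
  have a4 : (0 : ℝ) ≤ j := Nat.cast_nonneg j
  generalize ((max a j : ℕ) : ℝ) = μ at a2 a3
  have a5 : 0 < μ := by linarith
  have a6 : 0 < (a : ℝ) + j := by linarith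
  have a7 : 8 / (a : ℝ) ^ e * (1 / ((a : ℝ) + j) - 1 / ((a : ℝ) + (j + 1 : ℕ))) =
      1 / ((a : ℝ) ^ e * (((a : ℝ) + j) * ((a : ℝ) + j + 1) / 8)) := by
    push_cast
    field_simp
    ring
  rw [a7, pow_add]
  refine one_div_le_one_div_of_le (by positivity) (mul_le_mul (pow_le_pow_left₀ (by linarith) a2 e)
    ?_ (by positivity) (by positivity))
  have := mul_le_mul (show (a : ℝ) + j ≤ 2 * μ by linarith)
    (show (a : ℝ) + j + 1 ≤ 4 * μ by linarith) (by linarith) (by linarith)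
  linarith

end FU1B

open FU1B in
theorem t_fu1 : T_FU1 := by
  intro hF d hd
  obtain ⟨e, rfl⟩ : ∃ e, d = e + 3 := ⟨d - 3, by omega⟩
  refine ⟨1 + 32 * 3 ^ (e + 1), by positivity, fun M _ p A h hA hH i m x hm => ?_⟩
  have hA0 : 0 ≤ A := by linarith
  have h3 : (0 : ℝ) ≤ 3 ^ (e + 1) * A := by positivity
  rw [show e + 3 - 2 = e + 1 from rfl]
  by_cases hn : rad x ≤ 1
  · have := mul_le_one₀ (tt_le_one (S := cs 0 i m) (x := 0) (y := x) h.p0 h.p1) (by positivity)
      (pow_le_one₀ (n := e + 1) (Nat.cast_nonneg (rad x)) (by exact_mod_cast hn))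
    linarith
  by_cases hx : x ∈ cs 0 i m
  swap
  · rw [tt_of_right hx, zero_mul]; linarith
  have hc := cs_eq_sl (0 : Tor (e + 3) M) (i, true) (n := m) (by omega)
  have h0 : dp (i, true) ((0 : Tor (e + 3) M) i + sg M true * (m : ZMod M)) (0 : Tor (e + 3) M) = m :=
    (dp_eq_iff (by omega)).2 (by simp)
  dsimp only at hc
  rw [hc] at hx ⊢
  generalize (0 : Tor (e + 3) M) i + sg M true * (m : ZMod M) = c at h0 hx
  generalize ((i, true) : Dir (e + 3)) = u at h0 hx
  rw [mem_sl] at hx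
  have r0 : rad ((0 : Tor (e + 3) M) - x) = rad x := by rw [zero_sub, rad_neg]
  obtain ⟨a, ha⟩ : ∃ a, a = rad x / 2 := ⟨_, rfl⟩
  obtain ⟨k, hk⟩ : ∃ k, k = max m (dp u c x) := ⟨_, rfl⟩
  have a1 : (1 : ℝ) ≤ a := by exact_mod_cast (by omega : 1 ≤ a)
  have main : ∀ j, k + j ≤ 2 * m → tt p (sl u c (k + j)) 0 x ≤ A / (rad x : ℝ) ^ (e + 2) +
      2 * lam * A * (8 / (a : ℝ) ^ e * (1 / (a : ℝ) - 1 / ((a : ℝ) + j))) := by
    intro j
    induction j with
    | zero =>
      intro hj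
      simp only [Nat.cast_zero, add_zero, sub_self, mul_zero]
      rcases le_total m (dp u c x) with t | t
      · exact half' h hH (by omega) (by omega) (by omega) r0.ge
      · rw [tt_comm]
        exact half' h hH (by omega) (by omega) (by omega) (by rw [sub_zero])
    | succ j ih =>
      intro hj
      have s1 := step hF h hA0 hH (u := u) (c := c) (k := k + j) (μ := max a j) (o := 0) (x := x)
        (by omega) (by omega) (mem_sl.2 (by omega)) fun y hy => by
          have t0 : dp u c (y + dv M (opp u)) = k + j + 1 := by rw [dp_add_opp (by omega), hy]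
          have t1 := rad_ge (u := u) (c := c) (w := 0) (y := y) (by omega) (by omega)
          have t2 := rad_ge (u := u) (c := c) (w := x) (y := y + dv M (opp u)) (by omega) (by omega)
          have t3 := rad_tri 0 y x
          have t4 := rad_tri y (y + dv M (opp u)) x
          have t5 : rad (y - (y + dv M (opp u))) ≤ 1 := by
            rw [sub_add_cancel_left, rad_neg]; exact rad_dv_le _
          have t6 := rad_sub_comm (y + dv M (opp u)) x
          omega
      have s2 := mul_le_mul_of_nonneg_left (num (j := j) e (by omega : 1 ≤ a))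
        (show 0 ≤ 2 * lam * A by have := lam_pos; positivity)
      have s3 := ih (by omega)
      rw [show e + 3 - 1 = e + 2 from rfl, div_eq_mul_one_div] at s1
      rw [← add_assoc]
      linarith
  have := main (2 * m - k) (by omega)
  rw [show k + (2 * m - k) = 2 * m by omega] at this
  have n1 : (1 : ℝ) ≤ rad x := by exact_mod_cast (by omega : 1 ≤ rad x)
  have n2 : (rad x : ℝ) ≤ 3 * a := by exact_mod_cast (by omega : rad x ≤ 3 * a)
  have b1 : A / (rad x : ℝ) ^ (e + 2) * (rad x : ℝ) ^ (e + 1) ≤ A := by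
    rw [div_mul_eq_mul_div, div_le_iff₀ (by positivity)]
    exact mul_le_mul_of_nonneg_left (pow_le_pow_right₀ n1 (by omega)) hA0
  have b2 : 8 / (a : ℝ) ^ e * (1 / (a : ℝ) - 1 / ((a : ℝ) + (2 * m - k : ℕ))) *
      (rad x : ℝ) ^ (e + 1) ≤ 8 * 3 ^ (e + 1) := by
    calc _ ≤ 8 / (a : ℝ) ^ e * (1 / (a : ℝ)) * (3 * a) ^ (e + 1) :=
          mul_le_mul (mul_le_mul_of_nonneg_left (sub_le_self _ (by positivity)) (by positivity))
            (pow_le_pow_left₀ (by linarith) n2 _) (by positivity) (by positivity)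
      _ = _ := by rw [mul_pow, pow_succ (a : ℝ)]; field_simp
  have b3 := mul_le_mul_of_nonneg_left b2 (show 0 ≤ 2 * lam * A by have := lam_pos; positivity)
  have b4 := mul_le_mul_of_nonneg_right this (show 0 ≤ (rad x : ℝ) ^ (e + 1) by positivity)
  rw [lam] at b3 b4
  linarith

end Pool.Agent.HDE
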