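import Pool.Agent.Lib.HDE.BlueC
import Pool.Agent.Lib.HDE.Api2

/-! Block `G0`: the face function of a centred slab is large in mean square. -/

open Finset

namespace Pool.Agent.HDE

open Pool.Agent.TPC
open Pool.Agent.HD (rad tauT chiT)

namespace G0B

variable {d M : ℕ} [NeZero M]

lemma sum_face (p : ℝ) (U : Finset (Tor d M)) (i : Fin d) (c : ZMod M) (o : Tor d M) :
    ∑ y, tt p U o y * (if y i = c then p else 0) = p * ∑ y ∈ hp i c, tt p U o y := by
  rw [hp, Finset.sum_filter, Finset.mul_sum]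
  refine Finset.sum_congr rfl fun y _ => ?_
  split_ifs <;> ring

lemma ff_nonneg {p : ℝ} (h0 : 0 ≤ p) (h1 : p ≤ 1) (u : Dir d) (r : ℕ) (y : Tor d M) :
    0 ≤ ff p u r y := by
  unfold ff
  split_ifs
  · exact tt_nonneg h0 h1
  · exact le_rfl

end G0B

open G0B

theorem t_g0 : T_G0 := by
  intro hF hC hCUT hD d
  obtain ⟨R, hR, hcut⟩ := hCUT d (1 / 16) (by norm_num)
  obtain ⟨K, hK⟩ := hD d
  have hRr : (1 : ℝ) ≤ R := by exact_mod_cast hR
  refine ⟨1 / (64 * (7 * (R : ℝ)) ^ (d - 1)), K, by positivity, ?_⟩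
  intro M _ p H u r hr h8 hch
  have h0 := H.p0
  have h1 := H.p1
  have hrr : (1 : ℝ) ≤ r := by exact_mod_cast hr
  have e0 : (0 : Tor d M) u.1 + sg M u.2 * (r : ZMod M) = sg M u.2 * (r : ZMod M) := by simp
  have hU : cs (0 : Tor d M) u.1 r ⊆ sl u (sg M u.2 * (r : ZMod M)) (2 * r) := by
    rw [cs_eq_sl 0 u (by omega), e0]
  have hlow := hK M p H u r 0 (by omega) hch
  rw [e0, ← sum_face] at hlow
  have htail := hcut M p H u (sg M u.2 * (r : ZMod M)) (2 * r) (cs (0 : Tor d M) u.1 r)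
    (fun y => if y u.1 = sg M u.2 * (r : ZMod M) then p else 0) lam (by omega) hU
    (fun y => by split_ifs <;> simp [h0])
    (fun o _ => by
      rw [sum_face]
      exact (hF d M p H).1 u _ (2 * r) _ o (by omega) hU) 0 (self_mem_cs _ _ _)
  have hsplit := Finset.sum_filter_add_sum_filter_not (univ : Finset (Tor d M))
    (fun y => R * (2 * r + 1) ≤ rad (y - 0))
    (fun y => tt p (cs (0 : Tor d M) u.1 r) 0 y *
      (if y u.1 = sg M u.2 * (r : ZMod M) then p else 0))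
  set F : Finset (Tor d M) := hp u.1 (sg M u.2 * (r : ZMod M)) ∩ bl 0 (R * (2 * r + 1)) with hFdef
  have hnear : ∑ y ∈ univ.filter (fun y : Tor d M => ¬ R * (2 * r + 1) ≤ rad (y - 0)),
      tt p (cs (0 : Tor d M) u.1 r) 0 y * (if y u.1 = sg M u.2 * (r : ZMod M) then p else 0) ≤
      ∑ y ∈ F, ff p u r y := by
    have e : ∑ y ∈ F, ff p u r y = ∑ y, if y ∈ F then ff p u r y else 0 := by
      rw [← Finset.sum_filter]
      simp
    rw [e, Finset.sum_filter]
    refine Finset.sum_le_sum fun y _ => ?_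
    have hn := ff_nonneg h0 h1 u r y
    by_cases a : ¬ R * (2 * r + 1) ≤ rad (y - 0)
    · rw [if_pos a]
      by_cases b : y u.1 = sg M u.2 * (r : ZMod M)
      · have hy : y ∈ F := mem_inter.2 ⟨mem_hp.2 b, mem_bl.2 (by omega)⟩
        rw [if_pos b, if_pos hy, ff, if_pos b]
        exact mul_le_of_le_one_right (tt_nonneg h0 h1) h1
      · rw [if_neg b, mul_zero]
        split_ifs
        · exact hn
        · exact le_rfl
    · rw [if_neg a]
      split_ifs
      · exact hn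
      · exact le_rfl
  have hl : lam = 101 / 100 := rfl
  have h8' : 1 / 8 ≤ ∑ y ∈ F, ff p u r y := by
    rw [hl] at htail
    linarith
  have hcs : (∑ y ∈ F, ff p u r y) ^ 2 ≤ (F.card : ℝ) * ∑ y ∈ F, ff p u r y ^ 2 :=
    sq_sum_le_card_mul_sum_sq
  have hcard : (F.card : ℝ) ≤ (7 * (R : ℝ)) ^ (d - 1) * (r : ℝ) ^ (d - 1) := by
    have a := (hC d M u.1 0 (R * (2 * r + 1))).1 (sg M u.2 * (r : ZMod M))
    have b : (F.card : ℝ) ≤ ((2 * (R * (2 * r + 1)) + 1 : ℕ) : ℝ) ^ (d - 1) := by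
      exact_mod_cast a
    refine b.trans ?_
    rw [← mul_pow]
    refine pow_le_pow_left₀ (Nat.cast_nonneg _) ?_ _
    push_cast
    nlinarith [mul_nonneg (sub_nonneg.2 hRr) (sub_nonneg.2 hrr)]
  have hsub : ∑ y ∈ F, ff p u r y ^ 2 ≤ ∑ y, ff p u r y ^ 2 :=
    Finset.sum_le_sum_of_subset_of_nonneg (subset_univ _) fun _ _ _ => sq_nonneg _
  have hS : 0 ≤ ∑ y ∈ F, ff p u r y ^ 2 := Finset.sum_nonneg fun _ _ => sq_nonneg _
  have hpos : (0 : ℝ) < (7 * (R : ℝ)) ^ (d - 1) := by positivity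
  have hr0 : (0 : ℝ) ≤ (r : ℝ) ^ (d - 1) := by positivity
  have k1 : (1 : ℝ) / 64 ≤ (∑ y ∈ F, ff p u r y) ^ 2 := by nlinarith
  have k2 : (F.card : ℝ) * ∑ y ∈ F, ff p u r y ^ 2 ≤
      ((7 * (R : ℝ)) ^ (d - 1) * (r : ℝ) ^ (d - 1)) * ∑ y : Tor d M, ff p u r y ^ 2 :=
    mul_le_mul hcard hsub hS (by positivity)
  rw [div_le_iff₀ (by positivity)]
  nlinarith

end Pool.Agent.HDE
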