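import Pool.Agent.Lib.HDE.BlueC
import Pool.Agent.Lib.HDE.Api2

/-! Block GLOW: the autocorrelation of the face function is large near the origin. -/

open Finset

namespace Pool.Agent.HDE

open Pool.Agent.TPC
open Pool.Agent.HD (rad tauT chiT)

namespace GLOWB

variable {d M : ℕ} [NeZero M] {p : ℝ}

lemma tt_flip (hM : 3 ≤ M) (i : Fin d) (r : ℕ) {s : Tor d M} (hs : s i = 0) (y : Tor d M) :
    tt p (cs 0 i r) 0 (s - y) = tt p (cs 0 i r) s y := by
  have h := tt_equiv (p := p) (S := cs 0 i r) (S' := cs 0 i r) hM (Equiv.subLeft s) opp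
    (fun u => ⟨opp u, by simp⟩)
    (fun x u => by simp only [Equiv.subLeft_apply, dv_opp]; abel)
    (fun x => by
      simp only [mem_cs, Equiv.subLeft_apply, Pi.sub_apply, hs, Pi.zero_apply, sub_zero, zero_sub,
        ab_neg]) s y
  simpa using h

lemma cv_eq (hM : 3 ≤ M) (u : Dir d) (r : ℕ) {s : Tor d M} (hs : s u.1 = 0) :
    cv (ff p u r) (ff p (opp u) r) s = ∑ y ∈ hp u.1 (sg M u.2 * (r : ZMod M)),
      tt p (cs 0 u.1 r) 0 y * tt p (cs 0 u.1 r) s y := by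
  rw [cv, hp, Finset.sum_filter]
  refine Finset.sum_congr rfl fun y _ => ?_
  by_cases hy : y u.1 = sg M u.2 * (r : ZMod M)
  · have h2 : (s - y) (opp u).1 = sg M (opp u).2 * (r : ZMod M) := by
      rw [opp_fst, opp_snd, sg_not, Pi.sub_apply, hs, hy]; ring
    rw [if_pos hy, ff, ff, if_pos hy, if_pos h2, opp_fst, tt_flip hM u.1 r hs]
  · rw [if_neg hy, ff, if_neg hy, zero_mul]

lemma sq_eq (u : Dir d) (r : ℕ) :
    ∑ y : Tor d M, ff p u r y ^ 2 = ∑ y ∈ hp u.1 (sg M u.2 * (r : ZMod M)),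
      tt p (cs 0 u.1 r) (0 : Tor d M) y * tt p (cs 0 u.1 r) 0 y := by
  rw [hp, Finset.sum_filter]
  refine Finset.sum_congr rfl fun y _ => ?_
  rw [ff]
  split_ifs
  · ring
  · ring

end GLOWB

open GLOWB in
theorem t_glow : T_GLOW := by
  intro hF hN hG d C₀ A
  obtain ⟨c₀, K, hc₀, hG⟩ := hG d
  have hl := lam_pos
  have hden : 0 < 2 * (4 * d * lam * |A| + 1) := by positivity
  obtain ⟨G, C, A₀, hG1, -, hA₀, hN⟩ := hN d C₀ (c₀ / (2 * (4 * d * lam * |A| + 1)))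
    (div_pos hc₀ hden)
  refine ⟨c₀ / (2 * G), K, 4 * A₀, by positivity, by omega, ?_⟩
  intro M _ p H u r s hr hM hK hs hB
  have hH : Hyp d M p := H.toGood.toHyp
  have h0 := hH.p0
  have h1 := hH.p1
  have hL : cs (0 : Tor d M) u.1 r = sl u (sg M u.2 * (r : ZMod M)) (2 * r) := by
    rw [cs_eq_sl 0 u (by omega), Pi.zero_apply, zero_add]
  obtain ⟨κ, k0, k1, k2, -⟩ := hN M p H.toGood u (sg M u.2 * (r : ZMod M)) (2 * r) (r / 4) 0 s hs
    (by omega) (by rw [Nat.le_div_iff_mul_le (by norm_num)]; linarith)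
  rw [← hL, zero_add] at k2
  have hG0 := hG M p hH u r hr hM hK
  rw [sq_eq] at hG0
  rw [cv_eq hH.hM u r hs]
  set F := hp u.1 (sg M u.2 * (r : ZMod M)) with hFdef
  set L := cs (0 : Tor d M) u.1 r with hLdef
  have hR : (0 : ℝ) ≤ (r : ℝ) ^ (d - 1) := by positivity
  have hrad : ∀ y ∈ F, r ≤ rad y := fun y hy => by
    have := ab_le_rad y u.1
    rwa [mem_hp.1 hy, ab_sg_mul, ab_natCast (by omega)] at this
  have hA : ∀ y ∈ F, tt p L 0 y * (r : ℝ) ^ (d - 1) ≤ |A| := fun y hy => by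
    have h2 := H.half u _ (2 * r) 0 y (by omega) (mem_hp.1 hy)
    rw [← hL, zero_sub, rad_neg] at h2
    refine le_trans (mul_le_mul_of_nonneg_left (pow_le_pow_left₀ (by positivity)
      (Nat.cast_le.2 (hrad y hy)) _) (tt_nonneg h0 h1)) (h2.trans (le_abs_self A))
  have hface : ∀ v, ∑ y ∈ F, tt p L v y ≤ 4 * d * lam := fun v => by
    have h2 := (hF d M p hH).1 u _ (2 * r) L v (by omega) hL.le
    have h3 := hH.lo
    have h4 : 0 ≤ ∑ y ∈ F, tt p L v y := Finset.sum_nonneg fun _ _ => tt_nonneg h0 h1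
    have h5 := mul_le_mul_of_nonneg_left h2 (by positivity : (0 : ℝ) ≤ 4 * d)
    nlinarith
  have key : ∀ y ∈ F, tt p L 0 y * tt p L 0 y * (r : ℝ) ^ (d - 1) ≤
      G * (tt p L 0 y * tt p L s y * (r : ℝ) ^ (d - 1)) + |A| * ∑ v, κ v * tt p L v y := by
    intro y hy
    have h2 := k2 y (by rw [sub_zero]; have := hrad y hy; omega)
    have h3 : 0 ≤ ∑ v, κ v * tt p L v y :=
      Finset.sum_nonneg fun v _ => mul_nonneg (k0 v) (tt_nonneg h0 h1)
    have h4 := mul_le_mul_of_nonneg_left h2 (mul_nonneg (tt_nonneg h0 h1 : 0 ≤ tt p L 0 y) hR)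
    have h5 := mul_le_mul_of_nonneg_right (hA y hy) h3
    nlinarith
  have h2 := Finset.sum_le_sum key
  rw [Finset.sum_add_distrib, ← Finset.mul_sum, ← Finset.mul_sum, ← Finset.sum_mul,
    ← Finset.sum_mul, Finset.sum_comm] at h2
  have h3 : ∑ v, ∑ y ∈ F, κ v * tt p L v y ≤
      c₀ / (2 * (4 * d * lam * |A| + 1)) * (4 * d * lam) := by
    refine le_trans ?_ (mul_le_mul_of_nonneg_right k1 (by positivity))
    rw [Finset.sum_mul]
    refine Finset.sum_le_sum fun v _ => ?_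
    rw [← Finset.mul_sum]
    exact mul_le_mul_of_nonneg_left (hface v) (k0 v)
  have h4 : |A| * (c₀ / (2 * (4 * d * lam * |A| + 1)) * (4 * d * lam)) ≤ c₀ / 2 := by
    rw [div_mul_eq_mul_div, ← mul_div_assoc, div_le_div_iff₀ hden (by norm_num)]
    nlinarith
  have h5 := mul_le_mul_of_nonneg_left h3 (abs_nonneg A)
  rw [div_le_iff₀ (by positivity)]
  nlinarith

end Pool.Agent.HDE
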