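import Pool.Agent.Lib.HDE.Api2

/-! Block GOOD: the continuity argument. -/

open Finset Filter Topology

namespace Pool.Agent.HDE

open Pool.Agent.TPC

theorem t_good : T_GOOD := by
  rintro hB ⟨C, hC, hSQ⟩ hCL
  obtain ⟨C₁, hcl⟩ := hCL C hC
  refine ⟨C, max 401 (⌈200 * C₁⌉₊), hC, fun d M _ p hd hM lo p1 hch => ?_⟩
  have hd1 : 401 ≤ d := (le_max_left _ _).trans hd
  have hd2 : 200 * C₁ ≤ d := Nat.ceil_le.1 ((le_max_right _ _).trans hd)
  have hd0 : (401 : ℝ) ≤ d := by exact_mod_cast hd1
  have hdp : (0 : ℝ) < d := by linarith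
  obtain ⟨-, b2, b3, b4⟩ := hB d M hM
  have hx : ∀ (S : Finset (Tor d M)) (o : Tor d M),
      Continuous fun q : ℝ => xm q S (ex univ S) o := fun S o =>
    continuous_id.mul (continuous_finsetSum _ fun b _ => b2 S o b.1)
  have hl : Continuous fun q : ℝ => 2 * (d : ℝ) * q := continuous_const.mul continuous_id
  have hq0 : 4 * (d : ℝ) * (1 / (4 * d)) = 1 := by field_simp
  have hq1 : (0 : ℝ) < 1 / (4 * d) := by positivity
  have hqp : 1 / (4 * (d : ℝ)) ≤ p := by rw [div_le_iff₀ (by positivity)]; linarith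
  have hcls : IsClosed {q : ℝ | PhiLe d M q lam} := by
    simp only [PhiLe, Set.ofPred_and, Set.ofPred_forall]
    exact (isClosed_le hl continuous_const).inter (isClosed_iInter fun S => isClosed_iInter fun _ =>
      isClosed_iInter fun o => isClosed_iInter fun _ => isClosed_le (hx S o) continuous_const)
  have hgood : ∀ q, 1 / (4 * (d : ℝ)) ≤ q → q ≤ p → PhiLe d M q lam → Good C d M q := by
    intro q h1 h2 h3
    refine hSQ d M q hd1 ⟨hM, ?_, h2.trans p1, h3⟩ ((ch_mono (hq1.le.trans h1) h2 p1).trans hch)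
    rw [div_le_iff₀ (by positivity)] at h1; linarith
  have hsub : Set.Icc (1 / (4 * (d : ℝ))) p ⊆ {q : ℝ | PhiLe d M q lam} := by
    refine IsClosed.Icc_subset_of_forall_mem_nhdsWithin (hcls.inter isClosed_Icc) ?_ ?_
    · have h2 := b3 _ hq1.le (hqp.trans p1) hq0.le
      have h3 := one_le_lam
      refine ⟨by linarith, fun S _ o _ => (b4 _ hq1.le (hqp.trans p1) S _ o).trans ?_⟩
      have h4 : 2 * (d : ℝ) * (1 / (4 * d)) = 1 / 2 := by linarith
      rw [h4]; linarith
    · rintro q ⟨h1, h2, h3⟩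
      obtain ⟨c1, c2⟩ := hcl d M q (hgood q h2 h3.le h1)
      have h4 : 1 + C₁ / d < lam := by
        have : C₁ / d ≤ 1 / 200 := by rw [div_le_iff₀ hdp]; linarith
        rw [lam]; linarith
      refine mem_nhdsWithin_of_mem_nhds (Filter.Eventually.and ?_ ?_)
      · exact (hl.continuousAt.eventually_lt continuousAt_const (c1.trans_lt h4)).mono
          fun _ h => h.le
      · refine eventually_all.2 fun S => eventually_all.2 fun hS => eventually_all.2 fun o =>
          eventually_all.2 fun ho => ?_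
        exact ((hx S o).continuousAt.eventually_lt continuousAt_const
          ((c2 S hS o ho).trans_lt h4)).mono fun _ h => h.le
  exact hgood p hqp le_rfl (hsub ⟨hqp, le_rfl⟩)

end Pool.Agent.HDE
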