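import Pool.Agent.Lib.HDE.BlueC
import Pool.Agent.Lib.HDE.Api2

/-! Block `HALF`: one improvement of the half-space bound. -/

open Finset

namespace Pool.Agent.HDE

open Pool.Agent.TPC
open Pool.Agent.HD (rad tauT chiT)

namespace HALFB

variable {d M : ℕ} [NeZero M] {p : ℝ}

lemma far_sum {C₀ : ℝ} {r : ℕ} (hr : 1 ≤ r) (h2 : ∑ v : Tor d M, t0 p v ^ 2 ≤ 2 * C₀)
    (h3 : (r : ℝ) ^ 8 * ∑ v ∈ univ.filter (fun v : Tor d M => r ≤ rad v), t0 p v ^ 2 ≤
      2 * d * C₀) (z y : Tor d M) :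
    ∑ v, (if r ≤ rad (v - z) then t0 p (v - z) else 0) * t0 p (y - v) ≤
      ((d : ℝ) + 1) * C₀ / (r : ℝ) ^ 4 := by
  have hr0 : (0 : ℝ) < r := by exact_mod_cast hr
  have hR : (0 : ℝ) < (r : ℝ) ^ 4 := by positivity
  have e1 : ∑ v : Tor d M, (if r ≤ rad (v - z) then t0 p (v - z) else 0) ^ 2 =
      ∑ v ∈ univ.filter (fun v : Tor d M => r ≤ rad v), t0 p v ^ 2 := by
    rw [sum_filter, ← (Equiv.subRight z).sum_comp
      fun v : Tor d M => if r ≤ rad v then t0 p v ^ 2 else 0]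
    refine sum_congr rfl fun v _ => ?_
    simp only [Equiv.subRight_apply]
    split_ifs
    · rfl
    · norm_num
  have e2 : ∑ v : Tor d M, t0 p (y - v) ^ 2 = ∑ v : Tor d M, t0 p v ^ 2 :=
    (Equiv.subLeft y).sum_comp fun v => t0 p v ^ 2
  rw [le_div_iff₀ hR, sum_mul]
  have h4 : ∀ v : Tor d M,
      (if r ≤ rad (v - z) then t0 p (v - z) else 0) * t0 p (y - v) * (r : ℝ) ^ 4 ≤
        ((r : ℝ) ^ 8 * (if r ≤ rad (v - z) then t0 p (v - z) else 0) ^ 2 +
          t0 p (y - v) ^ 2) / 2 := by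
    intro v
    nlinarith [sq_nonneg ((r : ℝ) ^ 4 * (if r ≤ rad (v - z) then t0 p (v - z) else 0) -
      t0 p (y - v))]
  refine (sum_le_sum fun v _ => h4 v).trans ?_
  rw [← sum_div, sum_add_distrib, ← mul_sum, e1, e2]
  linarith

/-- a good tangential shift -/
lemma exists_shift (hF : St_FACE) (hC : St_CARD) (h : Hyp d M p) (u : Dir d) (c : ZMod M)
    {n m : ℕ} (hn : 2 * n < M) (hm : m < M) (o y : Tor d M) (hy : y u.1 = c) :
    ∃ s : Tor d M, s u.1 = 0 ∧ rad s ≤ m ∧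
      tt p (sl u c n) (o + s) y * ((m : ℝ) + 1) ^ (d - 1) ≤ 4 * d * lam := by
  classical
  set S : Finset (Tor d M) := hp u.1 ((0 : Tor d M) u.1) ∩ bl 0 m with hS
  have hcard : (m + 1) ^ (d - 1) ≤ S.card := (hC d M u.1 0 m).2.1 hm
  have hmem : ∀ s ∈ S, s u.1 = 0 ∧ rad s ≤ m := by
    intro s hs
    rw [hS, mem_inter, mem_hp, mem_bl, sub_zero] at hs
    exact hs
  have hne : S.Nonempty := by
    rw [← card_pos]
    exact lt_of_lt_of_le (by positivity) hcard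
  have h1 : ∀ s ∈ S, tt p (sl u c n) (o + s) y = tt p (sl u c n) o (y - s) := by
    intro s hs
    have := tt_add (p := p) (S := sl u c n) (S' := sl u c n) h.hM s (fun x => by
      rw [mem_sl, mem_sl, dp_congr (u := u) (c := c) (c' := c) (x := x + s) (y := x)
        (by rw [Pi.add_apply, (hmem s hs).1, add_zero])]) o (y - s)
    rwa [sub_add_cancel] at this
  have h2 : ∑ s ∈ S, tt p (sl u c n) (o + s) y ≤ ∑ w ∈ hp u.1 c, tt p (sl u c n) o w := by
    rw [sum_congr rfl h1, ← sum_image (s := S) (g := fun s => y - s)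
      (f := fun w => tt p (sl u c n) o w) (fun a _ b _ hab => sub_right_injective hab)]
    refine sum_le_sum_of_subset_of_nonneg (fun w hw => ?_) fun _ _ _ => tt_nonneg h.p0 h.p1
    obtain ⟨s, hs, rfl⟩ := mem_image.1 hw
    rw [mem_hp, Pi.sub_apply, (hmem s hs).1, sub_zero, hy]
  have h3 := (hF d M p h).1 u c n (sl u c n) o hn Subset.rfl
  have h4 : ∑ w ∈ hp u.1 c, tt p (sl u c n) o w ≤ 4 * d * lam := by
    have h5 : 0 ≤ ∑ w ∈ hp u.1 c, tt p (sl u c n) o w :=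
      sum_nonneg fun _ _ => tt_nonneg h.p0 h.p1
    have h6 := h.lo
    have h7 := h.dpos
    nlinarith
  obtain ⟨s, hs, hmin⟩ := exists_min_image S (fun s => tt p (sl u c n) (o + s) y) hne
  refine ⟨s, (hmem s hs).1, (hmem s hs).2, ?_⟩
  have h8 : (S.card : ℝ) * tt p (sl u c n) (o + s) y ≤ ∑ s ∈ S, tt p (sl u c n) (o + s) y := by
    have := card_nsmul_le_sum S (fun s => tt p (sl u c n) (o + s) y) _ hmin
    rwa [nsmul_eq_mul] at this
  have h9 : ((m : ℝ) + 1) ^ (d - 1) ≤ S.card := by exact_mod_cast hcard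
  have h10 : 0 ≤ tt p (sl u c n) (o + s) y := tt_nonneg h.p0 h.p1
  nlinarith

/-- the near part -/
lemma near_le (h : Hyp d M p) {A : ℝ} (hA : 0 ≤ A) (hH : HalfB d M p A) (u : Dir d) (c : ZMod M)
    {n r : ℕ} (hn : 2 * n < M) (o y : Tor d M) (hy : y u.1 = c) (hr : 8 * r ≤ rad (o - y))
    (v : Tor d M) :
    (if 4 * r < rad (v - o) then 0 else tt p (sl u c n) v y) * (rad (o - y) : ℝ) ^ (d - 1) ≤
      2 ^ (d - 1) * A := by
  split_ifs with hv
  · rw [zero_mul]; positivity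
  · have h1 := rad_tri o v y
    rw [rad_sub_comm o v] at h1
    have h2 : (rad (o - y) : ℝ) ≤ 2 * rad (v - y) := by
      have : rad (o - y) ≤ 2 * rad (v - y) := by omega
      exact_mod_cast this
    have h3 : (rad (o - y) : ℝ) ^ (d - 1) ≤ 2 ^ (d - 1) * (rad (v - y) : ℝ) ^ (d - 1) := by
      rw [← mul_pow]; exact pow_le_pow_left₀ (Nat.cast_nonneg _) h2 _
    have h4 := hH u c n v y hn hy
    have h5 : 0 ≤ tt p (sl u c n) v y := tt_nonneg h.p0 h.p1
    calc tt p (sl u c n) v y * (rad (o - y) : ℝ) ^ (d - 1)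
        ≤ tt p (sl u c n) v y * (2 ^ (d - 1) * (rad (v - y) : ℝ) ^ (d - 1)) :=
          mul_le_mul_of_nonneg_left h3 h5
      _ = 2 ^ (d - 1) * (tt p (sl u c n) v y * (rad (v - y) : ℝ) ^ (d - 1)) := by ring
      _ ≤ _ := mul_le_mul_of_nonneg_left h4 (by positivity)

/-- the far part -/
lemma far_le (h : Hyp d M p) {C₀ D : ℝ} {r : ℕ} (hr : 1 ≤ r) (hD : 0 ≤ D)
    (h2 : ∑ v : Tor d M, t0 p v ^ 2 ≤ 2 * C₀)
    (h3 : (r : ℝ) ^ 8 * ∑ v ∈ univ.filter (fun v : Tor d M => r ≤ rad v), t0 p v ^ 2 ≤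
      2 * d * C₀) (hF : FullB d M p D) (L : Finset (Tor d M)) (o y z : Tor d M)
    (hz : rad (z - o) ≤ 3 * r) :
    ∑ v, t0 p (v - z) ^ 2 * (if 4 * r < rad (v - o) then tt p L v y else 0) ≤
      D / (r : ℝ) ^ (d - 2) * (((d : ℝ) + 1) * C₀ / (r : ℝ) ^ 4) := by
  have hr0 : (0 : ℝ) < r := by exact_mod_cast hr
  have hR : (0 : ℝ) < (r : ℝ) ^ (d - 2) := by positivity
  refine le_trans ?_ (mul_le_mul_of_nonneg_left (far_sum hr h2 h3 z y) (by positivity))
  rw [mul_sum]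
  refine sum_le_sum fun v _ => ?_
  have a1 : 0 ≤ t0 p (v - z) := t0_nonneg h.p0 h.p1
  have a2 : 0 ≤ t0 p (y - v) := t0_nonneg h.p0 h.p1
  by_cases hv : 4 * r < rad (v - o)
  · have h4 := rad_tri v z o
    have h5 : r ≤ rad (v - z) := by omega
    rw [if_pos hv, if_pos h5]
    have h6 : t0 p (v - z) ≤ D / (r : ℝ) ^ (d - 2) := by
      rw [le_div_iff₀ hR]
      refine le_trans (mul_le_mul_of_nonneg_left ?_ a1) (hF (v - z))
      exact pow_le_pow_left₀ hr0.le (by exact_mod_cast h5) _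
    have h7 : tt p L v y ≤ t0 p (y - v) := tt_le_t0 h.hM h.p0 h.p1
    have h8 : 0 ≤ tt p L v y := tt_nonneg h.p0 h.p1
    calc t0 p (v - z) ^ 2 * tt p L v y = t0 p (v - z) * (t0 p (v - z) * tt p L v y) := by ring
      _ ≤ _ := mul_le_mul h6 (mul_le_mul_of_nonneg_left h7 a1) (mul_nonneg a1 h8) (by positivity)
  · rw [if_neg hv, mul_zero]
    refine mul_nonneg (by positivity) (mul_nonneg ?_ a2)
    split_ifs
    · exact a1
    · exact le_rfl

end HALFB

open HALFB in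
theorem t_half : T_HALF := by
  intro hFACE hCARD hL2 hNEST hFULL d C₀ hd
  obtain ⟨CF, hCF, hfull⟩ := hFULL d hd
  obtain ⟨G, C, A0, hG, hC, hA0, hnest⟩ := hNEST d C₀ (1 / (4 * 2 ^ (d - 1))) (by positivity)
  obtain ⟨r0, hr0⟩ := exists_nat_ge (4 * (16 ^ (d - 1) * C * CF * (((d : ℝ) + 1) * C₀)))
  have hlam := lam_pos
  have k1 : (0 : ℝ) ≤ (8 * (r0 : ℝ) + 16) ^ (d - 1) := by positivity
  have k2 : (0 : ℝ) ≤ G * ((8 * (A0 : ℝ)) ^ (d - 1) * (4 * d * lam)) := by positivity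
  refine ⟨1 + (8 * (r0 : ℝ) + 16) ^ (d - 1) + G * ((8 * (A0 : ℝ)) ^ (d - 1) * (4 * d * lam)),
    by linarith, ?_⟩
  intro M _ p A hg hch hA hH u c n o y hn hy
  have h : Hyp d M p := hg.toHyp
  obtain ⟨hC0, h2, h3, -⟩ := hL2 C₀ d M p hg
  have hF := hfull M p A h hch hA hH
  set N := rad (o - y) with hN
  set r := N / 8 with hr
  have hN0 : (0 : ℝ) ≤ (N : ℝ) ^ (d - 1) := by positivity
  have t0' : 0 ≤ tt p (sl u c n) o y := tt_nonneg h.p0 h.p1
  by_cases hs : r ≤ r0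
  · have h4 : (N : ℝ) ≤ 8 * (r0 : ℝ) + 16 := by
      have : N ≤ 8 * r0 + 16 := by omega
      exact_mod_cast this
    have h5 : (N : ℝ) ^ (d - 1) ≤ (8 * (r0 : ℝ) + 16) ^ (d - 1) :=
      pow_le_pow_left₀ (Nat.cast_nonneg _) h4 _
    have h6 : tt p (sl u c n) o y ≤ 1 := tt_le_one h.p0 h.p1
    nlinarith
  have hr1 : 1 ≤ r := by omega
  have hrR : (r0 : ℝ) ≤ r := by
    have : r0 ≤ r := by omega
    exact_mod_cast this
  have hrp : (0 : ℝ) < r := by exact_mod_cast hr1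
  have hM2 : 2 * N ≤ M := two_rad_le _
  have hm1 : A0 * (r / A0) ≤ r := Nat.mul_div_le r A0
  have hm2 : r < A0 * (r / A0 + 1) := Nat.lt_mul_div_succ r (by omega)
  have hm3 : r / A0 ≤ r := Nat.div_le_self r A0
  obtain ⟨s, hs0, hsm, hsb⟩ := exists_shift hFACE hCARD h u c hn (m := r / A0) (by omega) o y hy
  obtain ⟨κ, hκ0, hκ1, hκ2, hκ3⟩ := hnest M p hg u c n r o s hs0 (by omega)
    ((Nat.mul_le_mul_left A0 hsm).trans hm1)
  have hx := hκ2 y (by rw [rad_sub_comm]; omega)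
  -- the main term
  have hmain : G * tt p (sl u c n) (o + s) y * (N : ℝ) ^ (d - 1) ≤
      G * ((8 * (A0 : ℝ)) ^ (d - 1) * (4 * d * lam)) := by
    have b1 : (N : ℝ) ≤ 8 * (A0 : ℝ) * (((r / A0 : ℕ) : ℝ) + 1) := by
      have : N ≤ 8 * (A0 * (r / A0 + 1)) := by omega
      have b2 : (N : ℝ) ≤ ((8 * (A0 * (r / A0 + 1)) : ℕ) : ℝ) := by exact_mod_cast this
      push_cast at b2
      linarith
    have b3 : (N : ℝ) ^ (d - 1) ≤
        (8 * (A0 : ℝ)) ^ (d - 1) * (((r / A0 : ℕ) : ℝ) + 1) ^ (d - 1) := by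
      rw [← mul_pow]; exact pow_le_pow_left₀ (Nat.cast_nonneg _) b1 _
    have b4 : 0 ≤ tt p (sl u c n) (o + s) y := tt_nonneg h.p0 h.p1
    rw [mul_assoc]
    refine mul_le_mul_of_nonneg_left ?_ (by linarith)
    calc tt p (sl u c n) (o + s) y * (N : ℝ) ^ (d - 1)
        ≤ tt p (sl u c n) (o + s) y *
          ((8 * (A0 : ℝ)) ^ (d - 1) * (((r / A0 : ℕ) : ℝ) + 1) ^ (d - 1)) :=
          mul_le_mul_of_nonneg_left b3 b4
      _ = (8 * (A0 : ℝ)) ^ (d - 1) *
          (tt p (sl u c n) (o + s) y * (((r / A0 : ℕ) : ℝ) + 1) ^ (d - 1)) := by ring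
      _ ≤ _ := mul_le_mul_of_nonneg_left hsb (by positivity)
  -- the near part
  have hnear : (∑ v, κ v * (if 4 * r < rad (v - o) then 0 else tt p (sl u c n) v y)) *
      (N : ℝ) ^ (d - 1) ≤ A / 4 := by
    rw [sum_mul]
    have b1 : ∀ v, κ v * (if 4 * r < rad (v - o) then 0 else tt p (sl u c n) v y) *
        (N : ℝ) ^ (d - 1) ≤ κ v * (2 ^ (d - 1) * A) := fun v => by
      rw [mul_assoc]
      exact mul_le_mul_of_nonneg_left
        (near_le h (by linarith) hH u c hn o y hy (by omega) v) (hκ0 v)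
    refine (sum_le_sum fun v _ => b1 v).trans ?_
    rw [← sum_mul]
    refine (mul_le_mul_of_nonneg_right hκ1 (by positivity)).trans (le_of_eq ?_)
    field_simp
  -- the far part
  have hfar : (∑ v, κ v * (if 4 * r < rad (v - o) then tt p (sl u c n) v y else 0)) *
      (N : ℝ) ^ (d - 1) ≤ A / 4 := by
    have hD : 0 ≤ CF * A := by positivity
    have b1 := hκ3 (fun v => if 4 * r < rad (v - o) then tt p (sl u c n) v y else 0)
      (CF * A / (r : ℝ) ^ (d - 2) * (((d : ℝ) + 1) * C₀ / (r : ℝ) ^ 4))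
      (fun v => by
        split_ifs
        · exact tt_nonneg h.p0 h.p1
        · exact le_rfl)
      (by positivity)
      (fun v hv => by
        by_contra hv2
        exact hv (if_neg hv2))
      (fun z hz => far_le h hr1 hD h2 (h3 r) hF _ o y z hz)
    have b2 : (N : ℝ) ≤ 16 * r := by
      have : N ≤ 16 * r := by omega
      exact_mod_cast this
    have b3 : (N : ℝ) ^ (d - 1) ≤ 16 ^ (d - 1) * ((r : ℝ) ^ (d - 2) * r) := by
      rw [← pow_succ, show d - 2 + 1 = d - 1 by omega, ← mul_pow]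
      exact pow_le_pow_left₀ (Nat.cast_nonneg _) b2 _
    refine (mul_le_mul b1 b3 hN0 (by positivity)).trans ?_
    have b4 : C * (r : ℝ) ^ 2 * (CF * A / (r : ℝ) ^ (d - 2) * (((d : ℝ) + 1) * C₀ / (r : ℝ) ^ 4)) *
        (16 ^ (d - 1) * ((r : ℝ) ^ (d - 2) * r)) =
        (16 ^ (d - 1) * C * CF * (((d : ℝ) + 1) * C₀)) / r * A := by
      field_simp
    rw [b4]
    have b5 : (16 ^ (d - 1) * C * CF * (((d : ℝ) + 1) * C₀)) / r ≤ 1 / 4 := by
      rw [div_le_iff₀ hrp]; linarith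
    nlinarith
  have hsplit : ∑ v, κ v * tt p (sl u c n) v y =
      ∑ v, κ v * (if 4 * r < rad (v - o) then 0 else tt p (sl u c n) v y) +
        ∑ v, κ v * (if 4 * r < rad (v - o) then tt p (sl u c n) v y else 0) := by
    rw [← sum_add_distrib]
    refine sum_congr rfl fun v _ => ?_
    split_ifs <;> ring
  rw [hsplit] at hx
  have := mul_le_mul_of_nonneg_right hx hN0
  rw [add_mul, add_mul] at this
  linarith

end Pool.Agent.HDE
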