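import Pool.Agent.Lib.HDE.Api2

open Finset

namespace Pool.Agent.HDE

open Pool.Agent.TPC

namespace KER

variable {d M : ℕ} [NeZero M]

lemma xk_mul (p : ℝ) (S : Finset (Tor d M)) (F : Tor d M → ℝ) :
    ∑ z, xk p S z * F z = p * ∑ b ∈ ex univ S, tt p S 0 b.1 * F (hd b) := by
  rw [← sum_fiberwise (ex univ S) hd, mul_sum]
  refine sum_congr rfl fun z _ => ?_
  rw [xk, xm, mul_assoc, sum_mul]
  congr 1
  exact sum_congr rfl fun b hb => by rw [(mem_filter.1 hb).2]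

lemma geo0 {r : ℝ} (h0 : 0 < r) (h1 : r < 1) :
    ∃ C : ℝ, 0 ≤ C ∧ ∀ N : ℕ, ∑ m ∈ range N, ((m : ℝ) + 1) ^ 8 * r ^ m ≤ C := by
  have h1' : ‖r‖ < 1 := by rwa [Real.norm_of_nonneg h0.le]
  have h2 : Summable fun m : ℕ => ((m + 1 : ℕ) : ℝ) ^ 8 * r ^ (m + 1) :=
    (summable_nat_add_iff (f := fun m : ℕ => (m : ℝ) ^ 8 * r ^ m) 1).2
      (summable_pow_mul_geometric_of_norm_lt_one 8 h1')
  have h3 : Summable fun m : ℕ => ((m : ℝ) + 1) ^ 8 * r ^ m := (h2.div_const r).congr fun m => by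
    push_cast; rw [pow_succ r, ← mul_assoc, mul_div_cancel_right₀ _ h0.ne']
  have h4 : ∀ m : ℕ, 0 ≤ ((m : ℝ) + 1) ^ 8 * r ^ m := fun m => by positivity
  exact ⟨∑' m : ℕ, ((m : ℝ) + 1) ^ 8 * r ^ m, tsum_nonneg h4,
    fun N => h3.sum_le_tsum (range N) fun m _ => h4 m⟩

lemma geo : ∃ C : ℝ, 0 ≤ C ∧ ∀ N : ℕ, ∑ m ∈ range N, ((m : ℝ) + 1) ^ 8 * (lam / 2) ^ m ≤ C :=
  geo0 (half_pos lam_pos) (by rw [lam]; norm_num)

lemma tail_sum {C B : ℝ} (hC : ∀ N : ℕ, ∑ m ∈ range N, ((m : ℝ) + 1) ^ 8 * (lam / 2) ^ m ≤ C)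
    (hB : 0 ≤ B) {ι : Type} [Fintype ι] (a : ι → ℕ) (f : ι → ℝ) (hf : ∀ y, 0 ≤ f y) (n : ℕ)
    (h : ∀ m : ℕ, ∑ y ∈ univ.filter (fun y => m * (n + 1) ≤ a y), f y ≤ (lam / 2) ^ m * B) :
    ∑ y, (1 + (a y : ℝ)) ^ 8 * f y ≤ C * (((n : ℝ) + 1) ^ 8 * B) := by
  set N := univ.sup a + 1 with hN
  have h1 : ∀ y, (1 + (a y : ℝ)) ^ 8 * f y ≤ ∑ m ∈ range N,
      if m * (n + 1) ≤ a y then (((m : ℝ) + 1) * ((n : ℝ) + 1)) ^ 8 * f y else 0 := by
    intro y
    have b1 : a y / (n + 1) ∈ range N := mem_range.2 (Nat.lt_succ_of_le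
      ((Nat.div_le_self _ _).trans (le_sup (f := a) (mem_univ y))))
    refine le_trans ?_ (single_le_sum (f := fun m : ℕ => if m * (n + 1) ≤ a y then
      (((m : ℝ) + 1) * ((n : ℝ) + 1)) ^ 8 * f y else 0) (fun m _ => by
        have := hf y
        split_ifs <;> positivity) b1)
    rw [if_pos (Nat.div_mul_le_self _ _)]
    refine mul_le_mul_of_nonneg_right (pow_le_pow_left₀ (by positivity) ?_ 8) (hf y)
    have b2 : 1 + a y ≤ (a y / (n + 1) + 1) * (n + 1) := by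
      have : a y < a y / (n + 1) * (n + 1) + (n + 1) := Nat.lt_div_mul_add (Nat.succ_pos n)
      rw [add_mul, one_mul]; omega
    exact_mod_cast b2
  refine (sum_le_sum fun y _ => h1 y).trans ?_
  rw [sum_comm]
  refine le_trans (sum_le_sum fun m _ => ?_)
    ((sum_mul _ _ _).ge.trans (mul_le_mul_of_nonneg_right (hC N) (by positivity)))
  rw [← sum_filter, ← mul_sum, mul_pow]
  have := mul_le_mul_of_nonneg_left (h m) (show 0 ≤ ((m : ℝ) + 1) ^ 8 * ((n : ℝ) + 1) ^ 8 by positivity)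
  exact this.trans (le_of_eq (by ring))

lemma first {p : ℝ} (hM : 3 ≤ M) (h0 : 0 ≤ p) (h1 : p ≤ 1) (x : Tor d M) :
    t0 p x ≤ (if x = 0 then 1 else 0) + cv (jk p) (t0 p) x := by
  refine (slp (S := {0}) (o := 0) hM h0 h1 univ (mem_singleton_self _) x).trans (add_le_add ?_ ?_)
  · rw [tt_single]; simp
  · refine (sum_le_sum_of_subset_of_nonneg (subset_univ _) fun b _ _ =>
      mul_nonneg (tt_nonneg h0 h1) (mul_nonneg h0 (tt_nonneg h0 h1))).trans (le_of_eq ?_)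
    rw [cv, sum_jk_mul, Fintype.sum_prod_type, sum_eq_single 0, mul_sum]
    · refine sum_congr rfl fun u _ => ?_
      rw [tt_single, tt_univ hM]; simp [hd]
    · intro y _ hy
      exact sum_eq_zero fun u _ => by rw [tt_single]; simp [hy]
    · exact fun h => absurd (mem_univ _) h

lemma rf_mem (i : Fin d) (n : ℕ) (x : Tor d M) : rf i 0 x ∈ cs 0 i n ↔ x ∈ cs 0 i n := by
  simp [mem_cs, ab_neg]

lemma xk_rf {p : ℝ} (hM : 3 ≤ M) (i : Fin d) (n : ℕ) (z : Tor d M) :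
    xk p (cs 0 i n) (rf i 0 z) = xk p (cs 0 i n) z := by
  have hh : ∀ b : Tor d M × Dir d, hd (rf i 0 b.1, rfD i b.2) = rf i 0 (hd b) := fun b =>
    (rf_add_dv i 0 b.1 b.2).symm
  have h0 : rf i 0 (0 : Tor d M) = 0 := by simp [rf]
  have key : ∀ (w : Tor d M) (b : Tor d M × Dir d),
      b ∈ (ex univ (cs 0 i n)).filter (fun b => hd b = w) →
      (rf i 0 b.1, rfD i b.2) ∈ (ex univ (cs 0 i n)).filter (fun b => hd b = rf i 0 w) := by
    intro w b hb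
    rw [mem_filter, mem_ex] at hb ⊢
    rw [hh, rf_mem, rf_mem]
    exact ⟨⟨hb.1.1, mem_univ _, hb.1.2.2⟩, by rw [hb.2]⟩
  rw [xk, xk, xm, xm]
  congr 1
  refine sum_nbij' (fun b => (rf i 0 b.1, rfD i b.2)) (fun b => (rf i 0 b.1, rfD i b.2))
    (fun b hb => by simpa using key _ b hb) (fun b hb => key _ b hb) (fun b _ => by simp)
    (fun b _ => by simp) fun b _ => ?_
  rw [← tt_rf hM i 0 (rf_mem i n) 0 b.1, h0]

lemma ex_le {p : ℝ} (h0 : 0 ≤ p) (h1 : p ≤ 1) (i : Fin d) (n : ℕ) {j : Fin d} (hj : j ≠ i) :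
    ∑ b ∈ ex univ (cs (0 : Tor d M) i n),
      tt p (cs (0 : Tor d M) i n) 0 b.1 * (1 + (ab (hd b j) : ℝ)) ^ 8 ≤
      2 * wn j (tt p (cs (0 : Tor d M) i n) 0) := by
  have c1 : ∀ b ∈ ex univ (cs (0 : Tor d M) i n), b.2.1 = i := fun b hb =>
    (exit_cs (mem_ex.1 hb).1 (mem_ex.1 hb).2.2).1
  have c0 : ∀ y, 0 ≤ tt p (cs (0 : Tor d M) i n) 0 y := fun y => tt_nonneg h0 h1
  generalize tt p (cs (0 : Tor d M) i n) 0 = f at c0 ⊢
  generalize ex univ (cs (0 : Tor d M) i n) = EE at c1 ⊢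
  have c2 : EE ⊆ (univ : Finset (Tor d M)) ×ˢ ({(i, true), (i, false)} : Finset (Dir d)) :=
    fun b hb => by
      have := eq_or_opp (u := (i, true)) (c1 b hb)
      rw [mem_product, mem_insert, mem_singleton]
      exact ⟨mem_univ _, this⟩
  calc _ = ∑ b ∈ EE, (1 + (ab (b.1 j) : ℝ)) ^ 8 * f b.1 :=
        sum_congr rfl fun b hb => by
          rw [mul_comm, hd, Pi.add_apply, dv_of_ne (by rw [c1 b hb]; exact hj), add_zero]
    _ ≤ _ := sum_le_sum_of_subset_of_nonneg c2 fun b _ _ => mul_nonneg (by positivity) (c0 _)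
    _ = _ := by
        rw [sum_product, wn, mul_sum]
        exact sum_congr rfl fun y _ => by rw [sum_pair (by simp)]; ring

end KER

open KER in
theorem t_ker : T_KER := by
  intro hF hL hT
  obtain ⟨C, hC0, hC⟩ := geo
  have l0 := lam_pos
  refine ⟨2 * (4096 * lam ^ 2 * (C + 1)), by positivity, fun d M _ p h => ?_⟩
  have h0 := h.p0
  have h1 := h.p1
  have hd0 := h.dpos
  refine ⟨first h.hM h0 h1, fun i n hn => ?_⟩
  have hsub : cs (0 : Tor d M) i n ⊆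
      sl (i, true) ((0 : Tor d M) i + sg M true * (n : ZMod M)) (2 * n) :=
    (cs_eq_sl 0 (i, true) (by omega)).subset
  have hmass : ∀ o : Tor d M, ∑ y, tt p (cs 0 i n) o y * 1 ≤
      4 * d * ((2 * (n : ℝ) + 1) ^ 2 * lam ^ 2) := fun o => by
    have b1 := (hL d M p h _ _ _ _ o (by omega) hsub).2
    push_cast at b1
    simp only [mul_one]
    have b2 : 0 ≤ ∑ y, tt p (cs 0 i n) o y := sum_nonneg fun _ _ => tt_nonneg h0 h1
    have b3 := mul_le_mul_of_nonneg_right h.lo b2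
    have b4 := mul_le_mul_of_nonneg_left b1 (show (0 : ℝ) ≤ 4 * d by positivity)
    linarith
  have n0 : (0 : ℝ) ≤ n := Nat.cast_nonneg n
  have e1 : ∀ k : ℕ, (2 * (n : ℝ) + 1) ^ k ≤ 2 ^ k * ((n : ℝ) + 1) ^ k := fun k => by
    rw [← mul_pow]; exact pow_le_pow_left₀ (by positivity) (by linarith) k
  refine ⟨fun z => ⟨xm_nonneg h0 h1 _, fun hz => ?_, xk_rf h.hM i n z⟩, ?_, fun x => ?_, ?_,
    fun j hj => ?_⟩
  · obtain ⟨b, hb, -⟩ := exists_ne_zero_of_sum_ne_zero (right_ne_zero_of_mul hz)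
    rw [mem_filter, mem_ex] at hb
    have := (exit_cs hb.1.1 hb.1.2.2).2
    rw [← hb.2]; simpa [hd] using this
  · have := xk_mul p (cs (0 : Tor d M) i n) fun _ => 1
    simp only [mul_one] at this
    rw [this]
    exact (hF d M p h).2.2.2 i n 0 (by omega)
  · refine (slp h.hM h0 h1 univ (self_mem_cs 0 i n) x).trans (add_le_add le_rfl (le_of_eq ?_))
    rw [cv, xk_mul, mul_sum]
    exact sum_congr rfl fun b _ => by rw [tt_univ h.hM]; ring
  · have b1 := hmass 0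
    simp only [mul_one] at b1
    have b2 := mul_le_mul_of_nonneg_left (e1 2) (show (0 : ℝ) ≤ 4 * d * lam ^ 2 by positivity)
    have b3 : 0 ≤ lam ^ 2 * ((n : ℝ) + 1) ^ 2 * d := by positivity
    nlinarith [mul_nonneg hC0 b3]
  have t1 : wn j (tt p (cs (0 : Tor d M) i n) 0) ≤
      4096 * lam ^ 2 * (C + 1) * ((n : ℝ) + 1) ^ 10 * d := by
    have b1 := tail_sum (B := 4 * d * ((2 * (n : ℝ) + 1) ^ 2 * lam ^ 2)) hC (by positivity) (fun y : Tor d M => ab (y j)) _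
      (fun y => tt_nonneg (S := cs 0 i n) (x := 0) (y := y) h0 h1) (2 * n) fun m => by
        simpa using (hT d M p h _ _ _ _ j (fun _ => 1) (by omega) hsub hj fun _ => zero_le_one).2 _
          (fun o _ => hmass o) m 0 (self_mem_cs 0 i n)
    push_cast at b1
    have b2 := mul_le_mul_of_nonneg_left (e1 10) (show (0 : ℝ) ≤ C * (4 * d * lam ^ 2) by positivity)
    have b3 : 0 ≤ lam ^ 2 * ((n : ℝ) + 1) ^ 10 * d := by positivity
    refine b1.trans ?_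
    calc _ = C * (4 * d * lam ^ 2) * (2 * (n : ℝ) + 1) ^ 10 := by ring
      _ ≤ _ := b2
      _ = 4096 * C * (lam ^ 2 * ((n : ℝ) + 1) ^ 10 * d) := by ring
      _ ≤ _ := by nlinarith
  have t0' : 0 ≤ 4096 * lam ^ 2 * (C + 1) * ((n : ℝ) + 1) ^ 10 := by positivity
  refine ⟨?_, t1.trans (by nlinarith)⟩
  have b1 := xk_mul p (cs (0 : Tor d M) i n) fun z : Tor d M => (1 + (ab (z j) : ℝ)) ^ 8
  have b2 := ex_le (M := M) h0 h1 i n hj
  have b3 : p * d ≤ 1 := (le_div_iff₀ hd0).1 h.p_le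
  have b4 : wn j (xk p (cs (0 : Tor d M) i n)) = _ := (sum_congr rfl fun z _ => mul_comm _ _).trans b1
  rw [b4]
  have b5 := mul_le_mul_of_nonneg_left (b2.trans (mul_le_mul_of_nonneg_left t1 zero_le_two)) h0
  have b6 := mul_le_mul_of_nonneg_left b3 t0'
  nlinarith

end Pool.Agent.HDE
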