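import Pool.Agent.Lib.HDE.BlueC
import Pool.Agent.Lib.HDE.Api2

/-! Block L2: consequences of the bound for the weighted square diagram. -/

open Finset

namespace Pool.Agent.HDE

open Pool.Agent.TPC
open Pool.Agent.HD (rad tauT chiT)

namespace L2B

variable {d M : ℕ} [NeZero M] {p C₀ : ℝ}

/-- the weighted two-point function -/
noncomputable def gw (p : ℝ) (j : Fin d) (x : Tor d M) : ℝ := (1 + (ab (x j) : ℝ)) ^ 2 * t0 p x

lemma cv_even {g : Tor d M → ℝ} (hg : ∀ x, g (-x) = g x) (w : Tor d M) :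
    cv g g (-w) = cv g g w := by
  rw [cv, cv, ← Equiv.sum_comp (Equiv.neg (Tor d M))]
  refine sum_congr rfl fun y _ => ?_
  rw [Equiv.neg_apply, hg, ← hg (w - y)]
  congr 2
  abel

lemma sq_eq {g : Tor d M → ℝ} (hg : ∀ x, g (-x) = g x) :
    ∑ w, cv g g w ^ 2 = cv g (cv g (cv g g)) 0 := by
  rw [← cv_assoc g g (cv g g), cv]
  exact sum_congr rfl fun w _ => by rw [zero_sub, cv_even hg, sq]

lemma le_cv {g : Tor d M → ℝ} (h0 : ∀ x, 0 ≤ g x) (h1 : g 0 = 1) (w : Tor d M) :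
    g w ≤ cv g g w := by
  have := single_le_sum (f := fun y => g y * g (w - y)) (fun y _ => mul_nonneg (h0 _) (h0 _))
    (mem_univ w)
  simpa [h1, cv] using this

lemma cv_self_le (h : Tor d M → ℝ) (e : Tor d M) : cv h h e ≤ ∑ w, h w ^ 2 := by
  have h1 : ∑ w, h (e - w) ^ 2 = ∑ w, h w ^ 2 := (Equiv.subLeft e).sum_comp fun w => h w ^ 2
  have h2 : ∑ w, 2 * (h w * h (e - w)) ≤ ∑ w, (h w ^ 2 + h (e - w) ^ 2) :=
    sum_le_sum fun w _ => by nlinarith [sq_nonneg (h w - h (e - w))]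
  rw [sum_add_distrib, h1, ← mul_sum] at h2
  rw [cv]
  linarith

lemma wq_le (G : Good C₀ d M p) (j : Fin d) : 0 ≤ C₀ ∧ Wq p j (0 : Tor d M) ≤ 2 * C₀ := by
  have h := G.sq j 0
  have hd := G.toHyp.dpos
  have hd1 : (1 : ℝ) ≤ d := by exact_mod_cast G.toHyp.d1
  have h0 : ab ((0 : Tor d M) j) = 0 := ab_eq_zero.2 rfl
  rw [if_pos rfl, h0] at h
  simp only [Nat.cast_zero, add_zero, one_pow] at h
  have t := fun x : Tor d M => t0_nonneg (x := x) G.toHyp.p0 G.p1
  have h1 : 0 ≤ Wq p j (0 : Tor d M) :=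
    sum_nonneg fun x _ => sum_nonneg fun y _ => sum_nonneg fun z _ =>
      mul_nonneg (by positivity) (mul_nonneg (mul_nonneg (mul_nonneg (t _) (t _)) (t _)) (t _))
  have h2 : 0 ≤ C₀ := by
    have h3 : (0 : ℝ) < 1 + 1 / d := by positivity
    exact nonneg_of_mul_nonneg_left (h1.trans h) h3
  have h4 : 1 / (d : ℝ) ≤ 1 := by rw [div_le_one hd]; exact hd1
  exact ⟨h2, h.trans (by nlinarith)⟩

lemma gw_nonneg (G : Good C₀ d M p) (j : Fin d) (x : Tor d M) : 0 ≤ gw p j x :=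
  mul_nonneg (by positivity) (t0_nonneg G.toHyp.p0 G.p1)

lemma gw_neg (G : Good C₀ d M p) (j : Fin d) (x : Tor d M) : gw p j (-x) = gw p j x := by
  rw [gw, gw, t0_neg G.hM, Pi.neg_apply, ab_neg]

lemma gw_zero (j : Fin d) : gw p j (0 : Tor d M) = 1 := by
  have h0 : ab ((0 : Tor d M) j) = 0 := ab_eq_zero.2 rfl
  rw [gw, h0, t0_zero]; simp

lemma le_gw' (G : Good C₀ d M p) (j : Fin d) (x : Tor d M) :
    (1 + (ab (x j) : ℝ)) * t0 p x ≤ gw p j x := by
  refine mul_le_mul_of_nonneg_right ?_ (t0_nonneg G.toHyp.p0 G.p1)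
  have : (0 : ℝ) ≤ ab (x j) := Nat.cast_nonneg _
  nlinarith

lemma le_gw (G : Good C₀ d M p) (j : Fin d) (x : Tor d M) : t0 p x ≤ gw p j x := by
  refine le_trans (le_mul_of_one_le_left (t0_nonneg G.toHyp.p0 G.p1) ?_) (le_gw' G j x)
  have : (0 : ℝ) ≤ ab (x j) := Nat.cast_nonneg _
  linarith

lemma four {a b c e : ℝ} (ha : 0 ≤ a) (hb : 0 ≤ b) (hc : 0 ≤ c) (he : 0 ≤ e) :
    (1 + a) ^ 2 * (1 + b) ^ 2 * (1 + c) ^ 2 * (1 + e) ^ 2 ≤ (1 + a + b + c + e) ^ 8 := by
  obtain ⟨s, hs⟩ : ∃ s, s = 1 + a + b + c + e := ⟨_, rfl⟩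
  have h1 : 1 + a ≤ s := by linarith
  have h2 : 1 + b ≤ s := by linarith
  have h3 : 1 + c ≤ s := by linarith
  have h4 : 1 + e ≤ s := by linarith
  rw [← hs]
  calc _ ≤ s ^ 2 * s ^ 2 * s ^ 2 * s ^ 2 := by gcongr
    _ = _ := by ring

lemma three {a b c : ℝ} (ha : 0 ≤ a) (hb : 0 ≤ b) (hc : 0 ≤ c) :
    (a + b + c) * (1 + a) ≤ (1 + a) ^ 2 * (1 + b) ^ 2 * (1 + c) ^ 2 := by
  have h1 : a + b + c ≤ (1 + a) * (1 + b) * (1 + c) := by
    nlinarith [mul_nonneg ha hb, mul_nonneg ha hc, mul_nonneg hb hc,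
      mul_nonneg (mul_nonneg ha hb) hc]
  have h2 : 1 ≤ (1 + b) * (1 + c) := by nlinarith [mul_nonneg hb hc]
  calc _ ≤ (1 + a) * (1 + b) * (1 + c) * (1 + a) := by gcongr
    _ ≤ (1 + a) * (1 + b) * (1 + c) * (1 + a) * ((1 + b) * (1 + c)) :=
        le_mul_of_one_le_right (by positivity) h2
    _ = _ := by ring

lemma Q_le (G : Good C₀ d M p) (j : Fin d) :
    cv (gw p j) (cv (gw p j) (cv (gw p j) (gw p j))) (0 : Tor d M) ≤ 2 * C₀ := by
  refine le_trans ?_ (wq_le G j).2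
  have t := fun x : Tor d M => t0_nonneg (x := x) G.toHyp.p0 G.p1
  simp only [cv, mul_sum, Wq]
  refine sum_le_sum fun x _ => sum_le_sum fun y _ => sum_le_sum fun z _ => ?_
  have h := mul_le_mul_of_nonneg_right (four (a := ab (x j)) (b := ab (y j)) (c := ab (z j))
    (e := ab ((0 - x - y - z : Tor d M) j)) (Nat.cast_nonneg _) (Nat.cast_nonneg _)
    (Nat.cast_nonneg _) (Nat.cast_nonneg _))
    (mul_nonneg (mul_nonneg (mul_nonneg (t x) (t y)) (t z)) (t (0 - x - y - z)))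
  refine le_trans (le_of_eq ?_) h
  simp only [gw]
  ring

lemma tail (G : Good C₀ d M p) (j : Fin d) :
    ∑ v : Tor d M, (1 + (ab (v j) : ℝ)) ^ 8 * t0 p v ^ 2 ≤ 2 * C₀ := by
  refine le_trans ?_ (wq_le G j).2
  have t := fun x : Tor d M => t0_nonneg (x := x) G.toHyp.p0 G.p1
  refine sum_le_sum fun x _ => ?_
  refine le_trans ?_ (single_le_sum (fun y _ => sum_nonneg fun z _ => mul_nonneg (by positivity)
    (mul_nonneg (mul_nonneg (mul_nonneg (t _) (t _)) (t _)) (t _))) (mem_univ (-x)))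
  refine le_trans ?_ (single_le_sum (fun z _ => mul_nonneg (by positivity)
    (mul_nonneg (mul_nonneg (mul_nonneg (t _) (t _)) (t _)) (t _))) (mem_univ 0))
  have e : (0 - x - -x - 0 : Tor d M) = 0 := by abel
  rw [e, t0_zero, t0_neg G.hM, mul_one, mul_one, ← sq]
  refine mul_le_mul_of_nonneg_right ?_ (sq_nonneg _)
  refine pow_le_pow_left₀ (by positivity) ?_ _
  have h1 : (0 : ℝ) ≤ ab ((-x) j) := Nat.cast_nonneg _
  have h2 : (0 : ℝ) ≤ ab ((0 : Tor d M) j) := Nat.cast_nonneg _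
  linarith

lemma tri (G : Good C₀ d M p) (j : Fin d) (e : Tor d M) : (ab (e j) : ℝ) *
    ∑ a : Tor d M, (1 + (ab (a j) : ℝ)) * t0 p a * cv (t0 p) (t0 p) (e - a) ≤ 2 * C₀ := by
  have t := fun x : Tor d M => t0_nonneg (x := x) G.toHyp.p0 G.p1
  have g0 := gw_nonneg G j
  calc _ ≤ cv (gw p j) (cv (gw p j) (gw p j)) e := by
        simp only [cv, mul_sum]
        refine sum_le_sum fun a _ => sum_le_sum fun b _ => ?_
        have h1 : ab (e j) ≤ ab (a j) + ab (b j) + ab ((e - a - b) j) := by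
          have h2 : e j = a j + b j + (e - a - b) j := by simp only [Pi.sub_apply]; ring
          rw [h2]
          have h3 := ab_add_le (a j + b j) ((e - a - b) j)
          have h4 := ab_add_le (a j) (b j)
          rw [← h2] at h3 ⊢
          omega
        have h5 : (ab (e j) : ℝ) ≤ ab (a j) + ab (b j) + ab ((e - a - b) j) := by exact_mod_cast h1
        have h6 : (ab (e j) : ℝ) * (1 + ab (a j)) ≤ _ :=
          (mul_le_mul_of_nonneg_right h5 (by positivity)).trans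
            (three (Nat.cast_nonneg _) (Nat.cast_nonneg _) (Nat.cast_nonneg _))
        have h7 := mul_le_mul_of_nonneg_right h6
          (mul_nonneg (mul_nonneg (t a) (t b)) (t (e - a - b)))
        refine le_trans (le_of_eq ?_) (h7.trans (le_of_eq ?_))
        · ring
        · simp only [gw]; ring
    _ ≤ cv (cv (gw p j) (gw p j)) (cv (gw p j) (gw p j)) e :=
        cv_mono_left (le_cv g0 (gw_zero j)) (cv_nonneg g0 g0) e
    _ ≤ _ := cv_self_le _ e
    _ = _ := sq_eq (gw_neg G j)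
    _ ≤ _ := Q_le G j

end L2B

open L2B in
theorem t_l2 : T_L2 := by
  intro C₀ d M _ p G
  have hd := G.toHyp.d1
  have t := fun x : Tor d M => t0_nonneg (x := x) G.toHyp.p0 G.p1
  refine ⟨(wq_le G ⟨0, hd⟩).1, ?_, fun r => ?_, tri G, fun x => ?_, fun j => ?_⟩
  · refine le_trans (sum_le_sum fun v _ => ?_) (tail G ⟨0, hd⟩)
    refine le_mul_of_one_le_left (sq_nonneg _) (one_le_pow₀ ?_)
    exact le_add_of_nonneg_right (Nat.cast_nonneg _)
  · calc _ ≤ ∑ v ∈ univ.filter (fun v : Tor d M => r ≤ rad v),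
          ∑ j : Fin d, (1 + (ab (v j) : ℝ)) ^ 8 * t0 p v ^ 2 := by
          rw [mul_sum]
          refine sum_le_sum fun v hv => ?_
          obtain ⟨j, hj⟩ := exists_ab_eq_rad hd v
          refine le_trans ?_ (single_le_sum
            (f := fun j : Fin d => (1 + (ab (v j) : ℝ)) ^ 8 * t0 p v ^ 2)
            (fun j _ => by positivity) (mem_univ j))
          have h1 : (r : ℝ) ≤ ab (v j) := by
            rw [hj]; exact_mod_cast (mem_filter.1 hv).2
          gcongr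
          linarith
      _ ≤ ∑ v : Tor d M, ∑ j : Fin d, (1 + (ab (v j) : ℝ)) ^ 8 * t0 p v ^ 2 :=
          sum_le_sum_of_subset_of_nonneg (filter_subset _ _) fun v _ _ =>
            sum_nonneg fun j _ => by positivity
      _ ≤ ∑ _j : Fin d, 2 * C₀ := by
          rw [sum_comm]; exact sum_le_sum fun j _ => tail G j
      _ = _ := by simp; ring
  · obtain ⟨j, hj⟩ := exists_ab_eq_rad hd x
    refine le_trans ?_ (tri G j x)
    rw [hj, cv_assoc, cv]
    refine mul_le_mul_of_nonneg_left (sum_le_sum fun a _ => ?_) (Nat.cast_nonneg _)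
    refine mul_le_mul_of_nonneg_right (le_mul_of_one_le_left (t a) ?_) (cv_nonneg t t _)
    exact le_add_of_nonneg_right (Nat.cast_nonneg _)
  · refine le_trans ?_ (Q_le G j)
    have g0 := gw_nonneg G j
    rw [cv, ← Equiv.sum_comp (Equiv.neg (Tor d M))]
    refine sum_le_sum fun a _ => ?_
    rw [cv, mul_sum]
    refine sum_le_sum fun b _ => ?_
    rw [Equiv.neg_apply, zero_sub, mul_assoc, ← gw_neg G j a]
    refine mul_le_mul (le_gw' G j _) (mul_le_mul (le_gw G j b) ?_ (cv_nonneg t t _) (g0 _))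
      (mul_nonneg (t _) (cv_nonneg t t _)) (g0 _)
    exact (cv_mono t (le_gw G j) _).trans (cv_mono_left (le_gw G j) g0 _)

end Pool.Agent.HDE
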