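import Pool.Agent.Lib.HDE.Api2

/-! Layer masses and susceptibility of a slab. -/

open Finset

namespace Pool.Agent.HDE

open Pool.Agent.TPC

namespace LAYER

variable {d M : ℕ} [NeZero M] {p : ℝ}

/-- from a point of the face every layer has small mass -/
lemma face (hF : St_FACE) (h : Hyp d M p) (u : Dir d) (c : ZMod M) {n : ℕ} (hn : 2 * n < M) {z : Tor d M}
    (hz : z u.1 = c) (e : ZMod M) : p * ∑ y ∈ hp u.1 e, tt p (sl u c n) z y ≤ lam := by
  refine le_trans (le_of_eq ?_) ((hF d M p h).1 u c n _ (Function.update z u.1 e) hn subset_rfl)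
  congr 1
  refine sum_equiv (Equiv.subLeft (z + Function.update z u.1 e)) (fun y => ?_) fun y hy => ?_
  · simp only [mem_hp, Equiv.subLeft_apply, Pi.sub_apply, Pi.add_apply, Function.update_self, hz]
    exact ⟨fun a => by rw [a]; ring, fun a => by linear_combination -a⟩
  · have h1 := tt_add (p := p) (S := sl u c n) (S' := sl u c n) h.hM (Function.update z u.1 e - y)
      (fun x => by
        rw [mem_sl, mem_sl, dp_congr (c' := c) (y := x)]
        rw [Pi.add_apply, Pi.sub_apply, Function.update_self, mem_hp.1 hy, sub_self, add_zero]) z y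
    rw [← h1, add_sub_cancel, tt_comm, Equiv.subLeft_apply, add_sub_assoc]

lemma lam_le : lam ≤ lam ^ 2 := by rw [lam]; norm_num

lemma main (hF : St_FACE) (h : Hyp d M p) (u : Dir d) (o w : Tor d M) (j : ℕ) :
    ∀ (c : ZMod M) (n : ℕ), 2 * n < M → min (dp u c w) (dp u c o) = j →
      p * ∑ y ∈ hp u.1 (w u.1), tt p (sl u c n) o y ≤ ((j : ℝ) + 1) * lam ^ 2 := by
  induction j with
  | zero =>
    intro c n hn hj
    rw [Nat.cast_zero, zero_add, one_mul]
    refine le_trans ?_ lam_le
    rcases Nat.min_eq_zero_iff.1 hj with a | a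
    · rw [dp_eq_zero.1 a]; exact (hF d M p h).1 u c n _ o hn subset_rfl
    · exact face hF h u c hn (dp_eq_zero.1 a) _
  | succ j ih =>
    intro c n hn hj
    by_cases ho : o ∈ sl u c n
    swap
    · rw [sum_eq_zero fun y _ => tt_of_left ho, mul_zero]
      positivity
    have ho' := mem_sl.1 ho
    obtain ⟨n, rfl⟩ : ∃ n', n = n' + 1 := ⟨n - 1, by omega⟩
    set c' : ZMod M := c - sg M u.2 * ((1 : ℕ) : ZMod M) with hc'
    have sh : ∀ x : Tor d M, 1 ≤ dp u c x → dp u c' x = dp u c x - 1 := fun x hx => dp_shift hx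
    have h1 := ih c' n (by omega) (by rw [sh w (by omega), sh o (by omega)]; omega)
    have ho2 : o ∈ sl u c' n := mem_sl.2 (by rw [sh o (by omega)]; omega)
    have hex : ∀ b ∈ ex (sl u c (n + 1)) (sl u c' n), hd b u.1 = c ∧ b.2 = u ∧ b.1 u.1 = c' := by
      intro b hb
      obtain ⟨b1, b2, b3⟩ := mem_ex.1 hb
      have b4 : dp u c (hd b) = 0 := by
        by_contra a
        rw [mem_sl] at b2 b3
        rw [sh _ (by omega)] at b3
        omega
      refine ⟨dp_eq_zero.1 b4, (exit_sl b1 b3).resolve_right fun a => ?_⟩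
      have b5 : dp u c (hd b) = n + 2 := by
        rw [dp_eq_iff (by omega), hd, Pi.add_apply, a.1, dv_opp, Pi.neg_apply, dv_self, a.2, hc']
        push_cast; ring
      omega
    have h2 : p * ∑ b ∈ ex (sl u c (n + 1)) (sl u c' n), tt p (sl u c' n) o b.1 ≤ lam := by
      refine le_trans (mul_le_mul_of_nonneg_left ?_ h.p0) ((hF d M p h).1 u c' n _ o (by omega) subset_rfl)
      rw [← sum_image (g := Prod.fst) (f := fun y => tt p (sl u c' n) o y) fun b hb b' hb' e =>
        Prod.ext e ((hex b hb).2.1.trans (hex b' hb').2.1.symm)]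
      exact sum_le_sum_of_subset_of_nonneg (image_subset_iff.2 fun b hb => mem_hp.2 (hex b hb).2.2)
        fun _ _ _ => tt_nonneg h.p0 h.p1
    have h3 := sum_le_sum fun y (_ : y ∈ hp u.1 (w u.1)) => slp h.hM h.p0 h.p1 (sl u c (n + 1)) ho2 y
    rw [sum_add_distrib, sum_comm] at h3
    have h4 : ∑ b ∈ ex (sl u c (n + 1)) (sl u c' n), ∑ y ∈ hp u.1 (w u.1),
        tt p (sl u c' n) o b.1 * (p * tt p (sl u c (n + 1)) (hd b) y) ≤
        (∑ b ∈ ex (sl u c (n + 1)) (sl u c' n), tt p (sl u c' n) o b.1) * lam := by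
      rw [sum_mul]
      refine sum_le_sum fun b hb => ?_
      rw [← mul_sum, ← mul_sum]
      exact mul_le_mul_of_nonneg_left (face hF h u c hn (hex b hb).1 _) (tt_nonneg h.p0 h.p1)
    have h5 := mul_le_mul_of_nonneg_left (h3.trans (add_le_add le_rfl h4)) h.p0
    have h6 := mul_le_mul_of_nonneg_right h2 lam_pos.le
    push_cast
    nlinarith

end LAYER

open LAYER in
theorem t_layer : T_LAYER := by
  intro hF d M _ p h u c n S o hn hS
  have one : ∀ k : ℕ, p * ∑ y ∈ univ.filter (fun y => dp u c y = k), tt p S o y ≤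
      ((min k (dp u c o) : ℕ) + 1) * lam ^ 2 := by
    intro k
    rcases (univ.filter fun y : Tor d M => dp u c y = k).eq_empty_or_nonempty with a | ⟨w, hw⟩
    · rw [a, sum_empty, mul_zero]
      positivity
    have hw' := (mem_filter.1 hw).2
    refine le_trans (mul_le_mul_of_nonneg_left ?_ h.p0) (main hF h u o w _ c n hn (by rw [hw']))
    refine (sum_le_sum fun y _ => tt_mono h.p0 h.p1 hS).trans
      (sum_le_sum_of_subset_of_nonneg (fun y hy => mem_hp.2 ?_) fun _ _ _ => tt_nonneg h.p0 h.p1)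
    rw [dp_spec u c y, dp_spec u c w, hw', (mem_filter.1 hy).2]
  refine ⟨one, ?_⟩
  rw [← sum_subset (subset_univ S) fun y _ hy => tt_of_right hy,
    ← sum_fiberwise_of_maps_to (t := range (n + 1)) (g := dp u c)
      fun y hy => mem_range.2 (Nat.lt_succ_of_le (mem_sl.1 (hS hy))), mul_sum]
  have h1 := sum_le_card_nsmul (range (n + 1))
    (fun k => p * ∑ y ∈ S.filter (fun y => dp u c y = k), tt p S o y) (((n : ℝ) + 1) * lam ^ 2) fun k hk => by
      refine le_trans (mul_le_mul_of_nonneg_left (sum_le_sum_of_subset_of_nonneg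
        (filter_subset_filter _ (subset_univ S)) fun _ _ _ => tt_nonneg h.p0 h.p1) h.p0) ((one k).trans ?_)
      have h2 : min k (dp u c o) ≤ n := (min_le_left _ _).trans (Nat.lt_succ_iff.1 (mem_range.1 hk))
      have h3 : ((min k (dp u c o) : ℕ) : ℝ) ≤ n := by exact_mod_cast h2
      gcongr
  rw [card_range, nsmul_eq_mul] at h1
  refine h1.trans (le_of_eq ?_)
  push_cast; ring

end Pool.Agent.HDE
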