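import Pool.Agent.Lib.HDE.BlueC
import Pool.Agent.Lib.HDE.Api2

/-! The lower bound for the two-point function. -/

open Finset

namespace Pool.Agent.HDE

open Pool.Agent.TPC
open Pool.Agent.HD (rad tauT chiT)

namespace LOWB

lemma rad_smul {d M : ℕ} [NeZero M] (u : Dir d) (k : ℕ) : rad (k • dv M u) ≤ k := by
  induction k with
  | zero => rw [zero_smul, rad_eq_zero.2 rfl]
  | succ k ih =>
    rw [succ_nsmul]
    exact (rad_add_le _ _).trans (add_le_add ih (rad_dv_le u))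

lemma rad_sub_smul {d M : ℕ} [NeZero M] (x : Tor d M) (u : Dir d) (k : ℕ) :
    rad (x - k • dv M u) ≤ rad x + k := by
  rw [sub_eq_add_neg]
  refine (rad_add_le _ _).trans (Nat.add_le_add_left ?_ _)
  rw [rad_neg]
  exact rad_smul u k

end LOWB

open LOWB in
theorem t_low : T_LOW := by
  intro hA hB d C₀ A d7 hP
  obtain ⟨c, K, B, hc, hB4, hP⟩ := hP
  obtain ⟨c', K1, hc', hA⟩ := hA d C₀ A c (by omega) hc
  obtain ⟨c'', K2, m₀, hc'', hB⟩ := hB d B C₀ A c' d7 hB4 hc'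
  refine ⟨c'' / 2 ^ (d - 2), 9 * |K| + ((8 * B + 4 * (K1 + K2) + 1 : ℕ) : ℝ),
    K1 + K2 + m₀ + 1, by positivity, fun M _ p hC x hn hK => ?_⟩
  generalize hr : rad x = n at hn hK ⊢
  have n1 : 1 ≤ n := by omega
  have n1' : (1 : ℝ) ≤ n := by exact_mod_cast n1
  have hK0 : 0 ≤ 9 * |K| * (n : ℝ) ^ 2 := by positivity
  have hN0 : 0 ≤ ((8 * B + 4 * (K1 + K2) + 1 : ℕ) : ℝ) * (n : ℝ) ^ 2 := by positivity
  rw [add_mul] at hK
  have hM : (8 * B + 4 * (K1 + K2) + 1) * n ^ 2 ≤ M := by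
    have : ((8 * B + 4 * (K1 + K2) + 1 : ℕ) : ℝ) * (n : ℝ) ^ 2 ≤ M := by
      have := hC.chM
      linarith
    exact_mod_cast this
  have hM' : 4 * (B * (2 * n)) + 4 * (K1 + K2) < M := by
    have a : n ≤ n ^ 2 := Nat.le_self_pow two_ne_zero n
    have b : 8 * B * n ≤ 8 * B * n ^ 2 := Nat.mul_le_mul_left _ a
    have e : (4 * (K1 + K2) + 1) * 1 ≤ (4 * (K1 + K2) + 1) * n ^ 2 :=
      Nat.mul_le_mul_left _ (n1.trans a)
    nlinarith
  have hch : K * (((2 * n : ℕ) : ℝ) + 1) ^ 2 ≤ ch d M p := by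
    have a : (((2 * n : ℕ) : ℝ) + 1) ^ 2 ≤ 9 * (n : ℝ) ^ 2 := by
      push_cast
      nlinarith
    have b := mul_le_mul (le_abs_self K) a (by positivity) (abs_nonneg K)
    linarith
  let u : Dir d := (⟨0, by omega⟩, true)
  have r1 := rad_sub_smul x u K2
  have r2 := rad_sub_smul (x - K2 • dv M u) (opp u) K1
  have s1 := hP M p hC u (2 * n) _ (by omega) (r2.trans (by omega)) hch
  have s2 := hA M p hC u (2 * n) (B * (2 * n)) _ (by omega)
    (Nat.le_mul_of_pos_left _ (by omega)) (by omega) s1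
  have s3 := hB M p hC u (2 * n) x (by omega) (by omega) (by omega) (by omega) s2
  rw [div_le_iff₀ (by positivity)]
  refine s3.trans (le_of_eq ?_)
  push_cast
  rw [mul_pow]
  ring

end Pool.Agent.HDE
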