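import Pool.Agent.Lib.HDE.BlueC
import Pool.Agent.Lib.HDE.Api2

/-! The mirror step. -/

open Finset

set_option linter.unusedSectionVars false

namespace Pool.Agent.HDE

open Pool.Agent.TPC
open Pool.Agent.HD (rad)

namespace MIRB

variable {d M : ℕ} [NeZero M] {p : ℝ}

lemma E1_nonneg (h0 : 0 ≤ p) (h1 : p ≤ 1) (L S F : Finset (Tor d M)) (g : Tor d M → Tor d M)
    (o v : Tor d M) : 0 ≤ E1 p 1 L S F id g o v :=
  sum_nonneg fun _ _ => mul_nonneg (tt_nonneg h0 h1) (sum_nonneg fun _ _ => sum_nonneg fun _ _ =>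
    mul_nonneg (mul_nonneg (tt_nonneg h0 h1) (mul_nonneg zero_le_one (tt_nonneg h0 h1)))
      (mul_nonneg (tt_nonneg h0 h1) (mul_nonneg zero_le_one (tt_nonneg h0 h1))))

lemma E2_nonneg (h0 : 0 ≤ p) (h1 : p ≤ 1) (L S F : Finset (Tor d M)) (g : Tor d M → Tor d M)
    (o v : Tor d M) : 0 ≤ E2 p 1 L S F id g o v :=
  sum_nonneg fun _ _ => mul_nonneg (mul_nonneg (tt_nonneg h0 h1) (tt_nonneg h0 h1))
    (sum_nonneg fun _ _ =>
      mul_nonneg (tt_nonneg h0 h1) (mul_nonneg zero_le_one (tt_nonneg h0 h1)))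

lemma E2_zero {L S F : Finset (Tor d M)} {g : Tor d M → Tor d M} {o v : Tor d M} (h : v ∉ S) :
    E2 p 1 L S F id g o v = 0 :=
  sum_eq_zero fun _ _ => by rw [tt_of_right h, mul_zero, zero_mul]

/-- the kernel of a family of edges -/
noncomputable def ek (p : ℝ) (S : Finset (Tor d M)) (EE : Finset (Tor d M × Dir d))
    (o v : Tor d M) : ℝ := ∑ e ∈ EE, if hd e = v then p * tt p S o e.1 else 0

lemma ek_nonneg (h0 : 0 ≤ p) (h1 : p ≤ 1) (S : Finset (Tor d M)) (EE : Finset (Tor d M × Dir d))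
    (o v : Tor d M) : 0 ≤ ek p S EE o v :=
  sum_nonneg fun _ _ => by
    split_ifs
    · exact mul_nonneg h0 (tt_nonneg h0 h1)
    · exact le_rfl

lemma sum_ek (S : Finset (Tor d M)) (EE : Finset (Tor d M × Dir d)) (o : Tor d M)
    (g : Tor d M → ℝ) : ∑ v, ek p S EE o v * g v = ∑ e ∈ EE, p * tt p S o e.1 * g (hd e) := by
  simp only [ek, sum_mul]
  rw [sum_comm]
  refine sum_congr rfl fun e _ => ?_
  simp only [ite_mul, zero_mul, sum_ite_eq, mem_univ, if_true]

lemma rad_rf (i : Fin d) (c : ZMod M) (x y : Tor d M) : rad (rf i c x - rf i c y) ≤ rad (x - y) :=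
  rad_le_iff.2 fun j => by
    by_cases h : j = i
    · subst h
      rw [Pi.sub_apply, rf_self, rf_self, sub_sub_sub_cancel_left, ab_sub_comm]
      exact ab_le_rad (x - y) j
    · rw [Pi.sub_apply, rf_of_ne h, rf_of_ne h]
      exact ab_le_rad (x - y) j

lemma rad_smul (u : Dir d) (s : ℕ) : rad (s • dv M u) ≤ s := rad_le_iff.2 fun j => by
  by_cases h : j = u.1
  · subst h
    rw [Pi.smul_apply, dv_self, nsmul_eq_mul, mul_comm, ab_sg_mul]
    exact ab_natCast_le s
  · rw [Pi.smul_apply, dv_of_ne h, smul_zero, ab_eq_zero.2 rfl]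
    exact Nat.zero_le _

lemma smul_mem {u₀ u : Dir d} (h : u.1 ≠ u₀.1) (c : ZMod M) (n s : ℕ) (x : Tor d M) :
    x + s • dv M u ∈ sl u₀ c n ↔ x ∈ sl u₀ c n := by
  rw [mem_sl, mem_sl, dp_congr (c' := c) (y := x)]
  rw [Pi.add_apply, Pi.smul_apply, dv_of_ne (Ne.symm h), smul_zero, add_zero]

lemma rf_mem {u₀ : Dir d} {i : Fin d} (h : i ≠ u₀.1) (c a : ZMod M) (n : ℕ) (x : Tor d M) :
    rf i a x ∈ sl u₀ c n ↔ x ∈ sl u₀ c n := by
  rw [mem_sl, mem_sl, dp_congr (c' := c) (y := x)]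
  rw [rf_of_ne (Ne.symm h)]

/-- the upper Simon-Lieb inequality at `o` -/
lemma upper (hM : 3 ≤ M) (h0 : 0 ≤ p) (h1 : p ≤ 1) (L : Finset (Tor d M)) {o x : Tor d M}
    {u : Dir d} {b r : ℕ} (ho : o ∈ L ∩ hb o u b r) (hx : x ∉ hb o u b r) :
    tt p L o x ≤ ∑ y ∈ (L ∩ hb o u b r).filter (fun y => y u.1 = o u.1 + sg M u.2 * (b : ZMod M)),
      tt p (L ∩ hb o u b r) o y * tt p L (y + dv M u) x +
      ∑ v, ek p (hb o u b r) (nx o u b r) o v * tt p L v x := by
  have a := slp hM h0 h1 L ho x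
  rw [tt_of_right (fun h => hx (mem_inter.1 h).2), zero_add] at a
  refine a.trans ?_
  rw [sum_ek, ← sum_filter_add_sum_filter_not (ex L (L ∩ hb o u b r))
    fun e => e.2 = u ∧ e.1 u.1 = o u.1 + sg M u.2 * (b : ZMod M)]
  refine add_le_add ?_ ?_
  · refine le_trans ?_ (le_of_eq (sum_image
      (f := fun e : Tor d M × Dir d => tt p (L ∩ hb o u b r) o e.1 * tt p L (hd e) x)
      (g := fun y => (y, u)) (fun _ _ _ _ h => (Prod.ext_iff.1 h).1)))
    refine (sum_le_sum fun e _ => ?_).trans (sum_le_sum_of_subset_of_nonneg (fun e he => ?_)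
      fun _ _ _ => mul_nonneg (tt_nonneg h0 h1) (tt_nonneg h0 h1))
    · exact mul_le_mul_of_nonneg_left (mul_le_of_le_one_left (tt_nonneg h0 h1) h1)
        (tt_nonneg h0 h1)
    · obtain ⟨a1, a2, a3⟩ := mem_filter.1 he
      exact mem_image.2 ⟨e.1, mem_filter.2 ⟨(mem_ex.1 a1).1, a3⟩, by rw [← a2]⟩
  · refine (sum_le_sum fun e _ => ?_).trans (sum_le_sum_of_subset_of_nonneg (fun e he => ?_)
      fun _ _ _ => mul_nonneg (mul_nonneg h0 (tt_nonneg h0 h1)) (tt_nonneg h0 h1))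
    · have := mul_le_mul_of_nonneg_right (tt_mono (x := o) (y := e.1) h0 h1
        (inter_subset_right : L ∩ hb o u b r ⊆ _))
        (mul_nonneg h0 (tt_nonneg (S := L) (x := hd e) (y := x) h0 h1))
      linarith
    · obtain ⟨a1, a2⟩ := mem_filter.1 he
      obtain ⟨b1, b2, b3⟩ := mem_ex.1 a1
      exact mem_filter.2 ⟨mem_ex.2 ⟨(mem_inter.1 b1).2, mem_univ _,
        fun h => b3 (mem_inter.2 ⟨b2, h⟩)⟩, a2⟩

lemma arith {θ q P t X1 X2 m s : ℝ} (hθ : 0 < θ) (hP : 0 < P) (hq : 1 ≤ q * P) (ht : 0 ≤ t)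
    (h1 : 0 ≤ X1) (hs : 0 ≤ s) (h : s + θ * P * m ≤ t + θ * P * X2 + θ ^ 2 * X1) :
    m ≤ q / θ * t + (X2 + θ * q * X1) := by
  refine le_of_mul_le_mul_left ?_ (mul_pos hθ hP)
  have e : θ * P * (q / θ * t + (X2 + θ * q * X1)) =
      q * P * t + θ * P * X2 + q * P * (θ ^ 2 * X1) := by field_simp; ring
  have a := le_mul_of_one_le_left ht hq
  have b := le_mul_of_one_le_left (mul_nonneg (sq_nonneg θ) h1) hq
  rw [e]
  linarith

end MIRB

open MIRB in
theorem t_mir : T_MIR := by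
  intro hSLK hEK hRU d C₀ ε hε
  obtain ⟨C, hC, EK⟩ := hEK d C₀
  obtain ⟨A₀, hA₀, RU⟩ := hRU d (ε / 3) (by positivity)
  obtain ⟨K, hK1, hK⟩ : ∃ K : ℕ, 1 ≤ K ∧ C ≤ ε / 3 * K := by
    refine ⟨⌈3 * C / ε⌉₊ + 1, by omega, ?_⟩
    have := Nat.le_ceil (3 * C / ε)
    rw [div_le_iff₀ hε] at this
    push_cast
    linarith
  obtain ⟨q, hq, hq1⟩ : ∃ q : ℝ, q = (4 * d + 1) ^ K ∧ 1 ≤ q :=
    ⟨_, rfl, one_le_pow₀ (by have : (0 : ℝ) ≤ d := Nat.cast_nonneg d; linarith)⟩
  obtain ⟨θ, hθ, hθ1, hθ2⟩ : ∃ θ : ℝ, 0 < θ ∧ θ ≤ 1 ∧ θ * q * C ≤ ε / 3 := by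
    have h : 0 < q * C + 1 := by positivity
    refine ⟨min 1 (ε / 3 / (q * C + 1)), by positivity, min_le_left _ _, ?_⟩
    have := min_le_right 1 (ε / 3 / (q * C + 1))
    have h2 : 0 ≤ min 1 (ε / 3 / (q * C + 1)) := by positivity
    rw [le_div_iff₀ h] at this
    linarith
  refine ⟨q / θ, 4 * (q * C), A₀ + K + 3, K, (one_le_div hθ).2 (hθ1.trans hq1), by positivity,
    by omega, ?_⟩
  intro M _ p hG u₀ u c₀ n₀ r b c o hu hr hoc hA
  have hM := hG.hM
  have h0 := hG.toHyp.p0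
  have h1 := hG.p1
  have hA1 : A₀ * (b + 1) ≤ r := le_trans (Nat.mul_le_mul_right _ (by omega)) hA
  have hA2 : 2 * b + K + 3 ≤ r := by
    have : (K + 3) * (b + 1) ≤ r := le_trans (Nat.mul_le_mul_right _ (by omega)) hA
    nlinarith
  set L := sl u₀ c₀ n₀ with hL
  by_cases hoL : o ∈ L
  swap
  · refine (Cmp.of_le fun x => ?_).mono h0 h1 le_rfl hε.le (by positivity)
    rw [tt_of_left hoL]
    exact mul_nonneg (by positivity) (tt_nonneg h0 h1)
  set c₁ := o u.1 + sg M u.2 * (b : ZMod M) with hc₁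
  set S := L ∩ hb o u b r with hS
  set F := S.filter fun y => y u.1 = c₁ with hF
  set a := o u.1 + o u.1 + sg M u.2 * ((2 * b + K + 1 : ℕ) : ZMod M) with ha
  set o' := o + (2 * b + K + 1) • dv M u with ho'
  set c₂ := c₁ + sg M u.2 * ((K + 1 : ℕ) : ZMod M) with hc₂
  set S' := univ.filter fun x => rf u.1 a x ∈ S with hS'
  set F' := univ.filter fun x => rf u.1 a x ∈ F with hF'
  have mS : ∀ x, x ∈ S' ↔ rf u.1 a x ∈ S := fun x => by simp [hS']
  have mF : ∀ x, x ∈ F' ↔ rf u.1 a x ∈ F := fun x => by rw [hF', mem_filter]; simp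
  have eo : rf u.1 a o = o' := by
    funext j
    by_cases h : j = u.1
    · subst h
      rw [rf_self, ho', Pi.add_apply, Pi.smul_apply, dv_self, nsmul_eq_mul, ha]; ring
    · rw [rf_of_ne h, ho', Pi.add_apply, Pi.smul_apply, dv_of_ne h, smul_zero, add_zero]
  have oS : o ∈ S := mem_inter.2 ⟨hoL, mem_inter.2 ⟨self_mem_bl o r, mem_sl.2 (by
    rw [(dp_eq_iff (k := b) (by omega)).2 (by ring)]; omega)⟩⟩
  have Sb : ∀ x ∈ S, rad (x - o) ≤ r := fun x hx => mem_bl.1 (mem_inter.1 (mem_inter.1 hx).2).1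
  have sub' : S' ⊆ sl (opp u) c₂ (b + r) := fun x hx => by
    have := mem_sl.1 (mem_inter.1 (mem_inter.1 ((mS x).1 hx)).2).2
    refine mem_sl.2 (le_trans (le_of_eq ?_) this)
    simp only [dp, opp_fst, opp_snd, sg_not, rf_self]
    refine congrArg ZMod.val ?_
    rw [hc₂, hc₁, ha]; push_cast; ring
  have S'L : S' ⊆ L := fun x hx => (rf_mem hu c₀ a n₀ x).1 (mem_inter.1 ((mS x).1 hx)).1
  have F'c : ∀ y ∈ F', y (opp u).1 = c₂ := fun y hy => by
    have := (mem_filter.1 ((mF y).1 hy)).2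
    rw [rf_self, ha, hc₁] at this
    rw [opp_fst, hc₂, hc₁]
    push_cast at this ⊢
    linear_combination -this
  have hdF : ∀ y ∈ F', y + K • dv M (opp u) = rf u.1 a y + dv M u := fun y hy => by
    funext j
    by_cases h : j = u.1
    · subst h
      have := F'c y hy
      rw [opp_fst, hc₂, hc₁] at this
      rw [Pi.add_apply, Pi.add_apply, Pi.smul_apply, dv_opp, Pi.neg_apply, dv_self, rf_self,
        nsmul_eq_mul, ha, this]
      push_cast; ring
    · rw [Pi.add_apply, Pi.add_apply, Pi.smul_apply, dv_opp, Pi.neg_apply, dv_of_ne h,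
        rf_of_ne h]; simp
  obtain ⟨e2, e1, e3, -⟩ := EK M p hG (opp u) c₂ (b + r) K L S' F' o' (by omega) (by omega) sub' F'c
  set g := fun y => y + K • dv M (opp u) with hg
  have n1 := E1_nonneg h0 h1 L S' F' g o'
  have n2 := E2_nonneg h0 h1 L S' F' g o'
  have split : ∀ φ : Tor d M → ℝ, ∑ v, (ek p (hb o u b r) (nx o u b r) o v +
      (E2 p 1 L S' F' id g o' v + θ * q * E1 p 1 L S' F' id g o' v)) * φ v =
      ∑ v, ek p (hb o u b r) (nx o u b r) o v * φ v + (∑ v, E2 p 1 L S' F' id g o' v * φ v +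
        θ * q * ∑ v, E1 p 1 L S' F' id g o' v * φ v) := fun φ => by
    rw [mul_sum, ← sum_add_distrib, ← sum_add_distrib]
    exact sum_congr rfl fun v _ => by ring
  refine ⟨fun v => ek p (hb o u b r) (nx o u b r) o v +
    (E2 p 1 L S' F' id g o' v + θ * q * E1 p 1 L S' F' id g o' v), fun v => ?_, ?_,
    fun x hx => ?_, fun φ B hφ hB far hz => ?_⟩
  · exact add_nonneg (ek_nonneg h0 h1 _ _ _ _) (add_nonneg (n2 v)
      (mul_nonneg (by positivity) (n1 v)))
  · have := split fun _ => 1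
    rw [sum_ek] at this
    simp only [mul_one] at this
    rw [this, ← mul_sum]
    have b1 : p * ∑ e ∈ nx o u b r, tt p (hb o u b r) o e.1 ≤ ε / 3 :=
      RU M p hG.toHyp o u b r hA1 hr
    have b2 : ∑ v, E2 p 1 L S' F' id g o' v ≤ ε / 3 := by
      have hK0 : (0 : ℝ) < K := by exact_mod_cast hK1
      refine le_of_mul_le_mul_left (e2.trans ?_) hK0
      linarith
    have b3 := mul_le_mul_of_nonneg_left e1 (show 0 ≤ θ * q by positivity)
    linarith
  · have hxS : x ∉ hb o u b r := fun h => by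
      have := mem_bl.1 (mem_inter.1 h).1
      have := rad_tri x o c
      omega
    have up := upper hM h0 h1 L oS hxS
    have lo := hSLK d M hM p θ h0 h1 hθ.le hθ1 (opp u) c₂ (b + r) K L S' F' o' x hK1 (by omega)
      sub' S'L ((mS o').2 (by rw [← eo, rf_rf]; exact oS)) fun y hy =>
        have hy' := (mS y).2 (mem_filter.1 ((mF y).1 hy)).1
        ⟨hy', F'c y hy, fun s _ => (smul_mem (u := opp u) hu c₀ n₀ s y).2 (S'L hy')⟩
    have re : ∑ y ∈ F', tt p S' o' y * tt p L (y + K • dv M (opp u)) x =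
        ∑ y ∈ F, tt p S o y * tt p L (y + dv M u) x := by
      refine sum_equiv (rfE u.1 a) mF fun y hy => ?_
      have := tt_rf (p := p) (S := S) (S' := S') hM u.1 a
        (fun z => by rw [mS, rf_rf]) o (rf u.1 a y)
      rw [eo, rf_rf] at this
      rw [hdF y hy, this]
      rfl
    rw [re] at lo
    have hq2 : 1 ≤ q * p ^ K := by
      rw [hq, ← mul_pow]
      refine one_le_pow₀ ?_
      have := hG.lo
      linarith
    have := arith hθ (pow_pos hG.toHyp.ppos K) hq2 (tt_nonneg h0 h1)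
      (sum_nonneg fun v _ => mul_nonneg (n1 v) (tt_nonneg h0 h1)) (tt_nonneg h0 h1) lo
    rw [split]
    linarith
  · rw [split, sum_ek]
    have z1 : ∑ e ∈ nx o u b r, p * tt p (hb o u b r) o e.1 * φ (hd e) = 0 :=
      sum_eq_zero fun e he => by
        have : φ (hd e) = 0 := by
          by_contra h
          have b1 := far _ h
          have b2 := mem_bl.1 (mem_inter.1 (mem_ex.1 (mem_filter.1 he).1).1).1
          have b3 := rad_tri (hd e) e.1 c
          have b4 := rad_tri e.1 o c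
          have b5 : rad (hd e - e.1) ≤ 1 := by
            rw [hd, add_sub_cancel_left]; exact rad_dv_le _
          omega
        rw [this, mul_zero]
    have ro : rad (o' - o) ≤ r := by
      rw [ho', add_sub_cancel_left]
      exact (rad_smul _ _).trans (by omega)
    have z2 : ∑ v, E2 p 1 L S' F' id g o' v * φ v = 0 :=
      sum_eq_zero fun v _ => by
        by_cases h : φ v = 0
        · rw [h, mul_zero]
        · rw [E2_zero, zero_mul]
          intro hv
          have b1 := far _ h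
          have b2 := Sb _ ((mS v).1 hv)
          have b3 := rad_rf u.1 a (rf u.1 a v) o
          rw [rf_rf, eo] at b3
          have b4 := rad_tri v o' c
          have b5 := rad_tri o' o c
          omega
    have b1 := e3 φ B hφ hB fun y hy => hz _ (by
      have b2 := Sb _ (mem_filter.1 ((mF y).1 hy)).1
      have b3 := rad_tri (rf u.1 a y + dv M u) (rf u.1 a y) c
      have b4 := rad_tri (rf u.1 a y) o c
      have b5 := rad_dv_le (M := M) u
      rw [add_sub_cancel_left] at b3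
      rw [hdF y hy]
      omega)
    have b2 : (((b + r : ℕ) : ℝ) + 1) ^ 2 ≤ 4 * (r : ℝ) ^ 2 := by
      have : ((b + r : ℕ) : ℝ) + 1 ≤ 2 * r := by exact_mod_cast (by omega : b + r + 1 ≤ 2 * r)
      have := pow_le_pow_left₀ (by positivity) this 2
      linarith
    have b3 : ∑ v, E1 p 1 L S' F' id g o' v * φ v ≤ C * (4 * (r : ℝ) ^ 2) * B :=
      b1.trans (mul_le_mul_of_nonneg_right (mul_le_mul_of_nonneg_left b2 hC) hB)
    have b4 : θ * q ≤ q := mul_le_of_le_one_left (by positivity) hθ1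
    have b5 := mul_le_mul b4 b3 (sum_nonneg fun v _ => mul_nonneg (n1 v) (hφ v)) (by positivity)
    rw [z1, z2]
    linarith

end Pool.Agent.HDE
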