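import Pool.Agent.Lib.HDE.BlueC
import Pool.Agent.Lib.HDE.Api2

/-! All small tangential shifts, one coordinate at a time. -/

open Finset

namespace Pool.Agent.HDE

open Pool.Agent.TPC
open Pool.Agent.HD (rad)

lemma nest_aux (hP : St_PAR) (d : ℕ) (C₀ : ℝ) (T : Finset (Fin d)) : ∀ ε : ℝ, 0 < ε →
    ∃ (G C : ℝ) (A : ℕ), 1 ≤ G ∧ 0 ≤ C ∧ 1 ≤ A ∧
      ∀ (M : ℕ) [NeZero M] (p : ℝ), Good C₀ d M p →
        ∀ (u₀ : Dir d) (c₀ : ZMod M) (n₀ r : ℕ) (c s : Tor d M), s u₀.1 = 0 → 16 * r ≤ M →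
          A * rad s ≤ r →
            Cmp p G ε C (sl u₀ c₀ n₀) c r c (c + fun j => if j ∈ T then s j else 0) := by
  induction T using Finset.induction_on with
  | empty =>
    intro ε hε
    refine ⟨1, 0, 1, le_rfl, le_rfl, le_rfl, fun M _ p hG u₀ c₀ n₀ r c s _ _ _ => ?_⟩
    have e : (c + fun j : Fin d => if j ∈ (∅ : Finset (Fin d)) then s j else 0) = c := by
      funext j; simp
    rw [e]
    exact (Cmp.of_le (G := 1) fun x => by rw [one_mul]).mono hG.toHyp.p0 hG.toHyp.p1 le_rfl hε.le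
      le_rfl
  | insert j T hj ih =>
    intro ε hε
    obtain ⟨G1, C1, A1, hG1, hC1, hA1, h1⟩ := ih (ε / 2) (by positivity)
    have G0 : 0 < G1 := by linarith
    obtain ⟨G2, C2, A2, hG2, hC2, hA2, h2⟩ := hP d C₀ (ε / (2 * G1)) (by positivity)
    refine ⟨G1 * G2, C1 + G1 * C2, max A1 A2, one_le_mul_of_one_le_of_one_le hG1 hG2,
      by positivity, le_max_of_le_left hA1, fun M _ p hG u₀ c₀ n₀ r c s hs hr hA => ?_⟩
    have a1 : A1 * rad s ≤ r := (Nat.mul_le_mul_right _ (le_max_left _ _)).trans hA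
    have a2 : A2 * rad s ≤ r := (Nat.mul_le_mul_right _ (le_max_right _ _)).trans hA
    have k1 := h1 M p hG u₀ c₀ n₀ r c s hs hr a1
    have e : (c + fun i : Fin d => if i ∈ insert j T then s i else 0) =
        (c + fun i : Fin d => if i ∈ T then s i else 0) + Pi.single j (s j) := by
      funext i
      by_cases h : i = j
      · subst h; simp [hj]
      · simp [h]
    rw [e]
    by_cases hu : j = u₀.1
    · have e2 : (Pi.single j (s j) : Tor d M) = 0 := by rw [hu, hs, Pi.single_zero]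
      rw [e2, add_zero]
      exact k1.mono hG.toHyp.p0 hG.toHyp.p1 (le_mul_of_one_le_right G0.le hG2) (by linarith)
        (le_add_of_nonneg_right (by positivity))
    · have k2 := h2 M p hG u₀ j c₀ (s j) n₀ r c (c + fun i : Fin d => if i ∈ T then s i else 0) hu hr
        (by
          rw [add_sub_cancel_left]
          refine rad_le_iff.2 fun i => ?_
          have b1 : rad s ≤ r := (Nat.le_mul_of_pos_left _ hA1).trans a1
          by_cases h : i ∈ T
          · simp only [h, if_true]; exact (ab_le_rad s i).trans b1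
          · simp [h])
        ((Nat.mul_le_mul_left _ (ab_le_rad s j)).trans a2)
      refine (k1.trans G0.le k2).mono hG.toHyp.p0 hG.toHyp.p1 le_rfl (le_of_eq ?_) le_rfl
      field_simp
      ring

theorem t_nest : T_NEST := by
  intro hP d C₀ ε hε
  obtain ⟨G, C, A, h1, h2, h3, h⟩ := nest_aux hP d C₀ univ ε hε
  refine ⟨G, C, A, h1, h2, h3, fun M _ p hG u₀ c₀ n₀ r c s hs hr hA => ?_⟩
  have := h M p hG u₀ c₀ n₀ r c s hs hr hA
  simpa using this

end Pool.Agent.HDE
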