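import Pool.Agent.Lib.HDE.BlueC
import Pool.Agent.Lib.HDE.Api2

/-! Block PAR: all small shifts in one tangential direction. -/

open Finset

namespace Pool.Agent.HDE

open Pool.Agent.TPC

namespace PARB

variable {d M : ℕ} [NeZero M] {p : ℝ}

lemma fe1 (H : Hyp d M p) {u₀ u : Dir d} (hu : u.1 ≠ u₀.1) (c₀ : ZMod M) (n₀ : ℕ)
    (o x : Tor d M) :
    tt p (sl u₀ c₀ n₀) o x ≤ (4 * d + 1) * tt p (sl u₀ c₀ n₀) (o + dv M u) x := by
  have h0 := H.p0
  have h1 := H.p1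
  have a0 : 0 ≤ tt p (sl u₀ c₀ n₀) (o + dv M u) x := tt_nonneg h0 h1
  by_cases ho : o ∈ sl u₀ c₀ n₀
  · have h2 : o + dv M u ∈ sl u₀ c₀ n₀ := by
      rw [mem_sl, dp_add_of_ne hu]; exact mem_sl.1 ho
    have h3 := tt_step (x := x) H.hM h0 h1 h2
    rw [tt_comm (x := x), tt_comm (x := x)] at h3
    have h4 := H.lo
    have a1 : 0 ≤ tt p (sl u₀ c₀ n₀) o x := tt_nonneg h0 h1
    have h5 := mul_le_mul_of_nonneg_left h3 (by positivity : (0 : ℝ) ≤ 4 * d)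
    nlinarith [mul_le_mul_of_nonneg_right h4 a1]
  · rw [tt_of_left ho]; positivity

lemma fe (H : Hyp d M p) {u₀ u : Dir d} (hu : u.1 ≠ u₀.1) (c₀ : ZMod M) (n₀ t : ℕ)
    (o x : Tor d M) :
    tt p (sl u₀ c₀ n₀) o x ≤ (4 * d + 1) ^ t * tt p (sl u₀ c₀ n₀) (o + t • dv M u) x := by
  induction t with
  | zero => simp
  | succ t ih =>
    refine ih.trans ?_
    rw [pow_succ, mul_assoc, succ_nsmul, ← add_assoc]
    exact mul_le_mul_of_nonneg_left (fe1 H hu c₀ n₀ _ x) (by positivity)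

end PARB

open PARB in
theorem t_par : T_PAR := by
  intro hM d C₀ ε hε
  obtain ⟨G, C, A, K, hG, hC, hA, h⟩ := hM d C₀ ε hε
  have hd : (1 : ℝ) ≤ 4 * d + 1 := le_add_of_nonneg_left (by positivity)
  have hK : (1 : ℝ) ≤ (4 * d + 1) ^ (K + 1) := one_le_pow₀ hd
  refine ⟨G * (4 * d + 1) ^ (K + 1), C, A, one_le_mul_of_one_le_of_one_le hG hK, hC, hA, ?_⟩
  intro M _ p H u₀ j c₀ a n₀ r c o hj hr ho ha
  obtain ⟨b, hb⟩ := eq_sg_ab a
  have e : (Pi.single j a : Tor d M) = ab a • dv M (j, b) := by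
    rw [dv, ← Pi.single_smul', nsmul_eq_mul, mul_comm, ← hb]
  rw [e]
  generalize ab a = t at ha
  have hu : ((j, b) : Dir d).1 ≠ u₀.1 := hj
  by_cases ht : t ≤ K + 1
  · refine (Cmp.of_le (fe H.toHyp hu c₀ n₀ t o)).mono H.p0 H.p1 ?_ hε.le hC
    exact (pow_le_pow_right₀ hd ht).trans (le_mul_of_one_le_left (by positivity) hG)
  · have h1 := h M p H u₀ (j, b) c₀ n₀ r ((t - K - 1) / 2) c o hu hr ho
      ((Nat.mul_le_mul_left A (by omega)).trans ha)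
    have h2 := h1.trans (by linarith) (Cmp.of_le (fe H.toHyp hu c₀ n₀ ((t - K - 1) % 2) _))
    rw [add_assoc, ← add_nsmul,
      show 2 * ((t - K - 1) / 2) + K + 1 + (t - K - 1) % 2 = t by omega] at h2
    refine h2.mono H.p0 H.p1 ?_ (by simp) (by simp)
    exact mul_le_mul_of_nonneg_left (pow_le_pow_right₀ hd (by omega)) (by linarith)

end Pool.Agent.HDE
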