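import Pool.Agent.Lib.HDE.Api2

/-! Block PIECES: decomposition of the two-point function into scales. -/

open Finset

namespace Pool.Agent.HDE

open Pool.Agent.TPC

namespace PIECES

/-- growth rate of the scales -/
noncomputable def ss : ℝ := 509 / 500

lemma ss_pos : 0 < ss := by rw [ss]; norm_num
lemma one_le_ss : 1 ≤ ss := by rw [ss]; norm_num

lemma two_pow_le (t : ℕ) : ((2 : ℝ) ^ (t / 400)) ^ 10 ≤ ss ^ t := by
  have h1 : (2 : ℝ) ≤ ss ^ 40 := by rw [ss]; norm_num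
  calc ((2 : ℝ) ^ (t / 400)) ^ 10 ≤ ((ss ^ 40) ^ (t / 400)) ^ 10 := by gcongr
    _ = ss ^ (400 * (t / 400)) := by rw [← pow_mul, ← pow_mul]; congr 1; ring
    _ ≤ ss ^ t := pow_le_pow_right₀ one_le_ss (Nat.mul_div_le t 400)

lemma pow_split {A B : ℝ} (hA : 0 ≤ A) (hB : 0 ≤ B) :
    (A + B) ^ 8 ≤ 101 / 100 * A ^ 8 + 1001 ^ 8 * B ^ 8 := by
  have hA8 : 0 ≤ A ^ 8 := by positivity
  have hB8 : 0 ≤ B ^ 8 := by positivity
  rcases le_total (1000 * B) A with h | h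
  · have h1 : (A + B) ^ 8 ≤ (1001 / 1000 * A) ^ 8 := by
      gcongr; linarith
    rw [mul_pow] at h1
    have h2 : (1001 / 1000 : ℝ) ^ 8 ≤ 101 / 100 := by norm_num
    have h3 := mul_le_mul_of_nonneg_right h2 hA8
    have h4 : (0 : ℝ) ≤ 1001 ^ 8 * B ^ 8 := by positivity
    linarith
  · have h1 : (A + B) ^ 8 ≤ (1001 * B) ^ 8 := by
      gcongr; linarith
    rw [mul_pow] at h1
    linarith

variable {d M : ℕ} [NeZero M]

lemma wn_cv (j : Fin d) {f g : Tor d M → ℝ} (hf : ∀ x, 0 ≤ f x) (hg : ∀ x, 0 ≤ g x) :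
    wn j (cv f g) ≤ 101 / 100 * (wn j f * ∑ x, g x) + 1001 ^ 8 * ((∑ x, f x) * wn j g) := by
  have e1 : wn j f * ∑ x, g x = ∑ x, cv (fun y => (1 + (ab (y j) : ℝ)) ^ 8 * f y) g x := by
    rw [sum_cv, wn]
  have e2 : (∑ x, f x) * wn j g = ∑ x, cv f (fun y => (1 + (ab (y j) : ℝ)) ^ 8 * g y) x := by
    rw [sum_cv, wn]
  rw [e1, e2, mul_sum, mul_sum, ← sum_add_distrib, wn]
  refine sum_le_sum fun x _ => ?_
  simp only [cv, mul_sum]
  rw [← sum_add_distrib]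
  refine sum_le_sum fun y _ => ?_
  have h1 : (ab (x j) : ℝ) ≤ ab (y j) + ab ((x - y) j) := by
    have := ab_add_le (y j) ((x - y) j)
    rw [Pi.sub_apply, add_sub_cancel] at this
    exact_mod_cast this
  have h2 : (1 + (ab (x j) : ℝ)) ^ 8 ≤
      101 / 100 * (1 + (ab (y j) : ℝ)) ^ 8 + 1001 ^ 8 * (1 + (ab ((x - y) j) : ℝ)) ^ 8 := by
    refine le_trans ?_ (pow_split (by positivity) (by positivity))
    exact pow_le_pow_left₀ (by positivity) (by linarith) 8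
  have h3 := mul_le_mul_of_nonneg_right h2 (mul_nonneg (hf y) (hg (x - y)))
  refine h3.trans (le_of_eq ?_)
  ring

/-- the analytic part -/
lemma core (CK CS : ℝ) (hCK : 0 ≤ CK) (hCS : 0 ≤ CS) : ∃ C : ℝ, 0 ≤ C ∧
    ∀ (d M : ℕ) [NeZero M] (j : Fin d) (T : ℕ) (R : Tor d M → ℝ) (K G : ℕ → Tor d M → ℝ),
    1 ≤ d → (∀ x, 0 ≤ R x) → ∑ x, R x ≤ lam ^ 20 → wn j R ≤ 21 ^ 8 * lam ^ 20 →
    (∀ x, R x ≤ CS / (d : ℝ) ^ 10) →
    (∀ t, t < T → (∀ x, 0 ≤ K t x) ∧ ∑ x, K t x ≤ lam ∧ wn j (K t) ≤ CK * ss ^ t) →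
    (∀ t, t ≤ T → (∀ x, cpr K t x ≤ (lam / 2) ^ t) ∧ (∀ x, 0 ≤ G t x) ∧
      wn j (G t) ≤ CK * ss ^ t * d) →
    ∀ t, t ≤ T → wn j (cv (cv R (cpr K t)) (G t)) ≤ C * d * (21 / 20) ^ t ∧
      ∀ x, 0 ≤ cv (cv R (cpr K t)) (G t) x ∧
        cv (cv R (cpr K t)) (G t) x ≤ C * (21 / 20) ^ t * (3 / 4) ^ t / (d : ℝ) ^ 4 := by
  have hl := lam_pos
  have hs := ss_pos
  obtain ⟨A, hA⟩ : ∃ A : ℝ, A = lam ^ 20 := ⟨_, rfl⟩
  have hA0 : 0 < A := by rw [hA]; positivity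
  obtain ⟨W, hW⟩ : ∃ W : ℝ, W = 21 ^ 8 * A + 125 * (1001 ^ 8 * (A * CK)) := ⟨_, rfl⟩
  have hW0 : 0 ≤ W := by rw [hW]; positivity
  refine ⟨101 / 100 * (W * CK) + 1001 ^ 8 * (A * CK) + (CS + A) * CK, by positivity, ?_⟩
  intro d M _ j T R K G hd hR0 hR1 hRw hRs hK hG
  rw [← hA] at hR1 hRw
  have hd0 : (0 : ℝ) < d := by exact_mod_cast hd
  have hc0 : ∀ t, t ≤ T → ∀ x, 0 ≤ cpr K t x := fun t ht x =>
    cpr_nonneg (fun s hs => (hK s (by omega)).1) x
  have hc1 : ∀ t, t ≤ T → ∑ x, cpr K t x ≤ lam ^ t := fun t ht =>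
    sum_cpr_le (fun s hs => (hK s (by omega)).1) fun s hs => (hK s (by omega)).2.1
  have hP0 : ∀ t, t ≤ T → ∀ x, 0 ≤ cv R (cpr K t) x := fun t ht => cv_nonneg hR0 (hc0 t ht)
  have hP1 : ∀ t, t ≤ T → ∑ x, cv R (cpr K t) x ≤ A * lam ^ t := fun t ht => by
    rw [sum_cv]
    exact mul_le_mul hR1 (hc1 t ht) (sum_nonneg fun x _ => hc0 t ht x) hA0.le
  have hPw : ∀ t, t ≤ T → wn j (cv R (cpr K t)) ≤ W * (lam * ss) ^ t := by
    intro t
    induction t with
    | zero =>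
      intro _
      rw [cpr_zero, cv_comm, cv_delta, pow_zero, mul_one, hW]
      have : (0 : ℝ) ≤ 125 * (1001 ^ 8 * (A * CK)) := by positivity
      linarith
    | succ t ih =>
      intro ht
      obtain ⟨k0, k1, k2⟩ := hK t (by omega)
      have h1 := wn_cv j (hP0 t (by omega)) k0
      have h2 : wn j (cv R (cpr K t)) * ∑ x, K t x ≤ W * (lam * ss) ^ t * lam :=
        mul_le_mul (ih (by omega)) k1 (sum_nonneg fun x _ => k0 x) (by positivity)
      have h3 : (∑ x, cv R (cpr K t) x) * wn j (K t) ≤ A * lam ^ t * (CK * ss ^ t) :=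
        mul_le_mul (hP1 t (by omega)) k2 (wn_nonneg j k0) (by positivity)
      rw [cpr_succ, ← cv_assoc]
      refine h1.trans ?_
      have hq : 0 < (lam * ss) ^ t := by positivity
      have h4 : A * lam ^ t * (CK * ss ^ t) = A * CK * (lam * ss) ^ t := by rw [mul_pow]; ring
      have h5 : 101 / 100 * (W * lam) + 1001 ^ 8 * (A * CK) ≤ W * (lam * ss) := by
        have h6 : 125 * (1001 ^ 8 * (A * CK)) ≤ W := by
          rw [hW]
          have : (0 : ℝ) ≤ 21 ^ 8 * A := by positivity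
          linarith
        rw [lam, ss]
        linarith
      have h7 := mul_le_mul_of_nonneg_right h5 hq.le
      rw [h4] at h3
      rw [pow_succ (lam * ss) t]
      linarith
  have hPs : ∀ t, t ≤ T → ∀ x, cv R (cpr K t) x ≤
      (CS + A) * (lam * (3 / 4)) ^ t / (d : ℝ) ^ 5 := by
    intro t ht x
    have h1 : cv R (cpr K t) x ≤ CS / (d : ℝ) ^ 10 * lam ^ t :=
      (cv_le' hRs (hc0 t ht) x).trans (mul_le_mul_of_nonneg_left (hc1 t ht) (by positivity))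
    have h2 : cv R (cpr K t) x ≤ A * (lam / 2) ^ t :=
      (cv_le hR0 (hG t ht).1 x).trans (mul_le_mul_of_nonneg_right hR1 (by positivity))
    have h3 := mul_le_mul h1 h2 (hP0 t ht x) (by positivity)
    refine abs_le_of_sq_le_sq' ?_ (by positivity) |>.2
    rw [sq]
    refine h3.trans ?_
    have h4 : lam ^ t * (lam / 2) ^ t ≤ ((lam * (3 / 4)) ^ t) ^ 2 := by
      rw [← mul_pow, ← pow_mul, mul_comm t 2, pow_mul]
      gcongr
      nlinarith [mul_pos hl hl]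
    have h5 : CS * A ≤ (CS + A) ^ 2 := by nlinarith [mul_nonneg hCS hA0.le]
    calc CS / (d : ℝ) ^ 10 * lam ^ t * (A * (lam / 2) ^ t)
        = CS * A * (lam ^ t * (lam / 2) ^ t) / (d : ℝ) ^ 10 := by ring
      _ ≤ (CS + A) ^ 2 * ((lam * (3 / 4)) ^ t) ^ 2 / (d : ℝ) ^ 10 := by gcongr
      _ = _ := by ring
  intro t ht
  obtain ⟨-, g0, g1⟩ := hG t ht
  have g2 : ∑ x, G t x ≤ CK * ss ^ t * d := (sum_le_wn j g0).trans g1
  have e1 : (lam * ss) ^ t ≤ (21 / 20) ^ t := by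
    gcongr; rw [lam, ss]; norm_num
  have e2 : (lam * ss) ^ t * ss ^ t ≤ (21 / 20) ^ t := by
    rw [← mul_pow]; gcongr; rw [lam, ss]; norm_num
  refine ⟨?_, fun x => ⟨cv_nonneg (hP0 t ht) g0 x, ?_⟩⟩
  · have h1 := wn_cv j (hP0 t ht) g0
    have h2 : wn j (cv R (cpr K t)) * ∑ x, G t x ≤ W * CK * d * (21 / 20) ^ t :=
      calc _ ≤ W * (lam * ss) ^ t * (CK * ss ^ t * d) :=
            mul_le_mul (hPw t ht) g2 (sum_nonneg fun x _ => g0 x) (by positivity)
        _ = W * CK * d * ((lam * ss) ^ t * ss ^ t) := by ring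
        _ ≤ _ := by gcongr
    have h3 : (∑ x, cv R (cpr K t) x) * wn j (G t) ≤ A * CK * d * (21 / 20) ^ t :=
      calc _ ≤ A * lam ^ t * (CK * ss ^ t * d) :=
            mul_le_mul (hP1 t ht) g1 (wn_nonneg j g0) (by positivity)
        _ = A * CK * d * (lam * ss) ^ t := by rw [mul_pow]; ring
        _ ≤ _ := by gcongr
    have h4 : 0 ≤ (CS + A) * CK * d * (21 / 20) ^ t := by positivity
    nlinarith
  · have h1 : cv (cv R (cpr K t)) (G t) x ≤
        (CS + A) * (lam * (3 / 4)) ^ t / (d : ℝ) ^ 5 * (CK * ss ^ t * d) :=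
      (cv_le' (hPs t ht) g0 x).trans (mul_le_mul_of_nonneg_left g2 (by positivity))
    refine h1.trans ?_
    calc (CS + A) * (lam * (3 / 4)) ^ t / (d : ℝ) ^ 5 * (CK * ss ^ t * d)
        = (CS + A) * CK * (lam * ss) ^ t * (3 / 4) ^ t / (d : ℝ) ^ 4 := by
          rw [mul_pow, mul_pow]; field_simp
      _ ≤ _ := by
          gcongr
          have : (0 : ℝ) ≤ 101 / 100 * (W * CK) + 1001 ^ 8 * (A * CK) := by positivity
          linarith

lemma walk {p : ℝ} (h0 : 0 ≤ p)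
    (h : ∀ x : Tor d M, t0 p x ≤ (if x = 0 then 1 else 0) + cv (jk p) (t0 p) x) (N : ℕ)
    (x : Tor d M) : t0 p x ≤ ∑ n ∈ range N, cpr (fun _ => jk p) n x +
      cv (cpr (fun _ => jk p) N) (t0 p) x := by
  induction N with
  | zero => rw [cpr_zero, cv_delta]; simp
  | succ N ih =>
    have h1 := cv_mono (f := cpr (fun _ => jk p) N)
      (cpr_nonneg fun _ _ => jk_nonneg h0) h x
    rw [cv_add, cv_comm _ (fun x => if x = 0 then 1 else 0), cv_delta, ← cv_assoc,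
      ← cpr_succ (fun _ => jk p)] at h1
    rw [sum_range_succ]
    linarith

lemma tele {τ R : Tor d M → ℝ} {K G : ℕ → Tor d M → ℝ} {T : ℕ} (hR : ∀ x, 0 ≤ R x)
    (hK : ∀ t, t < T → ∀ x, 0 ≤ K t x) (h : ∀ t, t < T → ∀ x, τ x ≤ G t x + cv (K t) τ x)
    (x : Tor d M) :
    cv R τ x ≤ ∑ t ∈ range T, cv (cv R (cpr K t)) (G t) x + cv (cv R (cpr K T)) τ x := by
  induction T with
  | zero => rw [cpr_zero, cv_comm R (fun x => if x = 0 then 1 else 0), cv_delta]; simp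
  | succ T ih =>
    have h2 := ih (fun t ht => hK t (by omega)) fun t ht => h t (by omega)
    have h1 := cv_mono (f := cv R (cpr K T))
      (cv_nonneg hR (cpr_nonneg fun t ht => hK t (by omega))) (h T (by omega)) x
    rw [cv_add, ← cv_assoc _ (K T), cv_assoc R _ (K T), ← cpr_succ] at h1
    rw [sum_range_succ]
    linarith

/-- the direction of step `t` -/
def dirn (hd : 401 ≤ d) (j : Fin d) (t : ℕ) : Fin d :=
  ⟨if t % 400 < j.val then t % 400 else t % 400 + 1, by split_ifs <;> omega⟩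

lemma dirn_ne (hd : 401 ≤ d) (j : Fin d) (t : ℕ) : j ≠ dirn hd j t := by
  intro h
  have := congrArg Fin.val h
  simp only [dirn] at this
  split_ifs at this <;> omega

lemma dirn_inj (hd : 401 ≤ d) (j : Fin d) {s t : ℕ} (h : dirn hd j s = dirn hd j t) :
    s % 400 = t % 400 := by
  have := congrArg Fin.val h
  simp only [dirn] at this
  split_ifs at this <;> omega

end PIECES

open PIECES

theorem t_pieces : T_PIECES := by
  rintro ⟨CK, hCK, hKER⟩ ⟨CS, hCS, hSRW⟩ hSP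
  obtain ⟨C, hC, hcore⟩ := core (CK + 2 ^ 27) CS (by positivity) hCS
  refine ⟨C, hC, fun d M _ p hd hH hch j => ?_⟩
  have hM := hH.hM
  have h0 := hH.p0
  have h1 := hH.p1
  have hs := ss_pos
  have hd1 : (1 : ℝ) ≤ d := by exact_mod_cast hH.d1
  obtain ⟨k1, k2⟩ := hKER d M p hH
  obtain ⟨s1, s2⟩ := hSRW d M p hH.d1 hM h0 hH.phi.1
  obtain ⟨lm, hlm⟩ : ∃ lm : ℕ, lm = Nat.log 2 M - 2 := ⟨_, rfl⟩
  have hMlt : M < 2 ^ (lm + 3) :=
    (Nat.lt_pow_succ_log_self (by norm_num) M).trans_le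
      (Nat.pow_le_pow_right (by norm_num) (by omega))
  have hMge : ∀ t, t < 400 * lm → 2 ^ (t / 400 + 3) ≤ M := fun t ht =>
    (Nat.pow_le_pow_right (by norm_num) (by omega)).trans (Nat.pow_log_le_self 2 (by omega))
  have hn8 : ∀ t, t < 400 * lm → 8 * (2 ^ (t / 400) - 1) < M := fun t ht => by
    have h2 := hMge t ht
    have h3 : 1 ≤ 2 ^ (t / 400) := Nat.one_le_two_pow
    rw [pow_add] at h2
    omega
  have hn1 : ∀ t : ℕ, 2 ^ (t / 400) - 1 + 1 = 2 ^ (t / 400) := fun t =>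
    Nat.sub_add_cancel Nat.one_le_two_pow
  have hn2 : ∀ t : ℕ, (((2 ^ (t / 400) - 1 : ℕ) : ℝ) + 1) ^ 10 ≤ ss ^ t := fun t => by
    have h2 : ((2 ^ (t / 400) - 1 : ℕ) : ℝ) + 1 = 2 ^ (t / 400) := by exact_mod_cast hn1 t
    rw [h2]; exact two_pow_le t
  obtain ⟨K, hK⟩ : ∃ K : ℕ → Tor d M → ℝ,
    K = fun t => xk p (cs 0 (dirn hd j t) (2 ^ (t / 400) - 1)) := ⟨_, rfl⟩
  obtain ⟨G, hG⟩ : ∃ G : ℕ → Tor d M → ℝ, G = fun t => if t < 400 * lm then
    tt p (cs 0 (dirn hd j t) (2 ^ (t / 400) - 1)) 0 else t0 p := ⟨_, rfl⟩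
  have hK0 : ∀ t, t < 400 * lm → ∀ x, 0 ≤ K t x := fun t ht x => by
    rw [hK]; exact ((k2 _ _ (hn8 t ht)).1 x).1
  have hK1 : ∀ t, t < 400 * lm → ∑ x, K t x ≤ lam := fun t ht => by
    rw [hK]; exact (k2 _ _ (hn8 t ht)).2.1
  have hR0 : ∀ x : Tor d M, 0 ≤ cpr (fun _ => jk p) 20 x := fun x => ((s1 20).2 x).1
  have hRw : wn j (cpr (fun _ => jk (d := d) (M := M) p) 20) ≤ 21 ^ 8 * lam ^ 20 := by
    refine le_trans ?_ (mul_le_mul_of_nonneg_left (s1 20).1 (by positivity))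
    rw [wn, mul_sum]
    refine sum_le_sum fun x _ => ?_
    by_cases hx : cpr (fun _ => jk p) 20 x = 0
    · rw [hx, mul_zero, mul_zero]
    · have h2 : (ab (x j) : ℝ) ≤ 20 := by exact_mod_cast ((s1 20).2 x).2.2 hx j
      refine mul_le_mul_of_nonneg_right ?_ (hR0 x)
      gcongr; linarith
  have hmain := hcore d M j (400 * lm) (cpr (fun _ => jk p) 20) K G hH.d1 hR0 (s1 20).1 hRw s2
    (fun t ht => ⟨hK0 t ht, hK1 t ht, by
      rw [hK]
      refine ((k2 _ _ (hn8 t ht)).2.2.2.2 j (dirn_ne hd j t)).1.trans ?_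
      exact mul_le_mul (by linarith [show (0 : ℝ) ≤ 2 ^ 27 by positivity]) (hn2 t) (by positivity)
        (by positivity)⟩)
    (fun t ht => ⟨?_, ?_, ?_⟩)
  · refine ⟨400 * lm + 1, fun t => cv (cv (cpr (fun _ => jk p) 20) (cpr K t)) (G t), fun x => ?_,
      fun t ht => hmain t (by omega)⟩
    have h2 := walk h0 k1 20 x
    have h3 := tele (τ := t0 p) (G := G) hR0 hK0 (fun t ht y => by
      rw [hK, hG]; simp only [if_pos ht]; exact (k2 _ _ (hn8 t ht)).2.2.1 y) x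
    have h4 : G (400 * lm) = t0 p := by rw [hG]; exact if_neg (lt_irrefl _)
    rw [sum_range_succ, rwp]
    dsimp only
    rw [h4]
    linarith
  · refine hSP d M t (dirn hd j) (fun s => s / 400) K lam lam_pos.le (fun a b hab _ h => ?_)
      fun a ha => ⟨?_, hK1 a (by omega), fun z => ?_⟩
    · have := dirn_inj hd j h
      omega
    · exact (Nat.pow_le_pow_right (by norm_num) (by omega)).trans (hMge a (by omega))
    · have h2 := (k2 (dirn hd j a) _ (hn8 a (by omega))).1 z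
      rw [hn1] at h2
      rw [hK]; exact h2
  · intro x
    rw [hG]; dsimp only
    split_ifs
    · exact tt_nonneg h0 h1
    · exact t0_nonneg h0 h1
  · rw [hG]; dsimp only
    split_ifs with h
    · refine ((k2 _ _ (hn8 t h)).2.2.2.2 j (dirn_ne hd j t)).2.trans ?_
      refine mul_le_mul_of_nonneg_right ?_ (by positivity)
      exact mul_le_mul (by linarith [show (0 : ℝ) ≤ 2 ^ 27 by positivity]) (hn2 t) (by positivity)
        (by positivity)
    · have ht2 : t / 400 = lm := by omega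
      have h2 := two_pow_le t
      rw [ht2] at h2
      have h3 : (M : ℝ) + 1 ≤ 8 * 2 ^ lm := by
        have : M + 1 ≤ 8 * 2 ^ lm := by rw [pow_add] at hMlt; omega
        exact_mod_cast this
      have h4 : wn j (t0 (d := d) (M := M) p) ≤ (8 * 2 ^ lm) ^ 8 * ch d M p := by
        rw [wn, ch, mul_sum]
        refine sum_le_sum fun x _ => mul_le_mul_of_nonneg_right ?_ (t0_nonneg h0 h1)
        have h5 : (ab (x j) : ℝ) ≤ M := by
          have := two_ab_le (x j)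
          exact_mod_cast (show ab (x j) ≤ M by omega)
        gcongr; linarith
      have h6 : (1 : ℝ) ≤ 2 ^ lm := one_le_pow₀ (by norm_num)
      calc wn j (t0 p) ≤ (8 * 2 ^ lm) ^ 8 * (8 * 2 ^ lm) :=
            h4.trans (mul_le_mul_of_nonneg_left (by linarith) (by positivity))
        _ = 2 ^ 27 * (2 ^ lm) ^ 9 * 1 := by ring
        _ ≤ (CK + 2 ^ 27) * ss ^ t * d := by
            gcongr
            · linarith
            · exact (pow_le_pow_right₀ h6 (by norm_num)).trans h2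

end Pool.Agent.HDE
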