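import Pool.Agent.Lib.HDE.BlueC
import Pool.Agent.Lib.HDE.Api2

/-! Block PLAT: the plateau. -/

open Finset

namespace Pool.Agent.HDE

open Pool.Agent.TPC
open Pool.Agent.HD (rad)

theorem t_plat : T_PLAT := by
  intro hG d C₀ A hd h2
  obtain ⟨K2, R, H2⟩ := h2
  obtain ⟨cG, KG, BG, hc, hB, HG⟩ := hG d C₀ A
  set B : ℕ := BG * (R + 1) + 4 with hBdef
  have hB4 : 4 ≤ B := by omega
  have hB4' : (4 : ℝ) ≤ B := by exact_mod_cast hB4
  refine ⟨cG / (64 * (B : ℝ) ^ (d - 1)), 16 * B + |KG| * (B : ℝ) ^ 2 + |K2|, B, by positivity, hB4,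
    fun M _ p hC u m x hm hx hK => ?_⟩
  have p0 : 0 ≤ p := hC.toHyp.p0
  have p1 := hC.p1
  have hm' : (1 : ℝ) ≤ m := by exact_mod_cast hm
  have hsq : (0 : ℝ) ≤ ((m : ℝ) + 1) ^ 2 := sq_nonneg _
  have a1 : 0 ≤ 16 * (B : ℝ) * ((m : ℝ) + 1) ^ 2 := by positivity
  have a2 : 0 ≤ |KG| * (B : ℝ) ^ 2 * ((m : ℝ) + 1) ^ 2 := by positivity
  have a3 : 0 ≤ |K2| * ((m : ℝ) + 1) ^ 2 := by positivity
  have e : (16 * B + |KG| * (B : ℝ) ^ 2 + |K2|) * ((m : ℝ) + 1) ^ 2 =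
      16 * (B : ℝ) * ((m : ℝ) + 1) ^ 2 + |KG| * (B : ℝ) ^ 2 * ((m : ℝ) + 1) ^ 2 +
        |K2| * ((m : ℝ) + 1) ^ 2 := by ring
  rw [e] at hK
  have hM : 16 * (B * m) < M := by
    have h1 : 16 * (B : ℝ) * ((m : ℝ) + 1) ^ 2 ≤ M := by linarith [hC.chM]
    have h2 : (m : ℝ) < ((m : ℝ) + 1) ^ 2 := by nlinarith
    have h3 : 16 * (B : ℝ) * m < 16 * (B : ℝ) * ((m : ℝ) + 1) ^ 2 :=
      mul_lt_mul_of_pos_left h2 (by positivity)
    have h4 : ((16 * (B * m) : ℕ) : ℝ) < M := by push_cast; linarith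
    exact_mod_cast h4
  have hmr : m ≤ B * m := Nat.le_mul_of_pos_left m (by omega)
  have b2 : K2 * ((m : ℝ) + 1) ^ 2 ≤ ch d M p :=
    (mul_le_mul_of_nonneg_right (le_abs_self K2) hsq).trans (by linarith)
  have bG : KG * (((B * m : ℕ) : ℝ) + 1) ^ 2 ≤ ch d M p := by
    have h1 : ((B * m : ℕ) : ℝ) + 1 ≤ B * ((m : ℝ) + 1) := by push_cast; linarith
    have h2 : (((B * m : ℕ) : ℝ) + 1) ^ 2 ≤ (B * ((m : ℝ) + 1)) ^ 2 :=
      pow_le_pow_left₀ (by positivity) h1 2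
    calc KG * (((B * m : ℕ) : ℝ) + 1) ^ 2 ≤ |KG| * (((B * m : ℕ) : ℝ) + 1) ^ 2 :=
          mul_le_mul_of_nonneg_right (le_abs_self KG) (sq_nonneg _)
      _ ≤ |KG| * (B * ((m : ℝ) + 1)) ^ 2 := mul_le_mul_of_nonneg_left h2 (abs_nonneg _)
      _ = |KG| * (B : ℝ) ^ 2 * ((m : ℝ) + 1) ^ 2 := by ring
      _ ≤ _ := by linarith
  have hS := H2 M p hC.toGood u.1 m (x u.1) ((ab_le_rad x u.1).trans hx) (by omega) b2
  have hff : ∀ (v : Dir d) (y : Tor d M), 0 ≤ ff p v (B * m) y := fun v y => by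
    unfold ff
    split_ifs
    · exact tt_nonneg p0 p1
    · exact le_rfl
  set G : Tor d M → ℝ := cv (ff p u (B * m)) (ff p (opp u) (B * m)) with hGdef
  have hG0 : ∀ y, 0 ≤ G y := fun y => cv_nonneg (hff u) (hff (opp u)) y
  have hr : (0 : ℝ) < ((B * m : ℕ) : ℝ) ^ (d - 1) := by
    have : (0 : ℝ) < ((B * m : ℕ) : ℝ) := by push_cast; positivity
    positivity
  have key : ∀ w ∈ hp u.1 (x u.1) ∩ bl (0 : Tor d M) (R * m),
      cG / ((B * m : ℕ) : ℝ) ^ (d - 1) ≤ G (x - w) := by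
    intro w hw
    rw [mem_inter, mem_hp, mem_bl, sub_zero] at hw
    rw [div_le_iff₀ hr]
    refine HG M p hC u (B * m) (x - w) (hm.trans hmr) (by omega) bG
      (by rw [Pi.sub_apply, hw.1, sub_self]) ?_
    have h1 : rad (x - w) ≤ rad x + rad w := by
      have := rad_add_le x (-w)
      rwa [rad_neg, ← sub_eq_add_neg] at this
    have h2 : rad (x - w) ≤ (R + 1) * m := by rw [add_mul, one_mul]; omega
    calc BG * rad (x - w) ≤ BG * ((R + 1) * m) := Nat.mul_le_mul_left _ h2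
      _ = BG * (R + 1) * m := by ring
      _ ≤ B * m := Nat.mul_le_mul_right _ (by omega)
  have h0 : 0 ≤ cG / ((B * m : ℕ) : ℝ) ^ (d - 1) := by positivity
  have low : (m : ℝ) / 64 * (cG / ((B * m : ℕ) : ℝ) ^ (d - 1)) ≤ cv G (t0 p) x := by
    rw [cv_comm]
    calc (m : ℝ) / 64 * (cG / ((B * m : ℕ) : ℝ) ^ (d - 1))
        ≤ (∑ w ∈ hp u.1 (x u.1) ∩ bl (0 : Tor d M) (R * m), t0 p w) *
          (cG / ((B * m : ℕ) : ℝ) ^ (d - 1)) := mul_le_mul_of_nonneg_right hS h0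
      _ = ∑ w ∈ hp u.1 (x u.1) ∩ bl (0 : Tor d M) (R * m),
          t0 p w * (cG / ((B * m : ℕ) : ℝ) ^ (d - 1)) := sum_mul _ _ _
      _ ≤ ∑ w ∈ hp u.1 (x u.1) ∩ bl (0 : Tor d M) (R * m), t0 p w * G (x - w) :=
          sum_le_sum fun w hw => mul_le_mul_of_nonneg_left (key w hw) (t0_nonneg p0 p1)
      _ ≤ ∑ w, t0 p w * G (x - w) := sum_le_sum_of_subset_of_nonneg (subset_univ _)
          fun w _ _ => mul_nonneg (t0_nonneg p0 p1) (hG0 _)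
  refine le_trans (le_of_eq ?_) (mul_le_mul_of_nonneg_right low (by positivity))
  obtain ⟨k, rfl⟩ : ∃ k, d = k + 2 := ⟨d - 2, by omega⟩
  have hm0 : (m : ℝ) ≠ 0 := by positivity
  have hB0 : (B : ℝ) ≠ 0 := by positivity
  rw [show k + 2 - 1 = k + 1 from rfl, show k + 2 - 2 = k from rfl]
  push_cast
  rw [mul_pow]
  field_simp
  ring

end Pool.Agent.HDE
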