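import Pool.Agent.Lib.HDE.BlueC
import Pool.Agent.Lib.HDE.Api2

/-! Gambler's ruin in a slab. -/

open Finset

namespace Pool.Agent.HDE

open Pool.Agent.TPC

theorem t_ru1 : T_RU1 := by
  intro hF d M _ p h u c n k o hn
  obtain ⟨f1, f2, -, -⟩ := hF d M p h
  have p0 := h.p0
  have p1 := h.p1
  have l0 : (0 : ℝ) ≤ lam := by norm_num [lam]
  induction k generalizing o with
  | zero =>
    intro _
    have := f1 (opp u) (c - sg M u.2 * (n : ZMod M)) n (sl u c n) o hn
      (by rw [sl_opp u c (by omega)])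
    rw [pow_zero, mul_one]
    refine le_trans (le_of_eq ?_) this
    congr 2
    ext y
    rw [mem_filter, mem_hp, opp_fst, dp_eq_iff (by omega)]
    simp
  | succ k ih =>
    intro hk
    obtain ⟨b, hb⟩ : ∃ b, b = dp u c o := ⟨_, rfl⟩
    have k1 : 1 ≤ 2 ^ k := Nat.one_le_two_pow
    rw [← hb, pow_succ, mul_assoc] at hk
    have hb2 : 2 * (b + 1) ≤ n + 1 := le_trans (Nat.le_mul_of_pos_left _ k1) hk
    have hc : o u.1 + sg M u.2 * (b : ZMod M) = c := by
      have := dp_spec u c o
      rw [← hb] at this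
      rw [this]; ring
    have hS : cs o u.1 b = sl u c (2 * b) := by rw [cs_eq_sl o u (by omega), hc]
    have f3 := f2 (opp u) b o (by omega)
    rw [opp_fst, hS] at f3
    have ho : o ∈ sl u c (2 * b) := mem_sl.2 (by omega)
    have hex : ∀ e ∈ ex (sl u c n) (sl u c (2 * b)), e.2 = opp u ∧ dp u c e.1 = 2 * b := by
      intro e he
      obtain ⟨a1, a2, a3⟩ := mem_ex.1 he
      rcases exit_sl a1 a3 with ⟨a4, a5⟩ | ⟨a4, a5⟩
      · rw [mem_sl, hd, a4, dp_add_dv' (dp_eq_zero.2 a5)] at a2
        have := h.hM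
        omega
      · exact ⟨a4, (dp_eq_iff (by omega)).2 a5⟩
    have step : ∑ y ∈ univ.filter (fun y => dp u c y = n), tt p (sl u c n) o y ≤
        ∑ e ∈ ex (sl u c n) (sl u c (2 * b)), tt p (sl u c (2 * b)) o e.1 *
          (p * ∑ y ∈ univ.filter (fun y => dp u c y = n), tt p (sl u c n) (hd e) y) := by
      simp only [mul_sum]
      rw [sum_comm]
      refine sum_le_sum fun y hy => ?_
      have := slp h.hM p0 p1 (sl u c n) ho y
      rwa [tt_of_right (S := sl u c (2 * b)) (by
        rw [mem_sl, (mem_filter.1 hy).2]; omega), zero_add] at this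
    have step2 : ∑ e ∈ ex (sl u c n) (sl u c (2 * b)), tt p (sl u c (2 * b)) o e.1 ≤
        ∑ y ∈ hp u.1 (o u.1 + sg M (opp u).2 * (b : ZMod M)), tt p (sl u c (2 * b)) o y := by
      rw [← sum_image (g := Prod.fst) (f := tt p (sl u c (2 * b)) o) fun e he e' he' h1 =>
        Prod.ext h1 ((hex e he).1.trans (hex e' he').1.symm)]
      refine sum_le_sum_of_subset_of_nonneg (fun y hy => ?_) fun _ _ _ => tt_nonneg p0 p1
      obtain ⟨e, he, rfl⟩ := mem_image.1 hy
      rw [mem_hp, (dp_eq_iff (by omega)).1 (hex e he).2, ← hc, opp_snd, sg_not]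
      push_cast
      ring
    calc _ ≤ p * ∑ e ∈ ex (sl u c n) (sl u c (2 * b)), tt p (sl u c (2 * b)) o e.1 *
          (lam * (lam / 2) ^ k) := by
          refine mul_le_mul_of_nonneg_left (step.trans (sum_le_sum fun e he =>
            mul_le_mul_of_nonneg_left (ih _ ?_) (tt_nonneg p0 p1))) p0
          rw [hd, (hex e he).1, dp_add_opp (by rw [(hex e he).2]; omega), (hex e he).2]
          exact hk
      _ = p * (∑ e ∈ ex (sl u c n) (sl u c (2 * b)), tt p (sl u c (2 * b)) o e.1) *
          (lam * (lam / 2) ^ k) := by rw [← sum_mul, mul_assoc]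
      _ ≤ lam / 2 * (lam * (lam / 2) ^ k) :=
          mul_le_mul_of_nonneg_right ((mul_le_mul_of_nonneg_left step2 p0).trans f3)
            (by positivity)
      _ = _ := by ring

end Pool.Agent.HDE
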