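import Pool.Agent.Lib.HDE.BlueC
import Pool.Agent.Lib.HDE.Api2

/-! From a point close to the cut the other faces are rarely reached. -/

open Finset

namespace Pool.Agent.HDE

open Pool.Agent.TPC
open Pool.Agent.HD (rad)

namespace RUINB

variable {d M : ℕ} [NeZero M] {p : ℝ}

/-- the face of the ball in direction `w` -/
def fc (o : Tor d M) (r : ℕ) (w : Dir d) : Finset (Tor d M) :=
  hp w.1 (o w.1 + sg M w.2 * (r : ZMod M))

lemma bl_sub (o : Tor d M) {r : ℕ} (hr : 2 * r < M) (w : Dir d) :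
    bl o r ⊆ sl w (o w.1 + sg M w.2 * (r : ZMod M)) (2 * r) := fun y hy => by
  rw [← cs_eq_sl o w hr, mem_cs]
  exact rad_le_iff.1 (mem_bl.1 hy) w.1

lemma ab_fc {o y : Tor d M} {r : ℕ} (hr : 2 * r < M) {w : Dir d} (h : y ∈ fc o r w) :
    ab (y w.1 - o w.1) = r := by
  rw [mem_hp.1 h, add_sub_cancel_left, ab_sg_mul, ab_natCast hr.le]

lemma nx_fc {o : Tor d M} {u : Dir d} {b r : ℕ} (hr : 2 * r < M) {e : Tor d M × Dir d}
    (h : e ∈ nx o u b r) : e.1 ∈ fc o r e.2 := by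
  obtain ⟨h1, h2⟩ := mem_filter.1 h
  obtain ⟨h3, -, h4⟩ := mem_ex.1 h1
  obtain ⟨h5, h6⟩ := mem_inter.1 h3
  rw [hb, mem_inter, not_and_or] at h4
  rw [fc, mem_hp]
  rcases h4 with h4 | h4
  · have h7 : e.1 + dv M e.2 ∉ sl e.2 (o e.2.1 + sg M e.2.2 * (r : ZMod M)) (2 * r) := by
      rw [← cs_eq_sl o e.2 hr, mem_cs]
      refine fun h8 => h4 (mem_bl.2 (rad_le_iff.2 fun j => ?_))
      by_cases hj : j = e.2.1
      · rw [hj]; exact h8
      · have := rad_le_iff.1 (mem_bl.1 h5) j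
        rwa [hd, Pi.sub_apply, Pi.add_apply, dv_of_ne hj, add_zero]
    rcases exit_sl (bl_sub o hr e.2 h5) h7 with h8 | h8
    · exact h8.2
    · exact (opp_ne _ h8.1.symm).elim
  · rcases exit_sl h6 h4 with h8 | h8
    · exact (h2 h8).elim
    · rw [h8.1, opp_fst, opp_snd, sg_not, h8.2]
      push_cast; ring

lemma xm_le (h0 : 0 ≤ p) (h1 : p ≤ 1) (S : Finset (Tor d M)) (o : Tor d M) (u : Dir d) (b : ℕ)
    {r : ℕ} (hr : 2 * r < M) :
    xm p S (nx o u b r) o ≤ ∑ w : Dir d, p * ∑ y ∈ fc o r w, tt p S o y := by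
  rw [xm, ← mul_sum]
  refine mul_le_mul_of_nonneg_left ?_ h0
  have e : ∑ w : Dir d, ∑ y ∈ fc o r w, tt p S o y =
      ∑ e ∈ univ.filter (fun e : Tor d M × Dir d => e.1 ∈ fc o r e.2), tt p S o e.1 := by
    rw [sum_filter, Fintype.sum_prod_type_right (α₁ := Tor d M)]
    exact sum_congr rfl fun w _ => by simp [sum_ite_mem]
  rw [e]
  exact sum_le_sum_of_subset_of_nonneg (fun e he => mem_filter.2 ⟨mem_univ _, nx_fc hr he⟩)
    fun _ _ _ => tt_nonneg h0 h1

lemma one (hF : St_FACE) (hT : St_TAIL) (hR : St_RU1) (H : Hyp d M p) (o : Tor d M) (u w : Dir d)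
    (b r m n : ℕ) (hn : 2 ^ m * (b + 1) = n + 1) (hr : (m + 1) * (n + 1) ≤ r) (hM : 16 * r ≤ M) :
    p * ∑ y ∈ fc o r w, tt p (hb o u b r) o y ≤ (lam / 2) ^ m * (lam + lam ^ 2) := by
  have h0 := H.p0
  have h1 := H.p1
  have l0 := lam_pos
  have hM0 := NeZero.pos M
  have bn : b ≤ n := by
    have : 1 * (b + 1) ≤ 2 ^ m * (b + 1) := Nat.mul_le_mul_right _ Nat.one_le_two_pow
    omega
  have nr : m * (n + 1) + (n + 1) ≤ r := by rwa [add_mul, one_mul] at hr
  have r2 : 2 * r < M := by omega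
  set c := o u.1 + sg M u.2 * (b : ZMod M) with hc
  set S := hb o u b r ∩ sl u c n with hS
  have od : dp u c o = b := (dp_eq_iff (by omega)).2 (by rw [hc]; ring)
  have on : o ∈ sl u c n := mem_sl.2 (by omega)
  have oS : o ∈ S := mem_inter.2 ⟨mem_inter.2 ⟨self_mem_bl o r, mem_sl.2 (by rw [od]; omega)⟩, on⟩
  have face : ∀ U ⊆ hb o u b r, ∀ z, p * ∑ y ∈ fc o r w, tt p U z y ≤ lam := fun U hU z =>
    (hF d M p H).1 w _ (2 * r) U z (by omega) (hU.trans (inter_subset_left.trans (bl_sub o r2 w)))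
  have a1 : p * ∑ y ∈ fc o r w, tt p S o y ≤ (lam / 2) ^ m * lam := by
    by_cases hw : w.1 = u.1
    · rw [sum_eq_zero, mul_zero]
      · positivity
      · refine fun y hy => tt_of_right fun h => ?_
        have h2 := mem_cs.1 (sl_subset_cs on (mem_inter.1 h).2)
        rw [← hw, ab_fc r2 hy] at h2
        omega
    · have e : ∀ (z : Tor d M) (T : Finset (Tor d M)), fc o r w ⊆ T →
          ∑ y ∈ T, tt p S z y * (if y ∈ fc o r w then p else 0) =
            p * ∑ y ∈ fc o r w, tt p S z y := fun z T hT => by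
        simp only [mul_ite, mul_zero]
        rw [sum_ite_mem, inter_eq_right.2 hT, ← sum_mul, mul_comm]
      have := (hT d M p H u c n S w.1 (fun y => if y ∈ fc o r w then p else 0) (by omega)
        inter_subset_right hw (fun y => by split_ifs <;> simp [h0])).2 lam
        (fun z _ => by rw [e z _ (subset_univ _)]; exact face S inter_subset_left z) m o oS
      rwa [e o _ fun y hy => mem_filter.2 ⟨mem_univ _, by rw [ab_fc r2 hy]; omega⟩] at this
  have a2 : p * ∑ e ∈ ex (hb o u b r) S, tt p S o e.1 ≤ lam * (lam / 2) ^ m := by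
    refine le_trans (mul_le_mul_of_nonneg_left ?_ h0)
      (hR d M p H u c n m o (by omega) (by rw [od, hn]))
    have e : ∑ y ∈ univ.filter (fun y => dp u c y = n), tt p (sl u c n) o y =
        ∑ e ∈ univ.filter (fun y => dp u c y = n) ×ˢ {opp u}, tt p (sl u c n) o e.1 := by
      simp
    rw [e]
    refine (sum_le_sum fun e _ => tt_mono h0 h1 inter_subset_right).trans
      (sum_le_sum_of_subset_of_nonneg (fun e he => ?_) fun _ _ _ => tt_nonneg h0 h1)
    obtain ⟨e1, e2, e3⟩ := mem_ex.1 he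
    rcases exit_sl (mem_inter.1 e1).2 (fun h => e3 (mem_inter.2 ⟨e2, h⟩)) with h | h
    · have h2 := mem_sl.1 (mem_inter.1 e2).2
      rw [hd, h.1, dp_add_dv' (dp_eq_zero.2 h.2)] at h2
      omega
    · exact mem_product.2 ⟨mem_filter.2 ⟨mem_univ _, (dp_eq_iff (by omega)).2 h.2⟩,
        mem_singleton.2 h.1⟩
  have a3 : p * ∑ y ∈ fc o r w, tt p (hb o u b r) o y ≤ p * ∑ y ∈ fc o r w, tt p S o y +
      p * ∑ e ∈ ex (hb o u b r) S, tt p S o e.1 * lam := by
    rw [← mul_add]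
    refine mul_le_mul_of_nonneg_left ((sum_le_sum fun y _ => slp H.hM h0 h1 _ oS y).trans ?_) h0
    rw [sum_add_distrib, sum_comm]
    refine add_le_add le_rfl (sum_le_sum fun e _ => ?_)
    rw [← mul_sum, ← mul_sum]
    exact mul_le_mul_of_nonneg_left (face _ subset_rfl _) (tt_nonneg h0 h1)
  rw [← sum_mul, ← mul_assoc] at a3
  have := mul_le_mul_of_nonneg_right a2 l0.le
  linarith

end RUINB

open RUINB in
theorem t_ruin : T_RUIN := by
  intro hF hT hR d ε hε
  have l0 := lam_pos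
  have K0 : 0 < (2 * d + 1 : ℝ) * (lam + lam ^ 2) := by positivity
  obtain ⟨m, hm⟩ := exists_pow_lt_of_lt_one (div_pos hε K0) (show lam / 2 < 1 by norm_num [lam])
  refine ⟨(m + 1) * 2 ^ m, Nat.mul_pos (by omega) (by positivity), fun M _ p H o u b r hr hM => ?_⟩
  have hM0 := NeZero.pos M
  obtain ⟨n, hn⟩ : ∃ n, 2 ^ m * (b + 1) = n + 1 := Nat.exists_eq_succ_of_ne_zero (by positivity)
  refine (xm_le H.p0 H.p1 _ o u b (by omega)).trans ((sum_le_card_nsmul _ _ _ fun w _ =>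
    one hF hT hR H o u w b r m n hn (by rwa [← hn, ← mul_assoc]) hM).trans ?_)
  rw [lt_div_iff₀ K0] at hm
  have : 0 ≤ (lam / 2) ^ m * (lam + lam ^ 2) := by positivity
  simp only [card_univ, Fintype.card_prod, Fintype.card_fin, Fintype.card_bool, nsmul_eq_mul]
  push_cast
  linarith

end Pool.Agent.HDE
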