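import Pool.Agent.Lib.HDE.B_SLM

/-! The lower Simon-Lieb inequality with shift and thinning. -/

open Finset

namespace Pool.Agent.HDE

open Pool.Agent.TPC Pool.Agent.Lib.MP_81a99a_pr

namespace SLK

variable {d M : ℕ}

lemma dp_seg [NeZero M] {u : Dir d} {c : ZMod M} {y : Tor d M} (hy : y u.1 = c) {s : ℕ}
    (h1 : 1 ≤ s) (h2 : s < M) : dp u c (y + s • dv M u) = M - s := by
  have e : sg M u.2 * (c - (y + s • dv M u) u.1) = -(s : ZMod M) := by
    have : sg M u.2 * sg M u.2 = 1 := by cases u.2 <;> simp [sg]
    rw [Pi.add_apply, Pi.smul_apply, dv, Pi.single_eq_same, hy, nsmul_eq_mul]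
    linear_combination (-(s : ZMod M)) * this
  have hs : (s : ZMod M).val = s := ZMod.val_cast_of_lt h2
  rw [dp, e, ZMod.neg_val, if_neg, hs]
  intro h
  rw [h, ZMod.val_zero] at hs
  omega

end SLK

theorem t_slk : T_SLK := by
  intro _ _ d M _ hM p θ p0 p1 t0 t1 u c n K L S F o x hK hn hS hSL _ hF
  let pt : Tor d M → ℕ → Tor d M := fun y s => y + s • dv M u
  have st : ∀ y s, pt y (s + 1) = pt y s + dv M u := fun y s => by
    simp only [pt, succ_nsmul, add_assoc]
  have ha : ∀ y s, (torus d M).Adj (pt y s) (pt y (s + 1)) := fun y s =>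
    st y s ▸ SLM.adj_dv hM _ u
  have h := SLE.sle (F := F) (f := id) (g := fun y => y + K • dv M u) (o := o) (x := x) p0 p1 hSL
    (fun y => (range K).image fun s => s(pt y s, pt y (s + 1))) (fun _ => ∅) K 0 t0 t1
    (fun y hy => by
      obtain ⟨h1, h2, h3⟩ := hF y hy
      refine ⟨fun e he => ?_, Finset.disjoint_left.2 fun e he h4 => ?_, ?_, ?_⟩
      · obtain ⟨s, hs, rfl⟩ := Finset.mem_image.1 he
        have := Finset.mem_range.1 hs
        exact mk_mem_edges.2 ⟨ha y s, h3 s (by omega), h3 (s + 1) (by omega)⟩
      · obtain ⟨s, hs, rfl⟩ := Finset.mem_image.1 he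
        have := Finset.mem_range.1 hs
        have h5 := hS (mk_mem_edges.1 h4).2.2
        simp only [sl, Finset.mem_filter, Finset.mem_univ, true_and, pt] at h5
        rw [SLK.dp_seg h2 (by omega) (by omega)] at h5
        omega
      · rw [Finset.card_image_of_injOn, Finset.card_range]
        intro s hs t ht e
        have hs' := Finset.mem_range.1 hs
        have ht' := Finset.mem_range.1 ht
        have z : dp u c (pt y 0) = 0 := by simp [pt, dp, h2]
        have v : ∀ s, s ≤ K → dp u c (pt y s) = if s = 0 then 0 else M - s := fun s hs => by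
          split_ifs with h
          · rw [h, z]
          · exact SLK.dp_seg h2 (by omega) (by omega)
        rcases Sym2.eq_iff.1 e with ⟨-, e2⟩ | ⟨e1, e2⟩
        · have := congrArg (dp u c) e2
          rw [v _ (by omega), v _ (by omega)] at this
          simp only [Nat.succ_ne_zero, if_false] at this
          omega
        · have a1 := congrArg (dp u c) e1
          have a2 := congrArg (dp u c) e2
          rw [v _ (by omega), v _ (by omega)] at a1 a2
          simp only [Nat.succ_ne_zero, if_false] at a1 a2
          split_ifs at a1 a2 <;> omega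
      · have : ∀ s, s ≤ K → conn (torus d M) L
            ((range K).image fun s => s(pt y s, pt y (s + 1))) y (pt y s) := by
          intro s
          induction s with
          | zero => exact fun _ => by simpa [pt] using conn.refl (hSL h1)
          | succ s ih =>
            exact fun hs => (ih (by omega)).tail (h3 (s + 1) hs) (ha y s)
              (Finset.mem_image.2 ⟨s, Finset.mem_range.2 hs, rfl⟩) (h3 s (by omega))
        exact this K le_rfl)
    (fun y _ => ⟨Finset.empty_subset _, rfl, by simp⟩) (fun _ _ _ _ _ => by simp)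
  simpa only [id, mul_zero, pow_zero, mul_one] using h

end Pool.Agent.HDE
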