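import Pool.Agent.Lib.HDE.Defs
import Pool.Agent.Lib.HD.SLG
import Pool.Agent.Lib.TPC.B_BK
import Pool.Agent.Lib.TPC.B_PL12
import Pool.Agent.Lib.TPC.ZBasic

/-! The reversed Simon-Lieb inequality on the torus in terms of the error kernels. -/

open Finset

namespace Pool.Agent.HDE.SLE

open Pool.Agent.TPC Pool.Agent.Lib.MP_81a99a_pr

variable {d M : ℕ} [NeZero M] {ι : Type} [DecidableEq ι] {p : ℝ} {L S : Finset (Tor d M)}
  {F : Finset ι} {f g : ι → Tor d M} {o x : Tor d M}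

lemma E2_scale (q : ℝ) (v : Tor d M) : E2 p q L S F f g o v = q * E2 p 1 L S F f g o v := by
  unfold E2
  simp only [Finset.mul_sum]
  exact Finset.sum_congr rfl fun _ _ => Finset.sum_congr rfl fun _ _ => by ring

lemma E1_scale (q : ℝ) (v : Tor d M) : E1 p q L S F f g o v = q ^ 2 * E1 p 1 L S F f g o v := by
  unfold E1
  simp only [Finset.mul_sum]
  exact Finset.sum_congr rfl fun _ _ => Finset.sum_congr rfl fun _ _ =>
    Finset.sum_congr rfl fun _ _ => by ring

theorem sle (p0 : 0 ≤ p) (p1 : p ≤ 1) (hSL : S ⊆ L) (B Q : ι → Finset (Sym2 (Tor d M))) (k m : ℕ)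
    {θ : ℝ} (t0 : 0 ≤ θ) (t1 : θ ≤ 1)
    (hB : ∀ i ∈ F, B i ⊆ edges (torus d M) L ∧ Disjoint (B i) (edges (torus d M) S) ∧
      (B i).card = k ∧ conn (torus d M) L (B i) (f i) (g i))
    (hQ : ∀ i ∈ F, Q i ⊆ B i ∧ (Q i).card = m ∧ ∀ e ∈ Q i, f i ∈ e)
    (hd : ∀ i ∈ F, ∀ j ∈ F, i ≠ j → Disjoint (Q i) (Q j)) :
    tt p S o x + θ * p ^ k * ∑ i ∈ F, tt p S o (f i) * tt p L (g i) x ≤
      tt p L o x + θ * p ^ k * ∑ v, E2 p 1 L S F f g o v * tt p L v x +
        θ ^ 2 * p ^ (2 * m) * ∑ v, E1 p 1 L S F f g o v * tt p L v x := by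
  have bk := st_BK st_BK2
  have n : ∀ D a b, 0 ≤ tt (d := d) (n := M) p D a b := fun _ _ _ => tau_nonneg (Prob.const p0 p1)
  have h := HD.SLG.slg (o := o) (x := x) (st_PL1 bk) (st_PL2 bk) p0 p1 hSL F f g B Q k m t0 t1
    hB hQ hd
  have a2 : ∑ i ∈ F, ∑ u ∈ S, ∑ v ∈ S, tt p S o u * tt p S u (f i) * tt p S u v *
      (tt p L (g i) v * tt p L v x) ≤ ∑ v, E2 p 1 L S F f g o v * tt p L v x := by
    have e : ∑ v, E2 p 1 L S F f g o v * tt p L v x = ∑ i ∈ F, ∑ u, ∑ v,
        tt p S o u * tt p S u (f i) * tt p S u v * (tt p L (g i) v * tt p L v x) := by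
      unfold E2
      simp only [Finset.sum_mul, Finset.mul_sum]
      rw [Finset.sum_comm]
      refine ((Finset.sum_congr rfl fun u _ => Finset.sum_comm).trans Finset.sum_comm).trans ?_
      exact Finset.sum_congr rfl fun _ _ => Finset.sum_congr rfl fun _ _ =>
        Finset.sum_congr rfl fun _ _ => by ring
    rw [e]
    refine Finset.sum_le_sum fun i _ => ?_
    have nn : ∀ u v, 0 ≤ tt p S o u * tt p S u (f i) * tt p S u v * (tt p L (g i) v * tt p L v x) :=
      fun u v => mul_nonneg (mul_nonneg (mul_nonneg (n _ _ _) (n _ _ _)) (n _ _ _))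
        (mul_nonneg (n _ _ _) (n _ _ _))
    exact (Finset.sum_le_sum fun u _ => Finset.sum_le_univ_sum_of_nonneg (nn u)).trans
      (Finset.sum_le_univ_sum_of_nonneg fun u => Finset.sum_nonneg fun v _ => nn u v)
  have a1 : ∑ i ∈ F, ∑ j ∈ F.erase i, ∑ u ∈ S, ∑ v ∈ L, tt p S o u * tt p S u (f i) *
      tt p S u (f j) * (tt p L (g i) v * tt p L (g j) v * tt p L v x) ≤
      ∑ v, E1 p 1 L S F f g o v * tt p L v x := by
    have e : ∑ v, E1 p 1 L S F f g o v * tt p L v x = ∑ i ∈ F, ∑ j ∈ F.erase i, ∑ u, ∑ v,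
        tt p S o u * tt p S u (f i) * tt p S u (f j) *
          (tt p L (g i) v * tt p L (g j) v * tt p L v x) := by
      unfold E1
      simp only [Finset.sum_mul, Finset.mul_sum]
      rw [Finset.sum_comm]
      refine ((Finset.sum_congr rfl fun u _ => Finset.sum_comm).trans Finset.sum_comm).trans ?_
      refine Finset.sum_congr rfl fun i _ => ?_
      refine ((Finset.sum_congr rfl fun u _ => Finset.sum_comm).trans Finset.sum_comm).trans ?_
      exact Finset.sum_congr rfl fun _ _ => Finset.sum_congr rfl fun _ _ =>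
        Finset.sum_congr rfl fun _ _ => by ring
    rw [e]
    refine Finset.sum_le_sum fun i _ => Finset.sum_le_sum fun j _ => ?_
    have nn : ∀ u v, 0 ≤ tt p S o u * tt p S u (f i) * tt p S u (f j) *
        (tt p L (g i) v * tt p L (g j) v * tt p L v x) :=
      fun u v => mul_nonneg (mul_nonneg (mul_nonneg (n _ _ _) (n _ _ _)) (n _ _ _))
        (mul_nonneg (mul_nonneg (n _ _ _) (n _ _ _)) (n _ _ _))
    exact (Finset.sum_le_sum fun u _ => Finset.sum_le_univ_sum_of_nonneg (nn u)).trans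
      (Finset.sum_le_univ_sum_of_nonneg fun u => Finset.sum_nonneg fun v _ => nn u v)
  exact h.trans (add_le_add (add_le_add le_rfl (mul_le_mul_of_nonneg_left a2 (by positivity)))
    (mul_le_mul_of_nonneg_left a1 (by positivity)))

end Pool.Agent.HDE.SLE
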