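import Pool.Agent.Lib.HDE.BlueB
import Pool.Agent.Lib.HDE.SLE

/-! The lower Simon-Lieb inequality. -/

open Finset

namespace Pool.Agent.HDE

open Pool.Agent.TPC Pool.Agent.Lib.MP_81a99a_pr

namespace SLM

variable {d M : ℕ}

lemma one_ne_zero' (hM : 3 ≤ M) : (1 : ZMod M) ≠ 0 := by
  intro h
  have := (ZMod.natCast_eq_zero_iff 1 M).1 (by exact_mod_cast h)
  have := Nat.le_of_dvd one_pos this
  omega

lemma two_ne_zero' (hM : 3 ≤ M) : (1 : ZMod M) ≠ -1 := by
  intro h
  have := (ZMod.natCast_eq_zero_iff 2 M).1 (by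
    rw [Nat.cast_ofNat, ← one_add_one_eq_two]; exact add_eq_zero_iff_eq_neg.2 h)
  have := Nat.le_of_dvd two_pos this
  omega

lemma sg_ne_zero (hM : 3 ≤ M) (b : Bool) : sg M b ≠ 0 := by
  cases b
  · simpa [sg] using one_ne_zero' hM
  · simpa [sg] using one_ne_zero' hM

lemma adj_dv (hM : 3 ≤ M) (x : Tor d M) (u : Dir d) : (torus d M).Adj x (x + dv M u) := by
  refine TPC.torus_adj.2 ⟨fun h => sg_ne_zero hM u.2 ?_, u.1, ?_⟩
  · simpa [dv] using congrFun h u.1
  · rcases u with ⟨i, _ | _⟩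
    · exact Or.inr (by simp [dv, sg, Pi.single_neg, sub_eq_add_neg])
    · exact Or.inl (by simp [dv, sg])

lemma dv_inj (hM : 3 ≤ M) {u u' : Dir d} (h : dv M u = dv M u') : u = u' := by
  rcases u with ⟨i, b⟩
  rcases u' with ⟨j, c⟩
  have h1 := congrFun h i
  by_cases hij : i = j
  · subst hij
    simp only [dv, Pi.single_eq_same] at h1
    cases b <;> cases c
    · rfl
    · exact absurd (by simpa [sg] using h1.symm) (two_ne_zero' hM)
    · exact absurd (by simpa [sg] using h1) (two_ne_zero' hM)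
    · rfl
  · simp only [dv, Pi.single_eq_same, Pi.single_eq_of_ne hij] at h1
    exact absurd h1 (sg_ne_zero hM b)

end SLM

open SLM

theorem t_slm : T_SLM := by
  intro _ _ d M _ hM p p0 p1 L S EE o x hSL _ hE
  have hm : ∀ b ∈ EE, b.1 ∈ S ∧ hd b ∈ L ∧ hd b ∉ S := fun b hb => by simpa [ex] using hE hb
  have h := SLE.sle (F := EE) (f := Prod.fst) (g := hd) (o := o) (x := x) p0 p1 hSL
    (fun b => {s(b.1, hd b)}) (fun b => {s(b.1, hd b)}) 1 1 zero_le_one le_rfl
    (fun b hb => by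
      obtain ⟨h1, h2, h3⟩ := hm b hb
      have ha : (torus d M).Adj b.1 (hd b) := adj_dv hM b.1 b.2
      refine ⟨by simpa using mk_mem_edges.2 ⟨ha, hSL h1, h2⟩, ?_, rfl,
        conn.step (hSL h1) h2 ha (Finset.mem_singleton_self _)⟩
      rw [Finset.disjoint_singleton_left]
      exact fun h => h3 (mk_mem_edges.1 h).2.2)
    (fun b _ => ⟨subset_rfl, rfl, by simp⟩)
    (fun b hb c hc hbc => by
      rw [Finset.disjoint_singleton]
      intro h
      rcases Sym2.eq_iff.1 h with ⟨h1, h2⟩ | ⟨h1, -⟩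
      · rw [hd, hd, h1] at h2
        exact hbc (Prod.ext h1 (dv_inj hM (add_left_cancel h2)))
      · exact (hm c hc).2.2 (h1 ▸ (hm b hb).1))
  have e1 : ∑ b ∈ EE, tt p S o b.1 * (p * tt p L (hd b) x) =
      p * ∑ b ∈ EE, tt p S o b.1 * tt p L (hd b) x := by
    rw [Finset.mul_sum]
    exact Finset.sum_congr rfl fun _ _ => by ring
  have e2 : ∑ v, Er p L S EE o v * tt p L v x =
      p * ∑ v, E2 p 1 L S EE Prod.fst hd o v * tt p L v x +
        p ^ 2 * ∑ v, E1 p 1 L S EE Prod.fst hd o v * tt p L v x := by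
    rw [Finset.mul_sum, Finset.mul_sum, ← Finset.sum_add_distrib]
    refine Finset.sum_congr rfl fun v _ => ?_
    rw [Er, SLE.E1_scale p, SLE.E2_scale p]
    ring
  rw [e1, e2]
  simp only [one_mul, pow_one, one_pow, mul_one] at h
  linarith

end Pool.Agent.HDE
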