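import Pool.Agent.Lib.HDE.Api2

/-! Block SPREAD: anti-concentration of a product of reflection invariant kernels. -/

open Finset

namespace Pool.Agent.HDE

open Pool.Agent.TPC

namespace SPREAD

variable {d M : ℕ}

/-- total range of the first `s` reflections in the coordinate `j` -/
def rg (i : ℕ → Fin d) (l : ℕ → ℕ) : ℕ → Fin d → ℕ
  | 0, _ => 0
  | s + 1, j => rg i l s j + if i s = j then 2 ^ (l s + 1) else 0

lemma rg_lt {T : ℕ} {i : ℕ → Fin d} {l : ℕ → ℕ} (h : ∀ s t, s < t → t < T → i s = i t → l s < l t)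
    (j : Fin d) (s : ℕ) (hs : s ≤ T) (L : ℕ) (hL : ∀ t, t < s → i t = j → l t < L) :
    rg i l s j < 2 ^ (L + 1) := by
  induction s generalizing L with
  | zero => exact Nat.two_pow_pos _
  | succ s ih =>
    rw [rg]
    split_ifs with e
    · have h1 := ih (by omega) (l s) fun t ht e' => h t s ht hs (e'.trans e.symm)
      have h2 : 2 ^ (l s + 1 + 1) ≤ 2 ^ (L + 1) :=
        Nat.pow_le_pow_right two_pos (Nat.succ_le_succ (hL s s.lt_succ_self e))
      rw [pow_succ _ (l s + 1)] at h2
      omega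
    · exact ih (by omega) L fun t ht => hL t (by omega)

/-- distinct points of `A` are far apart in some coordinate -/
def Far (R : Fin d → ℕ) (A : Finset (Tor d M)) : Prop :=
  ∀ x ∈ A, ∀ y ∈ A, (∀ j, ab (x j - y j) ≤ R j) → x = y

variable [NeZero M]

lemma ab_rf {i : Fin d} {n : ℕ} {z : Tor d M} (hM : 2 ^ (n + 2) ≤ M) (hz : ab (z i) = 2 ^ n)
    (j : Fin d) : ab (z j - rf i 0 z j) = if i = j then 2 ^ (n + 1) else 0 := by
  split_ifs with e
  · subst e
    obtain ⟨b, hb⟩ := eq_sg_ab (z i)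
    have : z i - rf i 0 z i = sg M b * ((2 ^ (n + 1) : ℕ) : ZMod M) := by
      rw [rf_self, hb, hz]
      push_cast
      ring
    rw [this, ab_sg_mul, ab_natCast (by rw [pow_succ _ (n + 1)] at hM; omega)]
  · rw [rf_of_ne (Ne.symm e), sub_self, ab_zero]

omit [NeZero M] in
lemma pair {R R' : Fin d → ℕ} {A : Finset (Tor d M)} (hA : Far R' A) {z w : Tor d M}
    (h1 : ∀ j, R j + ab (z j - w j) ≤ R' j) (h2 : ∃ j, R j < ab (z j - w j)) {f : Tor d M → ℝ} {B : ℝ}
    (hf : ∀ A' : Finset (Tor d M), Far R A' → ∑ x ∈ A', f x ≤ B) :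
    ∑ x ∈ A, f (x - z) + ∑ x ∈ A, f (x - w) ≤ B := by
  have cross : ∀ x ∈ A, ∀ y ∈ A, ¬ ∀ j, ab ((x - z) j - (y - w) j) ≤ R j := fun x hx y hy h => by
    have e := hA x hx y hy fun j => by
      have := ab_add_le ((x - z) j - (y - w) j) (z j - w j)
      rw [show (x - z) j - (y - w) j + (z j - w j) = x j - y j by simp only [Pi.sub_apply]; ring] at this
      have := h j
      have := h1 j
      omega
    obtain ⟨j, hj⟩ := h2
    have := h j
    rw [e, show (y - z) j - (y - w) j = w j - z j by simp only [Pi.sub_apply]; ring, ab_sub_comm] at this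
    omega
  have same : ∀ v : Tor d M, ∀ x ∈ A, ∀ y ∈ A, (∀ j, ab ((x - v) j - (y - v) j) ≤ R j) → x - v = y - v :=
    fun v x hx y hy h => by
      rw [hA x hx y hy fun j => by
        have := h j
        rw [Pi.sub_apply, Pi.sub_apply, sub_sub_sub_cancel_right] at this
        have := h1 j
        omega]
  rw [← sum_image (g := (· - z)) fun _ _ _ _ => sub_left_injective.eq_iff.1,
    ← sum_image (g := (· - w)) fun _ _ _ _ => sub_left_injective.eq_iff.1, ← sum_union]
  · refine hf _ fun x hx y hy h => ?_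
    simp only [mem_union, mem_image] at hx hy
    rcases hx with ⟨x, hx, rfl⟩ | ⟨x, hx, rfl⟩ <;> rcases hy with ⟨y, hy, rfl⟩ | ⟨y, hy, rfl⟩
    · exact same z x hx y hy h
    · exact (cross x hx y hy h).elim
    · exact (cross y hy x hx fun j => by rw [ab_sub_comm]; exact h j).elim
    · exact same w x hx y hy h
  · refine disjoint_left.2 fun v hx hy => ?_
    obtain ⟨x, hx, e1⟩ := mem_image.1 hx
    obtain ⟨y, hy, e2⟩ := mem_image.1 hy
    exact cross x hx y hy fun j => by rw [e1, e2, sub_self, ab_zero]; exact Nat.zero_le _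

end SPREAD

open SPREAD in
theorem t_spread : T_SPREAD := by
  intro d M _ T i l K a ha hl hK x
  have key : ∀ s, s ≤ T → ∀ A : Finset (Tor d M), Far (rg i l s) A → ∑ x ∈ A, cpr K s x ≤ (a / 2) ^ s := by
    intro s
    induction s with
    | zero =>
      intro _ A _
      rw [cpr_zero, sum_ite_eq', pow_zero]
      split_ifs <;> norm_num
    | succ s ih =>
      intro hs A hA
      obtain ⟨hM, h1, h2⟩ := hK s hs
      have e1 : ∑ x ∈ A, cpr K (s + 1) x = ∑ z, K s z * ∑ x ∈ A, cpr K s (x - z) := by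
        rw [cpr_succ, cv_comm]
        simp only [cv, mul_sum]
        exact sum_comm
      have e2 : ∑ z, K s z * ∑ x ∈ A, cpr K s (x - z) =
          ∑ z, K s z * ∑ x ∈ A, cpr K s (x - rf (i s) 0 z) := by
        rw [← (rfE (i s) 0).sum_comp]
        exact sum_congr rfl fun z _ => by rw [← (h2 z).2.2]; rfl
      have e3 : ∑ z, K s z * ∑ x ∈ A, cpr K s (x - z) +
          ∑ z, K s z * ∑ x ∈ A, cpr K s (x - rf (i s) 0 z) ≤ (∑ z, K s z) * (a / 2) ^ s := by
        rw [← sum_add_distrib, sum_mul]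
        refine sum_le_sum fun z _ => ?_
        rw [← mul_add]
        by_cases h0 : K s z = 0
        · rw [h0, zero_mul, zero_mul]
        have hz := ab_rf hM ((h2 z).2.1 h0)
        refine mul_le_mul_of_nonneg_left (pair hA (fun j => by rw [hz, rg]) ⟨i s, ?_⟩
          (ih (by omega))) (h2 z).1
        rw [hz, if_pos rfl]
        exact rg_lt hl _ s (by omega) _ fun t ht e => hl t s ht hs e
      have e4 := mul_le_mul_of_nonneg_right h1 (by positivity : 0 ≤ (a / 2) ^ s)
      rw [pow_succ]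
      linarith
  simpa using key T le_rfl {x} fun y hy z hz _ => (mem_singleton.1 hy).trans (mem_singleton.1 hz).symm

end Pool.Agent.HDE
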