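import Pool.Agent.Lib.HDE.Api2

/-! The weighted square diagram is small. -/

open Finset

namespace Pool.Agent.HDE

open Pool.Agent.TPC

namespace SQUARE

variable {d M : ℕ} [NeZero M]

/-- the weighted diagram with four lines -/
noncomputable def D (j : Fin d) (e : Tor d M) (f g h k : Tor d M → ℝ) : ℝ :=
  ∑ x, ∑ y, ∑ z, (1 + (ab (x j) : ℝ) + ab (y j) + ab (z j) + ab ((e - x - y - z) j)) ^ 8 *
    (f x * g y * h z * k (e - x - y - z))

variable {j : Fin d} {e : Tor d M} {f g h k : Tor d M → ℝ}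

lemma swap12 : D j e f g h k = D j e g f h k := by
  rw [D, D, sum_comm]
  refine sum_congr rfl fun x _ => sum_congr rfl fun y _ => sum_congr rfl fun z _ => ?_
  rw [show e - y - x - z = e - x - y - z by abel]; ring

lemma swap23 : D j e f g h k = D j e f h g k := by
  rw [D, D]
  refine sum_congr rfl fun x _ => ?_
  rw [sum_comm]
  refine sum_congr rfl fun y _ => sum_congr rfl fun z _ => ?_
  rw [show e - x - z - y = e - x - y - z by abel]; ring

lemma swap34 : D j e f g h k = D j e f g k h := by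
  rw [D, D]
  refine sum_congr rfl fun x _ => sum_congr rfl fun y _ => ?_
  rw [← Equiv.sum_comp (Equiv.subLeft (e - x - y))]
  refine sum_congr rfl fun z _ => ?_
  simp only [Equiv.subLeft_apply, sub_sub_cancel]; ring

lemma last_le (hf : ∀ x, 0 ≤ f x) (hg : ∀ x, 0 ≤ g x) (hh : ∀ x, 0 ≤ h x) {B : ℝ}
    (hk : ∀ x, 0 ≤ k x ∧ k x ≤ B) :
    D j e f g h k ≤ B * (2 * (1 + (ab (e j) : ℝ))) ^ 8 * (wn j f * wn j g * wn j h) := by
  have hB : 0 ≤ B := (hk 0).1.trans (hk 0).2
  have : wn j f * wn j g * wn j h = ∑ x, ∑ y, ∑ z, ((1 + (ab (x j) : ℝ)) ^ 8 * f x) *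
      ((1 + (ab (y j) : ℝ)) ^ 8 * g y) * ((1 + (ab (z j) : ℝ)) ^ 8 * h z) := by
    rw [wn, wn, wn, sum_mul_sum, sum_mul]
    refine sum_congr rfl fun x _ => ?_
    rw [sum_mul_sum]
  rw [this, D]
  simp only [mul_sum]
  refine sum_le_sum fun x _ => sum_le_sum fun y _ => sum_le_sum fun z _ => ?_
  have h1 : ab ((e - x - y - z) j) ≤ ab (e j) + ab (x j) + ab (y j) + ab (z j) := by
    have a1 := ab_sub_le (e j - x j - y j) (z j)
    have a2 := ab_sub_le (e j - x j) (y j)
    have a3 := ab_sub_le (e j) (x j)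
    simp only [Pi.sub_apply]; omega
  have h2 : (ab ((e - x - y - z) j) : ℝ) ≤ ab (e j) + ab (x j) + ab (y j) + ab (z j) := by
    exact_mod_cast h1
  have a0 : (0 : ℝ) ≤ ab (e j) := Nat.cast_nonneg _
  have a1 : (0 : ℝ) ≤ ab (x j) := Nat.cast_nonneg _
  have a2 : (0 : ℝ) ≤ ab (y j) := Nat.cast_nonneg _
  have a3 : (0 : ℝ) ≤ ab (z j) := Nat.cast_nonneg _
  generalize (ab (e j) : ℝ) = s at *
  generalize (ab (x j) : ℝ) = a at *
  generalize (ab (y j) : ℝ) = b at *
  generalize (ab (z j) : ℝ) = c at *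
  have h3 : 1 + a + b + c + (ab ((e - x - y - z) j) : ℝ) ≤
      2 * (1 + s) * (1 + a) * (1 + b) * (1 + c) := by
    have e1 : 1 + s + a ≤ (1 + s) * (1 + a) := by nlinarith [mul_nonneg a0 a1]
    have e2 : 1 + s + a + b ≤ (1 + s) * (1 + a) * (1 + b) := by
      nlinarith [mul_nonneg (add_nonneg a0 a1) a2, mul_le_mul_of_nonneg_right e1 (by linarith : 0 ≤ 1 + b)]
    have e3 : 1 + s + a + b + c ≤ (1 + s) * (1 + a) * (1 + b) * (1 + c) := by
      nlinarith [mul_nonneg (add_nonneg (add_nonneg a0 a1) a2) a3,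
        mul_le_mul_of_nonneg_right e2 (by linarith : 0 ≤ 1 + c)]
    nlinarith
  have h4 := pow_le_pow_left₀ (by positivity) h3 8
  have h5 : f x * g y * h z * k (e - x - y - z) ≤ f x * g y * h z * B :=
    mul_le_mul_of_nonneg_left (hk _).2 (mul_nonneg (mul_nonneg (hf x) (hg y)) (hh z))
  refine (mul_le_mul h4 h5 (mul_nonneg (mul_nonneg (mul_nonneg (hf x) (hg y)) (hh z)) (hk _).1)
    (by positivity)).trans (le_of_eq ?_)
  rw [mul_pow, mul_pow, mul_pow]
  generalize (2 * (1 + s)) ^ 8 = S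
  generalize (1 + a) ^ 8 = A'
  generalize (1 + b) ^ 8 = B'
  generalize (1 + c) ^ 8 = C'
  ring

lemma step {R Q : Tor d M → ℝ} (hR : ∀ x, 0 ≤ R x) (hQ : ∀ x, 0 ≤ Q x) :
    D j e (R + Q) (R + Q) (R + Q) (R + Q) ≤ D j e R R R R + 4 * D j e (R + Q) (R + Q) (R + Q) Q := by
  have e3 : D j e (R + Q) (R + Q) Q (R + Q) = D j e (R + Q) (R + Q) (R + Q) Q := swap34
  have e2 : D j e (R + Q) Q (R + Q) (R + Q) = D j e (R + Q) (R + Q) (R + Q) Q := swap23.trans e3
  have e1 : D j e Q (R + Q) (R + Q) (R + Q) = D j e (R + Q) (R + Q) (R + Q) Q := swap12.trans e2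
  have : D j e (R + Q) (R + Q) (R + Q) (R + Q) ≤ D j e R R R R +
      (D j e Q (R + Q) (R + Q) (R + Q) + D j e (R + Q) Q (R + Q) (R + Q) +
        D j e (R + Q) (R + Q) Q (R + Q) + D j e (R + Q) (R + Q) (R + Q) Q) := by
    simp only [D, ← sum_add_distrib, ← mul_add]
    refine sum_le_sum fun x _ => sum_le_sum fun y _ => sum_le_sum fun z _ =>
      mul_le_mul_of_nonneg_left ?_ (by positivity)
    simp only [Pi.add_apply]
    have a1 := hR x; have a2 := hR y; have a3 := hR z; have a4 := hR (e - x - y - z)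
    have b1 := hQ x; have b2 := hQ y; have b3 := hQ z; have b4 := hQ (e - x - y - z)
    generalize R x = p1 at *; generalize R y = p2 at *; generalize R z = p3 at *
    generalize R (e - x - y - z) = p4 at *
    generalize Q x = q1 at *; generalize Q y = q2 at *; generalize Q z = q3 at *
    generalize Q (e - x - y - z) = q4 at *
    have h1 : p1 * q2 * (p3 + q3) * (p4 + q4) ≤ (p1 + q1) * q2 * (p3 + q3) * (p4 + q4) := by
      gcongr; linarith
    have h2 : p1 * p2 * q3 * (p4 + q4) ≤ (p1 + q1) * (p2 + q2) * q3 * (p4 + q4) := by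
      gcongr <;> linarith
    have h3 : p1 * p2 * p3 * q4 ≤ (p1 + q1) * (p2 + q2) * (p3 + q3) * q4 := by
      gcongr <;> linarith
    have h4 : (p1 + q1) * (p2 + q2) * (p3 + q3) * (p4 + q4) = p1 * p2 * p3 * p4 +
        (q1 * (p2 + q2) * (p3 + q3) * (p4 + q4) + p1 * q2 * (p3 + q3) * (p4 + q4) +
          p1 * p2 * q3 * (p4 + q4) + p1 * p2 * p3 * q4) := by ring
    linarith
  rw [e1, e2, e3] at this
  linarith

/-- functions close to the point mass at the origin -/
def Cl (a : ℝ) (f : Tor d M → ℝ) : Prop :=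
  (∀ x, 0 ≤ f x) ∧ ∑ x, f x ≤ a ∧ ∀ x, f x ≤ (if x = 0 then 1 else 0) + a / d

lemma Cl.cv {a b : ℝ} (hf : Cl a f) (hg : Cl b g) : Cl (a + a * b) (cv f g) := by
  have sf : 0 ≤ ∑ x, f x := sum_nonneg fun x _ => hf.1 x
  have sg : 0 ≤ ∑ x, g x := sum_nonneg fun x _ => hg.1 x
  have ha : 0 ≤ a := sf.trans hf.2.1
  have hb : 0 ≤ b := sg.trans hg.2.1
  refine ⟨cv_nonneg hf.1 hg.1, ?_, fun x => ?_⟩
  · rw [sum_cv]
    have := mul_le_mul hf.2.1 hg.2.1 sg ha
    linarith
  · have h1 := cv_mono (g' := fun y => (if y = 0 then 1 else 0) + b / d) hf.1 hg.2.2 x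
    rw [cv_add, cv_comm f (fun y => if y = 0 then 1 else 0), cv_delta] at h1
    have h2 := cv_le (g := fun _ => b / d) hf.1 (fun _ => le_rfl) x
    have h3 : (∑ y, f y) * (b / d) ≤ a * (b / d) :=
      mul_le_mul_of_nonneg_right hf.2.1 (by positivity)
    have h4 := hf.2.2 x
    have h5 : (a + a * b) / d = a / d + a * (b / d) := by ring
    linarith

lemma base {a : ℝ} (hf : Cl a f) (hs : ∀ x, f x ≠ 0 → ab (x j) ≤ 20) :
    D j e f f f f ≤ 81 ^ 8 * ((if e = 0 then 1 else 0) + (a + a * (a + a * (a + a * a))) / d) := by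
  refine le_trans ?_ (mul_le_mul_of_nonneg_left ((hf.cv (hf.cv (hf.cv hf))).2.2 e) (by positivity))
  simp only [D, cv, mul_sum]
  refine sum_le_sum fun x _ => sum_le_sum fun y _ => sum_le_sum fun z _ => ?_
  by_cases h0 : f x * f y * f z * f (e - x - y - z) = 0
  · rw [h0, show f x * (f y * (f z * f (e - x - y - z))) = f x * f y * f z * f (e - x - y - z) by
      ring, h0]
    simp
  · simp only [mul_eq_zero, not_or] at h0
    have h1 : (ab (x j) : ℝ) ≤ 20 := by exact_mod_cast hs _ h0.1.1.1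
    have h2 : (ab (y j) : ℝ) ≤ 20 := by exact_mod_cast hs _ h0.1.1.2
    have h3 : (ab (z j) : ℝ) ≤ 20 := by exact_mod_cast hs _ h0.1.2
    have h4 : (ab ((e - x - y - z) j) : ℝ) ≤ 20 := by exact_mod_cast hs _ h0.2
    rw [show f x * (f y * (f z * f (e - x - y - z))) = f x * f y * f z * f (e - x - y - z) by ring]
    refine mul_le_mul_of_nonneg_right (pow_le_pow_left₀ (by positivity) (by linarith) 8) ?_
    exact mul_nonneg (mul_nonneg (mul_nonneg (hf.1 _) (hf.1 _)) (hf.1 _)) (hf.1 _)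

lemma lam_pow {n : ℕ} (hn : n ≤ 20) : lam ^ n ≤ 2 :=
  (pow_le_pow_right₀ one_le_lam hn).trans (by rw [lam]; norm_num)

end SQUARE

open SQUARE in
theorem t_square : T_SQUARE := by
  rintro ⟨C₁, -, hS⟩ ⟨C, hC, hP⟩
  set A : ℝ := 21 ^ 8 * 40 with hA
  set K : ℝ := A + 20 * C with hK
  set Z : ℝ := 4 * (C * 2 ^ 8 * (K * (21 / 20)) ^ 3) with hZ
  set a : ℝ := 40 + 40 * (40 + 40 * (40 + 40 * 40)) with ha
  have hK0 : 0 ≤ K := by positivity
  have hZ0 : 0 ≤ Z := by positivity
  refine ⟨81 ^ 8 * a + 12 * Z, by positivity, fun d M _ p hd H hch => ⟨H, fun j e => ?_⟩⟩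
  obtain ⟨T, Q, h1, h2⟩ := hP d M p hd H hch j
  obtain ⟨h3, -⟩ := hS d M p H.d1 H.hM H.p0 H.phi.1
  have dpos := H.dpos
  have d1 : (1 : ℝ) ≤ d := by exact_mod_cast H.d1
  have hcl : Cl 40 (rwp (d := d) (M := M) p) := by
    refine ⟨fun x => sum_nonneg fun n _ => ((h3 n).2 x).1, ?_, fun x => ?_⟩
    · simp only [rwp]
      rw [sum_comm]
      refine (sum_le_card_nsmul _ _ 2 fun n hn => (h3 n).1.trans
        (lam_pow (mem_range.1 hn).le)).trans ?_
      norm_num
    · rw [rwp, sum_range_succ', add_comm]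
      refine add_le_add (le_of_eq rfl)
        ((sum_le_card_nsmul (range 19) _ (1 / (d : ℝ)) fun n hn => ?_).trans ?_)
      · refine (((h3 (n + 1)).2 x).2.1 (by omega)).trans ?_
        have := lam_pow (n := n + 1) (by have := mem_range.1 hn; omega)
        rw [div_le_div_iff₀ (by positivity) dpos]; nlinarith
      · rw [card_range, nsmul_eq_mul, mul_one_div]
        exact div_le_div_of_nonneg_right (by norm_num) dpos.le
  have hsup : ∀ x : Tor d M, rwp p x ≠ 0 → ab (x j) ≤ 20 := by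
    intro x hx
    obtain ⟨n, hn, h4⟩ := exists_ne_zero_of_sum_ne_zero hx
    exact (((h3 n).2 x).2.2 h4 j).trans (mem_range.1 hn).le
  set R : ℕ → Tor d M → ℝ := fun t x => rwp p x + ∑ s ∈ range t, Q s x with hR
  have hR0 : R 0 = rwp p := by funext x; simp [hR]
  have hRs : ∀ t, R (t + 1) = R t + Q t := fun t => by
    funext x; simp only [hR, sum_range_succ, Pi.add_apply, add_assoc]
  have hRn : ∀ t, t ≤ T → ∀ x, 0 ≤ R t x := fun t ht x =>
    add_nonneg (hcl.1 x) (sum_nonneg fun s hs => ((h2 s (by have := mem_range.1 hs; omega)).2 x).1)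
  have hw : ∀ t, t ≤ T → wn j (R t) ≤ K * d * (21 / 20) ^ t := by
    intro t
    induction t with
    | zero =>
      intro _
      have : wn j (rwp (d := d) (M := M) p) ≤ ∑ x : Tor d M, 21 ^ 8 * rwp p x := by
        refine sum_le_sum fun x _ => ?_
        by_cases hx : rwp p x = 0
        · simp [hx]
        · have : (ab (x j) : ℝ) ≤ 20 := by exact_mod_cast hsup x hx
          exact mul_le_mul_of_nonneg_right (pow_le_pow_left₀ (by positivity) (by linarith) 8)
            (hcl.1 x)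
      rw [← mul_sum] at this
      have h5 := hcl.2.1
      have h6 : A ≤ K * d := by nlinarith
      rw [hR0, pow_zero, mul_one]; linarith
    | succ t ih =>
      intro ht
      have h4 : wn j (R (t + 1)) = wn j (R t) + wn j (Q t) := by
        simp only [hRs, wn, Pi.add_apply, mul_add, sum_add_distrib]
      have h5 := (h2 t (by omega)).1
      have h6 := ih (by omega)
      have h7 : 0 ≤ A * ((d : ℝ) * (21 / 20) ^ t) := by positivity
      rw [h4, pow_succ]; nlinarith
  set s : ℝ := (1 + (ab (e j) : ℝ)) ^ 8 / d with hs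
  have hs0 : 0 ≤ s := by positivity
  have hD : ∀ t, t ≤ T → D j e (R t) (R t) (R t) (R t) ≤
      D j e (R 0) (R 0) (R 0) (R 0) + 12 * Z * s * (1 - (11 / 12) ^ t) := by
    intro t
    induction t with
    | zero => intro _; simp
    | succ t ih =>
      intro ht
      have h4 := step (j := j) (e := e) (hRn t (by omega)) fun x => ((h2 t (by omega)).2 x).1
      rw [← hRs] at h4
      have h5 := last_le (j := j) (e := e) (hRn _ ht) (hRn _ ht) (hRn _ ht) (h2 t (by omega)).2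
      have h6 := hw _ ht
      have h7 := wn_nonneg j (hRn _ ht)
      have h8 : wn j (R (t + 1)) * wn j (R (t + 1)) * wn j (R (t + 1)) ≤
          (K * d * (21 / 20) ^ (t + 1)) ^ 3 := by
        rw [← pow_three']; exact pow_le_pow_left₀ h7 h6 3
      have h9 : 4 * (C * (21 / 20) ^ t * (3 / 4) ^ t / (d : ℝ) ^ 4 *
          (2 * (1 + (ab (e j) : ℝ))) ^ 8 * (K * d * (21 / 20) ^ (t + 1)) ^ 3) =
          Z * s * ((21 / 20) ^ 4 * (3 / 4)) ^ t := by
        rw [hZ, hs, mul_pow ((21 / 20 : ℝ) ^ 4), ← pow_mul, mul_comm 4 t, pow_mul]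
        field_simp
        ring
      have h10 : (((21 / 20 : ℝ)) ^ 4 * (3 / 4)) ^ t ≤ (11 / 12) ^ t :=
        pow_le_pow_left₀ (by norm_num) (by norm_num) t
      have h11 := mul_le_mul_of_nonneg_left h10 (mul_nonneg hZ0 hs0)
      have h12 := mul_le_mul_of_nonneg_left h8 (show 0 ≤ C * (21 / 20) ^ t * (3 / 4) ^ t / (d : ℝ) ^ 4 *
          (2 * (1 + (ab (e j) : ℝ))) ^ 8 by positivity)
      have h13 := ih (by omega)
      rw [pow_succ (11 / 12 : ℝ)]
      nlinarith
  have hW : Wq p j e ≤ D j e (R T) (R T) (R T) (R T) := by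
    refine sum_le_sum fun x _ => sum_le_sum fun y _ => sum_le_sum fun z _ =>
      mul_le_mul_of_nonneg_left ?_ (by positivity)
    have n0 : ∀ x : Tor d M, 0 ≤ t0 p x := fun x => t0_nonneg H.p0 H.p1
    have n1 := hRn T le_rfl
    exact mul_le_mul (mul_le_mul (mul_le_mul (h1 x) (h1 y) (n0 _) (n1 _)) (h1 z) (n0 _)
      (mul_nonneg (n1 _) (n1 _))) (h1 _) (n0 _) (mul_nonneg (mul_nonneg (n1 _) (n1 _)) (n1 _))
  have hb := base (j := j) (e := e) hcl hsup
  rw [← ha, ← hR0] at hb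
  have h4 := hD T le_rfl
  have h5 : 0 ≤ 12 * Z * s * (11 / 12) ^ T := by positivity
  have h6 : a / d ≤ a * s := by
    rw [hs, ← mul_div_assoc]
    refine div_le_div_of_nonneg_right (le_mul_of_one_le_right (by positivity) ?_) dpos.le
    exact one_le_pow₀ (le_add_of_nonneg_right (Nat.cast_nonneg _))
  have h7 : (0 : ℝ) ≤ (if e = 0 then 1 else 0) := by split_ifs <;> norm_num
  have h8 : (1 : ℝ) ≤ a := by rw [ha]; norm_num
  generalize (if e = 0 then (1 : ℝ) else 0) = δ at *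
  have h9 : δ ≤ a * δ := le_mul_of_one_le_left h7 h8
  have h10 : 0 ≤ Z * δ := mul_nonneg hZ0 h7
  nlinarith

end Pool.Agent.HDE
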