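import Pool.Agent.Lib.HDE.Api2

/-! Simple random walk bounds on the torus. -/

open Finset

namespace Pool.Agent.HDE.SRW

open Pool.Agent.TPC

variable {d M : ℕ}

/-- number of nonzero coordinates -/
def kc (x : Tor d M) : ℕ := (univ.filter fun i => x i ≠ 0).card

lemma kc_le (x : Tor d M) (u : Dir d) : kc x ≤ kc (x - dv M u) + 1 := by
  refine le_trans (card_le_card ?_) (card_insert_le u.1 _)
  intro i hi
  rw [mem_insert, mem_filter]
  by_cases h : i = u.1
  · exact Or.inl h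
  · refine Or.inr ⟨mem_univ _, ?_⟩
    rw [Pi.sub_apply, dv_of_ne h, sub_zero]
    exact (mem_filter.1 hi).2

lemma kc_ge (hM : 2 ≤ M) {x : Tor d M} {u : Dir d} (h : x u.1 = 0) :
    kc x + 1 ≤ kc (x - dv M u) := by
  have h1 : u.1 ∉ univ.filter fun i => x i ≠ 0 := by simp [h]
  rw [kc, ← card_insert_of_notMem h1]
  refine card_le_card fun i hi => mem_filter.2 ⟨mem_univ _, ?_⟩
  by_cases h2 : i = u.1
  · rw [h2, Pi.sub_apply, h, dv_self, zero_sub, neg_ne_zero]
    exact sg_ne_zero hM _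
  · rw [Pi.sub_apply, dv_of_ne h2, sub_zero]
    exact (mem_filter.1 ((mem_insert.1 hi).resolve_left h2)).2

lemma sum_dir (x : Tor d M) {t : ℝ} (ht : 0 ≤ t) :
    ∑ u : Dir d, (if x u.1 ≠ 0 then 1 else t) ≤ 2 * kc x + 2 * d * t := by
  have h1 : ∀ i : Fin d, (if x i ≠ 0 then 1 else t) ≤ (if x i ≠ 0 then 1 else 0) + t := by
    intro i
    split_ifs <;> linarith
  rw [Fintype.sum_prod_type]
  simp only [Fintype.sum_bool]
  rw [sum_add_distrib]
  have h2 := sum_le_sum (s := univ) fun i _ => h1 i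
  rw [sum_add_distrib, sum_boole, sum_const, card_univ, Fintype.card_fin, nsmul_eq_mul] at h2
  rw [kc]
  linarith

variable [NeZero M] {p : ℝ}

lemma step (p : ℝ) (n : ℕ) (x : Tor d M) :
    cpr (fun _ => jk p) (n + 1) x = p * ∑ u : Dir d, cpr (fun _ => jk p) n (x - dv M u) := by
  rw [cpr_succ, cv_comm, cv, sum_jk_mul]

omit [NeZero M] in
lemma jk_le (hM : 3 ≤ M) (h0 : 0 ≤ p) (z : Tor d M) : jk p z ≤ p := by
  by_cases h : ∃ u : Dir d, dv M u = z
  · obtain ⟨u, rfl⟩ := h
    rw [jk, sum_eq_single u, if_pos rfl]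
    · exact fun v _ hv => if_neg fun h2 => hv (dv_inj hM h2)
    · simp
  · rw [jk, sum_eq_zero fun u _ => if_neg fun h2 => h ⟨u, h2⟩]
    exact h0

lemma supp (p : ℝ) (n : ℕ) (x : Tor d M) (h : cpr (fun _ => jk p) n x ≠ 0) :
    kc x ≤ n ∧ ∀ j, ab (x j) ≤ n := by
  induction n generalizing x with
  | zero =>
    have : x = 0 := by
      by_contra h2
      exact h (by rw [cpr_zero]; exact if_neg h2)
    subst this
    simp [kc]
  | succ n ih =>
    rw [step] at h
    obtain ⟨u, -, hu⟩ := exists_ne_zero_of_sum_ne_zero (right_ne_zero_of_mul h)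
    obtain ⟨h1, h2⟩ := ih _ hu
    refine ⟨(kc_le x u).trans (by omega), fun j => ?_⟩
    have h3 := ab_add_le ((x - dv M u) j) (dv M u j)
    have h4 := (ab_le_rad (dv M u) j).trans (rad_dv_le u)
    rw [Pi.sub_apply, sub_add_cancel] at h3
    have h5 := h2 j
    rw [Pi.sub_apply] at h5
    omega

lemma main (hM : 3 ≤ M) (h0 : 0 ≤ p) {s : ℝ} (s0 : 0 ≤ s) (s1 : s ≤ 1) (hs : d * s ^ 2 = 1)
    (hp : p ≤ lam / 2 * s ^ 2) (n : ℕ) (x : Tor d M) :
    cpr (fun _ => jk p) n x ≤ lam ^ n * (n + 1).factorial * s ^ (n + kc x) := by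
  have l0 := lam_pos
  induction n generalizing x with
  | zero =>
    rw [cpr_zero]
    dsimp only
    split_ifs with h
    · subst h; simp [kc]
    · positivity
  | succ n ih =>
    by_cases hx : cpr (fun _ => jk p) (n + 1) x = 0
    · rw [hx]; positivity
    have hk : (kc x : ℝ) ≤ n + 1 := by exact_mod_cast (supp p _ x hx).1
    set C := lam ^ n * ((n + 1).factorial : ℝ) with hC
    have C0 : 0 ≤ C := by positivity
    have h1 : ∀ u : Dir d, p * cpr (fun _ => jk p) n (x - dv M u) ≤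
        lam / 2 * C * s ^ (n + 1 + kc x) * if x u.1 ≠ 0 then 1 else s ^ 2 := by
      intro u
      have h2 : p * cpr (fun _ => jk p) n (x - dv M u) ≤
          lam / 2 * C * s ^ (n + kc (x - dv M u) + 2) := by
        calc _ ≤ lam / 2 * s ^ 2 * (C * s ^ (n + kc (x - dv M u))) :=
              mul_le_mul hp (ih _) (cpr_nonneg (fun _ _ => jk_nonneg h0) _) (by positivity)
          _ = _ := by ring
      refine h2.trans ?_
      rw [mul_assoc (lam / 2 * C)]
      refine mul_le_mul_of_nonneg_left ?_ (by positivity)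
      split_ifs with h
      · rw [mul_one]
        exact pow_le_pow_of_le_one s0 s1 (by have := kc_le x u; omega)
      · rw [← pow_add]
        exact pow_le_pow_of_le_one s0 s1 (by
          have := kc_ge (by omega) (not_not.1 h); omega)
    rw [step, mul_sum]
    refine (sum_le_sum fun u _ => h1 u).trans ?_
    rw [← mul_sum]
    have h3 : ∑ u : Dir d, (if x u.1 ≠ 0 then 1 else s ^ 2) ≤ 2 * (n + 2) := by
      have := sum_dir x (sq_nonneg s)
      linarith
    calc _ ≤ lam / 2 * C * s ^ (n + 1 + kc x) * (2 * (n + 2)) := by gcongr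
      _ = _ := by
        rw [hC, Nat.factorial_succ (n + 1)]
        push_cast
        ring

end Pool.Agent.HDE.SRW

namespace Pool.Agent.HDE

open SRW

theorem t_srw : T_SRW := by
  have l0 := lam_pos
  refine ⟨lam ^ 20 * (20 + 1).factorial, by positivity, fun d M _ p hd hM h0 hp =>
    ⟨fun n => ?_, fun x => ?_⟩⟩
  · have hs : ∀ n : ℕ, ∑ x : TPC.Tor d M, cpr (fun _ => jk p) n x ≤ lam ^ n := fun n =>
      sum_cpr_le (fun _ _ => jk_nonneg h0) fun _ _ => by rw [sum_jk]; exact hp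
    refine ⟨hs n, fun x => ⟨cpr_nonneg (fun _ _ => jk_nonneg h0) x, fun hn => ?_,
      fun h => (supp p n x h).2⟩⟩
    obtain ⟨m, rfl⟩ : ∃ m, n = m + 1 := ⟨n - 1, by omega⟩
    have d0 : (0 : ℝ) < d := by exact_mod_cast hd
    rw [cpr_succ]
    refine (cv_le (cpr_nonneg fun _ _ => jk_nonneg h0) (jk_le hM h0) x).trans ?_
    rw [pow_succ, mul_div_assoc]
    refine mul_le_mul (hs m) ?_ h0 (by positivity)
    rw [le_div_iff₀ (by positivity)]
    linarith
  · have d1 : (1 : ℝ) ≤ d := by exact_mod_cast hd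
    have hs : √((d : ℝ)⁻¹) ^ 2 = (d : ℝ)⁻¹ := Real.sq_sqrt (by positivity)
    have s1 : √((d : ℝ)⁻¹) ≤ 1 := Real.sqrt_le_one.2 (inv_le_one_of_one_le₀ d1)
    have h := main hM h0 (Real.sqrt_nonneg _) s1 (by rw [hs]; field_simp)
      (by rw [hs, ← div_eq_mul_inv, le_div_iff₀ (by positivity)]; linarith) 20 x
    refine h.trans ?_
    have e : ((d : ℝ) ^ 10)⁻¹ = √((d : ℝ)⁻¹) ^ (2 * 10) := by rw [pow_mul, hs, inv_pow]
    rw [div_eq_mul_inv, e]
    exact mul_le_mul_of_nonneg_left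
      (pow_le_pow_of_le_one (Real.sqrt_nonneg _) s1 (by omega)) (by positivity)

end Pool.Agent.HDE
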