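import Pool.Agent.Lib.HDE.BlueC
import Pool.Agent.Lib.HDE.Api2

/-! Sums of the two-point function over discs and balls. -/

open Finset

namespace Pool.Agent.HDE

open Pool.Agent.TPC
open Pool.Agent.HD (rad tauT chiT)

namespace SUPSB

lemma disc (hC : St_CARD) {e M : ℕ} [NeZero M] {p A : ℝ} (p0 : 0 ≤ p) (p1 : p ≤ 1)
    (hA : FullB (e + 2) M p A) (v : Tor (e + 2) M) (i : Fin (e + 2)) (c : ZMod M) (k : ℕ) :
    ∑ y ∈ hp i c ∩ bl v k, t0 p (v - y) ≤ (8 * 4 ^ e * |A| + 1) * ((k : ℝ) + 1) := by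
  have hcard : ∀ k : ℕ, ((hp i c ∩ bl v k).card : ℝ) ≤ (2 * k + 1) ^ (e + 1) := fun k => by
    exact_mod_cast (hC (e + 2) M i v k).1 c
  have hA0 : 0 ≤ 4 ^ e * |A| := by positivity
  induction k using Nat.strong_induction_on with
  | _ k ih =>
    rcases Nat.eq_zero_or_pos k with rfl | hk
    · have h1 := Finset.sum_le_card_nsmul (hp i c ∩ bl v 0) (fun y => t0 p (v - y)) 1
        fun _ _ => t0_le_one p0 p1
      have h2 := hcard 0
      simp only [nsmul_eq_mul, mul_one, Nat.cast_zero, mul_zero, zero_add, one_pow] at h1 h2 ⊢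
      linarith
    · have hs : hp i c ∩ bl v (k / 2) ⊆ hp i c ∩ bl v k := fun y hy =>
        mem_inter.2 ⟨(mem_inter.1 hy).1,
          mem_bl.2 ((mem_bl.1 (mem_inter.1 hy).2).trans (Nat.div_le_self _ _))⟩
      have h1 := ih (k / 2) (by omega)
      set j : ℝ := ((k / 2 : ℕ) : ℝ) + 1 with hj
      have j0 : 0 < j := by positivity
      have j1 : 2 * (k : ℝ) + 1 ≤ 4 * j := by
        have : 2 * k + 1 ≤ 4 * (k / 2 + 1) := by omega
        rw [hj]; exact_mod_cast this
      have j2 : 4 * j ≤ 3 * ((k : ℝ) + 1) := by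
        have : 4 * (k / 2 + 1) ≤ 3 * (k + 1) := by omega
        rw [hj]; exact_mod_cast this
      have h2 := Finset.sum_le_card_nsmul ((hp i c ∩ bl v k) \ (hp i c ∩ bl v (k / 2)))
        (fun y => t0 p (v - y)) (|A| / j ^ e) fun y hy => by
          obtain ⟨a, b⟩ := mem_sdiff.1 hy
          have h3 : k / 2 + 1 ≤ rad (v - y) := by
            by_contra h
            exact b (mem_inter.2 ⟨(mem_inter.1 a).1, mem_bl.2 (by rw [rad_sub_comm]; omega)⟩)
          have h4 : j ≤ rad (v - y) := by rw [hj]; exact_mod_cast h3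
          have h5 : t0 p (v - y) * (rad (v - y) : ℝ) ^ e ≤ A := hA (v - y)
          rw [le_div_iff₀ (by positivity)]
          refine le_trans ?_ (h5.trans (le_abs_self A))
          exact mul_le_mul_of_nonneg_left (by gcongr) (t0_nonneg p0 p1)
      have h3 : (((hp i c ∩ bl v k) \ (hp i c ∩ bl v (k / 2))).card : ℝ) ≤
          (4 * j) ^ e * (2 * k + 1) := by
        refine (Nat.cast_le.2 (card_le_card sdiff_subset)).trans ((hcard k).trans ?_)
        rw [pow_succ]
        gcongr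
      have h4 : (4 * j) ^ e * (2 * k + 1) * (|A| / j ^ e) = 4 ^ e * |A| * (2 * k + 1) := by
        rw [mul_pow]; field_simp
      rw [nsmul_eq_mul] at h2
      have h5 := h2.trans ((mul_le_mul_of_nonneg_right h3 (by positivity)).trans_eq h4)
      rw [← Finset.sum_sdiff hs]
      have h6 : (0 : ℝ) ≤ k := Nat.cast_nonneg k
      nlinarith [mul_le_mul_of_nonneg_left j2 hA0]

end SUPSB

theorem t_sups : T_SUPS := by
  intro hC d A hd
  obtain ⟨e, rfl⟩ : ∃ e, d = e + 2 := ⟨d - 2, by omega⟩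
  refine ⟨2 * (8 * 4 ^ e * |A| + 1), by positivity, fun M _ p p0 p1 hA v k => ⟨fun i c => ?_, ?_⟩⟩
  · refine (SUPSB.disc hC p0 p1 hA v i c k).trans ?_
    have : 0 ≤ (8 * 4 ^ e * |A| + 1) * ((k : ℝ) + 1) := by positivity
    linarith
  · let i : Fin (e + 2) := 0
    rw [← Finset.sum_fiberwise_of_maps_to (g := fun y => y i)
      (t := univ.filter fun c : ZMod M => ab (c - v i) ≤ k)
      fun y hy => mem_filter.2 ⟨mem_univ _, (ab_le_rad (y - v) i).trans (mem_bl.1 hy)⟩]
    refine (Finset.sum_le_card_nsmul _ _ ((8 * 4 ^ e * |A| + 1) * ((k : ℝ) + 1))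
      fun c _ => ?_).trans ?_
    · refine le_trans (le_of_eq ?_) (SUPSB.disc hC p0 p1 hA v i c k)
      refine Finset.sum_congr ?_ fun _ _ => rfl
      ext y
      simp [mem_hp, and_comm]
    · have h : ((univ.filter fun c : ZMod M => ab (c - v i) ≤ k).card : ℝ) ≤ 2 * (k + 1) := by
        have := (hC (e + 2) M i v k).2.2
        exact_mod_cast this.trans (by omega)
      rw [nsmul_eq_mul]
      refine (mul_le_mul_of_nonneg_right h (by positivity)).trans_eq ?_
      ring

end Pool.Agent.HDE
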