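import Pool.Agent.Lib.HDE.Api2

/-! Block TAIL: tangential tails inside a slab. -/

open Finset

namespace Pool.Agent.HDE

open Pool.Agent.TPC

theorem t_tail : T_TAIL := by
  intro hF d M _ p H u c n U j g hn hU hj hg
  have h0 := H.p0
  have h1 := H.p1
  have step : ∀ (r : ℕ) (B : ℝ),
      (∀ o ∈ U, ∑ y ∈ univ.filter (fun y => r ≤ ab (y j - o j)), tt p U o y * g y ≤ B) →
      ∀ o ∈ U, ∑ y ∈ univ.filter (fun y => r + n + 1 ≤ ab (y j - o j)), tt p U o y * g y ≤
        lam / 2 * B := by
    intro r B hB o ho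
    have B0 : 0 ≤ B :=
      (sum_nonneg fun y _ => mul_nonneg (tt_nonneg h0 h1) (hg y)).trans (hB o ho)
    set S := U ∩ cs o j n with hS
    have hoS : o ∈ S := mem_inter.2 ⟨ho, self_mem_cs o j n⟩
    have hex : ∀ b ∈ ex U S, b.2.1 = j ∧ ab (hd b j - o j) = n + 1 := fun b hb => by
      obtain ⟨a1, a2, a3⟩ := mem_ex.1 hb
      exact exit_cs (mem_inter.1 a1).2 fun h => a3 (mem_inter.2 ⟨a2, h⟩)
    have hSQ : S ⊆ cs o u.1 n ∩ cs o j n :=
      inter_subset_inter (hU.trans (sl_subset_cs (hU ho))) subset_rfl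
    have hx : xm p S (ex U S) o ≤ lam / 2 := by
      refine le_trans (xm_mono h0 h1 hSQ fun b hb => ?_)
        ((hF d M p H).2.2.1 u.1 j n o hj.symm hn)
      refine mem_filter.2 ⟨mem_ex.2 ⟨hSQ (mem_ex.1 hb).1, mem_univ _, fun h => ?_⟩, (hex b hb).1⟩
      have := mem_cs.1 (mem_inter.1 h).2
      have := (hex b hb).2
      omega
    calc ∑ y ∈ univ.filter (fun y => r + n + 1 ≤ ab (y j - o j)), tt p U o y * g y
        ≤ ∑ y ∈ univ.filter (fun y => r + n + 1 ≤ ab (y j - o j)),
            ∑ b ∈ ex U S, tt p S o b.1 * p * (tt p U (hd b) y * g y) := by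
          refine sum_le_sum fun y hy => ?_
          have a1 := slp H.hM h0 h1 U hoS y
          have a2 : tt p S o y = 0 := tt_of_right fun h => by
            have := mem_cs.1 (mem_inter.1 h).2
            have := (mem_filter.1 hy).2
            omega
          rw [a2, zero_add] at a1
          refine (mul_le_mul_of_nonneg_right a1 (hg y)).trans (le_of_eq ?_)
          rw [sum_mul]
          exact sum_congr rfl fun b _ => by ring
      _ = ∑ b ∈ ex U S, tt p S o b.1 * p *
            ∑ y ∈ univ.filter (fun y => r + n + 1 ≤ ab (y j - o j)), tt p U (hd b) y * g y := by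
          rw [sum_comm]
          simp only [mul_sum]
      _ ≤ ∑ b ∈ ex U S, tt p S o b.1 * p * B := by
          refine sum_le_sum fun b hb => mul_le_mul_of_nonneg_left ?_
            (mul_nonneg (tt_nonneg h0 h1) h0)
          refine le_trans (sum_le_sum_of_subset_of_nonneg (fun y hy => ?_)
            fun y _ _ => mul_nonneg (tt_nonneg h0 h1) (hg y)) (hB (hd b) (mem_ex.1 hb).2.1)
          have a1 := (mem_filter.1 hy).2
          have a2 := (hex b hb).2
          have a3 := ab_tri (y j) (hd b j) (o j)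
          exact mem_filter.2 ⟨mem_univ _, by omega⟩
      _ = xm p S (ex U S) o * B := by
          rw [xm, mul_sum, sum_mul]
          exact sum_congr rfl fun b _ => by ring
      _ ≤ lam / 2 * B := mul_le_mul_of_nonneg_right hx B0
  refine ⟨step, fun B hB m => ?_⟩
  induction m with
  | zero => intro o ho; simpa using hB o ho
  | succ m ih =>
    intro o ho
    have := step _ _ ih o ho
    rw [pow_succ', mul_assoc, Nat.succ_mul, ← add_assoc]
    exact this

end Pool.Agent.HDE
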