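import Pool.Agent.Lib.HDE.BlueC
import Pool.Agent.Lib.HDE.Api2

open Finset

namespace Pool.Agent.HDE

open Pool.Agent.TPC
open Pool.Agent.HD (rad tauT chiT)

namespace UPB

lemma half_mono {d M : ℕ} [NeZero M] {p A A' : ℝ} (h : HalfB d M p A) (hA : A ≤ A') :
    HalfB d M p A' := fun u c n o y h1 h2 => (h u c n o y h1 h2).trans hA

lemma half_base {d M : ℕ} [NeZero M] {p : ℝ} (h0 : 0 ≤ p) (h1 : p ≤ 1) :
    HalfB d M p ((M : ℝ) ^ (d - 1)) := by
  intro u c n o y _ _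
  have h2 : (rad (o - y) : ℝ) ≤ M := by
    have := two_rad_le (o - y)
    exact_mod_cast (by omega : rad (o - y) ≤ M)
  calc tt p (sl u c n) o y * (rad (o - y) : ℝ) ^ (d - 1) ≤ 1 * (M : ℝ) ^ (d - 1) := by
        gcongr
        exact tt_le_one h0 h1
    _ = _ := one_mul _

end UPB

theorem t_up : T_UP := by
  intro hF hH d C₀ hd
  obtain ⟨CF, hCF, hF⟩ := hF d hd
  obtain ⟨C, hC, hH⟩ := hH d C₀ hd
  have hA : 2 * C + 1 ≤ CF * (2 * C + 1) := le_mul_of_one_le_left (by linarith) hCF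
  refine ⟨CF * (2 * C + 1), by linarith, fun M _ p hG hch => ?_⟩
  have hp0 := hG.toHyp.p0
  have hM0 : (0 : ℝ) ≤ (M : ℝ) ^ (d - 1) := by positivity
  have hind : ∀ k : ℕ, HalfB d M p (2 * C + (M : ℝ) ^ (d - 1) * (1 / 2) ^ k) := by
    intro k
    induction k with
    | zero => exact UPB.half_mono (UPB.half_base hp0 hG.p1) (by simp; linarith)
    | succ k ih =>
      have h1 : (0 : ℝ) ≤ (M : ℝ) ^ (d - 1) * (1 / 2) ^ k := by positivity
      refine UPB.half_mono (hH M p _ hG hch (by linarith) ih) (le_of_eq ?_)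
      ring
  obtain ⟨k, hk⟩ := exists_pow_lt_of_lt_one (x := 1 / ((M : ℝ) ^ (d - 1) + 1)) (y := (1 / 2 : ℝ))
    (by positivity) (by norm_num)
  have hk' : (M : ℝ) ^ (d - 1) * (1 / 2) ^ k ≤ 1 := by
    rw [lt_div_iff₀ (by positivity)] at hk
    have : (0 : ℝ) ≤ (1 / 2) ^ k := by positivity
    nlinarith
  have hh : HalfB d M p (2 * C + 1) := UPB.half_mono (hind k) (by linarith)
  exact ⟨hG, hch, UPB.half_mono hh hA, hF M p _ hG.toHyp hch (by linarith) hh⟩

end Pool.Agent.HDE
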