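import Pool.Agent.Lib.HDE.Bridge1
import Pool.Agent.Lib.TPC.B_PL12
import Pool.Agent.Lib.HDE.B_SLM
import Pool.Agent.Lib.HDE.B_SLK
import Pool.Agent.Lib.HDE.B_BRG
import Pool.Agent.Lib.HDE.B_FACE
import Pool.Agent.Lib.HDE.B_LAYER
import Pool.Agent.Lib.HDE.B_TAIL
import Pool.Agent.Lib.HDE.B_KER
import Pool.Agent.Lib.HDE.B_SRW
import Pool.Agent.Lib.HDE.B_SPREAD
import Pool.Agent.Lib.HDE.B_PIECES
import Pool.Agent.Lib.HDE.B_SQUARE
import Pool.Agent.Lib.HDE.B_ERR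
import Pool.Agent.Lib.HDE.B_CLOSE
import Pool.Agent.Lib.HDE.B_GOOD
import Pool.Agent.Lib.HDE.B_CARD
import Pool.Agent.Lib.HDE.B_L2
import Pool.Agent.Lib.HDE.B_EK
import Pool.Agent.Lib.HDE.B_CUT
import Pool.Agent.Lib.HDE.B_SUPS
import Pool.Agent.Lib.HDE.B_RU1
import Pool.Agent.Lib.HDE.B_RUIN
import Pool.Agent.Lib.HDE.B_MIR
import Pool.Agent.Lib.HDE.B_PAR
import Pool.Agent.Lib.HDE.B_NEST
import Pool.Agent.Lib.HDE.B_FU1
import Pool.Agent.Lib.HDE.B_FULL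
import Pool.Agent.Lib.HDE.B_HALF
import Pool.Agent.Lib.HDE.B_UP
import Pool.Agent.Lib.HDE.B_D0
import Pool.Agent.Lib.HDE.B_D1
import Pool.Agent.Lib.HDE.B_D2
import Pool.Agent.Lib.HDE.B_G0
import Pool.Agent.Lib.HDE.B_GLOW
import Pool.Agent.Lib.HDE.B_PLAT
import Pool.Agent.Lib.HDE.B_DSC
import Pool.Agent.Lib.HDE.B_FSUP
import Pool.Agent.Lib.HDE.B_D4A
import Pool.Agent.Lib.HDE.B_D4B
import Pool.Agent.Lib.HDE.B_LOW
import Pool.Agent.Lib.HDE.B_END

/-! The two-point bounds at criticality hold in all large dimensions. -/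

namespace Pool.Agent.HDE

open Pool.Agent.TPC

theorem st_end : St_END :=
  have p1 : St_PL1 := st_PL1 (st_BK st_BK2)
  have p2 : St_PL2 := st_PL2 (st_BK st_BK2)
  end_of (t_slm p1 p2) (t_slk p1 p2) t_brg t_face (t_layer t_face) (t_tail t_face)
    (t_err (t_layer t_face))
    (good_of p1 p2 t_slm t_brg t_face t_layer t_tail t_ker t_srw t_spread t_pieces t_square t_err
      t_close t_good)
    t_card t_l2 t_ek t_cut t_sups t_ru1 t_ruin t_mir t_par t_nest t_fu1 t_full t_half t_up t_d0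
    t_d1 t_d2 t_g0 t_glow t_plat t_dsc t_fsup t_d4a t_d4b t_low t_end

/-- the hypothesis `HighDim d` holds for all large `d` -/
theorem highDim_large : ∃ d₀ : ℕ, ∀ d, d₀ ≤ d → Pool.Agent.TPC.HighDim d := by
  obtain ⟨d₀, h⟩ := st_end
  exact ⟨max d₀ 3, fun d hd =>
    highDim_of_torus1 ((le_max_right _ _).trans hd) (h d ((le_max_left _ _).trans hd))⟩

end Pool.Agent.HDE
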