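import Pool.Agent.Lib.HDE.BlueB
import Pool.Agent.Lib.TPC.B_PL4
import Pool.Agent.Lib.TPC.B_BK

/-! Basic facts on the geometry of the torus. -/

open Finset

namespace Pool.Agent.HDE

open Pool.Agent.TPC
open Pool.Agent.HD (rad)
open Pool.Agent.Lib.MP_81a99a_pr (torus)

variable {d M : ℕ}

/-! ### signs and distances on the cycle -/

lemma sg_mul_self (b : Bool) : sg M b * sg M b = 1 := by cases b <;> simp [sg]
lemma sg_not (b : Bool) : sg M (!b) = -sg M b := by cases b <;> simp [sg]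
@[simp] lemma opp_fst (u : Dir d) : (opp u).1 = u.1 := rfl
@[simp] lemma opp_snd (u : Dir d) : (opp u).2 = !u.2 := rfl
@[simp] lemma opp_opp (u : Dir d) : opp (opp u) = u := by simp [opp]
lemma opp_ne (u : Dir d) : opp u ≠ u := fun h => by simpa [opp] using congrArg Prod.snd h
lemma eq_or_opp {u v : Dir d} (h : v.1 = u.1) : v = u ∨ v = opp u := by
  obtain ⟨i, a⟩ := u; obtain ⟨j, b⟩ := v
  simp only at h; subst h
  cases a <;> cases b <;> simp [opp]

@[simp] lemma ab_zero : ab (0 : ZMod M) = 0 := by simp [ab]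
lemma ab_eq_zero {a : ZMod M} : ab a = 0 ↔ a = 0 := by simp [ab]
lemma ab_neg (a : ZMod M) : ab (-a) = ab a := ZMod.natAbs_valMinAbs_neg a
lemma ab_sub_comm (a b : ZMod M) : ab (a - b) = ab (b - a) := by rw [← ab_neg, neg_sub]
lemma ab_add_le (a b : ZMod M) : ab (a + b) ≤ ab a + ab b :=
  (ZMod.natAbs_valMinAbs_add_le a b).trans (Int.natAbs_add_le _ _)
lemma ab_sub_le (a b : ZMod M) : ab (a - b) ≤ ab a + ab b := by
  rw [sub_eq_add_neg, ← ab_neg b]; exact ab_add_le _ _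
lemma ab_tri (a b c : ZMod M) : ab (a - c) ≤ ab (a - b) + ab (b - c) := by
  have := ab_add_le (a - b) (b - c); rwa [sub_add_sub_cancel] at this
lemma ab_sg_mul (b : Bool) (a : ZMod M) : ab (sg M b * a) = ab a := by
  cases b <;> simp [sg, ab_neg]
lemma exists_int_ab (a : ZMod M) : ∃ k : ℤ, k.natAbs = ab a ∧ (k : ZMod M) = a :=
  ⟨a.valMinAbs, rfl, ZMod.coe_valMinAbs a⟩

section
variable [NeZero M]

lemma ab_eq_min (a : ZMod M) : ab a = min a.val (M - a.val) := ZMod.valMinAbs_natAbs_eq_min a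
lemma ab_le_val (a : ZMod M) : ab a ≤ a.val := by rw [ab_eq_min]; exact min_le_left _ _
lemma two_ab_le (a : ZMod M) : 2 * ab a ≤ M := by rw [ab_eq_min]; omega
lemma ab_eq_val {a : ZMod M} (h : 2 * a.val ≤ M) : ab a = a.val := by rw [ab_eq_min]; omega
lemma ab_natCast_le (n : ℕ) : ab (n : ZMod M) ≤ n :=
  (ab_le_val _).trans (by rw [ZMod.val_natCast]; exact Nat.mod_le _ _)
lemma ab_natCast {n : ℕ} (h : 2 * n ≤ M) : ab (n : ZMod M) = n := by
  have hM := NeZero.pos M
  have : (n : ZMod M).val = n := ZMod.val_cast_of_lt (by omega)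
  rw [ab_eq_val (by omega), this]
lemma ab_intCast_le (k : ℤ) : ab (k : ZMod M) ≤ k.natAbs := by
  rcases Int.natAbs_eq k with h | h
  · conv_lhs => rw [h]
    rw [Int.cast_natCast]; exact ab_natCast_le _
  · conv_lhs => rw [h]
    rw [Int.cast_neg, Int.cast_natCast, ab_neg]; exact ab_natCast_le _
lemma ab_sg_le (b : Bool) : ab (sg M b) ≤ 1 := by
  have := ab_sg_mul b (1 : ZMod M)
  rw [mul_one] at this
  rw [this]; simpa using ab_natCast_le (M := M) 1
/-- an element is `± ab a` -/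
lemma eq_sg_ab (a : ZMod M) : ∃ b : Bool, a = sg M b * (ab a : ZMod M) := by
  obtain ⟨k, h1, h2⟩ := exists_int_ab a
  rcases Int.natAbs_eq k with h | h
  · exact ⟨true, by rw [← h1, sg, if_pos rfl, one_mul, ← h2]; conv_lhs => rw [h, Int.cast_natCast]⟩
  · refine ⟨false, ?_⟩
    rw [← h1, ← h2]
    conv_lhs => rw [h, Int.cast_neg, Int.cast_natCast]
    simp [sg]
end

lemma ab_le_rad (x : Tor d M) (i : Fin d) : ab (x i) ≤ rad x :=
  Finset.le_sup (f := fun i => (x i).valMinAbs.natAbs) (mem_univ i)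
lemma rad_le_iff {x : Tor d M} {r : ℕ} : rad x ≤ r ↔ ∀ i, ab (x i) ≤ r := by
  simp [rad, ab, Finset.sup_le_iff]
lemma rad_neg (x : Tor d M) : rad (-x) = rad x := by
  have : ∀ y : Tor d M, rad (-y) ≤ rad y := fun y =>
    rad_le_iff.2 fun i => by rw [Pi.neg_apply, ab_neg]; exact ab_le_rad y i
  exact le_antisymm (this x) (by simpa using this (-x))
lemma rad_sub_comm (x y : Tor d M) : rad (x - y) = rad (y - x) := by rw [← rad_neg, neg_sub]
lemma rad_add_le (x y : Tor d M) : rad (x + y) ≤ rad x + rad y :=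
  rad_le_iff.2 fun i => (ab_add_le _ _).trans (add_le_add (ab_le_rad x i) (ab_le_rad y i))
lemma rad_tri (x y z : Tor d M) : rad (x - z) ≤ rad (x - y) + rad (y - z) := by
  have := rad_add_le (x - y) (y - z); rwa [sub_add_sub_cancel] at this
lemma rad_eq_zero {x : Tor d M} : rad x = 0 ↔ x = 0 := by
  rw [← Nat.le_zero, rad_le_iff]
  simp only [Nat.le_zero, ab_eq_zero]
  exact ⟨fun h => funext h, fun h i => by rw [h]; rfl⟩
lemma exists_ab_eq_rad (hd : 1 ≤ d) (x : Tor d M) : ∃ i, ab (x i) = rad x := by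
  obtain ⟨i, -, hi⟩ := Finset.exists_mem_eq_sup (univ : Finset (Fin d)) ⟨⟨0, hd⟩, mem_univ _⟩
    fun i => (x i).valMinAbs.natAbs
  exact ⟨i, hi.symm⟩
lemma two_rad_le [NeZero M] (x : Tor d M) : 2 * rad x ≤ M := by
  have : rad x ≤ M / 2 := rad_le_iff.2 fun i => by have := two_ab_le (x i); omega
  omega

/-! ### unit vectors and adjacency -/

lemma dv_self (u : Dir d) : dv M u u.1 = sg M u.2 := by simp [dv]
lemma dv_of_ne {u : Dir d} {i : Fin d} (h : i ≠ u.1) : dv M u i = 0 := by simp [dv, h]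
lemma dv_opp (u : Dir d) : dv M (opp u) = -dv M u := by
  simp only [dv, opp_fst, opp_snd, sg_not, Pi.single_neg]
lemma rad_dv_le [NeZero M] (u : Dir d) : rad (dv M u) ≤ 1 := rad_le_iff.2 fun i => by
  by_cases h : i = u.1
  · rw [h, dv_self]; exact ab_sg_le _
  · rw [dv_of_ne h]; simp
lemma sg_ne_zero (hM : 2 ≤ M) (b : Bool) : sg M b ≠ 0 := by
  have : Fact (1 < M) := ⟨hM⟩
  cases b <;> simp [sg]
lemma dv_ne_zero (hM : 2 ≤ M) (u : Dir d) : dv M u ≠ 0 := fun h =>
  sg_ne_zero hM u.2 (by rw [← dv_self, h]; rfl)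
lemma dv_inj (hM : 3 ≤ M) : Function.Injective (dv M : Dir d → Tor d M) := by
  intro u v h
  have h1 : v.1 = u.1 := by
    by_contra hne
    have := congrFun h u.1
    rw [dv_self, dv_of_ne (Ne.symm hne)] at this
    exact sg_ne_zero (by omega) _ this
  rcases eq_or_opp h1 with h2 | h2
  · exact h2.symm
  · exfalso
    have h3 := congrFun h u.1
    rw [h2, dv_opp, Pi.neg_apply, dv_self] at h3
    have h4 : ((2 : ℕ) : ZMod M) = 0 := by
      have h5 := sg_mul_self (M := M) u.2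
      push_cast
      linear_combination (sg M u.2) * h3 - 2 * h5
    rw [ZMod.natCast_eq_zero_iff] at h4
    have := Nat.le_of_dvd (by norm_num) h4
    omega
lemma adj_iff (hM : 2 ≤ M) {x y : Tor d M} : (torus d M).Adj x y ↔ ∃ u, y = x + dv M u := by
  rw [torus, SimpleGraph.fromRel_adj]
  constructor
  · rintro ⟨-, ⟨i, h⟩ | ⟨i, h⟩⟩
    · exact ⟨(i, true), by simpa [dv, sg] using h⟩
    · refine ⟨(i, false), ?_⟩
      rw [h]; simp [dv, sg, Pi.single_neg]
  · rintro ⟨⟨i, b⟩, rfl⟩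
    refine ⟨fun h => dv_ne_zero hM (i, b) (by simpa using h), ?_⟩
    cases b
    · exact Or.inr ⟨i, by simp [dv, sg, Pi.single_neg]⟩
    · exact Or.inl ⟨i, by simp [dv, sg]⟩
lemma adj_dv (hM : 2 ≤ M) (x : Tor d M) (u : Dir d) : (torus d M).Adj x (x + dv M u) :=
  (adj_iff hM).2 ⟨u, rfl⟩
lemma sum_adj (hM : 3 ≤ M) (a : Tor d M) (T : Finset (Tor d M)) (f : Tor d M → ℝ) :
    ∑ b ∈ T, ind ((torus d M).Adj a b) * f b =
      ∑ u : Dir d, if a + dv M u ∈ T then f (a + dv M u) else 0 := by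
  have : ∀ b, ind ((torus d M).Adj a b) * f b = ∑ u : Dir d, if a + dv M u = b then f b else 0 := by
    intro b
    by_cases h : (torus d M).Adj a b
    · obtain ⟨u, rfl⟩ := (adj_iff (by omega)).1 h
      rw [ind_pos h, one_mul, Finset.sum_eq_single u, if_pos rfl]
      · intro v _ hv
        exact if_neg fun h2 => hv (dv_inj hM (add_left_cancel h2))
      · simp
    · rw [ind_neg h, zero_mul, Finset.sum_eq_zero]
      intro u _
      exact if_neg fun (h2 : a + dv M u = b) => h (h2 ▸ adj_dv (by omega) a u)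
  simp only [this]
  rw [Finset.sum_comm]
  exact Finset.sum_congr rfl fun u _ => Finset.sum_ite_eq T (a + dv M u) f

/-! ### depth -/

lemma dp_add_of_ne {u v : Dir d} (h : v.1 ≠ u.1) (c : ZMod M) (x : Tor d M) :
    dp u c (x + dv M v) = dp u c x := by
  simp only [dp, Pi.add_apply, dv_of_ne (Ne.symm h), add_zero]
lemma dp_congr {u : Dir d} {c c' : ZMod M} {x y : Tor d M} (h : c - x u.1 = c' - y u.1) :
    dp u c x = dp u c' y := by simp only [dp, h]

variable [NeZero M]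

lemma dp_lt (u : Dir d) (c : ZMod M) (x : Tor d M) : dp u c x < M := ZMod.val_lt _
lemma dp_spec (u : Dir d) (c : ZMod M) (x : Tor d M) :
    x u.1 = c - sg M u.2 * (dp u c x : ZMod M) := by
  rw [dp, ZMod.natCast_zmod_val, ← mul_assoc, sg_mul_self]; ring
lemma dp_eq_iff {u : Dir d} {c : ZMod M} {x : Tor d M} {k : ℕ} (hk : k < M) :
    dp u c x = k ↔ x u.1 = c - sg M u.2 * (k : ZMod M) := by
  refine ⟨fun h => h ▸ dp_spec u c x, fun h => ?_⟩
  rw [dp, h, sub_sub_cancel, ← mul_assoc, sg_mul_self, one_mul, ZMod.val_cast_of_lt hk]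
lemma dp_eq_zero {u : Dir d} {c : ZMod M} {x : Tor d M} : dp u c x = 0 ↔ x u.1 = c := by
  rw [dp_eq_iff (NeZero.pos M)]; simp
lemma ab_le_dp (u : Dir d) (c : ZMod M) (x : Tor d M) : ab (c - x u.1) ≤ dp u c x := by
  rw [← ab_sg_mul u.2]; exact ab_le_val _
lemma ab_eq_dp {u : Dir d} {c : ZMod M} {x : Tor d M} (h : 2 * dp u c x ≤ M) :
    ab (c - x u.1) = dp u c x := by
  rw [← ab_sg_mul u.2]; exact ab_eq_val h
lemma dp_add_smul {u : Dir d} {c : ZMod M} {x : Tor d M} {s : ℕ} (h : s ≤ dp u c x) :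
    dp u c (x + s • dv M u) = dp u c x - s := by
  have := dp_lt u c x
  rw [dp_eq_iff (by omega), Pi.add_apply, Pi.smul_apply, dv_self, Nat.cast_sub h]
  conv_lhs => rw [dp_spec u c x]
  rw [nsmul_eq_mul]; ring
lemma dp_add_smul' {u : Dir d} {c : ZMod M} {x : Tor d M} {s : ℕ} (h : dp u c x < s)
    (hs : s ≤ M) : dp u c (x + s • dv M u) = M + dp u c x - s := by
  rw [dp_eq_iff (by omega), Pi.add_apply, Pi.smul_apply, dv_self, Nat.cast_sub (by omega)]
  conv_lhs => rw [dp_spec u c x]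
  rw [nsmul_eq_mul, Nat.cast_add, ZMod.natCast_self]; ring
lemma dp_add_dv {u : Dir d} {c : ZMod M} {x : Tor d M} (h : 1 ≤ dp u c x) :
    dp u c (x + dv M u) = dp u c x - 1 := by simpa using dp_add_smul h
lemma dp_add_dv' {u : Dir d} {c : ZMod M} {x : Tor d M} (h : dp u c x = 0) :
    dp u c (x + dv M u) = M - 1 := by
  have := dp_add_smul' (u := u) (c := c) (x := x) (s := 1) (by omega) (NeZero.pos M)
  rw [h] at this; simpa using this
lemma dp_add_opp {u : Dir d} {c : ZMod M} {x : Tor d M} (h : dp u c x + 1 < M) :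
    dp u c (x + dv M (opp u)) = dp u c x + 1 := by
  rw [dp_eq_iff h, Pi.add_apply, dv_opp, Pi.neg_apply, dv_self]
  conv_lhs => rw [dp_spec u c x]
  push_cast; ring
/-- moving the face down by `a` -/
lemma dp_shift {u : Dir d} {c : ZMod M} {x : Tor d M} {a : ℕ} (h : a ≤ dp u c x) :
    dp u (c - sg M u.2 * (a : ZMod M)) x = dp u c x - a := by
  rw [← dp_add_smul h]
  refine dp_congr ?_
  rw [Pi.add_apply, Pi.smul_apply, dv_self, nsmul_eq_mul]; ring
lemma dp_shift' {u : Dir d} {c : ZMod M} {x : Tor d M} {a : ℕ} (h : dp u c x < a) (ha : a ≤ M) :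
    dp u (c - sg M u.2 * (a : ZMod M)) x = M + dp u c x - a := by
  rw [← dp_add_smul' h ha]
  refine dp_congr ?_
  rw [Pi.add_apply, Pi.smul_apply, dv_self, nsmul_eq_mul]; ring
lemma dp_opp {u : Dir d} {c : ZMod M} {x : Tor d M} {n : ℕ} (hn : n < M) (h : dp u c x ≤ n) :
    dp (opp u) (c - sg M u.2 * (n : ZMod M)) x = n - dp u c x := by
  rw [dp_eq_iff (by omega), opp_fst, opp_snd, sg_not, Nat.cast_sub h]
  conv_lhs => rw [dp_spec u c x]
  ring

lemma mem_sl {u : Dir d} {c : ZMod M} {n : ℕ} {x : Tor d M} : x ∈ sl u c n ↔ dp u c x ≤ n := by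
  simp [sl]
lemma mem_cs {o x : Tor d M} {i : Fin d} {n : ℕ} : x ∈ cs o i n ↔ ab (x i - o i) ≤ n := by
  simp [cs]
lemma mem_hp {x : Tor d M} {i : Fin d} {c : ZMod M} : x ∈ hp i c ↔ x i = c := by simp [hp]
lemma mem_bl {o x : Tor d M} {r : ℕ} : x ∈ bl o r ↔ rad (x - o) ≤ r := by simp [bl]
lemma mem_ex {L S : Finset (Tor d M)} {b : Tor d M × Dir d} :
    b ∈ ex L S ↔ b.1 ∈ S ∧ hd b ∈ L ∧ hd b ∉ S := by simp [ex]
lemma self_mem_cs (o : Tor d M) (i : Fin d) (n : ℕ) : o ∈ cs o i n := by simp [mem_cs]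
lemma self_mem_bl (o : Tor d M) (r : ℕ) : o ∈ bl o r := by
  rw [mem_bl, sub_self, rad_eq_zero.2 rfl]; exact Nat.zero_le _
lemma sl_mono (u : Dir d) (c : ZMod M) {n n' : ℕ} (h : n ≤ n') : sl u c n ⊆ sl u c n' :=
  fun _ hx => mem_sl.2 ((mem_sl.1 hx).trans h)
lemma sl_opp (u : Dir d) (c : ZMod M) {n : ℕ} (hn : n < M) :
    sl (opp u) (c - sg M u.2 * (n : ZMod M)) n = sl u c n := by
  have key : ∀ (u : Dir d) (c : ZMod M), sl u c n ⊆ sl (opp u) (c - sg M u.2 * (n : ZMod M)) n :=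
    fun u c x hx => mem_sl.2 (by rw [dp_opp hn (mem_sl.1 hx)]; omega)
  refine Subset.antisymm ?_ (key u c)
  have := key (opp u) (c - sg M u.2 * (n : ZMod M))
  rwa [opp_opp, opp_snd, sg_not, neg_mul, sub_neg_eq_add, sub_add_cancel] at this
lemma cs_eq_sl (o : Tor d M) (u : Dir d) {n : ℕ} (hn : 2 * n < M) :
    cs o u.1 n = sl u (o u.1 + sg M u.2 * (n : ZMod M)) (2 * n) := by
  ext x
  rw [mem_cs, mem_sl]
  constructor
  · intro h
    obtain ⟨k, h1, h2⟩ := exists_int_ab (sg M u.2 * (x u.1 - o u.1))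
    rw [ab_sg_mul] at h1
    obtain ⟨m, hm⟩ := Int.eq_ofNat_of_zero_le (show 0 ≤ (n : ℤ) - k by omega)
    have : dp u (o u.1 + sg M u.2 * (n : ZMod M)) x = m := by
      rw [dp_eq_iff (by omega)]
      have h3 : (m : ZMod M) = n - k := by
        have := congrArg (Int.cast : ℤ → ZMod M) hm
        push_cast at this; exact this.symm
      rw [h3, h2]
      have := sg_mul_self (M := M) u.2
      linear_combination (o u.1 - x u.1) * this
    omega
  · intro h
    have h1 := dp_spec u (o u.1 + sg M u.2 * (n : ZMod M)) x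
    set k := dp u (o u.1 + sg M u.2 * (n : ZMod M)) x
    have : x u.1 - o u.1 = sg M u.2 * (((n : ℤ) - k : ℤ) : ZMod M) := by
      rw [h1]; push_cast; ring
    rw [this, ab_sg_mul]
    exact (ab_intCast_le _).trans (by omega)
/-- two points of a slab of width `n` are at distance at most `n` in its direction -/
lemma sl_subset_cs {u : Dir d} {c : ZMod M} {n : ℕ} {o : Tor d M} (ho : o ∈ sl u c n) :
    sl u c n ⊆ cs o u.1 n := by
  intro x hx
  rw [mem_sl] at ho hx
  have : x u.1 - o u.1 = sg M u.2 * (((dp u c o : ℤ) - dp u c x : ℤ) : ZMod M) := by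
    conv_lhs => rw [dp_spec u c x, dp_spec u c o]
    push_cast; ring
  rw [mem_cs, this, ab_sg_mul]
  exact (ab_intCast_le _).trans (by omega)
/-- an edge leaving a slab goes through one of the two faces -/
lemma exit_sl {u v : Dir d} {c : ZMod M} {n : ℕ} {y : Tor d M} (hy : y ∈ sl u c n)
    (h : y + dv M v ∉ sl u c n) :
    (v = u ∧ y u.1 = c) ∨ (v = opp u ∧ y u.1 = c - sg M u.2 * (n : ZMod M)) := by
  rw [mem_sl] at hy h
  by_cases h1 : v.1 = u.1
  · rcases eq_or_opp h1 with rfl | rfl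
    · refine Or.inl ⟨rfl, dp_eq_zero.1 ?_⟩
      by_contra h2
      rw [dp_add_dv (by omega)] at h; omega
    · have h3 := dp_lt u c (y + dv M (opp u))
      refine Or.inr ⟨rfl, (dp_eq_iff (by omega)).1 ?_⟩
      by_contra h2
      rw [dp_add_opp (by omega)] at h; omega
  · rw [dp_add_of_ne h1] at h; omega
/-- an edge leaving a centred slab -/
lemma exit_cs {o y : Tor d M} {i : Fin d} {n : ℕ} {v : Dir d} (hy : y ∈ cs o i n)
    (h : y + dv M v ∉ cs o i n) : v.1 = i ∧ ab ((y + dv M v) i - o i) = n + 1 := by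
  rw [mem_cs] at hy h
  have h1 : v.1 = i := by
    by_contra h2
    rw [Pi.add_apply, dv_of_ne (Ne.symm h2), add_zero] at h; exact h hy
  refine ⟨h1, le_antisymm ?_ (by omega)⟩
  have := ab_add_le (y i - o i) (dv M v i)
  have h2 := (ab_le_rad (dv M v) i).trans (rad_dv_le v)
  rw [Pi.add_apply, show y i + dv M v i - o i = y i - o i + dv M v i by ring]
  omega
lemma prism_sl (u : Dir d) (c : ZMod M) {n : ℕ} (hn : 2 * n < M) : Prism (sl u c n) :=
  ⟨u, u, c, c, n, n, hn, hn, (inter_self _).symm⟩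
lemma prism_cs (o : Tor d M) (i j : Fin d) {n n' : ℕ} (hn : 4 * n < M) (hn' : 4 * n' < M) :
    Prism (cs o i n ∩ cs o j n') :=
  ⟨(i, true), (j, true), _, _, 2 * n, 2 * n', by omega, by omega, by
    rw [← cs_eq_sl o (i, true) (by omega), ← cs_eq_sl o (j, true) (by omega)]⟩

end Pool.Agent.HDE
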