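import Pool.Agent.Lib.HDE.Api2

open Finset

namespace Pool.Agent.HDE

open Pool.Agent.TPC

namespace ERR

variable {d M : ℕ} [NeZero M] {p C : ℝ}

theorem key (hL : St_LAYER) (h : Hyp d M p) {u : Dir d} {c : ZMod M} {n : ℕ} {S : Finset (Tor d M)}
    (o : Tor d M) (hn : 2 * n < M) (hS : S ⊆ sl u c n) {H : Tor d M → ℝ} (hH : ∀ x, 0 ≤ H x) :
    p * ∑ w, tt p S o w * ∑ y ∈ hp u.1 c, H (y - w) ≤
      lam ^ 2 * ∑ x, (1 + (ab (x u.1) : ℝ)) * H x := by
  have e : ∀ w : Tor d M, ∑ y ∈ hp u.1 c, H (y - w) =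
      ∑ x, if (w + x) u.1 = c then H x else 0 := fun w => by
    rw [hp, sum_filter, ← Equiv.sum_comp (Equiv.addLeft w)]
    simp only [Equiv.coe_addLeft, add_sub_cancel_left]
  simp only [e, mul_sum]
  rw [sum_comm]
  refine sum_le_sum fun x _ => ?_
  have := mul_le_mul_of_nonneg_right (((hL d M p h u c n S o hn hS).1 (ab (x u.1))).trans
    (mul_le_mul_of_nonneg_right (add_le_add_left (Nat.cast_le.2 (min_le_left _ _)) 1)
      (sq_nonneg _))) (hH x)
  refine le_trans ?_ (this.trans_eq (by ring))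
  rw [sum_filter, mul_sum, sum_mul]
  refine sum_le_sum fun w _ => ?_
  by_cases hw : w ∈ S
  · have := mul_nonneg (mul_nonneg h.p0 (tt_nonneg (S := S) (x := o) (y := w) h.p0 h.p1)) (hH x)
    split_ifs with h1 h2 h2
    · exact (mul_assoc _ _ _).ge
    · refine absurd ?_ h2
      have := mem_sl.1 (hS hw)
      rw [← ab_eq_dp (by omega), ← h1, Pi.add_apply, add_sub_cancel_left]
    · simpa using this
    · simp
  · simp [tt_of_right hw]

theorem face_sum {EE : Finset (Tor d M × Dir d)} {Fs : Finset (Dir d × ZMod M)}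
    (hE : ∀ b ∈ EE, (b.2, b.1 b.2.1) ∈ Fs) {g : Tor d M × Dir d → ℝ} (hg : ∀ b, 0 ≤ g b) :
    ∑ b ∈ EE, g b ≤ ∑ f ∈ Fs, ∑ y ∈ hp f.1.1 f.2, g (y, f.1) := by
  classical
  rw [← sum_fiberwise_of_maps_to hE]
  refine sum_le_sum fun f _ => ?_
  rw [← sum_image (g := fun y => (y, f.1)) fun _ _ _ _ h => congrArg Prod.fst h]
  refine sum_le_sum_of_subset_of_nonneg (fun b hb => ?_) fun _ _ _ => hg _
  obtain rfl := (mem_filter.1 hb).2
  exact mem_image.2 ⟨b.1, mem_hp.2 rfl, rfl⟩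

theorem t_le_cv (h : Hyp d M p) (e : Tor d M) : t0 p e ≤ cv (t0 p) (t0 p) e := by
  simpa [t0_zero, cv] using single_le_sum (f := fun y => t0 p y * t0 p (e - y))
    (fun _ _ => mul_nonneg (t0_nonneg h.p0 h.p1) (t0_nonneg h.p0 h.p1)) (mem_univ (0 : Tor d M))

theorem w3 (h : Hyp d M p) (j : Fin d) (e : Tor d M) :
    ∑ x, ∑ s, (1 + (ab (x j) : ℝ)) * (2 + ab (s j)) * (t0 p x * t0 p s) *
      cv (t0 p) (t0 p) (e - x - s) ≤ 2 * Wq p j e := by
  simp only [Wq, cv, mul_sum]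
  refine sum_le_sum fun x _ => sum_le_sum fun s _ => sum_le_sum fun z _ => ?_
  have t : ∀ x : Tor d M, 0 ≤ t0 p x := fun _ => t0_nonneg h.p0 h.p1
  have := mul_nonneg (mul_nonneg (mul_nonneg (t x) (t s)) (t z)) (t (e - x - s - z))
  generalize ab (x j) = a, ab (s j) = b, ab (z j) = a', ab ((e - x - s - z) j) = b'
  have h1 : (1 + (a : ℝ)) * (2 + b) ≤ 2 * (1 + a + b + a' + b') ^ 8 := by
    have h2 := pow_le_pow_right₀ (show (1 : ℝ) ≤ 1 + a + b + a' + b' by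
      linarith [a.cast_nonneg (α := ℝ), b.cast_nonneg (α := ℝ), a'.cast_nonneg (α := ℝ),
        b'.cast_nonneg (α := ℝ)]) (show 2 ≤ 8 by norm_num)
    have h3 : (1 + (a : ℝ) + b) ^ 2 ≤ (1 + a + b + a' + b') ^ 2 :=
      pow_le_pow_left₀ (by positivity)
        (by linarith [a'.cast_nonneg (α := ℝ), b'.cast_nonneg (α := ℝ)]) 2
    refine le_trans ?_ (mul_le_mul_of_nonneg_left (h3.trans h2) zero_le_two)
    clear h2 h3 this
    nlinarith [a.cast_nonneg (α := ℝ), b.cast_nonneg (α := ℝ)]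
  calc _ = (1 + (a : ℝ)) * (2 + b) * (t0 p x * t0 p s * t0 p z * t0 p (e - x - s - z)) := by ring
    _ ≤ _ := (mul_le_mul_of_nonneg_right h1 this).trans_eq (mul_assoc _ _ _)

theorem cv_le_W (h : Hyp d M p) (j : Fin d) (e : Tor d M) : cv (t0 p) (t0 p) e ≤ Wq p j e := by
  have t : ∀ x : Tor d M, 0 ≤ t0 p x := fun _ => t0_nonneg h.p0 h.p1
  have c := cv_nonneg t t
  have h1 := (single_le_sum (f := fun x : Tor d M => ∑ s : Tor d M, (1 + (ab (x j) : ℝ)) *
    (2 + ab (s j)) * (t0 p x * t0 p s) * cv (t0 p) (t0 p) (e - x - s)) (fun x _ => sum_nonneg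
      fun s _ => mul_nonneg (mul_nonneg (by positivity) (mul_nonneg (t _) (t _))) (c _))
    (mem_univ 0)).trans (w3 h j e)
  have h2 := (single_le_sum (fun s _ => mul_nonneg (mul_nonneg (by positivity)
    (mul_nonneg (t _) (t _))) (c _)) (mem_univ 0)).trans h1
  simp only [t0_zero, Pi.zero_apply, ab_eq_zero.2 rfl, sub_zero, Nat.cast_zero] at h2
  linarith

theorem w_le (G : Good C d M p) (hC : 0 ≤ C) (j : Fin d) {e : Tor d M} (he : ab (e j) ≤ 2) :
    Wq p j e ≤ C * (1 + 3 ^ 8) ∧ (e ≠ 0 → Wq p j e ≤ C * 3 ^ 8 / d) := by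
  have d1 : (1 : ℝ) ≤ d := by exact_mod_cast G.toHyp.d1
  have h1 : (1 + (ab (e j) : ℝ)) ^ 8 ≤ 3 ^ 8 := by
    have : (ab (e j) : ℝ) ≤ 2 := by exact_mod_cast he
    gcongr
    linarith
  refine ⟨(G.sq j e).trans (mul_le_mul_of_nonneg_left (add_le_add (by split_ifs <;> norm_num)
    ((div_le_self (by positivity) d1).trans h1)) hC), fun h => (G.sq j e).trans ?_⟩
  rw [if_neg h, zero_add, mul_div_assoc]
  gcongr

theorem ab_dv (u : Dir d) (j : Fin d) : ab (dv M u j) ≤ 1 := (ab_le_rad _ j).trans (rad_dv_le u)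

theorem ab_dd (u u' : Dir d) (j : Fin d) : ab ((dv M u' - dv M u) j) ≤ 2 :=
  (ab_sub_le _ _).trans (add_le_add (ab_dv _ _) (ab_dv _ _))

theorem ab_nd (u : Dir d) (j : Fin d) : ab ((-dv M u) j) ≤ 2 :=
  (ab_neg _).trans_le ((ab_dv _ _).trans one_le_two)

theorem main (hL : St_LAYER) (G : Good C d M p) (hC : 0 ≤ C) (L S : Finset (Tor d M))
    {EE : Finset (Tor d M × Dir d)} (o : Tor d M) {Fs : Finset (Dir d × ZMod M)} (h4 : Fs.card ≤ 4)
    (hF : ∀ f ∈ Fs, ∃ n : ℕ, 2 * n < M ∧ S ⊆ sl f.1 f.2 n) (hE : ∀ b ∈ EE, (b.2, b.1 b.2.1) ∈ Fs)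
    {ω : Tor d M → ℝ} (h0 : ∀ v, 0 ≤ ω v) (hω : ∀ f ∈ Fs, ∀ v, ω v ≤ 1 + ab (v f.1.1 - f.2)) :
    ∑ v, Er p L S EE o v * ω v ≤ 4 * (lam ^ 2 * (10 * (C * (1 + 3 ^ 8)))) / d := by
  have h := G.toHyp
  have p0 := h.ppos
  have t : ∀ x : Tor d M, 0 ≤ t0 p x := fun _ => t0_nonneg h.p0 h.p1
  have tt0 : ∀ S (x y : Tor d M), 0 ≤ tt p S x y := fun _ _ _ => tt_nonneg h.p0 h.p1
  have tl : ∀ S (x y : Tor d M), tt p S x y ≤ t0 p (y - x) := fun _ _ _ => tt_le_t0 h.hM h.p0 h.p1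
  have c := cv_nonneg t t
  obtain ⟨ρ, hρ⟩ : ∃ ρ : Tor d M → ℝ, ρ = fun a => cv (t0 p) (t0 p) (-a) +
    ∑ f ∈ Fs, p * cv (t0 p) (t0 p) (dv M f.1 - a) := ⟨_, rfl⟩
  have r0 : ∀ a, 0 ≤ ρ a := fun a =>
    hρ ▸ add_nonneg (c _) (sum_nonneg fun _ _ => mul_nonneg h.p0 (c _))
  have A0 : ∀ w v (b : Tor d M × Dir d), 0 ≤ tt p S w b.1 * (p * tt p L (hd b) v) := fun _ _ _ =>
    mul_nonneg (tt0 _ _ _) (mul_nonneg h.p0 (tt0 _ _ _))
  have r1 : ∀ w v, ∑ b ∈ EE, tt p S w b.1 * (p * tt p L (hd b) v) + tt p S w v ≤ ρ (v - w) :=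
    fun w v => by
    rw [hρ, add_comm]
    refine add_le_add ((tl _ _ _).trans ((t0_neg h.hM _).ge.trans (t_le_cv h _)))
      ((face_sum hE (A0 w v)).trans (sum_le_sum fun f _ => ?_))
    refine (sum_le_sum_of_subset_of_nonneg (subset_univ _) fun _ _ _ => A0 _ _ _).trans ?_
    rw [cv, mul_sum, ← Equiv.sum_comp (Equiv.subLeft w)]
    refine sum_le_sum fun z _ => ?_
    rw [mul_left_comm]
    refine mul_le_mul_of_nonneg_left (mul_le_mul ((tl _ _ _).trans_eq ?_) ((tl _ _ _).trans_eq ?_)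
      (tt0 _ _ _) (t _)) h.p0 <;> rw [← t0_neg h.hM] <;> congr 1 <;> simp only [hd, Equiv.subLeft_apply] <;>
      abel
  obtain ⟨g, hg⟩ : ∃ g : Dir d → Tor d M → Tor d M → ℝ, g = fun u x s =>
    t0 p x * (p * t0 p s) * ρ (x + dv M u + s) * (2 + ab (s u.1)) := ⟨_, rfl⟩
  have g0 : ∀ u x s, 0 ≤ g u x s := fun u x s => hg ▸ mul_nonneg (mul_nonneg (mul_nonneg (t _)
    (mul_nonneg h.p0 (t _))) (r0 _)) (by positivity)
  have s1 : ∀ v, Er p L S EE o v * ω v ≤ ∑ w, ∑ f ∈ Fs, tt p S o w *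
      ∑ y ∈ hp f.1.1 f.2, g f.1 (y - w) (v - (y + dv M f.1)) := fun v => by
    rw [Er, E1, E2, ← sum_add_distrib, sum_mul]
    refine sum_le_sum fun w _ => ?_
    rw [← mul_sum, mul_assoc, ← mul_add, mul_assoc]
    refine mul_le_mul_of_nonneg_left ?_ (tt0 _ _ _)
    refine le_trans (b := ∑ b ∈ EE, tt p S w b.1 * (p * tt p L (hd b) v) * ρ (v - w) * ω v) ?_
      ((face_sum hE fun b => mul_nonneg (mul_nonneg (A0 _ _ _) (r0 _)) (h0 _)).trans
        (sum_le_sum fun f hf => sum_le_sum fun y hy => ?_))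
    · rw [← sum_mul, mul_sum, ← sum_add_distrib]
      refine mul_le_mul_of_nonneg_right (sum_le_sum fun b _ => ?_) (h0 _)
      rw [← mul_sum, mul_comm (tt p S w v), ← mul_add]
      exact mul_le_mul_of_nonneg_left ((add_le_add_left (sum_le_sum_of_subset_of_nonneg
        (erase_subset _ _) fun _ _ _ => A0 _ _ _) _).trans (r1 w v)) (A0 _ _ _)
    · rw [hg]
      dsimp only
      rw [show y - w + dv M f.1 + (v - (y + dv M f.1)) = v - w by abel]
      refine mul_le_mul (mul_le_mul_of_nonneg_right (mul_le_mul (tl _ _ _)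
        (mul_le_mul_of_nonneg_left (tl _ _ _) h.p0) (mul_nonneg h.p0 (tt0 _ _ _)) (t _)) (r0 _))
        ((hω f hf v).trans ?_) (h0 _) (mul_nonneg (mul_nonneg (t _) (mul_nonneg h.p0 (t _))) (r0 _))
      have h1 := ab_add_le ((v - (y + dv M f.1)) f.1.1) (dv M f.1 f.1.1)
      have h2 := ab_dv (M := M) f.1 f.1.1
      rw [show (v - (y + dv M f.1)) f.1.1 + dv M f.1 f.1.1 = v f.1.1 - f.2 by
        rw [← mem_hp.1 hy, Pi.sub_apply, Pi.add_apply]; ring] at h1
      exact_mod_cast (by omega : 1 + ab (v f.1.1 - f.2) ≤ 2 + ab ((v - (y + dv M f.1)) f.1.1))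
  have s2 : ∀ f ∈ Fs, ∑ w, tt p S o w * ∑ y ∈ hp f.1.1 f.2, ∑ s, g f.1 (y - w) s ≤
      lam ^ 2 * (10 * (C * (1 + 3 ^ 8))) / d := fun f hf => by
    obtain ⟨n, h1, h2⟩ := hF f hf
    refine le_of_mul_le_mul_left ((key hL h o h1 h2 (H := fun x => ∑ s, g f.1 x s)
      fun _ => sum_nonneg fun _ _ => g0 _ _ _).trans ?_) p0
    rw [mul_div_assoc, mul_left_comm p]
    refine mul_le_mul_of_nonneg_left ?_ (sq_nonneg _)
    have e : ∑ x, (1 + (ab (x f.1.1) : ℝ)) * ∑ s, g f.1 x s =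
        p * (∑ x, ∑ s, (1 + (ab (x f.1.1) : ℝ)) * (2 + ab (s f.1.1)) * (t0 p x * t0 p s) *
          cv (t0 p) (t0 p) (-dv M f.1 - x - s) + ∑ f' ∈ Fs, p * ∑ x, ∑ s,
          (1 + (ab (x f.1.1) : ℝ)) * (2 + ab (s f.1.1)) * (t0 p x * t0 p s) *
          cv (t0 p) (t0 p) (dv M f'.1 - dv M f.1 - x - s)) := by
      have e2 : ∀ x s, (1 + (ab (x f.1.1) : ℝ)) * g f.1 x s =
          p * ((1 + (ab (x f.1.1) : ℝ)) * (2 + ab (s f.1.1)) * (t0 p x * t0 p s) *
          cv (t0 p) (t0 p) (-dv M f.1 - x - s)) + ∑ f' ∈ Fs, p * (p *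
          ((1 + (ab (x f.1.1) : ℝ)) * (2 + ab (s f.1.1)) * (t0 p x * t0 p s) *
          cv (t0 p) (t0 p) (dv M f'.1 - dv M f.1 - x - s))) := fun x s => by
        rw [hg, hρ]
        dsimp only
        rw [show -(x + dv M f.1 + s) = -dv M f.1 - x - s by abel, mul_add (_ * (p * _)), add_mul _ _
          (2 + _ : ℝ), mul_add (1 + _ : ℝ), mul_sum, sum_mul, mul_sum]
        congr 1
        · ring
        · refine sum_congr rfl fun f' _ => ?_
          rw [show dv M f'.1 - (x + dv M f.1 + s) = dv M f'.1 - dv M f.1 - x - s by abel]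
          ring
      simp only [mul_sum, e2, sum_add_distrib, mul_add p, sum_comm (s := Fs)]
    rw [e]
    refine mul_le_mul_of_nonneg_left ?_ h.p0
    have a1 := (w3 h f.1.1 _).trans (mul_le_mul_of_nonneg_left ((w_le G hC f.1.1 (ab_nd f.1 _)).2
      (neg_ne_zero.2 (dv_ne_zero (by linarith [h.hM]) _))) zero_le_two)
    have a2 := sum_le_card_nsmul Fs _ (1 / d * (2 * (C * (1 + 3 ^ 8)))) fun f' _ =>
      mul_le_mul h.p_le ((w3 h f.1.1 _).trans (mul_le_mul_of_nonneg_left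
        (w_le G hC f.1.1 (ab_dd f.1 f'.1 _)).1 zero_le_two)) (sum_nonneg fun _ _ => sum_nonneg
        fun _ _ => mul_nonneg (mul_nonneg (by positivity) (mul_nonneg (t _) (t _))) (c _))
        (by positivity)
    have a3 : (Fs.card : ℝ) ≤ 4 := by exact_mod_cast h4
    have a4 : 0 ≤ C / d := by positivity
    rw [nsmul_eq_mul] at a2
    refine (add_le_add a1 (a2.trans (mul_le_mul_of_nonneg_right a3 (by positivity)))).trans ?_
    ring_nf at a4 ⊢
    linarith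
  calc _ ≤ ∑ v, ∑ w, ∑ f ∈ Fs, tt p S o w *
        ∑ y ∈ hp f.1.1 f.2, g f.1 (y - w) (v - (y + dv M f.1)) := sum_le_sum fun v _ => s1 v
    _ = ∑ f ∈ Fs, ∑ w, tt p S o w * ∑ y ∈ hp f.1.1 f.2, ∑ s, g f.1 (y - w) s := by
      rw [sum_comm, sum_comm (s := Fs)]
      refine sum_congr rfl fun w _ => ?_
      rw [sum_comm]
      refine sum_congr rfl fun f _ => ?_
      rw [← mul_sum, sum_comm]
      exact congrArg _ (sum_congr rfl fun y _ => Equiv.sum_comp (Equiv.subRight (y + dv M f.1)) _)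
    _ ≤ _ := by
      refine (sum_le_card_nsmul Fs _ _ s2).trans ?_
      rw [nsmul_eq_mul, mul_div_assoc 4]
      exact mul_le_mul_of_nonneg_right (by exact_mod_cast h4) (by positivity)

theorem point (G : Good C d M p) (hC : 0 ≤ C) (EE : Finset (Tor d M × Dir d)) (o : Tor d M) :
    ∑ v, Er p univ {o} EE o v ≤ 2 * (lam ^ 2 * (C * 3 ^ 8 / d)) := by
  have h := G.toHyp
  have p0 := h.p0
  have tt0 : ∀ S (x y : Tor d M), 0 ≤ tt p S x y := fun _ _ _ => tt_nonneg h.p0 h.p1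
  have I : ∀ F : Finset (Tor d M × Dir d), ∑ b ∈ F, tt p {o} o b.1 * p ≤ lam := fun F => by
    refine (sum_le_sum_of_subset_of_nonneg (subset_univ _) fun _ _ _ =>
      mul_nonneg (tt0 _ _ _) p0).trans (le_trans (le_of_eq ?_) h.phi.1)
    rw [Fintype.sum_prod_type_right]
    simp [tt_single, mul_comm (d : ℝ) 2]
  have one : ∀ f : Tor d M → ℝ, ∑ w, tt p {o} o w * f w = f o := fun f => by simp [tt_single]
  have K0 : 0 ≤ C * 3 ^ 8 / d := by positivity
  have l0 := lam_pos.le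
  simp only [Er, E1, E2, sum_add_distrib, mul_assoc (tt p {o} o _), one]
  rw [two_mul]
  refine add_le_add ?_ ?_
  · rw [sum_comm]
    refine le_trans (sum_le_sum (g := fun b => tt p {o} o b.1 * p * (lam * (C * 3 ^ 8 / d)))
      fun b _ => ?_) ?_
    · rw [sum_comm]
      refine le_trans (sum_le_sum (g := fun b' => tt p {o} o b.1 * p *
        (tt p {o} o b'.1 * p * (C * 3 ^ 8 / d))) fun b' hb' => ?_) ?_
      · by_cases e : b.1 = o ∧ b'.1 = o
        · have ne : dv M b'.2 - dv M b.2 ≠ 0 := sub_ne_zero.2 fun a => ne_of_mem_erase hb'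
            (Prod.ext (e.2.trans e.1.symm) (dv_inj h.hM a))
          have := mul_le_mul_of_nonneg_left ((cv_le_W h b.2.1 _).trans
            ((w_le G hC _ (ab_dd b.2 b'.2 _)).2 ne)) (mul_nonneg p0 p0)
          simp only [tt_single, e.1, e.2, and_self, if_true, one_mul, tt_univ h.hM]
          refine le_trans (le_of_eq ?_) (this.trans_eq (mul_assoc _ _ _))
          rw [cv, mul_sum, ← Equiv.sum_comp (Equiv.addLeft (hd b))]
          refine sum_congr rfl fun v _ => ?_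
          rw [← t0_neg h.hM (_ - v), Equiv.coe_addLeft, add_sub_cancel_left,
            show -(dv M b'.2 - dv M b.2 - v) = hd b + v - hd b' by rw [hd, hd, e.1, e.2]; abel]
          ring
        · rcases not_and_or.1 e with e | e <;> simp [tt_single, e]
      · rw [← mul_sum, ← sum_mul]
        exact mul_le_mul_of_nonneg_left (mul_le_mul_of_nonneg_right (I _) K0)
          (mul_nonneg (tt0 _ _ _) p0)
    · rw [← sum_mul, sq, mul_assoc]
      exact mul_le_mul_of_nonneg_right (I _) (by positivity)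
  · refine le_trans (sum_le_sum (g := fun b => tt p {o} o b.1 * p * (C * 3 ^ 8 / d))
      fun b _ => ?_) ?_
    · by_cases e : b.1 = o
      · rw [mul_assoc, tt_univ h.hM, hd, e, sub_add_cancel_left]
        exact mul_le_mul_of_nonneg_left (mul_le_mul_of_nonneg_left ((t_le_cv h _).trans
          ((cv_le_W h b.2.1 _).trans ((w_le G hC _ (ab_nd _ _)).2
          (neg_ne_zero.2 (dv_ne_zero (by linarith [h.hM]) _))))) p0) (tt0 _ _ _)
      · simp [tt_single, e]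
    · rw [← sum_mul]
      exact mul_le_mul_of_nonneg_right ((I _).trans (by nlinarith [one_le_lam])) K0

end ERR

open ERR in
theorem t_err : T_ERR := by
  intro hL C hC
  refine ⟨4 * (lam ^ 2 * (10 * (C * (1 + 3 ^ 8)))), by positivity, fun d M _ p G =>
    ⟨fun L S EE o Fs h4 hF hE => ?_, fun L S EE o u c n hn hS hE => ?_, fun EE o => ?_⟩⟩
  · simpa only [mul_one] using main hL G hC L S o h4 hF hE (ω := fun _ => 1) (fun _ => zero_le_one)
      fun _ _ _ => le_add_of_nonneg_right (Nat.cast_nonneg _)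
  · refine main hL G hC L S o (Fs := {(u, c)}) (by simp) (by simpa using ⟨n, hn, hS⟩)
      (fun b hb => ?_) (fun _ => by positivity) (by simp)
    obtain ⟨h1, h2⟩ := hE b hb
    simp [h1, h2]
  · have : 0 ≤ lam ^ 2 * C / d := by positivity
    refine (point G hC EE o).trans ?_
    ring_nf at this ⊢
    linarith

end Pool.Agent.HDE
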