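import Pool.Agent.Lib.HDE.BlueC
import Pool.Agent.Lib.HDE.Api2

/-! From the half-space bound to the full-space bound. -/

open Finset

namespace Pool.Agent.HDE

open Pool.Agent.TPC
open Pool.Agent.HD (rad tauT chiT)

namespace FULLB

variable {d M : ℕ} [NeZero M] {p A : ℝ}

/-- the tail of an exit edge of a centred slab lies on a face -/
lemma tail (h0 : 0 ≤ p) (h1 : p ≤ 1) (hH : HalfB d M p A) {i : Fin d} {m : ℕ} (hm : 4 * m < M)
    {b : Tor d M × Dir d} (hb : b ∈ ex univ (cs (0 : Tor d M) i m)) :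
    tt p (cs 0 i m) 0 b.1 * (m : ℝ) ^ (d - 1) ≤ A := by
  obtain ⟨y, v⟩ := b
  rw [mem_ex] at hb
  obtain ⟨hy, -, hn⟩ := hb
  simp only [hd] at hy hn
  have hv : v.1 = i := (exit_cs hy hn).1
  subst hv
  rw [cs_eq_sl 0 v (by omega)] at hy hn ⊢
  have hc : y v.1 = (0 : Tor d M) v.1 + sg M v.2 * (m : ZMod M) := by
    rcases exit_sl hy hn with h | h
    · exact h.2
    · exact absurd h.1.symm (opp_ne v)
  refine le_trans ?_ (hH v _ (2 * m) 0 y (by omega) hc)
  refine mul_le_mul_of_nonneg_left (pow_le_pow_left₀ (Nat.cast_nonneg _) ?_ _) (tt_nonneg h0 h1)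
  have h2 := ab_le_rad (0 - y) v.1
  rw [Pi.sub_apply, hc, Pi.zero_apply, zero_add, zero_sub, ab_neg, ab_sg_mul,
    ab_natCast (by omega)] at h2
  exact_mod_cast h2

lemma sum_heads (hM : 3 ≤ M) (x : Tor d M) :
    ∑ b : Tor d M × Dir d, tt p univ (hd b) x = 2 * d * ch d M p := by
  rw [Fintype.sum_prod_type_right]
  have : ∀ u : Dir d, ∑ y : Tor d M, tt p univ (hd (y, u)) x = ch d M p := by
    intro u
    rw [← sum_tt_univ hM x, ← Equiv.sum_comp (Equiv.addRight (dv M u)) fun y => tt p univ x y]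
    exact sum_congr rfl fun y _ => tt_comm
  simp only [this, sum_const, card_univ, Fintype.card_prod, Fintype.card_fin, Fintype.card_bool,
    nsmul_eq_mul]
  push_cast; ring

lemma exits (h : Hyp d M p) (hch : ch d M p ≤ M) (hA : 0 ≤ A) (hH : HalfB d M p A) (i : Fin d)
    {m : ℕ} (hm : 4 * m < M) (x : Tor d M) :
    (∑ b ∈ ex univ (cs (0 : Tor d M) i m), tt p (cs 0 i m) 0 b.1 * (p * tt p univ (hd b) x)) *
      (m : ℝ) ^ (d - 1) ≤ A * (lam * M) := by
  have h0 := h.p0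
  have h1 := h.p1
  have hc : 0 ≤ ch d M p := zero_le_one.trans (one_le_ch h0 h1)
  calc _ = ∑ b ∈ ex univ (cs (0 : Tor d M) i m),
        tt p (cs 0 i m) 0 b.1 * (m : ℝ) ^ (d - 1) * (p * tt p univ (hd b) x) := by
        rw [sum_mul]; exact sum_congr rfl fun b _ => by ring
    _ ≤ ∑ b ∈ ex univ (cs (0 : Tor d M) i m), A * (p * tt p univ (hd b) x) :=
        sum_le_sum fun b hb => mul_le_mul_of_nonneg_right (tail h0 h1 hH hm hb)
          (mul_nonneg h0 (tt_nonneg h0 h1))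
    _ ≤ ∑ b : Tor d M × Dir d, A * (p * tt p univ (hd b) x) :=
        sum_le_sum_of_subset_of_nonneg (subset_univ _) fun b _ _ =>
          mul_nonneg hA (mul_nonneg h0 (tt_nonneg h0 h1))
    _ = A * (2 * d * p * ch d M p) := by
        rw [← mul_sum, ← mul_sum, sum_heads h.hM]; ring
    _ ≤ _ := mul_le_mul_of_nonneg_left (mul_le_mul h.phi.1 hch hc lam_pos.le) hA

end FULLB

theorem t_full : T_FULL := by
  intro hF d hd3
  obtain ⟨C, hC, hF⟩ := hF d hd3
  have hl := lam_pos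
  have h4 : (0 : ℝ) < 4 ^ (d - 2) := by positivity
  have h2 : (0 : ℝ) < 2 ^ (d - 2) := by positivity
  refine ⟨C + lam * 8 * 4 ^ (d - 2) + 2 ^ (d - 2) + 1, by nlinarith [mul_pos hl h4], ?_⟩
  intro M _ p A h hch hA hH x
  have h0 := h.p0
  have h1 := h.p1
  have hM := h.hM
  have hr := two_rad_le x
  have hA0 : 0 ≤ A := zero_le_one.trans hA
  have hCA : 0 ≤ C * A := mul_nonneg hC hA0
  have hlA : 0 ≤ lam * 8 * 4 ^ (d - 2) * A := by positivity
  obtain ⟨m, hm⟩ : ∃ m, m = (M - 1) / 4 := ⟨_, rfl⟩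
  rcases Nat.eq_zero_or_pos m with hz | hz
  · have h3 : (rad x : ℝ) ≤ 2 := by exact_mod_cast (by omega : rad x ≤ 2)
    have h5 : t0 p x * (rad x : ℝ) ^ (d - 2) ≤ 1 * 2 ^ (d - 2) :=
      mul_le_mul (t0_le_one h0 h1) (pow_le_pow_left₀ (Nat.cast_nonneg _) h3 _) (by positivity)
        zero_le_one
    nlinarith [mul_le_mul_of_nonneg_left hA h2.le]
  · have hm4 : 4 * m < M := by omega
    let i : Fin d := ⟨0, by omega⟩
    have hs := slp hM h0 h1 univ (self_mem_cs (0 : Tor d M) i m) x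
    have he := FULLB.exits h hch hA0 hH i hm4 x
    have hf := hF M p A h hA hH i m x hm4
    set E := ∑ b ∈ ex univ (cs (0 : Tor d M) i m),
      tt p (cs 0 i m) 0 b.1 * (p * tt p univ (hd b) x) with hE
    have hE0 : 0 ≤ E := sum_nonneg fun b _ =>
      mul_nonneg (tt_nonneg h0 h1) (mul_nonneg h0 (tt_nonneg h0 h1))
    have hmp : (0 : ℝ) < m := by exact_mod_cast hz
    have hM8 : (M : ℝ) ≤ 8 * m := by exact_mod_cast (by omega : M ≤ 8 * m)
    have hr4 : (rad x : ℝ) ≤ 4 * m := by exact_mod_cast (by omega : rad x ≤ 4 * m)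
    have h6 : E * (m : ℝ) ^ (d - 2) ≤ A * (lam * 8) := by
      refine le_of_mul_le_mul_right ?_ hmp
      rw [mul_assoc, ← pow_succ, show d - 2 + 1 = d - 1 by omega]
      refine he.trans ?_
      rw [mul_assoc, mul_assoc]
      exact mul_le_mul_of_nonneg_left (mul_le_mul_of_nonneg_left hM8 hl.le) hA0
    have h7 : E * (rad x : ℝ) ^ (d - 2) ≤ lam * 8 * 4 ^ (d - 2) * A :=
      calc E * (rad x : ℝ) ^ (d - 2) ≤ E * (4 * m) ^ (d - 2) :=
            mul_le_mul_of_nonneg_left (pow_le_pow_left₀ (Nat.cast_nonneg _) hr4 _) hE0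
        _ = E * (m : ℝ) ^ (d - 2) * 4 ^ (d - 2) := by rw [mul_pow]; ring
        _ ≤ A * (lam * 8) * 4 ^ (d - 2) := mul_le_mul_of_nonneg_right h6 h4.le
        _ = _ := by ring
    have h8 : t0 p x * (rad x : ℝ) ^ (d - 2) ≤
        (tt p (cs 0 i m) 0 x + E) * (rad x : ℝ) ^ (d - 2) :=
      mul_le_mul_of_nonneg_right hs (by positivity)
    nlinarith [mul_nonneg h2.le hA0]

end Pool.Agent.HDE
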