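import Pool.Agent.Lib.HDE.Defs

/-! Blueprint, parts A and B: every block `X` proves `theorem t_x : T_X` in `Lib/HDE/B_X.lean`.
The paper is `/team-store/hd40_PAPER.md` (run on the torus). -/

open Finset

namespace Pool.Agent.HDE

open Pool.Agent.TPC
open Pool.Agent.HD (rad tauT chiT)

/-- the lower Simon-Lieb inequality -/
def St_SLM : Prop := ∀ (d M : ℕ) [NeZero M], 3 ≤ M → ∀ p : ℝ, 0 ≤ p → p ≤ 1 →
  ∀ (L S : Finset (Tor d M)) (EE : Finset (Tor d M × Dir d)) (o x : Tor d M),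
    S ⊆ L → o ∈ S → EE ⊆ ex L S →
    tt p S o x + ∑ b ∈ EE, tt p S o b.1 * (p * tt p L (hd b) x) ≤
      tt p L o x + ∑ v, Er p L S EE o v * tt p L v x

/-- the lower Simon-Lieb inequality with shift and thinning -/
def St_SLK : Prop := ∀ (d M : ℕ) [NeZero M], 3 ≤ M → ∀ p θ : ℝ, 0 ≤ p → p ≤ 1 → 0 ≤ θ → θ ≤ 1 →
  ∀ (u : Dir d) (c : ZMod M) (n K : ℕ) (L S F : Finset (Tor d M)) (o x : Tor d M),
    1 ≤ K → n + K < M → S ⊆ sl u c n → S ⊆ L → o ∈ S →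
    (∀ y ∈ F, y ∈ S ∧ y u.1 = c ∧ ∀ s : ℕ, s ≤ K → y + s • dv M u ∈ L) →
    tt p S o x + θ * p ^ K * ∑ y ∈ F, tt p S o y * tt p L (y + K • dv M u) x ≤
      tt p L o x +
        θ * p ^ K * ∑ v, E2 p 1 L S F id (fun y => y + K • dv M u) o v * tt p L v x +
        θ ^ 2 * ∑ v, E1 p 1 L S F id (fun y => y + K • dv M u) o v * tt p L v x

/-- bridge to the two-point function of `TDefs`, continuity, small `p` -/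
def St_BRG : Prop := ∀ (d M : ℕ) [NeZero M], 3 ≤ M →
  (∀ p : ℝ, 0 ≤ p → p ≤ 1 → (∀ x : Tor d M, tauT d M p x = t0 p x) ∧ chiT d M p = ch d M p) ∧
  (∀ (S : Finset (Tor d M)) (x y : Tor d M), Continuous fun p : ℝ => tt p S x y) ∧
  (∀ p : ℝ, 0 ≤ p → p ≤ 1 → 4 * d * p ≤ 1 → ch d M p ≤ 2) ∧
  ∀ p : ℝ, 0 ≤ p → p ≤ 1 → ∀ (S : Finset (Tor d M)) (EE : Finset (Tor d M × Dir d))
    (o : Tor d M), xm p S EE o ≤ 2 * d * p * ch d M p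

/-- exit masses of faces -/
def St_FACE : Prop := ∀ (d M : ℕ) [NeZero M] (p : ℝ), Hyp d M p →
  (∀ (u : Dir d) (c : ZMod M) (n : ℕ) (S : Finset (Tor d M)) (o : Tor d M), 2 * n < M →
    S ⊆ sl u c n → p * ∑ y ∈ hp u.1 c, tt p S o y ≤ lam) ∧
  (∀ (u : Dir d) (n : ℕ) (o : Tor d M), 4 * n < M →
    p * ∑ y ∈ hp u.1 (o u.1 + sg M u.2 * (n : ZMod M)), tt p (cs o u.1 n) o y ≤ lam / 2) ∧
  (∀ (i j : Fin d) (n : ℕ) (o : Tor d M), i ≠ j → 4 * n < M →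
    xm p (cs o i n ∩ cs o j n) ((ex univ (cs o i n ∩ cs o j n)).filter fun b => b.2.1 = j) o ≤
      lam / 2) ∧
  ∀ (i : Fin d) (n : ℕ) (o : Tor d M), 4 * n < M → xm p (cs o i n) (ex univ (cs o i n)) o ≤ lam

/-- layer masses and susceptibility of a slab -/
def St_LAYER : Prop := ∀ (d M : ℕ) [NeZero M] (p : ℝ), Hyp d M p →
  ∀ (u : Dir d) (c : ZMod M) (n : ℕ) (S : Finset (Tor d M)) (o : Tor d M), 2 * n < M →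
    S ⊆ sl u c n →
    (∀ k : ℕ, p * ∑ y ∈ univ.filter (fun y => dp u c y = k), tt p S o y ≤
      ((min k (dp u c o) : ℕ) + 1) * lam ^ 2) ∧
    p * ∑ y, tt p S o y ≤ ((n : ℝ) + 1) ^ 2 * lam ^ 2

/-- tangential tails inside a slab -/
def St_TAIL : Prop := ∀ (d M : ℕ) [NeZero M] (p : ℝ), Hyp d M p →
  ∀ (u : Dir d) (c : ZMod M) (n : ℕ) (U : Finset (Tor d M)) (j : Fin d) (g : Tor d M → ℝ),
    4 * n < M → U ⊆ sl u c n → j ≠ u.1 → (∀ y, 0 ≤ g y) →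
    (∀ (r : ℕ) (B : ℝ),
      (∀ o ∈ U, ∑ y ∈ univ.filter (fun y => r ≤ ab (y j - o j)), tt p U o y * g y ≤ B) →
      ∀ o ∈ U, ∑ y ∈ univ.filter (fun y => r + n + 1 ≤ ab (y j - o j)), tt p U o y * g y ≤
        lam / 2 * B) ∧
    ∀ B : ℝ, (∀ o ∈ U, ∑ y, tt p U o y * g y ≤ B) → ∀ m : ℕ,
      ∀ o ∈ U, ∑ y ∈ univ.filter (fun y => m * (n + 1) ≤ ab (y j - o j)), tt p U o y * g y ≤
        (lam / 2) ^ m * B

/-- the exit kernel of a centred slab -/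
def St_KER : Prop := ∃ C : ℝ, 0 ≤ C ∧ ∀ (d M : ℕ) [NeZero M] (p : ℝ), Hyp d M p →
  (∀ x : Tor d M, t0 p x ≤ (if x = 0 then 1 else 0) + cv (jk p) (t0 p) x) ∧
  ∀ (i : Fin d) (n : ℕ), 8 * n < M →
    (∀ z : Tor d M, 0 ≤ xk p (cs 0 i n) z ∧ (xk p (cs 0 i n) z ≠ 0 → ab (z i) = n + 1) ∧
      xk p (cs 0 i n) (rf i 0 z) = xk p (cs 0 i n) z) ∧
    ∑ z : Tor d M, xk p (cs 0 i n) z ≤ lam ∧
    (∀ x : Tor d M, t0 p x ≤ tt p (cs 0 i n) 0 x + cv (xk p (cs 0 i n)) (t0 p) x) ∧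
    ∑ y : Tor d M, tt p (cs 0 i n) 0 y ≤ C * ((n : ℝ) + 1) ^ 2 * d ∧
    ∀ j : Fin d, j ≠ i → wn j (xk p (cs (0 : Tor d M) i n)) ≤ C * ((n : ℝ) + 1) ^ 10 ∧
      wn j (tt p (cs (0 : Tor d M) i n) 0) ≤ C * ((n : ℝ) + 1) ^ 10 * d

/-- simple random walk bounds -/
def St_SRW : Prop := ∃ C : ℝ, 0 ≤ C ∧ ∀ (d M : ℕ) [NeZero M] (p : ℝ), 1 ≤ d → 3 ≤ M → 0 ≤ p →
  2 * d * p ≤ lam →
  (∀ n : ℕ, ∑ x : Tor d M, cpr (fun _ => jk p) n x ≤ lam ^ n ∧ ∀ x : Tor d M,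
    0 ≤ cpr (fun _ => jk p) n x ∧ (1 ≤ n → cpr (fun _ => jk p) n x ≤ lam ^ n / (2 * d)) ∧
    (cpr (fun _ => jk p) n x ≠ 0 → ∀ j, ab (x j) ≤ n)) ∧
  ∀ x : Tor d M, cpr (fun _ => jk p) 20 x ≤ C / (d : ℝ) ^ 10

/-- anti-concentration of a product of reflection invariant kernels -/
def St_SPREAD : Prop := ∀ (d M : ℕ) [NeZero M] (T : ℕ) (i : ℕ → Fin d) (l : ℕ → ℕ)
  (K : ℕ → Tor d M → ℝ) (a : ℝ), 0 ≤ a → (∀ s t, s < t → t < T → i s = i t → l s < l t) →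
  (∀ t, t < T → 2 ^ (l t + 2) ≤ M ∧ ∑ z, K t z ≤ a ∧ ∀ z, 0 ≤ K t z ∧
    (K t z ≠ 0 → ab (z (i t)) = 2 ^ l t) ∧ K t (rf (i t) 0 z) = K t z) →
  ∀ x, cpr K T x ≤ (a / 2) ^ T

/-- decomposition of the two-point function into scales -/
def St_PIECES : Prop := ∃ C : ℝ, 0 ≤ C ∧ ∀ (d M : ℕ) [NeZero M] (p : ℝ), 401 ≤ d → Hyp d M p →
  ch d M p ≤ M → ∀ j : Fin d, ∃ (T : ℕ) (Q : ℕ → Tor d M → ℝ),
    (∀ x, t0 p x ≤ rwp p x + ∑ t ∈ range T, Q t x) ∧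
    ∀ t, t < T → wn j (Q t) ≤ C * d * (21 / 20) ^ t ∧
      ∀ x, 0 ≤ Q t x ∧ Q t x ≤ C * (21 / 20) ^ t * (3 / 4) ^ t / (d : ℝ) ^ 4

/-- the weighted square is small -/
def St_SQUARE : Prop := ∃ C : ℝ, 0 ≤ C ∧ ∀ (d M : ℕ) [NeZero M] (p : ℝ), 401 ≤ d → Hyp d M p →
  ch d M p ≤ M → Good C d M p

/-- the error kernels have small mass -/
def St_ERR : Prop := ∀ C₀ : ℝ, 0 ≤ C₀ → ∃ C₁ : ℝ, 0 ≤ C₁ ∧ ∀ (d M : ℕ) [NeZero M] (p : ℝ),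
  Good C₀ d M p →
  (∀ (L S : Finset (Tor d M)) (EE : Finset (Tor d M × Dir d)) (o : Tor d M)
    (Fs : Finset (Dir d × ZMod M)), Fs.card ≤ 4 →
    (∀ f ∈ Fs, ∃ n : ℕ, 2 * n < M ∧ S ⊆ sl f.1 f.2 n) → (∀ b ∈ EE, (b.2, b.1 b.2.1) ∈ Fs) →
    ∑ v, Er p L S EE o v ≤ C₁ / d) ∧
  (∀ (L S : Finset (Tor d M)) (EE : Finset (Tor d M × Dir d)) (o : Tor d M) (u : Dir d)
    (c : ZMod M) (n : ℕ), 2 * n < M → S ⊆ sl u c n → (∀ b ∈ EE, b.2 = u ∧ b.1 u.1 = c) →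
    ∑ v, Er p L S EE o v * (1 + (ab (v u.1 - c) : ℝ)) ≤ C₁ / d) ∧
  ∀ (EE : Finset (Tor d M × Dir d)) (o : Tor d M), ∑ v, Er p univ {o} EE o v ≤ C₁ / d

/-- the improved bound -/
def St_CLOSE : Prop := ∀ C₀ : ℝ, 0 ≤ C₀ → ∃ C₁ : ℝ, ∀ (d M : ℕ) [NeZero M] (p : ℝ),
  Good C₀ d M p → PhiLe d M p (1 + C₁ / d)

/-- the result of the bootstrap -/
def St_GOOD : Prop := ∃ (C : ℝ) (d₀ : ℕ), 0 ≤ C ∧ ∀ (d M : ℕ) [NeZero M] (p : ℝ), d₀ ≤ d →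
  3 ≤ M → 1 ≤ 4 * d * p → p ≤ 1 → ch d M p ≤ M → Good C d M p

def T_SLM : Prop := St_PL1 → St_PL2 → St_SLM
def T_SLK : Prop := St_PL1 → St_PL2 → St_SLK
def T_BRG : Prop := St_BRG
def T_FACE : Prop := St_FACE
def T_LAYER : Prop := St_FACE → St_LAYER
def T_TAIL : Prop := St_FACE → St_TAIL
def T_KER : Prop := St_FACE → St_LAYER → St_TAIL → St_KER
def T_SRW : Prop := St_SRW
def T_SPREAD : Prop := St_SPREAD
def T_PIECES : Prop := St_KER → St_SRW → St_SPREAD → St_PIECES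
def T_SQUARE : Prop := St_SRW → St_PIECES → St_SQUARE
def T_ERR : Prop := St_LAYER → St_ERR
def T_CLOSE : Prop := St_SLM → St_ERR → St_CLOSE
def T_GOOD : Prop := St_BRG → St_SQUARE → St_CLOSE → St_GOOD

theorem good_of (h1 : St_PL1) (h2 : St_PL2) (hSLM : T_SLM) (hBRG : T_BRG) (hFACE : T_FACE)
    (hLAYER : T_LAYER) (hTAIL : T_TAIL) (hKER : T_KER) (hSRW : T_SRW) (hSPREAD : T_SPREAD)
    (hPIECES : T_PIECES) (hSQUARE : T_SQUARE) (hERR : T_ERR) (hCLOSE : T_CLOSE)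
    (hGOOD : T_GOOD) : St_GOOD :=
  hGOOD hBRG (hSQUARE hSRW (hPIECES (hKER hFACE (hLAYER hFACE) (hTAIL hFACE)) hSRW hSPREAD))
    (hCLOSE (hSLM h1 h2) (hERR (hLAYER hFACE)))

end Pool.Agent.HDE
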