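import Pool.Agent.Lib.HDE.BlueB

/-! Blueprint, parts C and D: every block `X` proves `theorem t_x : T_X` in `Lib/HDE/B_X.lean`.
Proof sketches are in `/team-store/hd79_GUIDE.md`. -/

open Finset

namespace Pool.Agent.HDE

open Pool.Agent.TPC
open Pool.Agent.HD (rad tauT chiT)

section defs

variable {d M : ℕ} [NeZero M]

/-- the half-space bound with constant `A` -/
def HalfB (d M : ℕ) [NeZero M] (p A : ℝ) : Prop :=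
  ∀ (u : Dir d) (c : ZMod M) (n : ℕ) (o y : Tor d M), 2 * n < M → y u.1 = c →
    tt p (sl u c n) o y * (rad (o - y) : ℝ) ^ (d - 1) ≤ A

/-- the full-space bound with constant `A` -/
def FullB (d M : ℕ) [NeZero M] (p A : ℝ) : Prop :=
  ∀ x : Tor d M, t0 p x * (rad x : ℝ) ^ (d - 2) ≤ A

/-- everything known after the upper bound -/
structure Crit (C A : ℝ) (d M : ℕ) [NeZero M] (p : ℝ) : Prop extends Good C d M p where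
  chM : ch d M p ≤ M
  half : HalfB d M p A
  full : FullB d M p A

/-- the part of the ball of radius `r` around `o` at height at most `b` in direction `u` -/
def hb (o : Tor d M) (u : Dir d) (b r : ℕ) : Finset (Tor d M) :=
  bl o r ∩ sl u (o u.1 + sg M u.2 * (b : ZMod M)) (b + r)

/-- the exit edges of `hb` other than those through the cut -/
def nx (o : Tor d M) (u : Dir d) (b r : ℕ) : Finset (Tor d M × Dir d) :=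
  (ex univ (hb o u b r)).filter fun e => ¬ (e.2 = u ∧ e.1 u.1 = o u.1 + sg M u.2 * (b : ZMod M))

/-- comparison of the starting points `o` and `o'` inside `L`, seen from outside `bl c (3 r)` -/
def Cmp (p G ε C : ℝ) (L : Finset (Tor d M)) (c : Tor d M) (r : ℕ) (o o' : Tor d M) : Prop :=
  ∃ κ : Tor d M → ℝ, (∀ v, 0 ≤ κ v) ∧ ∑ v, κ v ≤ ε ∧
    (∀ x, 3 * r < rad (x - c) → tt p L o x ≤ G * tt p L o' x + ∑ v, κ v * tt p L v x) ∧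
    ∀ (φ : Tor d M → ℝ) (B : ℝ), (∀ v, 0 ≤ φ v) → 0 ≤ B → (∀ v, φ v ≠ 0 → 4 * r < rad (v - c)) →
      (∀ z, rad (z - c) ≤ 3 * r → ∑ v, t0 p (v - z) ^ 2 * φ v ≤ B) →
      ∑ v, κ v * φ v ≤ C * (r : ℝ) ^ 2 * B

/-- the two-point function of the centred slab, on its face in direction `u` -/
noncomputable def ff (p : ℝ) (u : Dir d) (r : ℕ) (y : Tor d M) : ℝ :=
  if y u.1 = sg M u.2 * (r : ZMod M) then tt p (cs 0 u.1 r) 0 y else 0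

lemma Cmp.trans {p G G' ε ε' C C' : ℝ} {L : Finset (Tor d M)} {c o o' o'' : Tor d M} {r : ℕ}
    (hG : 0 ≤ G) (h : Cmp p G ε C L c r o o') (h' : Cmp p G' ε' C' L c r o' o'') :
    Cmp p (G * G') (ε + G * ε') (C + G * C') L c r o o'' := by
  obtain ⟨κ, a0, a1, a2, a3⟩ := h
  obtain ⟨κ', b0, b1, b2, b3⟩ := h'
  refine ⟨fun v => κ v + G * κ' v, fun v => add_nonneg (a0 v) (mul_nonneg hG (b0 v)), ?_,
    fun x hx => ?_, fun φ B h0 hB h1 h2 => ?_⟩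
  · rw [Finset.sum_add_distrib, ← Finset.mul_sum]
    exact add_le_add a1 (mul_le_mul_of_nonneg_left b1 hG)
  · have e : ∑ v, (κ v + G * κ' v) * tt p L v x =
        ∑ v, κ v * tt p L v x + G * ∑ v, κ' v * tt p L v x := by
      rw [Finset.mul_sum, ← Finset.sum_add_distrib]
      exact Finset.sum_congr rfl fun v _ => by ring
    have := mul_le_mul_of_nonneg_left (b2 x hx) hG
    have := a2 x hx
    rw [e]
    linarith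
  · have e : ∑ v, (κ v + G * κ' v) * φ v = ∑ v, κ v * φ v + G * ∑ v, κ' v * φ v := by
      rw [Finset.mul_sum, ← Finset.sum_add_distrib]
      exact Finset.sum_congr rfl fun v _ => by ring
    have := mul_le_mul_of_nonneg_left (b3 φ B h0 hB h1 h2) hG
    have := a3 φ B h0 hB h1 h2
    rw [e]
    linarith

lemma Cmp.mono {p G G' ε ε' C C' : ℝ} {L : Finset (Tor d M)} {c o o' : Tor d M} {r : ℕ}
    (p0 : 0 ≤ p) (p1 : p ≤ 1) (h : Cmp p G ε C L c r o o') (hG : G ≤ G') (hε : ε ≤ ε')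
    (hC : C ≤ C') : Cmp p G' ε' C' L c r o o' := by
  obtain ⟨κ, a0, a1, a2, a3⟩ := h
  refine ⟨κ, a0, a1.trans hε, fun x hx => (a2 x hx).trans ?_, fun φ B h0 hB h1 h2 =>
    (a3 φ B h0 hB h1 h2).trans ?_⟩
  · have : 0 ≤ tt p L o' x := tau_nonneg (Prob.const p0 p1)
    have := mul_le_mul_of_nonneg_right hG this
    linarith
  · exact mul_le_mul_of_nonneg_right (mul_le_mul_of_nonneg_right hC (by positivity)) hB

lemma Cmp.of_le {p G : ℝ} {L : Finset (Tor d M)} {c o o' : Tor d M} {r : ℕ}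
    (h : ∀ x, tt p L o x ≤ G * tt p L o' x) : Cmp p G 0 0 L c r o o' :=
  ⟨fun _ => 0, fun _ => le_rfl, by simp, fun x _ => by simpa using h x, fun _ _ _ _ _ _ => by simp⟩

end defs

/-! ### Tools -/

/-- counting points of a hyperplane in a ball -/
def St_CARD : Prop := ∀ (d M : ℕ) [NeZero M] (i : Fin d) (v : Tor d M) (k : ℕ),
  (∀ c : ZMod M, (hp i c ∩ bl v k).card ≤ (2 * k + 1) ^ (d - 1)) ∧
  (k < M → (k + 1) ^ (d - 1) ≤ (hp i (v i) ∩ bl v k).card) ∧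
  (univ.filter fun c : ZMod M => ab (c - v i) ≤ k).card ≤ 2 * k + 1

/-- bubble, its tail, the decay of the weighted triangle, the closed square -/
def St_L2 : Prop := ∀ (C₀ : ℝ) (d M : ℕ) [NeZero M] (p : ℝ), Good C₀ d M p →
  0 ≤ C₀ ∧ ∑ v : Tor d M, t0 p v ^ 2 ≤ 2 * C₀ ∧
  (∀ r : ℕ, (r : ℝ) ^ 8 * ∑ v ∈ univ.filter (fun v : Tor d M => r ≤ rad v), t0 p v ^ 2 ≤
    2 * d * C₀) ∧
  (∀ (j : Fin d) (e : Tor d M), (ab (e j) : ℝ) *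
    ∑ a : Tor d M, (1 + (ab (a j) : ℝ)) * t0 p a * cv (t0 p) (t0 p) (e - a) ≤ 2 * C₀) ∧
  (∀ x : Tor d M, (rad x : ℝ) * cv (cv (t0 p) (t0 p)) (t0 p) x ≤ 2 * C₀) ∧
  ∀ j : Fin d, ∑ a : Tor d M, ∑ a' : Tor d M,
    (1 + (ab (a j) : ℝ)) * t0 p a * t0 p a' * cv (t0 p) (t0 p) (a - a') ≤ 2 * C₀

/-- the error kernels of the shifted lower Simon-Lieb inequality -/
def St_EK : Prop := ∀ (d : ℕ) (C₀ : ℝ), ∃ C : ℝ, 0 ≤ C ∧ ∀ (M : ℕ) [NeZero M] (p : ℝ),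
  Good C₀ d M p → ∀ (u : Dir d) (c : ZMod M) (n K : ℕ) (L S F : Finset (Tor d M)) (o : Tor d M),
    2 * n < M → 2 * K < M → S ⊆ sl u c n → (∀ y ∈ F, y u.1 = c) →
    (K : ℝ) * ∑ v, E2 p 1 L S F id (fun y => y + K • dv M u) o v ≤ C ∧
    ∑ v, E1 p 1 L S F id (fun y => y + K • dv M u) o v ≤ C ∧
    (∀ (φ : Tor d M → ℝ) (B : ℝ), (∀ v, 0 ≤ φ v) → 0 ≤ B →
      (∀ y ∈ F, ∑ v, t0 p (v - (y + K • dv M u)) ^ 2 * φ v ≤ B) →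
      ∑ v, E1 p 1 L S F id (fun y => y + K • dv M u) o v * φ v ≤ C * ((n : ℝ) + 1) ^ 2 * B) ∧
    ∀ (v : Tor d M) (a : ℝ), 0 ≤ a → (∀ y ∈ F, t0 p (v - (y + K • dv M u)) ≤ a) →
      E2 p 1 L S F id (fun y => y + K • dv M u) o v ≤ C * a * cv (t0 p) (t0 p) (v - o)

/-- cutting the tangential tails -/
def St_CUT : Prop := ∀ (d : ℕ) (ε : ℝ), 0 < ε → ∃ R : ℕ, 1 ≤ R ∧ ∀ (M : ℕ) [NeZero M] (p : ℝ),
  Hyp d M p → ∀ (u : Dir d) (c : ZMod M) (n : ℕ) (U : Finset (Tor d M)) (g : Tor d M → ℝ) (B : ℝ),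
    4 * n < M → U ⊆ sl u c n → (∀ y, 0 ≤ g y) → (∀ o ∈ U, ∑ y, tt p U o y * g y ≤ B) →
    ∀ o ∈ U, ∑ y ∈ univ.filter (fun y => R * (n + 1) ≤ rad (y - o)), tt p U o y * g y ≤ ε * B

/-- sums of the two-point function over discs and balls -/
def St_SUPS : Prop := ∀ (d : ℕ) (A : ℝ), 3 ≤ d → ∃ C : ℝ, 0 ≤ C ∧ ∀ (M : ℕ) [NeZero M] (p : ℝ),
  0 ≤ p → p ≤ 1 → FullB d M p A → ∀ (v : Tor d M) (k : ℕ),
    (∀ (i : Fin d) (c : ZMod M), ∑ y ∈ hp i c ∩ bl v k, t0 p (v - y) ≤ C * ((k : ℝ) + 1)) ∧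
    ∑ y ∈ bl v k, t0 p (v - y) ≤ C * ((k : ℝ) + 1) ^ 2

/-! ### Part C: the upper bound -/

/-- gambler's ruin in a slab -/
def St_RU1 : Prop := ∀ (d M : ℕ) [NeZero M] (p : ℝ), Hyp d M p →
  ∀ (u : Dir d) (c : ZMod M) (n k : ℕ) (o : Tor d M), 2 * n < M →
    2 ^ k * (dp u c o + 1) ≤ n + 1 →
    p * ∑ y ∈ univ.filter (fun y => dp u c y = n), tt p (sl u c n) o y ≤ lam * (lam / 2) ^ k

/-- from a point close to the cut the other faces are rarely reached -/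
def St_RUIN : Prop := ∀ (d : ℕ) (ε : ℝ), 0 < ε → ∃ A : ℕ, 1 ≤ A ∧ ∀ (M : ℕ) [NeZero M] (p : ℝ),
  Hyp d M p → ∀ (o : Tor d M) (u : Dir d) (b r : ℕ), A * (b + 1) ≤ r → 16 * r ≤ M →
    xm p (hb o u b r) (nx o u b r) o ≤ ε

/-- the mirror step -/
def St_MIR : Prop := ∀ (d : ℕ) (C₀ ε : ℝ), 0 < ε → ∃ (G C : ℝ) (A K : ℕ), 1 ≤ G ∧ 0 ≤ C ∧ 1 ≤ A ∧
  ∀ (M : ℕ) [NeZero M] (p : ℝ), Good C₀ d M p →
    ∀ (u₀ u : Dir d) (c₀ : ZMod M) (n₀ r b : ℕ) (c o : Tor d M), u.1 ≠ u₀.1 → 16 * r ≤ M →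
      rad (o - c) ≤ r → A * (b + 1) ≤ r →
      Cmp p G ε C (sl u₀ c₀ n₀) c r o (o + (2 * b + K + 1) • dv M u)

/-- all small shifts in one tangential direction -/
def St_PAR : Prop := ∀ (d : ℕ) (C₀ ε : ℝ), 0 < ε → ∃ (G C : ℝ) (A : ℕ), 1 ≤ G ∧ 0 ≤ C ∧ 1 ≤ A ∧
  ∀ (M : ℕ) [NeZero M] (p : ℝ), Good C₀ d M p →
    ∀ (u₀ : Dir d) (j : Fin d) (c₀ a : ZMod M) (n₀ r : ℕ) (c o : Tor d M), j ≠ u₀.1 →
      16 * r ≤ M → rad (o - c) ≤ r → A * ab a ≤ r →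
      Cmp p G ε C (sl u₀ c₀ n₀) c r o (o + Pi.single j a)

/-- all small tangential shifts -/
def St_NEST : Prop := ∀ (d : ℕ) (C₀ ε : ℝ), 0 < ε → ∃ (G C : ℝ) (A : ℕ), 1 ≤ G ∧ 0 ≤ C ∧ 1 ≤ A ∧
  ∀ (M : ℕ) [NeZero M] (p : ℝ), Good C₀ d M p →
    ∀ (u₀ : Dir d) (c₀ : ZMod M) (n₀ r : ℕ) (c s : Tor d M), s u₀.1 = 0 → 16 * r ≤ M →
      A * rad s ≤ r → Cmp p G ε C (sl u₀ c₀ n₀) c r c (c + s)

/-- telescoping inside a centred slab -/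
def St_FU1 : Prop := ∀ d : ℕ, 3 ≤ d → ∃ C : ℝ, 0 ≤ C ∧ ∀ (M : ℕ) [NeZero M] (p A : ℝ),
  Hyp d M p → 1 ≤ A → HalfB d M p A → ∀ (i : Fin d) (m : ℕ) (x : Tor d M), 4 * m < M →
    tt p (cs 0 i m) 0 x * (rad x : ℝ) ^ (d - 2) ≤ C * A

/-- from the half space to the full space -/
def St_FULL : Prop := ∀ d : ℕ, 3 ≤ d → ∃ C : ℝ, 1 ≤ C ∧ ∀ (M : ℕ) [NeZero M] (p A : ℝ),
  Hyp d M p → ch d M p ≤ M → 1 ≤ A → HalfB d M p A → FullB d M p (C * A)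

/-- one improvement of the half-space bound -/
def St_HALF : Prop := ∀ (d : ℕ) (C₀ : ℝ), 3 ≤ d → ∃ C : ℝ, 1 ≤ C ∧ ∀ (M : ℕ) [NeZero M] (p A : ℝ),
  Good C₀ d M p → ch d M p ≤ M → 1 ≤ A → HalfB d M p A → HalfB d M p (C + A / 2)

/-- the upper bounds -/
def St_UP : Prop := ∀ (d : ℕ) (C₀ : ℝ), 3 ≤ d → ∃ A : ℝ, 1 ≤ A ∧ ∀ (M : ℕ) [NeZero M] (p : ℝ),
  Good C₀ d M p → ch d M p ≤ M → Crit C₀ A d M p

/-! ### Part D: the lower bound -/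

/-- a face of a centred slab carries mass -/
def St_D0 : Prop := ∀ d : ℕ, ∃ K : ℝ, ∀ (M : ℕ) [NeZero M] (p : ℝ), Hyp d M p →
  ∀ (u : Dir d) (r : ℕ) (o : Tor d M), 4 * r < M → K * ((r : ℝ) + 1) ^ 2 ≤ ch d M p →
    1 / 4 ≤ p * ∑ y ∈ hp u.1 (o u.1 + sg M u.2 * (r : ZMod M)), tt p (cs o u.1 r) o y

/-- layer masses inside a slab -/
def D1P (C₀ : ℝ) (d : ℕ) : Prop := ∃ K : ℝ, ∀ (M : ℕ) [NeZero M] (p : ℝ), Good C₀ d M p →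
  ∀ (u : Dir d) (m h : ℕ), h ≤ m → 8 * m < M → K * ((m : ℝ) + 1) ^ 2 ≤ ch d M p →
    (m : ℝ) / 32 ≤ p * ∑ x ∈ hp u.1 (sg M u.2 * (h : ZMod M)),
      tt p (sl u (sg M u.2 * ((3 * m : ℕ) : ZMod M)) (4 * m)) (0 : Tor d M) x

def St_D1 : Prop := ∀ C₀ : ℝ, 0 ≤ C₀ → ∃ d₀ : ℕ, ∀ d, d₀ ≤ d → D1P C₀ d

/-- layer masses inside a ball -/
def D2P (C₀ : ℝ) (d : ℕ) : Prop := ∃ (K : ℝ) (R : ℕ), ∀ (M : ℕ) [NeZero M] (p : ℝ),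
  Good C₀ d M p → ∀ (i : Fin d) (m : ℕ) (a : ZMod M), ab a ≤ m → 16 * m < M →
    K * ((m : ℝ) + 1) ^ 2 ≤ ch d M p →
    (m : ℝ) / 64 ≤ ∑ x ∈ hp i a ∩ bl (0 : Tor d M) (R * m), t0 p x

def St_D2 : Prop := ∀ (C₀ : ℝ) (d : ℕ), D1P C₀ d → D2P C₀ d

/-- the face function is large in mean square -/
def St_G0 : Prop := ∀ d : ℕ, ∃ c K : ℝ, 0 < c ∧ ∀ (M : ℕ) [NeZero M] (p : ℝ), Hyp d M p →
  ∀ (u : Dir d) (r : ℕ), 1 ≤ r → 8 * r < M → K * ((r : ℝ) + 1) ^ 2 ≤ ch d M p →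
    c ≤ (∑ y : Tor d M, ff p u r y ^ 2) * (r : ℝ) ^ (d - 1)

/-- its autocorrelation is large near the origin -/
def St_GLOW : Prop := ∀ (d : ℕ) (C₀ A : ℝ), ∃ (c K : ℝ) (B : ℕ), 0 < c ∧ 1 ≤ B ∧
  ∀ (M : ℕ) [NeZero M] (p : ℝ), Crit C₀ A d M p → ∀ (u : Dir d) (r : ℕ) (s : Tor d M), 1 ≤ r →
    8 * r < M → K * ((r : ℝ) + 1) ^ 2 ≤ ch d M p → s u.1 = 0 → B * rad s ≤ r →
    c ≤ cv (ff p u r) (ff p (opp u) r) s * (r : ℝ) ^ (d - 1)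

/-- the plateau -/
def PlatP (C₀ A : ℝ) (d : ℕ) : Prop := ∃ (c K : ℝ) (B : ℕ), 0 < c ∧ 4 ≤ B ∧
  ∀ (M : ℕ) [NeZero M] (p : ℝ), Crit C₀ A d M p → ∀ (u : Dir d) (m : ℕ) (x : Tor d M), 1 ≤ m →
    rad x ≤ m → K * ((m : ℝ) + 1) ^ 2 ≤ ch d M p →
    c ≤ cv (cv (ff p u (B * m)) (ff p (opp u) (B * m))) (t0 p) x * (m : ℝ) ^ (d - 2)

def St_PLAT : Prop := ∀ (d : ℕ) (C₀ A : ℝ), 3 ≤ d → D2P C₀ d → PlatP C₀ A d

/-- removing one face function -/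
def St_DSC : Prop := ∀ (d : ℕ) (C₀ ε : ℝ), 0 < ε → ∃ (G C : ℝ) (K : ℕ), 1 ≤ G ∧ 0 ≤ C ∧
  ∀ (M : ℕ) [NeZero M] (p : ℝ), Good C₀ d M p → ∀ (u : Dir d) (r : ℕ), 4 * r + 4 * K < M →
    ∃ κ : Tor d M → ℝ, (∀ v, 0 ≤ κ v) ∧ ∑ v, κ v ≤ ε ∧
      (∀ x, cv (ff p u r) (t0 p) (x - K • dv M u) ≤ G * t0 p x + cv κ (t0 p) x) ∧
      ∀ (φ : Tor d M → ℝ) (a : ℝ), (∀ v, 0 ≤ φ v) → 0 ≤ a →
        (∀ v z, φ v ≠ 0 → z u.1 = sg M u.2 * ((r + K : ℕ) : ZMod M) → t0 p (v - z) ≤ a) →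
        ∑ v, κ v * φ v ≤
          C * (a * ∑ v, cv (t0 p) (t0 p) v * φ v + ((r : ℝ) + 1) ^ 2 * a ^ 2 * ∑ v, φ v)

/-- uniform bound for the face function convolved with the two-point function -/
def St_FSUP : Prop := ∀ (d : ℕ) (C₀ A : ℝ), 3 ≤ d → ∃ C : ℝ, 0 ≤ C ∧
  ∀ (M : ℕ) [NeZero M] (p : ℝ), Crit C₀ A d M p → ∀ (u : Dir d) (r : ℕ) (v : Tor d M), 1 ≤ r →
    4 * r < M → cv (ff p u r) (t0 p) v * (r : ℝ) ^ (d - 2) ≤ C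

/-- first descent -/
def St_D4A : Prop := ∀ (d : ℕ) (C₀ A c : ℝ), 3 ≤ d → 0 < c → ∃ (c' : ℝ) (K : ℕ), 0 < c' ∧
  ∀ (M : ℕ) [NeZero M] (p : ℝ), Crit C₀ A d M p → ∀ (u : Dir d) (m r : ℕ) (x : Tor d M), 1 ≤ m →
    m ≤ r → 4 * r + 4 * K < M →
    c ≤ cv (cv (ff p u r) (ff p (opp u) r)) (t0 p) (x - K • dv M (opp u)) * (m : ℝ) ^ (d - 2) →
    c' ≤ cv (ff p u r) (t0 p) x * (m : ℝ) ^ (d - 2)

/-- second descent -/
def St_D4B : Prop := ∀ (d B : ℕ) (C₀ A c : ℝ), 7 ≤ d → 4 ≤ B → 0 < c →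
  ∃ (c' : ℝ) (K m₀ : ℕ), 0 < c' ∧ ∀ (M : ℕ) [NeZero M] (p : ℝ), Crit C₀ A d M p →
    ∀ (u : Dir d) (m : ℕ) (x : Tor d M), m₀ ≤ m → 4 * (B * m) + 4 * K < M → rad x ≤ m →
      m ≤ 2 * rad x → c ≤ cv (ff p u (B * m)) (t0 p) (x - K • dv M u) * (m : ℝ) ^ (d - 2) →
      c' ≤ t0 p x * (m : ℝ) ^ (d - 2)

/-- the lower bound -/
def St_LOW : Prop := ∀ (d : ℕ) (C₀ A : ℝ), 7 ≤ d → PlatP C₀ A d → ∃ (c K : ℝ) (n₀ : ℕ), 0 < c ∧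
  ∀ (M : ℕ) [NeZero M] (p : ℝ), Crit C₀ A d M p → ∀ x : Tor d M, n₀ ≤ rad x →
    K * (rad x : ℝ) ^ 2 ≤ ch d M p → c ≤ t0 p x * (rad x : ℝ) ^ (d - 2)

/-- the two-point bounds on the torus in high dimension -/
def St_END : Prop := ∃ d₀ : ℕ, ∀ d, d₀ ≤ d → TorusBound1 d

def T_CARD : Prop := St_CARD
def T_L2 : Prop := St_L2
def T_EK : Prop := St_FACE → St_LAYER → St_L2 → St_EK
def T_CUT : Prop := St_TAIL → St_CUT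
def T_SUPS : Prop := St_CARD → St_SUPS
def T_RU1 : Prop := St_FACE → St_RU1
def T_RUIN : Prop := St_FACE → St_TAIL → St_RU1 → St_RUIN
def T_MIR : Prop := St_SLK → St_EK → St_RUIN → St_MIR
def T_PAR : Prop := St_MIR → St_PAR
def T_NEST : Prop := St_PAR → St_NEST
def T_FU1 : Prop := St_FACE → St_FU1
def T_FULL : Prop := St_FU1 → St_FULL
def T_HALF : Prop := St_FACE → St_CARD → St_L2 → St_NEST → St_FULL → St_HALF
def T_UP : Prop := St_FULL → St_HALF → St_UP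
def T_D0 : Prop := St_LAYER → St_D0
def T_D1 : Prop := St_SLM → St_LAYER → St_ERR → St_D0 → St_D1
def T_D2 : Prop := St_LAYER → St_CUT → St_D2
def T_G0 : Prop := St_FACE → St_CARD → St_CUT → St_D0 → St_G0
def T_GLOW : Prop := St_FACE → St_NEST → St_G0 → St_GLOW
def T_PLAT : Prop := St_GLOW → St_PLAT
def T_DSC : Prop := St_SLK → St_EK → St_DSC
def T_FSUP : Prop := St_FACE → St_SUPS → St_FSUP
def T_D4A : Prop := St_DSC → St_FSUP → St_D4A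
def T_D4B : Prop := St_L2 → St_SUPS → St_DSC → St_D4B
def T_LOW : Prop := St_D4A → St_D4B → St_LOW
def T_END : Prop := St_BRG → St_GOOD → St_UP → St_D1 → St_D2 → St_PLAT → St_LOW → St_END

theorem end_of (hSLM : St_SLM) (hSLK : St_SLK) (hBRG : St_BRG) (hFACE : St_FACE)
    (hLAYER : St_LAYER) (hTAIL : St_TAIL) (hERR : St_ERR) (hGOOD : St_GOOD)
    (CARD : T_CARD) (L2 : T_L2) (EK : T_EK) (CUT : T_CUT) (SUPS : T_SUPS) (RU1 : T_RU1)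
    (RUIN : T_RUIN) (MIR : T_MIR) (PAR : T_PAR) (NEST : T_NEST) (FU1 : T_FU1) (FULL : T_FULL)
    (HALF : T_HALF) (UP : T_UP) (D0 : T_D0) (D1 : T_D1) (D2 : T_D2) (G0 : T_G0) (GLOW : T_GLOW)
    (PLAT : T_PLAT) (DSC : T_DSC) (FSUP : T_FSUP) (D4A : T_D4A) (D4B : T_D4B) (LOW : T_LOW)
    (END : T_END) : St_END :=
  have ek := EK hFACE hLAYER L2
  have nest := NEST (PAR (MIR hSLK ek (RUIN hFACE hTAIL (RU1 hFACE))))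
  have full := FULL (FU1 hFACE)
  have d0 := D0 hLAYER
  have cut := CUT hTAIL
  have dsc := DSC hSLK ek
  END hBRG hGOOD (UP full (HALF hFACE CARD L2 nest full)) (D1 hSLM hLAYER hERR d0)
    (D2 hLAYER cut) (PLAT (GLOW hFACE nest (G0 hFACE CARD cut d0)))
    (LOW (D4A dsc (FSUP hFACE (SUPS CARD))) (D4B L2 (SUPS CARD) dsc))

end Pool.Agent.HDE
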