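import Pool.Agent.Lib.HDE.Defs
import Pool.Agent.Lib.HD.Conv

/-! From the torus bounds to the lattice. -/

namespace Pool.Agent.HDE

theorem highDim_of_torus1 {d : ℕ} (hd : 3 ≤ d) (h : TorusBound1 d) : TPC.HighDim d := by
  obtain ⟨c, C, K, hc, H⟩ := h
  exact (HD.highDim_conv (by omega)).1
    (HD.bridge_core hd hc (C := C) (K := K) fun M _ _ h2 => H M h2)

end Pool.Agent.HDE
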