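import Pool.Agent.Lib.TPC.BlueA
import Pool.Agent.Lib.HD.TDefs

/-! Definitions for the elementary proof of the two-point bounds in high dimension. -/

open Finset

namespace Pool.Agent.HDE

open Pool.Agent.TPC
open Pool.Agent.HD (rad tauT chiT)

/-- signed coordinate directions -/
abbrev Dir (d : ℕ) : Type := Fin d × Bool

variable {d M : ℕ}

/-- the sign `+1` or `-1` -/
def sg (M : ℕ) (b : Bool) : ZMod M := if b then 1 else -1

/-- the unit vector of a direction -/
def dv (M : ℕ) (u : Dir d) : Tor d M := Pi.single u.1 (sg M u.2)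

/-- the opposite direction -/
def opp (u : Dir d) : Dir d := (u.1, !u.2)

/-- distance to zero on the cycle -/
def ab (a : ZMod M) : ℕ := a.valMinAbs.natAbs

/-- number of steps in direction `u` from `x` to the hyperplane `x (u.1) = c` -/
def dp (u : Dir d) (c : ZMod M) (x : Tor d M) : ℕ := (sg M u.2 * (c - x u.1)).val

/-- head of a directed edge -/
def hd (b : Tor d M × Dir d) : Tor d M := b.1 + dv M b.2

/-- reflection `x i ↦ c - x i` -/
def rf (i : Fin d) (c : ZMod M) (x : Tor d M) : Tor d M := Function.update x i (c - x i)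

variable [NeZero M]

/-- the slab of the points at depth at most `n` below the face `x (u.1) = c` -/
def sl (u : Dir d) (c : ZMod M) (n : ℕ) : Finset (Tor d M) := univ.filter fun x => dp u c x ≤ n

/-- the slab centred at `o` -/
def cs (o : Tor d M) (i : Fin d) (n : ℕ) : Finset (Tor d M) :=
  univ.filter fun x => ab (x i - o i) ≤ n

/-- the hyperplane `x i = c` -/
def hp (i : Fin d) (c : ZMod M) : Finset (Tor d M) := univ.filter fun x => x i = c

/-- sup norm ball -/
def bl (o : Tor d M) (r : ℕ) : Finset (Tor d M) := univ.filter fun x => rad (x - o) ≤ r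

/-- directed edges from `S` to `L \ S` -/
def ex (L S : Finset (Tor d M)) : Finset (Tor d M × Dir d) :=
  univ.filter fun b => b.1 ∈ S ∧ hd b ∈ L ∧ hd b ∉ S

/-- mass of a family of exit edges seen from `o` -/
noncomputable def xm (p : ℝ) (S : Finset (Tor d M)) (EE : Finset (Tor d M × Dir d))
    (o : Tor d M) : ℝ := p * ∑ b ∈ EE, tt p S o b.1

/-- exit kernel of `S` seen from the origin -/
noncomputable def xk (p : ℝ) (S : Finset (Tor d M)) (z : Tor d M) : ℝ :=
  xm p S ((ex univ S).filter fun b => hd b = z) 0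

/-- the two-point function of the whole torus -/
noncomputable def t0 (p : ℝ) (x : Tor d M) : ℝ := tt p univ 0 x

/-- the susceptibility -/
noncomputable def ch (d M : ℕ) [NeZero M] (p : ℝ) : ℝ := ∑ x : Tor d M, t0 p x

/-- `p` times the indicator of the neighbours of the origin -/
noncomputable def jk (p : ℝ) (z : Tor d M) : ℝ := ∑ u : Dir d, if dv M u = z then p else 0

/-- convolution -/
noncomputable def cv (f g : Tor d M → ℝ) (x : Tor d M) : ℝ := ∑ y, f y * g (x - y)

/-- convolution product of `K 0, ..., K (t-1)` -/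
noncomputable def cpr (K : ℕ → Tor d M → ℝ) : ℕ → Tor d M → ℝ
  | 0 => fun x => if x = 0 then 1 else 0
  | t + 1 => cv (cpr K t) (K t)

/-- the random walk part -/
noncomputable def rwp (p : ℝ) (x : Tor d M) : ℝ := ∑ n ∈ range 20, cpr (fun _ => jk p) n x

/-- weighted norm -/
noncomputable def wn (j : Fin d) (f : Tor d M → ℝ) : ℝ := ∑ x, (1 + (ab (x j) : ℝ)) ^ 8 * f x

/-- weighted square diagram -/
noncomputable def Wq (p : ℝ) (j : Fin d) (e : Tor d M) : ℝ :=
  ∑ x, ∑ y, ∑ z, (1 + (ab (x j) : ℝ) + ab (y j) + ab (z j) + ab ((e - x - y - z) j)) ^ 8 *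
    (t0 p x * t0 p y * t0 p z * t0 p (e - x - y - z))

/-- first error kernel (pairs); `f` = feet in `S`, `g` = heads in `L` -/
noncomputable def E1 {ι : Type} [DecidableEq ι] (p q : ℝ) (L S : Finset (Tor d M)) (F : Finset ι)
    (f g : ι → Tor d M) (o v : Tor d M) : ℝ :=
  ∑ w, tt p S o w * ∑ b ∈ F, ∑ b' ∈ F.erase b,
    tt p S w (f b) * (q * tt p L (g b) v) * (tt p S w (f b') * (q * tt p L (g b') v))

/-- second error kernel (return to the cluster) -/
noncomputable def E2 {ι : Type} (p q : ℝ) (L S : Finset (Tor d M)) (F : Finset ι)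
    (f g : ι → Tor d M) (o v : Tor d M) : ℝ :=
  ∑ w, tt p S o w * tt p S w v * ∑ b ∈ F, tt p S w (f b) * (q * tt p L (g b) v)

/-- the error kernel of a family of exit edges -/
noncomputable def Er (p : ℝ) (L S : Finset (Tor d M)) (EE : Finset (Tor d M × Dir d))
    (o v : Tor d M) : ℝ := E1 p p L S EE Prod.fst hd o v + E2 p p L S EE Prod.fst hd o v

/-- intersection of two slabs of width below `M / 2` -/
def Prism (S : Finset (Tor d M)) : Prop :=
  ∃ (u u' : Dir d) (c c' : ZMod M) (n n' : ℕ), 2 * n < M ∧ 2 * n' < M ∧ S = sl u c n ∩ sl u' c' n'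

/-- the bootstrap constant -/
noncomputable def lam : ℝ := 101 / 100

/-- all exit masses are at most `a` -/
def PhiLe (d M : ℕ) [NeZero M] (p a : ℝ) : Prop :=
  2 * d * p ≤ a ∧ ∀ S : Finset (Tor d M), Prism S → ∀ o ∈ S, xm p S (ex univ S) o ≤ a

/-- the bootstrap hypothesis -/
structure Hyp (d M : ℕ) [NeZero M] (p : ℝ) : Prop where
  hM : 3 ≤ M
  lo : 1 ≤ 4 * d * p
  p1 : p ≤ 1
  phi : PhiLe d M p lam

/-- the bootstrap hypothesis and the bound for the weighted square -/
structure Good (C : ℝ) (d M : ℕ) [NeZero M] (p : ℝ) : Prop extends Hyp d M p where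
  sq : ∀ (j : Fin d) (e : Tor d M),
    Wq p j e ≤ C * ((if e = 0 then 1 else 0) + (1 + (ab (e j) : ℝ)) ^ 8 / d)

/-- the finite volume two-point bounds, for `chi ≤ M` -/
def TorusBound1 (d : ℕ) : Prop :=
  ∃ c C K : ℝ, 0 < c ∧ ∀ (M : ℕ) [NeZero M], 3 ≤ M → ∀ p : ℝ, 0 ≤ p → p ≤ 1 →
    chiT d M p ≤ (M : ℝ) → d * p ≤ 1 ∧ (K ≤ chiT d M p → ∀ x : Tor d M, x ≠ 0 →
      tauT d M p x * (rad x : ℝ) ^ (d - 2) ≤ C ∧
      (K * (rad x : ℝ) ^ 2 ≤ chiT d M p →
        c - C / (rad x : ℝ) ≤ tauT d M p x * (rad x : ℝ) ^ (d - 2)))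

end Pool.Agent.HDE
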